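import Mathlib

/-!
# MP_b197b4_nt, project LIT, leaf Alg6: functions of polynomials on the triangle

Mathlib only.
-/

set_option autoImplicit false

namespace Pool.Agent.Lib.MP_b197b4_ntZ

open Polynomial

/-- The restriction of a polynomial in `t_1 = X 0`, `t_2 = X 1` (with `t_0 = 1 - t_1 - t_2`) to the edge `t_i = 0` of the
triangle, as a polynomial in the second coordinate of the edge. -/
noncomputable def edge {K : Type} [Field K] (i : Fin 3) :
    MvPolynomial (Fin 2) K →ₐ[K] K[X] :=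
  MvPolynomial.aeval (if i = 0 then ![1 - X, X] else if i = 1 then ![0, X] else ![X, 0])

private theorem Alg6_ev {K : Type} [Field K] (v : Fin 2 → K) (B : K[X]) :
    MvPolynomial.eval v (aeval (MvPolynomial.X 1 : MvPolynomial (Fin 2) K) B) = B.eval (v 1) := by
  rw [← MvPolynomial.aeval_eq_eval, ← aeval_algHom_apply, MvPolynomial.aeval_X, coe_aeval_eq_eval]

/-- a polynomial which vanishes at `0` and at `1` -/
private theorem Alg6_dvd {K : Type} [Field K] {P : K[X]} (h0 : P.eval 0 = 0) (h1 : P.eval 1 = 0) :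
    ∃ E : K[X], P = (1 - X) * X * E := by
  obtain ⟨Q, hQ⟩ : X ∣ P := by
    rw [X_dvd_iff, coeff_zero_eq_eval_zero]
    exact h0
  have h2 : Q.eval 1 = 0 := by
    rw [hQ, eval_mul, eval_X, one_mul] at h1
    exact h1
  obtain ⟨E, hE⟩ := dvd_iff_isRoot.2 (IsRoot.def.2 h2)
  refine ⟨-E, ?_⟩
  rw [hQ, hE, C_1]
  ring

/-- the polynomials with the same values at `0` and `1` -/
private theorem Alg6_one {K : Type} [Field K] (Φ : K[X] → ℚ) (h0 : ∀ c : K, c ≠ 0 → Φ (C c) = 0)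
    (hE : ∀ G : MvPolynomial (Fin 2) K, MvPolynomial.eval ![0, 0] G ≠ 0 →
      MvPolynomial.eval ![1, 0] G ≠ 0 → MvPolynomial.eval ![0, 1] G ≠ 0 →
      Φ (edge 0 G) - Φ (edge 1 G) + Φ (edge 2 G) = 0)
    (P Q : K[X]) (e0 : P.eval 0 = Q.eval 0) (e1 : P.eval 1 = Q.eval 1) (n0 : Q.eval 0 ≠ 0)
    (n1 : Q.eval 1 ≠ 0) : Φ P = Φ Q := by
  obtain ⟨E, hPQ⟩ := Alg6_dvd (P := P - Q) (by rw [eval_sub, e0, sub_self]) (by rw [eval_sub, e1, sub_self])
  obtain ⟨G, hG⟩ : ∃ G : MvPolynomial (Fin 2) K, G = aeval (MvPolynomial.X 1) Q +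
      MvPolynomial.X 0 * MvPolynomial.X 1 * aeval (MvPolynomial.X 1) E := ⟨_, rfl⟩
  have g0 : edge 0 G = P := by
    have a0 : edge (K := K) 0 (MvPolynomial.X 0) = 1 - X := by
      unfold edge
      rw [MvPolynomial.aeval_X, if_pos rfl]
      rfl
    have a1 : edge (K := K) 0 (MvPolynomial.X 1) = X := by
      unfold edge
      rw [MvPolynomial.aeval_X, if_pos rfl]
      rfl
    rw [hG, map_add, map_mul, map_mul, ← aeval_algHom_apply, ← aeval_algHom_apply, a0, a1, aeval_X_left_apply,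
      aeval_X_left_apply, ← hPQ]
    ring
  have g1 : edge 1 G = Q := by
    have a0 : edge (K := K) 1 (MvPolynomial.X 0) = 0 := by
      unfold edge
      rw [MvPolynomial.aeval_X, if_neg (by decide), if_pos rfl]
      rfl
    have a1 : edge (K := K) 1 (MvPolynomial.X 1) = X := by
      unfold edge
      rw [MvPolynomial.aeval_X, if_neg (by decide), if_pos rfl]
      rfl
    rw [hG, map_add, map_mul, map_mul, ← aeval_algHom_apply, ← aeval_algHom_apply, a0, a1, aeval_X_left_apply,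
      aeval_X_left_apply, zero_mul, zero_mul, add_zero]
  have g2 : edge 2 G = C (Q.eval 0) := by
    have a1 : edge (K := K) 2 (MvPolynomial.X 1) = 0 := by
      unfold edge
      rw [MvPolynomial.aeval_X, if_neg (by decide), if_neg (by decide)]
      rfl
    rw [hG, map_add, map_mul, map_mul, ← aeval_algHom_apply, ← aeval_algHom_apply, a1, mul_zero, zero_mul,
      add_zero, ← coeff_zero_eq_aeval_zero', coeff_zero_eq_eval_zero]
    rfl
  have v : ∀ w : Fin 2 → K, MvPolynomial.eval w G = Q.eval (w 1) + w 0 * w 1 * E.eval (w 1) := by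
    intro w
    rw [hG, map_add, map_mul, map_mul, Alg6_ev, Alg6_ev, MvPolynomial.eval_X, MvPolynomial.eval_X]
  have v00 : MvPolynomial.eval ![0, 0] G ≠ 0 := by
    rw [v]
    show Q.eval 0 + 0 * 0 * E.eval 0 ≠ 0
    rw [zero_mul, zero_mul, add_zero]
    exact n0
  have v10 : MvPolynomial.eval ![1, 0] G ≠ 0 := by
    rw [v]
    show Q.eval 0 + 1 * 0 * E.eval 0 ≠ 0
    rw [mul_zero, zero_mul, add_zero]
    exact n0
  have v01 : MvPolynomial.eval ![0, 1] G ≠ 0 := by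
    rw [v]
    show Q.eval 1 + 0 * 1 * E.eval 1 ≠ 0
    rw [zero_mul, zero_mul, add_zero]
    exact n1
  have h := hE G v00 v10 v01
  rw [g0, g1, g2, h0 _ n0, add_zero] at h
  exact sub_eq_zero.1 h

private theorem Alg6_l0 {K : Type} [Field K] (f : K) : (C f + C (1 - f) * X : K[X]).eval 0 = f := by
  rw [eval_add, eval_mul, eval_C, eval_C, eval_X, mul_zero, add_zero]

private theorem Alg6_l1 {K : Type} [Field K] (f : K) : (C f + C (1 - f) * X : K[X]).eval 1 = 1 := by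
  rw [eval_add, eval_mul, eval_C, eval_C, eval_X, mul_one, add_sub_cancel]

/-- **Alg6**. PROOF. Put `l f = Φ (f + (1 - f) X)` for `f ≠ 0` (a polynomial with the values `f` at `0` and `1` at `1`).
(1) If `A, B ∈ K[X]`, `A(0) = B(0) ≠ 0`, `A(1) = B(1) ≠ 0`, then `Φ A = Φ B`: `A - B = X (1 - X) E`; let
`G = B(t_2) + t_1 t_2 E(t_2)`; `edge 0 G = B + (1 - X) X E = A`, `edge 1 G = B`, `edge 2 G = B(0)`, a nonzero constant; the values
of `G` at `(0,0), (1,0), (0,1)` are `B(0), B(0), B(1)`. By `hE` and `h0`, `Φ A - Φ B + 0 = 0`.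
(2) For `g` with `a = g(0) ≠ 0`, `b = g(1) ≠ 0`: by (1) with `B = b (f + (1 - f) X)`, `f = a / b`: `Φ g = Φ (C b) + l f = l (a / b)`.
(3) `l (c d) = l c + l d`: apply (2) to the product of the two linear polynomials, and `hm`. -/
theorem alg6 {K : Type} [Field K] (Φ : K[X] → ℚ)
    (hm : ∀ g h : K[X], g.eval 0 ≠ 0 → g.eval 1 ≠ 0 → h.eval 0 ≠ 0 → h.eval 1 ≠ 0 →
      Φ (g * h) = Φ g + Φ h)
    (h0 : ∀ c : K, c ≠ 0 → Φ (C c) = 0)
    (hE : ∀ G : MvPolynomial (Fin 2) K, MvPolynomial.eval ![0, 0] G ≠ 0 →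
      MvPolynomial.eval ![1, 0] G ≠ 0 → MvPolynomial.eval ![0, 1] G ≠ 0 →
      Φ (edge 0 G) - Φ (edge 1 G) + Φ (edge 2 G) = 0) :
    ∃ l : K → ℚ, (∀ c d : K, c ≠ 0 → d ≠ 0 → l (c * d) = l c + l d) ∧
      ∀ g : K[X], g.eval 0 ≠ 0 → g.eval 1 ≠ 0 → Φ g = l (g.eval 0 / g.eval 1) := by
  have key : ∀ g : K[X], g.eval 0 ≠ 0 → g.eval 1 ≠ 0 →
      Φ g = Φ (C (g.eval 0 / g.eval 1) + C (1 - g.eval 0 / g.eval 1) * X) := by
    intro g n0 n1
    have n2 : g.eval 0 / g.eval 1 ≠ 0 := div_ne_zero n0 n1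
    have e0 : (C (g.eval 1) * (C (g.eval 0 / g.eval 1) + C (1 - g.eval 0 / g.eval 1) * X)).eval 0 = g.eval 0 := by
      rw [eval_mul, Alg6_l0, eval_C, mul_div_cancel₀ _ n1]
    have e1 : (C (g.eval 1) * (C (g.eval 0 / g.eval 1) + C (1 - g.eval 0 / g.eval 1) * X)).eval 1 = g.eval 1 := by
      rw [eval_mul, Alg6_l1, eval_C, mul_one]
    rw [Alg6_one Φ h0 hE g _ e0.symm e1.symm (by rw [e0]; exact n0) (by rw [e1]; exact n1)]
    rw [hm _ _ (by rw [eval_C]; exact n1) (by rw [eval_C]; exact n1) (by rw [Alg6_l0]; exact n2)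
      (by rw [Alg6_l1]; exact one_ne_zero), h0 _ n1, zero_add]
  refine ⟨fun f => Φ (C f + C (1 - f) * X), fun c d hc hd => ?_, key⟩
  have p0 : ((C c + C (1 - c) * X) * (C d + C (1 - d) * X) : K[X]).eval 0 = c * d := by
    rw [eval_mul, Alg6_l0, Alg6_l0]
  have p1 : ((C c + C (1 - c) * X) * (C d + C (1 - d) * X) : K[X]).eval 1 = 1 := by
    rw [eval_mul, Alg6_l1, Alg6_l1, mul_one]
  have h1 := key ((C c + C (1 - c) * X) * (C d + C (1 - d) * X)) (by rw [p0]; exact mul_ne_zero hc hd)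
    (by rw [p1]; exact one_ne_zero)
  rw [p0, p1, div_one] at h1
  have h2 := hm (C c + C (1 - c) * X) (C d + C (1 - d) * X) (by rw [Alg6_l0]; exact hc)
    (by rw [Alg6_l1]; exact one_ne_zero) (by rw [Alg6_l0]; exact hd) (by rw [Alg6_l1]; exact one_ne_zero)
  exact h1.symm.trans h2

end Pool.Agent.Lib.MP_b197b4_ntZ
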