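import Mathlib
import Pool.Agent.Lib.MP_b197b4_ntK.Defs2

/-!
# MP_b197b4_nt, project LIT, leaf CA1: values of the polynomials of a prime ideal at two points
-/

set_option autoImplicit false

namespace Pool.Agent.Lib.MP_b197b4_ntZ

open Polynomial Pool.Agent.Lib.MP_b197b4_ntK

/-- The values at `c` of the polynomials with coefficients in `R` which are divisible by `w` over
the fraction field `K`. -/
noncomputable def valIdeal {K : Type} [Field K] (R : Subring K) (w : K[X]) (c : R) : Ideal R :=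
  ((Ideal.span {w}).comap (mapRingHom R.subtype)).map (evalRingHom c)

private theorem CA1_step {R V1 V2 V3 : Type} [CommRing R] [AddCommGroup V1] [Module R V1]
    [AddCommGroup V2] [Module R V2] [AddCommGroup V3] [Module R V3] (L1 : Submodule R V1)
    (L2 : Submodule R V2) (L3 : Submodule R V3) (f : V1 →ₗ[R] V2) (g : V2 →ₗ[R] V3)
    (hf : ∀ x, f x ∈ L2 ↔ x ∈ L1) (hg : Function.Surjective g)
    (hex : ∀ x, g x = 0 ↔ ∃ y, f y = x) (hL : ∀ z, z ∈ L3 ↔ ∃ x ∈ L2, g x = z) :
    Module.length R (V2 ⧸ L2) = Module.length R (V1 ⧸ L1) + Module.length R (V3 ⧸ L3) := by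
  refine Module.length_eq_add_of_exact (L1.mapQ L2 f fun x hx => (hf x).mpr hx)
    (L2.mapQ L3 g fun x hx => (hL _).mpr ⟨x, hx, rfl⟩) ?_ ?_ ?_
  · rw [← LinearMap.ker_eq_bot, LinearMap.ker_eq_bot']
    intro x hx
    obtain ⟨y, rfl⟩ := Submodule.Quotient.mk_surjective _ x
    rw [Submodule.mapQ_apply, Submodule.Quotient.mk_eq_zero] at hx
    rw [Submodule.Quotient.mk_eq_zero]
    exact (hf y).mp hx
  · intro z
    obtain ⟨y, rfl⟩ := Submodule.Quotient.mk_surjective _ z
    obtain ⟨x, rfl⟩ := hg y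
    exact ⟨Submodule.Quotient.mk x, Submodule.mapQ_apply _ _ _ _⟩
  · intro q
    obtain ⟨x, rfl⟩ := Submodule.Quotient.mk_surjective _ q
    rw [Submodule.mapQ_apply, Submodule.Quotient.mk_eq_zero, hL]
    constructor
    · rintro ⟨y, hy, hxy⟩
      have h1 : g (x - y) = 0 := by rw [map_sub, hxy, sub_self]
      obtain ⟨z, hz⟩ := (hex _).mp h1
      refine ⟨Submodule.Quotient.mk z, ?_⟩
      rw [Submodule.mapQ_apply, hz, Submodule.Quotient.eq]
      have h2 : x - y - x = -y := by abel
      rw [h2]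
      exact L2.neg_mem hy
    · rintro ⟨z, hz⟩
      obtain ⟨z, rfl⟩ := Submodule.Quotient.mk_surjective _ z
      rw [Submodule.mapQ_apply, Submodule.Quotient.eq] at hz
      refine ⟨x - f z, ?_, ?_⟩
      · have h3 := L2.neg_mem hz
        rwa [neg_sub] at h3
      · rw [map_sub, (hex (f z)).mpr ⟨z, rfl⟩, sub_zero]

private theorem CA1_quot {R : Type} [CommRing R] (I J : Ideal R) (h : I ≤ J) :
    Module.length R (R ⧸ I) =
      Module.length R (J ⧸ (Submodule.comap (Submodule.subtype J) I)) +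
        Module.length R (R ⧸ J) := by
  have h1 := CA1_step (Submodule.comap (Submodule.subtype J) I) I (⊥ : Submodule R (R ⧸ J))
    (Submodule.subtype J) (Submodule.mkQ J) (fun x => Iff.rfl) (Submodule.mkQ_surjective J)
    (fun x => by
      rw [Submodule.mkQ_apply, Submodule.Quotient.mk_eq_zero]
      exact ⟨fun hx => ⟨⟨x, hx⟩, rfl⟩, fun ⟨y, hy⟩ => hy ▸ y.2⟩)
    (fun z => by
      rw [Submodule.mem_bot]
      constructor
      · rintro rfl
        exact ⟨0, I.zero_mem, map_zero _⟩
      · rintro ⟨x, hx, rfl⟩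
        rw [Submodule.mkQ_apply, Submodule.Quotient.mk_eq_zero]
        exact h hx)
  rw [h1, (Submodule.quotEquivOfEqBot (⊥ : Submodule R (R ⧸ J)) rfl).length_eq]

section

variable {R : Type} [CommRing R] [IsDomain R]

private noncomputable def CA1_M (Q : Ideal R[X]) (N : ℕ) : Submodule R R[X] :=
  Submodule.restrictScalars R Q ⊓ Polynomial.degreeLT R N

private noncomputable def CA1_L (w : R[X]) (N : ℕ) : Submodule R R[X] :=
  (Polynomial.degreeLT R N).map (LinearMap.mulLeft R w)

omit [IsDomain R] in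
private theorem CA1_memM {Q : Ideal R[X]} {N : ℕ} {g : R[X]} :
    g ∈ CA1_M Q N ↔ g ∈ Q ∧ g.degree < N := by
  unfold CA1_M
  rw [Submodule.mem_inf, Submodule.restrictScalars_mem, Polynomial.mem_degreeLT]

omit [IsDomain R] in
private theorem CA1_memL {w : R[X]} {N : ℕ} {g : R[X]} :
    g ∈ CA1_L w N ↔ ∃ h : R[X], h.degree < N ∧ w * h = g := by
  unfold CA1_L
  rw [Submodule.mem_map]
  simp only [Polynomial.mem_degreeLT, LinearMap.mulLeft_apply]

private structure CA1_H (Q : Ideal R[X]) (w : R[X]) (c : R) : Prop where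
  mem : w ∈ Q
  wc : w.eval c ≠ 0
  q2 : ∀ g, (X - C c) * g ∈ Q → g ∈ Q
  q3 : ∀ g ∈ Q, g.degree < w.degree → g = 0

private theorem CA1_deg (c : R) {g : R[X]} {N : ℕ} :
    ((X - C c) * g).degree < ((N + 1 : ℕ) : WithBot ℕ) ↔ g.degree < (N : WithBot ℕ) := by
  rw [Polynomial.degree_mul, Polynomial.degree_X_sub_C]
  rcases eq_or_ne g 0 with rfl | hg
  · rw [Polynomial.degree_zero]
    exact iff_of_true (by rw [WithBot.add_bot]; exact WithBot.bot_lt_coe _)
      (WithBot.bot_lt_coe _)
  · rw [Polynomial.degree_eq_natDegree hg]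
    norm_cast
    omega

/-- The values at `c` of the polynomials of `Q` of degree `< N`. -/
private noncomputable def CA1_J (Q : Ideal R[X]) (c : R) (N : ℕ) : Ideal R :=
  (CA1_M Q N).map (Polynomial.leval c)

omit [IsDomain R] in
private theorem CA1_memJ {Q : Ideal R[X]} {c : R} {N : ℕ} {x : R} :
    x ∈ CA1_J Q c N ↔ ∃ g ∈ Q, g.degree < N ∧ g.eval c = x := by
  unfold CA1_J
  rw [Submodule.mem_map]
  constructor
  · rintro ⟨g, hg, rfl⟩
    exact ⟨g, (CA1_memM.mp hg).1, (CA1_memM.mp hg).2, rfl⟩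
  · rintro ⟨g, hg, hd, rfl⟩
    exact ⟨g, CA1_memM.mpr ⟨hg, hd⟩, rfl⟩

private theorem CA1_main {Q : Ideal R[X]} {w : R[X]} {c : R} (H : CA1_H Q w c) (N : ℕ) :
    Module.length R (CA1_M Q (N + w.natDegree + 1) ⧸
        (CA1_L w (N + 1)).comap (CA1_M Q (N + w.natDegree + 1)).subtype) =
      Module.length R (CA1_M Q (N + w.natDegree) ⧸
        (CA1_L w N).comap (CA1_M Q (N + w.natDegree)).subtype) +
      Module.length R (CA1_J Q c (N + w.natDegree + 1) ⧸
        Submodule.comap (Submodule.subtype (CA1_J Q c (N + w.natDegree + 1)))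
          (Ideal.span {w.eval c})) := by
  have hmaps : ∀ x ∈ CA1_M Q (N + w.natDegree),
      LinearMap.mulLeft R (X - C c) x ∈ CA1_M Q (N + w.natDegree + 1) := by
    intro x hx
    rw [CA1_memM] at hx ⊢
    rw [LinearMap.mulLeft_apply]
    exact ⟨Q.mul_mem_left _ hx.1, (CA1_deg c).mpr hx.2⟩
  have hw0 : w ≠ 0 := by
    rintro rfl
    exact H.wc Polynomial.eval_zero
  refine CA1_step _ _ _
    ((LinearMap.mulLeft R (X - C c)).restrict hmaps)
    ((Polynomial.leval c).submoduleMap (CA1_M Q (N + w.natDegree + 1))) ?_ ?_ ?_ ?_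
  · rintro ⟨g, hg⟩
    rw [Submodule.mem_comap, Submodule.mem_comap, Submodule.subtype_apply,
      Submodule.subtype_apply, LinearMap.coe_restrict_apply, LinearMap.mulLeft_apply,
      CA1_memL, CA1_memL]
    constructor
    · rintro ⟨h, hd, he⟩
      have h1 : w.eval c * h.eval c = 0 := by
        rw [← Polynomial.eval_mul, he, Polynomial.eval_mul, Polynomial.eval_sub,
          Polynomial.eval_X, Polynomial.eval_C, sub_self, zero_mul]
      have h2 : h.IsRoot c := (mul_eq_zero.mp h1).resolve_left H.wc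
      obtain ⟨h', rfl⟩ := Polynomial.dvd_iff_isRoot.mpr h2
      refine ⟨h', (CA1_deg c).mp hd, ?_⟩
      refine mul_left_cancel₀ (Polynomial.X_sub_C_ne_zero c) ?_
      rw [← he]
      ring
    · rintro ⟨h, hd, he⟩
      refine ⟨(X - C c) * h, (CA1_deg c).mpr hd, ?_⟩
      change w * ((X - C c) * h) = (X - C c) * g
      rw [← (show w * h = g from he)]
      ring
  · exact LinearMap.submoduleMap_surjective _ _
  · rintro ⟨g, hg⟩
    have hg' := CA1_memM.mp hg
    constructor
    · intro h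
      have h1 : g.eval c = 0 := congrArg Subtype.val h
      obtain ⟨g', rfl⟩ := Polynomial.dvd_iff_isRoot.mpr (show g.IsRoot c from h1)
      refine ⟨⟨g', CA1_memM.mpr ⟨H.q2 _ hg'.1, (CA1_deg c).mp hg'.2⟩⟩, ?_⟩
      exact Subtype.ext rfl
    · rintro ⟨y, hy⟩
      have h2 : (X - C c) * (y : R[X]) = g := congrArg Subtype.val hy
      refine Subtype.ext ?_
      change g.eval c = 0
      rw [← h2, Polynomial.eval_mul, Polynomial.eval_sub,
          Polynomial.eval_X, Polynomial.eval_C, sub_self, zero_mul]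
  · rintro ⟨z, hz⟩
    rw [Submodule.mem_comap, Submodule.subtype_apply]
    constructor
    · intro h
      obtain ⟨r, rfl⟩ := Ideal.mem_span_singleton'.mp h
      refine ⟨⟨w * C r, CA1_memM.mpr ⟨Q.mul_mem_right _ H.mem, ?_⟩⟩, ?_, ?_⟩
      · rw [mul_comm]
        have h4 : (C r * w).natDegree ≤ w.natDegree := Polynomial.natDegree_C_mul_le _ _
        refine lt_of_le_of_lt Polynomial.degree_le_natDegree ?_
        norm_cast
        omega
      · rw [Submodule.mem_comap, Submodule.subtype_apply, CA1_memL]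
        refine ⟨C r, lt_of_le_of_lt Polynomial.degree_C_le ?_, rfl⟩
        norm_cast
        omega
      · refine Subtype.ext ?_
        change (w * C r).eval c = r * w.eval c
        rw [Polynomial.eval_mul, Polynomial.eval_C, mul_comm]
    · rintro ⟨⟨g, hg⟩, hgL, hgz⟩
      rw [Submodule.mem_comap, Submodule.subtype_apply, CA1_memL] at hgL
      obtain ⟨h, hd, he⟩ := hgL
      have h3 : g.eval c = z := congrArg Subtype.val hgz
      change z ∈ Ideal.span {w.eval c}
      rw [← h3, ← (show w * h = g from he), Polynomial.eval_mul]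
      exact Ideal.mem_span_singleton.mpr (dvd_mul_right _ _)

private theorem CA1_fin {Q : Ideal R[X]} {w : R[X]} {c : R} (H : CA1_H Q w c)
    (hdim : Module.length R (R ⧸ Ideal.span {w.eval c}) ≠ ⊤) (N : ℕ) :
    Module.length R (CA1_M Q (N + w.natDegree) ⧸
        (CA1_L w N).comap (CA1_M Q (N + w.natDegree)).subtype) ≠ ⊤ := by
  induction N with
  | zero =>
    have h1 : Subsingleton (CA1_M Q (0 + w.natDegree)) := by
      refine ⟨fun x y => ?_⟩
      have key : ∀ x : CA1_M Q (0 + w.natDegree), (x : R[X]) = 0 := by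
        rintro ⟨g, hg⟩
        have hg' := CA1_memM.mp hg
        refine H.q3 g hg'.1 ?_
        have hw0 : w ≠ 0 := by
          rintro rfl
          exact H.wc Polynomial.eval_zero
        rw [Polynomial.degree_eq_natDegree hw0]
        have h2 := hg'.2
        rwa [Nat.zero_add] at h2
      exact Subtype.ext ((key x).trans (key y).symm)
    rw [Module.length_eq_zero]
    exact ENat.zero_ne_top
  | succ N ih =>
    have h1 := CA1_main H N
    have e : N + 1 + w.natDegree = N + w.natDegree + 1 := by omega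
    rw [e, h1]
    refine WithTop.add_ne_top.mpr ⟨ih, ?_⟩
    have hle : Ideal.span {w.eval c} ≤ CA1_J Q c (N + w.natDegree + 1) := by
      rw [Ideal.span_singleton_le_iff_mem, CA1_memJ]
      have hw0 : w ≠ 0 := by
        rintro rfl
        exact H.wc Polynomial.eval_zero
      refine ⟨w, H.mem, ?_, rfl⟩
      rw [Polynomial.degree_eq_natDegree hw0]
      norm_cast
      omega
    have h2 := CA1_quot _ _ hle
    rw [h2] at hdim
    exact (WithTop.add_ne_top.mp hdim).1

omit [IsDomain R] in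
private theorem CA1_stab [IsNoetherianRing R] (Q : Ideal R[X]) (c : R) :
    ∃ n, ∀ m, n ≤ m → CA1_J Q c m = Q.map (Polynomial.evalRingHom c) := by
  have hmono : Monotone (CA1_J Q c) := by
    intro n m hnm x hx
    rw [CA1_memJ] at hx ⊢
    obtain ⟨g, hg, hd, he⟩ := hx
    exact ⟨g, hg, hd.trans_le (by exact_mod_cast hnm), he⟩
  obtain ⟨n, hn⟩ := monotone_stabilizes_iff_noetherian.mpr (inferInstance : IsNoetherian R R)
    ⟨CA1_J Q c, hmono⟩
  have hn' : ∀ m, n ≤ m → CA1_J Q c n = CA1_J Q c m := hn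
  refine ⟨n, fun m hm => ?_⟩
  have hsurj : Function.Surjective (Polynomial.evalRingHom c) := fun r =>
    ⟨C r, by rw [Polynomial.coe_evalRingHom, Polynomial.eval_C]⟩
  refine le_antisymm ?_ ?_
  · intro x hx
    obtain ⟨g, hg, _, rfl⟩ := CA1_memJ.mp hx
    exact Ideal.mem_map_of_mem (Polynomial.evalRingHom c) hg
  · intro x hx
    obtain ⟨g, hg, rfl⟩ := (Ideal.mem_map_iff_of_surjective _ hsurj).mp hx
    rw [← hn' m hm, hn' (max n (g.natDegree + 1)) (le_max_left _ _), CA1_memJ]
    refine ⟨g, hg, ?_, rfl⟩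
    refine lt_of_le_of_lt Polynomial.degree_le_natDegree ?_
    have h1 : g.natDegree + 1 ≤ max n (g.natDegree + 1) := le_max_right _ _
    exact_mod_cast h1

private theorem CA1_abs [IsNoetherianRing R] {Q : Ideal R[X]} {w : R[X]} {c d : R}
    (hdim : ∀ a : R, a ≠ 0 → Module.length R (R ⧸ Ideal.span {a}) ≠ ⊤)
    (Hc : CA1_H Q w c) (Hd : CA1_H Q w d) :
    ∃ t nc nd : ℕ, Module.length R (R ⧸ Q.map (Polynomial.evalRingHom c)) = nc ∧
      Module.length R (R ⧸ Q.map (Polynomial.evalRingHom d)) = nd ∧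
      Module.length R (R ⧸ Ideal.span {w.eval c}) = ((nc + t : ℕ) : ℕ∞) ∧
      Module.length R (R ⧸ Ideal.span {w.eval d}) = ((nd + t : ℕ) : ℕ∞) := by
  obtain ⟨n1, hn1⟩ := CA1_stab Q c
  obtain ⟨n2, hn2⟩ := CA1_stab Q d
  have h1 := CA1_main Hc (max n1 n2)
  have h2 := CA1_main Hd (max n1 n2)
  have hfin := CA1_fin Hc (hdim _ Hc.wc) (max n1 n2)
  have hj1 := hn1 (max n1 n2 + w.natDegree + 1) (by omega)
  have hj2 := hn2 (max n1 n2 + w.natDegree + 1) (by omega)
  have hle1 : Ideal.span {w.eval c} ≤ CA1_J Q c (max n1 n2 + w.natDegree + 1) := by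
    rw [hj1, Ideal.span_singleton_le_iff_mem]
    exact Ideal.mem_map_of_mem (Polynomial.evalRingHom c) Hc.mem
  have hle2 : Ideal.span {w.eval d} ≤ CA1_J Q d (max n1 n2 + w.natDegree + 1) := by
    rw [hj2, Ideal.span_singleton_le_iff_mem]
    exact Ideal.mem_map_of_mem (Polynomial.evalRingHom d) Hd.mem
  have h3 := CA1_quot _ _ hle1
  have h4 := CA1_quot _ _ hle2
  rw [h1] at h2
  have h5 := ENat.add_right_injective_of_ne_top hfin h2
  have hA := hdim _ Hc.wc
  have hB := hdim _ Hd.wc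
  rw [h3] at hA
  rw [h4] at hB
  obtain ⟨t, ht⟩ := ENat.ne_top_iff_exists.mp (WithTop.add_ne_top.mp hA).1
  obtain ⟨nc, hnc⟩ := ENat.ne_top_iff_exists.mp (WithTop.add_ne_top.mp hA).2
  obtain ⟨nd, hnd⟩ := ENat.ne_top_iff_exists.mp (WithTop.add_ne_top.mp hB).2
  refine ⟨t, nc, nd, ?_, ?_, ?_, ?_⟩
  · rw [← hj1, hnc]
  · rw [← hj2, hnd]
  · rw [h3, ← ht, ← hnc, ← Nat.cast_add, add_comm]
  · rw [h4, ← h5, ← ht, ← hnd, ← Nat.cast_add, add_comm]

end

section

variable {K : Type} [Field K] (R : Subring K)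

private theorem CA1_uniq {u : K} {n n' : ℤ} (h : HasLen R u n) (h' : HasLen R u n') : n = n' := by
  obtain ⟨a, b, r, s, ha, hb, hu, hr, hs, hn⟩ := h
  obtain ⟨a', b', r', s', ha', hb', hu', hr', hs', hn'⟩ := h'
  have e1 : a * b' = a' * b := by
    refine Subtype.ext ?_
    have e2 : (a : K) / b = a' / b' := hu ▸ hu'
    rw [div_eq_div_iff hb hb'] at e2
    exact e2
  have nz : ∀ x : R, (x : K) ≠ 0 → x ∈ nonZeroDivisors R := fun x hx =>
    mem_nonZeroDivisors_of_ne_zero fun h0 => hx (by rw [h0]; rfl)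
  have e3 := Ring.ord_mul R (a := a) (nz b' hb')
  have e4 := Ring.ord_mul R (a := a') (nz b hb)
  rw [e1] at e3
  rw [e3] at e4
  unfold Ring.ord at e4
  rw [hr, hs, hr', hs', ← Nat.cast_add, ← Nat.cast_add] at e4
  have e5 : r + s' = r' + s := by exact_mod_cast e4
  omega

private theorem CA1_len {u : K} {n : ℤ} (h : HasLen R u n) : len R u = n := by
  have h1 : ∃ n, HasLen R u n := ⟨n, h⟩
  unfold len
  rw [dif_pos h1]
  exact CA1_uniq R h1.choose_spec h

private theorem CA1_den (hfr : ∀ u : K, ∃ a b : R, (b : K) ≠ 0 ∧ u = a / b) (w : K[X]) :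
    ∃ (b : R) (w' : R[X]), (b : K) ≠ 0 ∧ w'.map R.subtype = C (b : K) * w := by
  induction w using Polynomial.induction_on' with
  | add p q hp hq =>
    obtain ⟨b1, p', h1, e1⟩ := hp
    obtain ⟨b2, q', h2, e2⟩ := hq
    refine ⟨b1 * b2, C b2 * p' + C b1 * q', mul_ne_zero h1 h2, ?_⟩
    rw [Polynomial.map_add, Polynomial.map_mul, Polynomial.map_mul, Polynomial.map_C,
      Polynomial.map_C, e1, e2, Subring.coe_mul, Polynomial.C_mul, Subring.subtype_apply,
      Subring.subtype_apply]
    ring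
  | monomial n u =>
    obtain ⟨a, b, hb, rfl⟩ := hfr u
    refine ⟨b, monomial n a, hb, ?_⟩
    rw [Polynomial.map_monomial, Polynomial.C_mul_monomial, Subring.subtype_apply,
      mul_div_cancel₀ _ hb]

end

/-- **CA1**. PROOF. Write `Q = {g ∈ R[X] : w ∣ g}`, an ideal of `R[X]`, `Q(c) = valIdeal R w c` (`evalRingHom` is surjective, so the
image of the ideal is the set of the values). Neither the left sides nor `w(0) / w(1)` change if `w` is multiplied by a
nonzero element of `R`, so we may assume `w ∈ R[X]` (`R` has the fraction field `K`). `w ≠ 0`; let `e` be its degree. For `N : ℕ`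
let `M_N = {g ∈ Q : deg g < N + e}` and `Λ_N = {w h : h ∈ R[X], deg h < N}`, `R`-submodules of `R[X]` (or of `K[X]`),
`Λ_N ⊆ M_N`, both finitely generated (`R` noetherian); `M_N / Λ_N` has finite length `ℓ_N`: it is killed by a nonzero element
of `R` (`g = w h` with `h ∈ K[X]`, `deg h < N`: common denominator of finitely many generators), and for nonzero `a ∈ R`
finitely generated modules over `R / a` have finite length (`hdim`). Let `c = 0` or `1`. Evaluation at `c` maps `M_N` onto
`M_N(c) ⊆ R`, with the kernel `(X - c) M_(N-1)` (`g ∈ M_N`, `g(c) = 0`: `g = (X - c) g'`, `g' ∈ R[X]`, and `w ∣ (X - c) g'`,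
`w(c) ≠ 0`, so `w ∣ g'` in `K[X]`), and `Λ_N` onto `w(c) R` with the kernel `(X - c) Λ_(N-1)`. So the length of
`M_N(c) / w(c) R` is `ℓ_N - ℓ_(N-1)` for `N ≥ 1`, the same for `c = 0` and `c = 1`. For `N` large `M_N(c) = Q(c)` (`Q(c)` is
finitely generated). So `length (R / w(c)) = length (R / Q(c)) + length (Q(c) / w(c) R)` and the last term does not depend on
`c ∈ {0, 1}`. QED. -/
theorem ca1 {K : Type} [Field K] (R : Subring K) [IsNoetherianRing R]
    (hdim : ∀ a : R, a ≠ 0 → IsFiniteLength R (R ⧸ Ideal.span {a}))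
    (hfr : ∀ u : K, ∃ a b : R, (b : K) ≠ 0 ∧ u = a / b)
    (w : K[X]) (h0 : w.eval 0 ≠ 0) (h1 : w.eval 1 ≠ 0) :
    ∃ n0 n1 : ℕ, Module.length R (R ⧸ valIdeal R w 0) = n0 ∧
      Module.length R (R ⧸ valIdeal R w 1) = n1 ∧
      len R (w.eval 0 / w.eval 1) = (n0 : ℤ) - (n1 : ℤ) := by
  obtain ⟨b, w', hb, hw'⟩ := CA1_den R hfr w
  have hbu : IsUnit (C (b : K)) := Polynomial.isUnit_C.mpr hb.isUnit
  have hev : ∀ c : R, ((w'.eval c : R) : K) = b * w.eval (c : K) := by
    intro c
    have e1 := Polynomial.eval_map_apply (f := R.subtype) (p := w') c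
    rw [hw', Polynomial.eval_mul, Polynomial.eval_C] at e1
    exact e1.symm
  have memQ : ∀ g : R[X], g ∈ (Ideal.span {w}).comap (mapRingHom R.subtype) ↔
      w ∣ g.map R.subtype := by
    intro g
    rw [Ideal.mem_comap, Ideal.mem_span_singleton, Polynomial.coe_mapRingHom]
  have hw0 : w ≠ 0 := by
    rintro rfl
    exact h0 Polynomial.eval_zero
  have H : ∀ c : R, w.eval (c : K) ≠ 0 →
      CA1_H ((Ideal.span {w}).comap (mapRingHom R.subtype)) w' c := by
    intro c hc
    refine ⟨?_, ?_, ?_, ?_⟩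
    · rw [memQ, hw']
      exact dvd_mul_left _ _
    · intro h
      have h2 := hev c
      rw [h] at h2
      exact mul_ne_zero hb hc h2.symm
    · intro g hg
      rw [memQ] at hg ⊢
      rw [Polynomial.map_mul, Polynomial.map_sub, Polynomial.map_X, Polynomial.map_C] at hg
      refine IsCoprime.dvd_of_dvd_mul_left ?_ hg
      refine ((Polynomial.irreducible_X_sub_C _).coprime_iff_not_dvd.mpr fun h => ?_).symm
      exact hc (Polynomial.dvd_iff_isRoot.mp h)
    · intro g hg hd
      rw [memQ] at hg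
      have h2 : g.map R.subtype = 0 := by
        refine Polynomial.eq_zero_of_dvd_of_degree_lt hg ?_
        have h3 : w'.degree = w.degree := by
          rw [← Polynomial.degree_map_eq_of_injective (f := R.subtype) Subtype.val_injective w',
            hw', Polynomial.degree_C_mul hb]
        rw [← h3]
        exact lt_of_le_of_lt Polynomial.degree_map_le hd
      exact (Polynomial.map_eq_zero_iff (f := R.subtype) Subtype.val_injective).mp h2
  have e0 : w.eval ((0 : R) : K) = w.eval 0 := by rw [Subring.coe_zero]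
  have e1 : w.eval ((1 : R) : K) = w.eval 1 := by rw [Subring.coe_one]
  obtain ⟨t, n0, n1, hn0, hn1, hl0, hl1⟩ := CA1_abs
    (fun a ha => Module.length_ne_top_iff.mpr (hdim a ha))
    (H 0 (by rw [e0]; exact h0)) (H 1 (by rw [e1]; exact h1))
  refine ⟨n0, n1, hn0, hn1, ?_⟩
  refine CA1_len R ⟨w'.eval 0, w'.eval 1, n0 + t, n1 + t, ?_, ?_, ?_, hl0, hl1, ?_⟩
  · rw [hev, e0]
    exact mul_ne_zero hb h0
  · rw [hev, e1]
    exact mul_ne_zero hb h1
  · rw [hev, hev, e0, e1, mul_div_mul_left _ _ hb]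
  · push_cast
    ring

end Pool.Agent.Lib.MP_b197b4_ntZ
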