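import Mathlib
import Pool.Agent.Lib.MP_b197b4_ntA.XDefs

/-!
# MP_b197b4_nt, project LIT: Bloch's cycle complex of a projective variety

`X` is a projective variety with homogeneous coordinates `x 0, ..., x n` in its function field `F`
(as in `MP_b197b4_ntA.XDefs`). `Δ ^ m` is the simplex `t_0 + ... + t_m = 1`. A closed subvariety of
`X × Δ ^ m` is given by its generic point: a point `O` of `X` and a prime ideal of `κ(O)[t_0, ..., t_m]`.
-/

set_option autoImplicit false

namespace Pool.Agent.Lib.MP_b197b4_ntZ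

open IsLocalRing Pool.Agent.Lib.MP_b197b4_ntK Pool.Agent.Lib.MP_b197b4_ntA

/-- The polynomials in `t_0, ..., t_m`. -/
abbrev Pol (m : ℕ) (R : Type) [CommRing R] : Type := MvPolynomial (Fin (m + 1)) R

section

variable {F : Type} [Field F]

/-- A closed subvariety of `X × Δ ^ m`: the generic point `O` of the closure of its image in `X`, and
a prime ideal of `κ(O)[t_0, ..., t_m]`. -/
abbrev Sub (F : Type) [Field F] (m : ℕ) : Type := Σ O : LocalSubring F, Ideal (Pol m (Kap O))

open Classical in
/-- The ideal of the subvariety `W` in `O[t_0, ..., t_m]`, where `O` is a point of `X`. -/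
noncomputable def idl {m : ℕ} (O : LocalSubring F) (W : Sub F m) : Ideal (Pol m O.toSubring) :=
  if h : O.toSubring ≤ W.1.toSubring then
    W.2.comap (MvPolynomial.map ((residue W.1.toSubring).comp (Subring.inclusion h))) else ⊤

open Classical in
/-- The length of the local ring of `A / J` at the prime ideal `p`. -/
noncomputable def lgth {A : Type} [CommRing A] (p J : Ideal A) : ℕ∞ :=
  if _h : p.IsPrime then
    Module.length (Localization.AtPrime p)
      (Localization.AtPrime p ⧸ J.map (algebraMap A (Localization.AtPrime p))) else 0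

/-- The multiplicity of `V` in the intersection of `W` and the face `t_i = 0`: the length of
`O_V / (I_W, t_i)`, where `O_V` is the local ring of `X × Δ ^ m` at `V`. -/
noncomputable def mult {m : ℕ} (W V : Sub F m) (i : Fin (m + 1)) : ℕ∞ :=
  lgth (idl V.1 V) (idl V.1 W ⊔ Ideal.span {MvPolynomial.X i})

/-- The face map `κ[t_0, ..., t_(m+1)] → κ[t_0, ..., t_m]`: `t_i` goes to `0` and the other
coordinates to `t_0, ..., t_m`, in their order. -/
noncomputable def fmap {m : ℕ} (R : Type) [CommRing R] (i : Fin (m + 2)) :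
    Pol (m + 1) R →ₐ[R] Pol m R :=
  MvPolynomial.aeval (i.insertNth (α := fun _ => Pol m R) 0 MvPolynomial.X)

/-- The subvariety `V` of `X × Δ ^ m`, as a subvariety of the face `t_i = 0` of
`X × Δ ^ (m + 1)`. -/
noncomputable def face {m : ℕ} (i : Fin (m + 2)) (V : Sub F m) : Sub F (m + 1) :=
  ⟨V.1, V.2.comap (fmap (Kap V.1) i)⟩

/-- The coefficient of `V` in the boundary of `W`. -/
noncomputable def bdy {m : ℕ} (W : Sub F (m + 1)) (V : Sub F m) : ℤ :=
  ∑ i : Fin (m + 2), (-1) ^ (i : ℕ) * ((mult W (face i V) i).toNat : ℤ)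

end

section

variable (k : Type) {F : Type} [Field k] [Field F] [Algebra k F] {n : ℕ}

/-- `W` is a closed subvariety of `X × Δ ^ m` of dimension `e`: the sum of the dimension of the
closure of its image in `X` and of the dimension of its generic fibre. -/
def IsSub (x : Fin (n + 1) → F) {m : ℕ} (e : ℕ) (W : Sub F m) : Prop :=
  ∃ s r : ℕ, W.1 ∈ Pts k x s ∧ W.2.IsPrime ∧ ∑ i, MvPolynomial.X i - 1 ∈ W.2 ∧
    ringKrullDim (Pol m (Kap W.1) ⧸ W.2) = r ∧ s + r = e

/-- `W`, of dimension `e`, meets all the faces of `X × Δ ^ m` properly: every subvariety `V` of the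
intersection of `W` and a face of codimension `c` has dimension at most `e - c`. -/
def Proper (x : Fin (n + 1) → F) {m : ℕ} (e : ℕ) (W : Sub F m) : Prop :=
  ∀ (I : Finset (Fin (m + 1))) (V : Sub F m) (r : ℕ), IsSub k x r V →
    idl V.1 W ≤ idl V.1 V → (∀ i ∈ I, MvPolynomial.X i ∈ V.2) → r + I.card ≤ e

/-- The group `z_0(X, m)` of the cycles of dimension `m` on `X × Δ ^ m` which meet all the faces
properly. -/
def IsCyc (x : Fin (n + 1) → F) {m : ℕ} (z : Sub F m →₀ ℤ) : Prop :=
  ∀ W ∈ z.support, IsSub k x m W ∧ Proper k x m W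

end

/-- The coefficient of `V` in the boundary of the cycle `y`. -/
noncomputable def bdry {F : Type} [Field F] {m : ℕ} (y : Sub F (m + 1) →₀ ℤ) (V : Sub F m) : ℤ :=
  y.sum fun W c => c * bdy W V

/-- **GOAL**: Bloch's higher Chow group `CH ^ d (X, 1) = CH_0 (X, 1)` is torsion. -/
def Goal (k : Type) [Field k] : Prop :=
  ∀ (F : Type) [Field F] [Algebra k F] (n : ℕ) (x : Fin (n + 1) → F) (d : ℕ), 2 ≤ d →
    Var k d x → ∀ z : Sub F 1 →₀ ℤ, IsCyc k x z →
    (∀ V : Sub F 0, IsSub k x 0 V → bdry z V = 0) →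
    ∃ N : ℕ, 0 < N ∧ ∃ y : Sub F 2 →₀ ℤ, IsCyc k x y ∧
      ∀ V : Sub F 1, IsSub k x 1 V → bdry y V = N * z V

end Pool.Agent.Lib.MP_b197b4_ntZ
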