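import Mathlib
import Pool.Agent.Lib.MP_b197b4_ntZ.Defs

/-!
# MP_b197b4_nt, project LIT, leaf Lg: lengths of local rings
-/

set_option autoImplicit false

namespace Pool.Agent.Lib.MP_b197b4_ntZ

open IsLocalRing Pool.Agent.Lib.MP_b197b4_ntK Pool.Agent.Lib.MP_b197b4_ntA

private theorem Lg_surj {R S : Type} [CommRing R] [CommRing S] (g : R →+* S)
    (hg : Function.Surjective g) (K : Ideal S) :
    Module.length R (R ⧸ K.comap g) = Module.length S (S ⧸ K) := by
  rw [Module.length_quotient, Module.length_quotient]
  exact Ideal.coheight_comap_of_surjective g hg K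

private theorem Lg_prime {A : Type} [CommRing A] (p J : Ideal A) [h : p.IsPrime] :
    lgth p J = Module.length (Localization.AtPrime p)
      (Localization.AtPrime p ⧸ J.map (algebraMap A (Localization.AtPrime p))) := by
  rw [lgth, dif_pos h]

/-- PROOF. If `p` is prime and `a ∈ J`, `a ∉ p`, then the image of `a` is a unit of the localization, so the quotient is
zero. If `p` is not prime, `lgth = 0` by definition. -/
theorem lgth_eq_zero {A : Type} [CommRing A] {p J : Ideal A} (h : ¬ J ≤ p) : lgth p J = 0 := by
  by_cases hp : p.IsPrime
  · rw [Lg_prime]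
    obtain ⟨a, ha, hap⟩ := Set.not_subset.1 h
    have htop : J.map (algebraMap A (Localization.AtPrime p)) = ⊤ :=
      Ideal.eq_top_of_isUnit_mem _ (Ideal.mem_map_of_mem _ ha)
        (IsLocalization.map_units (Localization.AtPrime p) (⟨a, hap⟩ : p.primeCompl))
    have : Subsingleton (Localization.AtPrime p ⧸
        J.map (algebraMap A (Localization.AtPrime p))) := Ideal.Quotient.subsingleton_iff.2 htop
    exact Module.length_eq_zero
  · rw [lgth, dif_neg hp]

/-- PROOF. `Localization.AtPrime (p.comap f) → Localization.AtPrime p ⧸ J.map _` is surjective (`f` is surjective and maps the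
complement of `p.comap f` onto the complement of `p`), with the kernel `(J.comap f).map _`: if `f a / f s ∈ J_p` then
`t f a ∈ J` with `t = f t' ∉ p`, so `t' a ∈ J.comap f`. So the two quotients are isomorphic; the length over a ring and
over the image of a surjective homomorphism is the same (`Module.length` and `LinearEquiv`/`orderIso` of submodules;
`Module.length_eq_of_surjective` or the order isomorphism of the submodule lattices). -/
theorem lgth_comap {A B : Type} [CommRing A] [CommRing B] (f : A →+* B)
    (hf : Function.Surjective f) (p J : Ideal B) [p.IsPrime] :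
    lgth (p.comap f) (J.comap f) = lgth p J := by
  rw [Lg_prime, Lg_prime, ← Lg_surj (Localization.localRingHom (p.comap f) p f rfl)
    (RingHom.surjective_localRingHom_of_surjective f hf p)]
  have h : (J.comap f).map (algebraMap A (Localization.AtPrime (p.comap f))) =
      (J.map (algebraMap B (Localization.AtPrime p))).comap
        (Localization.localRingHom (p.comap f) p f rfl) := by
    apply le_antisymm
    · rw [Ideal.map_le_iff_le_comap]
      intro a ha
      rw [Ideal.mem_comap, Ideal.mem_comap, Localization.localRingHom_to_map]
      exact Ideal.mem_map_of_mem _ ha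
    · intro x hx
      obtain ⟨a, s, rfl⟩ := IsLocalization.exists_mk'_eq (p.comap f).primeCompl x
      rw [Ideal.mem_comap, Localization.localRingHom_mk',
        IsLocalization.mk'_mem_map_algebraMap_iff] at hx
      obtain ⟨t, ht, hta⟩ := hx
      obtain ⟨t', rfl⟩ := hf t
      rw [IsLocalization.mk'_mem_map_algebraMap_iff]
      exact ⟨t', ht, by rw [Ideal.mem_comap, map_mul]; exact hta⟩
  rw [h]

/-- PROOF. A local ring is its own localization at the maximal ideal. -/
theorem lgth_local {A : Type} [CommRing A] [IsLocalRing A] (J : Ideal A) :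
    lgth (maximalIdeal A) J = Module.length A (A ⧸ J) := by
  rw [Lg_prime]
  have hb : Function.Bijective
      (algebraMap A (Localization.AtPrime (maximalIdeal A))) := by
    have h := (IsLocalization.atUnits A (maximalIdeal A).primeCompl
      (S := Localization.AtPrime (maximalIdeal A)) fun x hx => by
        by_contra hc
        exact hx ((mem_maximalIdeal x).2 hc)).bijective
    exact h
  rw [← Lg_surj _ hb.2, Ideal.comap_map_of_bijective _ hb]

/-- PROOF. The quotient of the local ring by its maximal ideal is a field. -/
theorem lgth_self {A : Type} [CommRing A] (p : Ideal A) [p.IsPrime] : lgth p p = 1 := by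
  rw [Lg_prime, Localization.AtPrime.map_eq_maximalIdeal, Module.length_eq_one_iff,
    isSimpleModule_iff_isCoatom]
  exact (maximalIdeal.isMaximal (Localization.AtPrime p)).out

/-- PROOF. `(LocalSubring.ofPrime A p).toSubring` is the localization of `A` at `p` (Mathlib has the instance
`IsLocalization.AtPrime`). -/
theorem lgth_ofPrime {K : Type} [Field K] (A : Subring K) (p : Ideal A) [p.IsPrime] (a : A) :
    lgth p (Ideal.span {a}) = Module.length (LocalSubring.ofPrime A p).toSubring
      ((LocalSubring.ofPrime A p).toSubring ⧸ Ideal.span
        {(⟨a, LocalSubring.le_ofPrime A p a.2⟩ : (LocalSubring.ofPrime A p).toSubring)}) := by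
  have hb : Function.Bijective (LocalSubring.ofPrimeEquiv A p : Localization.AtPrime p →+*
      (LocalSubring.ofPrime A p).toSubring) := (LocalSubring.ofPrimeEquiv A p).bijective
  rw [Lg_prime, ← Lg_surj _ hb.2]
  have h : (Ideal.span
      {(⟨a, LocalSubring.le_ofPrime A p a.2⟩ : (LocalSubring.ofPrime A p).toSubring)}) =
      ((Ideal.span {a}).map (algebraMap A (Localization.AtPrime p))).map
        (LocalSubring.ofPrimeEquiv A p : Localization.AtPrime p →+*
          (LocalSubring.ofPrime A p).toSubring) := by
    rw [Ideal.map_span, Ideal.map_span, Set.image_singleton, Set.image_singleton]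
    congr 2
    exact ((LocalSubring.ofPrimeEquiv A p).commutes a).symm
  rw [h, Ideal.comap_map_of_bijective _ hb]

/-- PROOF. The localization of `K[X]` at `(w)` is a discrete valuation ring `V` with the uniformizer `w`, `g = w ^ c g'` with
`g'` prime to `w`, a unit of `V`, and `V / (w ^ c)` has the length `c`. (For instance by induction on `c`: the length of
`V / (w ^ (c+1))` is that of `V / (w)` plus that of `V / (w ^ c)`; or `Ring.ord` / `length_quotient_span_mul`.) -/
theorem lgth_poly {K : Type} [Field K] (w g : Polynomial K) (hw : Irreducible w) (hg : g ≠ 0) :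
    lgth (Ideal.span {w}) (Ideal.span {g}) = emultiplicity w g := by
  have hp : (Ideal.span {w}).IsPrime :=
    (Ideal.span_singleton_prime hw.ne_zero).2 hw.prime
  have key : ∀ x : Polynomial K, lgth (Ideal.span {w}) (Ideal.span {x}) =
      Ring.ord (Localization.AtPrime (Ideal.span {w})) (algebraMap (Polynomial K)
        (Localization.AtPrime (Ideal.span {w})) x) := fun x => by
    rw [Lg_prime, Ideal.map_span, Set.image_singleton]
    rfl
  have hdom : IsDomain (Localization.AtPrime (Ideal.span {w})) :=
    IsLocalization.isDomain_localization (Ideal.primeCompl_le_nonZeroDivisors _)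
  have hfin : FiniteMultiplicity w g := FiniteMultiplicity.of_not_isUnit hw.not_isUnit hg
  obtain ⟨g', hg', hnd⟩ := hfin.exists_eq_pow_mul_and_not_dvd
  have h1 : lgth (Ideal.span {w}) (Ideal.span {g'}) = 0 := lgth_eq_zero fun h =>
    hnd (Ideal.mem_span_singleton.1 (h (Ideal.mem_span_singleton_self g')))
  have hw0 : algebraMap (Polynomial K) (Localization.AtPrime (Ideal.span {w})) w ∈
      nonZeroDivisors (Localization.AtPrime (Ideal.span {w})) := by
    refine mem_nonZeroDivisors_of_ne_zero fun h0 => hw.ne_zero ?_
    exact (IsLocalization.injective (Localization.AtPrime (Ideal.span {w}))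
      (Ideal.primeCompl_le_nonZeroDivisors (Ideal.span {w}))) (by rw [h0, map_zero])
  have h2 : Ring.ord (Localization.AtPrime (Ideal.span {w})) (algebraMap (Polynomial K)
      (Localization.AtPrime (Ideal.span {w})) w) = 1 := by
    rw [← key w]
    exact lgth_self _
  rw [hfin.emultiplicity_eq_multiplicity, key g]
  conv_lhs => rw [hg']
  rw [map_mul, map_pow, Ring.ord_mul' _ (pow_mem hw0 _), Ring.ord_pow hw0, ← key g', h1, h2,
    add_zero, nsmul_one]

end Pool.Agent.Lib.MP_b197b4_ntZ
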