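import Mathlib
import Pool.Agent.Lib.MP_b197b4_ntZ.Defs
import Pool.Agent.Lib.MP_b197b4_ntZ.Lg
import Pool.Agent.Lib.MP_b197b4_ntA.XPts

/-!
# MP_b197b4_nt, project LIT, leaf Res: multiplicities over the local ring `locSub O S`
-/

set_option autoImplicit false

namespace Pool.Agent.Lib.MP_b197b4_ntZ

open IsLocalRing Pool.Agent.Lib.MP_b197b4_ntK Pool.Agent.Lib.MP_b197b4_ntA

variable {F : Type} [Field F]

/-- The map `O → locSub O S`. -/
private noncomputable def Res_rho {O S : LocalSubring F} (h : O.toSubring ≤ S.toSubring) :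
    O.toSubring →+* locSub O S :=
  ((residue S.toSubring).comp (Subring.inclusion h)).codRestrict (locSub O S)
    fun a => ⟨Subring.inclusion h a, a.2, rfl⟩

private theorem Res_rho_surj {O S : LocalSubring F} (h : O.toSubring ≤ S.toSubring) :
    Function.Surjective (Res_rho h) := by
  rintro ⟨y, z, hz, rfl⟩
  exact ⟨⟨z.1, hz⟩, Subtype.ext rfl⟩

/-- The local ring `R = locSub O S ⊆ κ(S)` has the residue field `κ(O)`.

PROOF. `R` is the image of `O` under the ring homomorphism `ρ = residue S ∘ inclusion : O → κ(S)`. If `ρ a = ρ b` then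
`a - b` is in the maximal ideal of `S`, so `a - b` is not a unit of `S`, so not a unit of `O`, so `residue O a = residue O b`.
So `residue O` factors through `R` (`RingHom.liftOfSurjective`, or define the map by choice and check the rules). -/
theorem resLoc_exists {O S : LocalSubring F} (h : O.toSubring ≤ S.toSubring) :
    ∃ f : locSub O S →+* Kap O, Function.Surjective f ∧
      ∀ (y : F) (hO : y ∈ O.toSubring) (hS : y ∈ S.toSubring)
        (hy : residue S.toSubring ⟨y, hS⟩ ∈ locSub O S),
        f ⟨residue S.toSubring ⟨y, hS⟩, hy⟩ = residue O.toSubring ⟨y, hO⟩ := by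
  have hker : RingHom.ker (Res_rho h) ≤ RingHom.ker (residue O.toSubring) := by
    intro a ha
    rw [RingHom.mem_ker] at ha ⊢
    have h1 : residue S.toSubring (Subring.inclusion h a) = 0 := congrArg Subtype.val ha
    rw [residue_eq_zero_iff, mem_maximalIdeal, mem_nonunits_iff] at h1 ⊢
    exact fun h2 => h1 (h2.map (Subring.inclusion h))
  refine ⟨(Res_rho h).liftOfSurjective (Res_rho_surj h) ⟨residue O.toSubring, hker⟩, ?_, ?_⟩
  · intro c
    obtain ⟨a, rfl⟩ := residue_surjective c
    exact ⟨Res_rho h a, RingHom.liftOfSurjective_comp_apply _ _ _ a⟩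
  · intro y hO hS hy
    exact RingHom.liftOfSurjective_comp_apply _ (Res_rho_surj h) ⟨residue O.toSubring, hker⟩
      ⟨y, hO⟩

/-- The residue map of the local ring `locSub O S`. -/
noncomputable def resLoc {O S : LocalSubring F} (h : O.toSubring ≤ S.toSubring) :
    locSub O S →+* Kap O := (resLoc_exists h).choose

/-- `locSub O S` is a local ring, and `resLoc` is its residue map: the kernel is the maximal ideal.

PROOF. It is a quotient of the local ring `O` (`IsLocalRing.of_surjective'`); the kernel of a surjective homomorphism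
to a field is maximal. -/
theorem resLoc_ker {O S : LocalSubring F} (h : O.toSubring ≤ S.toSubring) :
    ∃ _ : IsLocalRing (locSub O S), RingHom.ker (resLoc h) = maximalIdeal (locSub O S) := by
  have h1 : IsLocalRing (locSub O S) := IsLocalRing.of_surjective' (Res_rho h) (Res_rho_surj h)
  exact ⟨h1, IsLocalRing.eq_maximalIdeal
    (RingHom.ker_isMaximal_of_surjective _ (resLoc_exists h).choose_spec.1)⟩

private theorem Res_resLoc {O S : LocalSubring F} (h : O.toSubring ≤ S.toSubring)
    (a : O.toSubring) : resLoc h (Res_rho h a) = residue O.toSubring a :=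
  (resLoc_exists h).choose_spec.2 a.1 a.2 (h a.2) (Res_rho h a).2

private theorem Res_comap_sup {A B : Type} [CommRing A] [CommRing B] (f : A →+* B)
    (hf : Function.Surjective f) (J : Ideal B) (a : A) :
    (J ⊔ Ideal.span {f a}).comap f = J.comap f ⊔ Ideal.span {a} := by
  refine le_antisymm ?_ ?_
  · intro x hx
    rw [Ideal.mem_comap] at hx
    obtain ⟨j, hj, s, hs, h1⟩ := Submodule.mem_sup.1 hx
    obtain ⟨c, rfl⟩ := Ideal.mem_span_singleton'.1 hs
    obtain ⟨c', rfl⟩ := hf c
    have h2 : x = (x - c' * a) + c' * a := by ring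
    rw [h2]
    refine Submodule.add_mem_sup ?_ (Ideal.mem_span_singleton'.2 ⟨c', rfl⟩)
    rw [Ideal.mem_comap, map_sub, map_mul, ← h1, add_sub_cancel_right]
    exact hj
  · refine sup_le (Ideal.comap_mono le_sup_left) ?_
    rw [Ideal.span_le, Set.singleton_subset_iff]
    show f a ∈ J ⊔ Ideal.span {f a}
    exact Ideal.mem_sup_right (Ideal.mem_span_singleton_self _)

private theorem Res_idl_self {m : ℕ} (V : Sub F m) : idl V.1 V =
    V.2.comap (MvPolynomial.map ((residue V.1.toSubring).comp (Subring.inclusion le_rfl))) := by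
  unfold idl
  rw [dif_pos le_rfl]

/-- PROOF. `ρ : O → R = locSub O W.1` is surjective, `residue O = resLoc h ∘ ρ`, so
`idl O ⟨O, p⟩ = comap (map ρ) (comap (map (resLoc h)) p)`, and
`idl O W = comap (map ρ) (comap (map R.subtype) W.2)`; `map ρ` is surjective, maps `X i` to `X i`, and for surjective `f`
`comap f J ⊔ span {a} = comap f (J ⊔ span {f a})`. Now `lgth_comap`. -/
theorem mult_loc {m : ℕ} (W : Sub F m) (O : LocalSubring F)
    (h : O.toSubring ≤ W.1.toSubring) (p : Ideal (Pol m (Kap O))) [p.IsPrime] (i : Fin (m + 1)) :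
    mult W ⟨O, p⟩ i = lgth (p.comap (MvPolynomial.map (resLoc h)))
      (W.2.comap (MvPolynomial.map (locSub O W.1).subtype) ⊔ Ideal.span {MvPolynomial.X i}) := by
  have e1 : idl O (⟨O, p⟩ : Sub F m) =
      (p.comap (MvPolynomial.map (resLoc h))).comap (MvPolynomial.map (Res_rho h)) := by
    rw [Ideal.comap_comap]
    refine (Res_idl_self (⟨O, p⟩ : Sub F m)).trans ?_
    have e2 : (MvPolynomial.map ((residue O.toSubring).comp (Subring.inclusion le_rfl)) :
        Pol m O.toSubring →+* Pol m (Kap O)) =
        (MvPolynomial.map (resLoc h)).comp (MvPolynomial.map (Res_rho h)) := by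
      refine RingHom.ext fun q => ?_
      rw [RingHom.comp_apply, MvPolynomial.map_map]
      have e3 : (residue O.toSubring).comp (Subring.inclusion le_rfl) =
          (resLoc h).comp (Res_rho h) := RingHom.ext fun a => (Res_resLoc h a).symm
      rw [e3]
    show p.comap _ = _
    rw [e2]
  have e4 : idl O W = (W.2.comap (MvPolynomial.map (locSub O W.1).subtype)).comap
      (MvPolynomial.map (Res_rho h)) := by
    rw [Ideal.comap_comap]
    unfold idl
    rw [dif_pos h]
    have e2 : (MvPolynomial.map ((residue W.1.toSubring).comp (Subring.inclusion h)) :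
        Pol m O.toSubring →+* Pol m (Kap W.1)) =
        (MvPolynomial.map (locSub O W.1).subtype).comp (MvPolynomial.map (Res_rho h)) := by
      refine RingHom.ext fun q => ?_
      rw [RingHom.comp_apply, MvPolynomial.map_map]
      rfl
    rw [e2]
  have hf : Function.Surjective (MvPolynomial.map (σ := Fin (m + 1)) (Res_rho h)) :=
    MvPolynomial.map_surjective _ (Res_rho_surj h)
  have e5 := Res_comap_sup (MvPolynomial.map (σ := Fin (m + 1)) (Res_rho h)) hf
    (W.2.comap (MvPolynomial.map (locSub O W.1).subtype)) (MvPolynomial.X i)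
  rw [MvPolynomial.map_X] at e5
  show lgth (idl O (⟨O, p⟩ : Sub F m)) (idl O W ⊔ Ideal.span {MvPolynomial.X i}) = _
  rw [e1, e4, ← e5]
  exact lgth_comap _ hf _ _

/-- PROOF. `idl V.1 W = ⊤` is not contained in a proper ideal: `lgth_eq_zero` (if `idl V.1 V` is not prime then `lgth = 0`
by definition). -/
theorem mult_eq_zero_of_not_le {m : ℕ} (W V : Sub F m) (i : Fin (m + 1))
    (h : ¬ V.1.toSubring ≤ W.1.toSubring) : mult W V i = 0 := by
  unfold mult
  by_cases hp : (idl V.1 V).IsPrime
  · refine lgth_eq_zero fun h1 => hp.ne_top (top_le_iff.1 ?_)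
    refine le_trans ?_ (le_sup_left.trans h1)
    unfold idl
    rw [dif_neg h]
  · unfold lgth
    rw [dif_neg hp]

/-- PROOF. `lgth_eq_zero`. -/
theorem mult_eq_zero {m : ℕ} (W V : Sub F m) (i : Fin (m + 1))
    (h : ¬ idl V.1 W ≤ idl V.1 V) : mult W V i = 0 := by
  exact lgth_eq_zero fun h1 => h (le_sup_left.trans h1)

/-- PROOF. `X i ∈ idl V.1 V` iff `X i ∈ V.2`; `lgth_eq_zero`. -/
theorem mult_eq_zero_of_notMem {m : ℕ} (W V : Sub F m) (i : Fin (m + 1))
    (h : MvPolynomial.X i ∉ V.2) : mult W V i = 0 := by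
  refine lgth_eq_zero fun h1 => h ?_
  have h2 : (MvPolynomial.X i : Pol m V.1.toSubring) ∈ idl V.1 V :=
    h1 (Ideal.mem_sup_right (Ideal.mem_span_singleton_self _))
  rw [Res_idl_self, Ideal.mem_comap, MvPolynomial.map_X] at h2
  exact h2

end Pool.Agent.Lib.MP_b197b4_ntZ
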