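import Mathlib
import Pool.Agent.Lib.MP_b197b4_ntZ.Res

/-!
# MP_b197b4_nt, project LIT, leaf Sb: subvarieties and faces
-/

set_option autoImplicit false

namespace Pool.Agent.Lib.MP_b197b4_ntZ

open IsLocalRing Pool.Agent.Lib.MP_b197b4_ntK Pool.Agent.Lib.MP_b197b4_ntA

variable {F : Type} [Field F]

/-- PROOF. `idl V.1 V` is the preimage of a prime ideal. -/
theorem idl_prime {m : ℕ} {V : Sub F m} (hV : V.2.IsPrime) : (idl V.1 V).IsPrime := by
  unfold idl
  rw [dif_pos le_rfl]
  exact Ideal.comap_isPrime _ _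

/-- PROOF. Otherwise `idl U.1 V = ⊤`, but `idl U.1 U` is prime. -/
theorem le_of_idl {m : ℕ} {U V : Sub F m} (hU : U.2.IsPrime) (h : idl U.1 V ≤ idl U.1 U) :
    U.1.toSubring ≤ V.1.toSubring := by
  by_contra hn
  have h1 : idl U.1 V = ⊤ := dif_neg hn
  rw [h1, top_le_iff] at h
  exact (idl_prime hU).ne_top h

private theorem Sb_mem {m : ℕ} {O : LocalSubring F} {W : Sub F m}
    (h : O.toSubring ≤ W.1.toSubring) (g : Pol m O.toSubring) :
    g ∈ idl O W ↔
      MvPolynomial.map ((residue W.1.toSubring).comp (Subring.inclusion h)) g ∈ W.2 := by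
  unfold idl
  rw [dif_pos h]
  exact Ideal.mem_comap

/-- `U ⊆ V ⊆ W`. PROOF. `U.1 ≤ V.1 ≤ W.1` (`le_of_idl`). Let `g ∈ idl U.1 W`, a polynomial over `U.1` whose image over `κ(W.1)` is in
`W.2`. Its image `g'` over `V.1` (`MvPolynomial.map` of the inclusion) is in `idl V.1 W ≤ idl V.1 V`, so the image of `g` over
`κ(V.1)` is in `V.2`, so `g ∈ idl U.1 V ≤ idl U.1 U`. -/
theorem idl_trans {m : ℕ} {U V W : Sub F m} (hU : U.2.IsPrime) (hV : V.2.IsPrime)
    (h1 : idl V.1 W ≤ idl V.1 V) (h2 : idl U.1 V ≤ idl U.1 U) : idl U.1 W ≤ idl U.1 U := by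
  have hUV := le_of_idl hU h2
  have hVW := le_of_idl hV h1
  refine le_trans (fun g hg => ?_) h2
  rw [Sb_mem (hUV.trans hVW)] at hg
  have h3 : MvPolynomial.map (Subring.inclusion hUV) g ∈ idl V.1 W := by
    rw [Sb_mem hVW, MvPolynomial.map_map]
    exact hg
  have h4 := h1 h3
  rw [Sb_mem le_rfl, MvPolynomial.map_map] at h4
  rw [Sb_mem hUV]
  exact h4

private theorem Sb_X_self {m : ℕ} (R : Type) [CommRing R] (i : Fin (m + 2)) :
    fmap R i (MvPolynomial.X i) = 0 := by
  unfold fmap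
  rw [MvPolynomial.aeval_X, Fin.insertNth_apply_same]

private theorem Sb_X_succ {m : ℕ} (R : Type) [CommRing R] (i : Fin (m + 2)) (j : Fin (m + 1)) :
    fmap R i (MvPolynomial.X (i.succAbove j)) = MvPolynomial.X j := by
  unfold fmap
  rw [MvPolynomial.aeval_X, Fin.insertNth_apply_succAbove]

private theorem Sb_ren {m : ℕ} (R : Type) [CommRing R] (i : Fin (m + 2)) (p : Pol m R) :
    fmap R i (MvPolynomial.rename i.succAbove p) = p := by
  have h : (fmap R i).comp (MvPolynomial.rename i.succAbove) = AlgHom.id R (Pol m R) := by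
    refine MvPolynomial.algHom_ext fun j => ?_
    rw [AlgHom.comp_apply, MvPolynomial.rename_X, Sb_X_succ, AlgHom.id_apply]
  exact congrArg (fun f : Pol m R →ₐ[R] Pol m R => f p) h

private theorem Sb_map {m : ℕ} {R S : Type} [CommRing R] [CommRing S] (φ : R →+* S)
    (i : Fin (m + 2)) (g : Pol (m + 1) R) :
    fmap S i (MvPolynomial.map φ g) = MvPolynomial.map φ (fmap R i g) := by
  have h : ((fmap S i : Pol (m + 1) S →ₐ[S] Pol m S) : Pol (m + 1) S →+* Pol m S).comp
      (MvPolynomial.map φ) = (MvPolynomial.map φ).comp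
        ((fmap R i : Pol (m + 1) R →ₐ[R] Pol m R) : Pol (m + 1) R →+* Pol m R) := by
    refine MvPolynomial.ringHom_ext (fun r => ?_) (fun j => ?_)
    · rw [RingHom.comp_apply, RingHom.comp_apply, MvPolynomial.map_C]
      have h1 : ((fmap S i : Pol (m + 1) S →ₐ[S] Pol m S) : Pol (m + 1) S →+* Pol m S)
          (MvPolynomial.C (φ r)) = MvPolynomial.C (φ r) := (fmap S i).commutes (φ r)
      have h2 : ((fmap R i : Pol (m + 1) R →ₐ[R] Pol m R) : Pol (m + 1) R →+* Pol m R)
          (MvPolynomial.C r) = MvPolynomial.C r := (fmap R i).commutes r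
      rw [h1, h2, MvPolynomial.map_C]
    · rw [RingHom.comp_apply, RingHom.comp_apply, MvPolynomial.map_X]
      rcases Fin.eq_self_or_eq_succAbove i j with h1 | ⟨j', h1⟩
      · subst h1
        have h2 : ((fmap S j : Pol (m + 1) S →ₐ[S] Pol m S) : Pol (m + 1) S →+* Pol m S)
          (MvPolynomial.X j) = 0 := Sb_X_self S j
        have h3 : ((fmap R j : Pol (m + 1) R →ₐ[R] Pol m R) : Pol (m + 1) R →+* Pol m R)
          (MvPolynomial.X j) = 0 := Sb_X_self R j
        rw [h2, h3, map_zero]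
      · subst h1
        have h2 : ((fmap S i : Pol (m + 1) S →ₐ[S] Pol m S) : Pol (m + 1) S →+* Pol m S)
          (MvPolynomial.X (i.succAbove j')) = MvPolynomial.X j' := Sb_X_succ S i j'
        have h3 : ((fmap R i : Pol (m + 1) R →ₐ[R] Pol m R) : Pol (m + 1) R →+* Pol m R)
          (MvPolynomial.X (i.succAbove j')) = MvPolynomial.X j' := Sb_X_succ R i j'
        rw [h2, h3, MvPolynomial.map_X]
  exact congrArg (fun f : Pol (m + 1) R →+* Pol m S => f g) h

/-- PROOF. `X (i.succAbove j)` goes to `X j`. -/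
theorem fmap_surjective {m : ℕ} (R : Type) [CommRing R] (i : Fin (m + 2)) :
    Function.Surjective (fmap R i) := by
  exact fun p => ⟨_, Sb_ren R i p⟩

/-- PROOF. `Fin.sum_univ_succAbove`. -/
theorem fmap_sum {m : ℕ} (R : Type) [CommRing R] (i : Fin (m + 2)) :
    fmap R i (∑ j, MvPolynomial.X j - 1) = ∑ j, MvPolynomial.X j - 1 := by
  rw [map_sub, map_one, map_sum, Fin.sum_univ_succAbove _ i, Sb_X_self, zero_add]
  simp only [Sb_X_succ]

/-- PROOF. The kernel of `fmap` is generated by `t_i`. (If `f` goes to `0`: modulo `t_i`, `f` is congruent to the image of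
`fmap f` under `t_j ↦ t_(i.succAbove j)`.) -/
theorem fmap_ker {m : ℕ} (R : Type) [CommRing R] (i : Fin (m + 2)) :
    RingHom.ker (fmap R i) = Ideal.span {MvPolynomial.X i} := by
  refine le_antisymm (fun f hf => ?_) ?_
  · rw [RingHom.mem_ker] at hf
    have h : Ideal.Quotient.mkₐ R (Ideal.span {(MvPolynomial.X i : Pol (m + 1) R)}) =
        (Ideal.Quotient.mkₐ R (Ideal.span {(MvPolynomial.X i : Pol (m + 1) R)})).comp
          ((MvPolynomial.rename i.succAbove).comp (fmap R i)) := by
      refine MvPolynomial.algHom_ext fun j => ?_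
      rw [AlgHom.comp_apply, AlgHom.comp_apply]
      rcases Fin.eq_self_or_eq_succAbove i j with h1 | ⟨j', h1⟩
      · subst h1
        rw [Sb_X_self, map_zero, map_zero]
        exact Ideal.Quotient.eq_zero_iff_mem.2 (Ideal.subset_span rfl)
      · subst h1
        rw [Sb_X_succ, MvPolynomial.rename_X]
    have h2 := congrArg (fun g : Pol (m + 1) R →ₐ[R]
      (Pol (m + 1) R ⧸ Ideal.span {(MvPolynomial.X i : Pol (m + 1) R)}) => g f) h
    have h3 : Ideal.Quotient.mk (Ideal.span {(MvPolynomial.X i : Pol (m + 1) R)}) f =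
        Ideal.Quotient.mk (Ideal.span {(MvPolynomial.X i : Pol (m + 1) R)})
          (MvPolynomial.rename i.succAbove (fmap R i f)) := h2
    rw [hf, map_zero, map_zero] at h3
    exact Ideal.Quotient.eq_zero_iff_mem.1 h3
  · rw [Ideal.span_le, Set.singleton_subset_iff]
    exact Sb_X_self R i

private theorem Sb_dim {m : ℕ} {κ : Type} [Field κ] (i : Fin (m + 2)) (I : Ideal (Pol m κ)) :
    ringKrullDim (Pol (m + 1) κ ⧸ I.comap (fmap κ i)) = ringKrullDim (Pol m κ ⧸ I) := by
  have hs : Function.Surjective ((Ideal.Quotient.mk I).comp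
      ((fmap κ i : Pol (m + 1) κ →ₐ[κ] Pol m κ) : Pol (m + 1) κ →+* Pol m κ)) :=
    Ideal.Quotient.mk_surjective.comp (fmap_surjective κ i)
  have hk : I.comap (fmap κ i) = RingHom.ker ((Ideal.Quotient.mk I).comp
      ((fmap κ i : Pol (m + 1) κ →ₐ[κ] Pol m κ) : Pol (m + 1) κ →+* Pol m κ)) := by
    ext g
    rw [RingHom.mem_ker, RingHom.comp_apply, Ideal.Quotient.eq_zero_iff_mem]
    exact Ideal.mem_comap
  exact ringKrullDim_eq_of_ringEquiv
    ((Ideal.quotEquivOfEq hk).trans (RingHom.quotientKerEquivOfSurjective hs))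

/-- PROOF. The quotient rings are isomorphic, because `fmap` is surjective. -/
theorem face_isSub {k : Type} [Field k] [Algebra k F] {n : ℕ} {x : Fin (n + 1) → F} {m e : ℕ}
    {V : Sub F m} (i : Fin (m + 2)) (hV : IsSub k x e V) : IsSub k x e (face i V) := by
  obtain ⟨s, r, h1, h2, h3, h4, h5⟩ := hV
  refine ⟨s, r, h1, ?_, ?_, ?_, h5⟩
  · exact Ideal.comap_isPrime (fmap (Kap V.1) i) V.2
  · have h6 : fmap (Kap V.1) i (∑ j, MvPolynomial.X j - 1) ∈ V.2 := by
      rw [fmap_sum]
      exact h3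
    exact h6
  · exact (Sb_dim i V.2).trans h4

/-- PROOF. `idl O (face i V) = (idl O V).comap (fmap O i)` if `O ≤ V.1` (`fmap` commutes with `map`). -/
theorem face_idl {m : ℕ} {U V : Sub F m} (i : Fin (m + 2)) (hU : U.2.IsPrime)
    (h : idl U.1 V ≤ idl U.1 U) : idl U.1 (face i V) ≤ idl U.1 (face i U) := by
  have hUV := le_of_idl hU h
  intro g hg
  have h1 := (Sb_mem (O := U.1) (W := face i V) hUV g).1 hg
  have h2 : fmap (Kap V.1) i (MvPolynomial.map ((residue V.1.toSubring).comp
      (Subring.inclusion hUV)) g) ∈ V.2 := h1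
  rw [Sb_map] at h2
  have h3 := h ((Sb_mem hUV _).2 h2)
  have h4 := (Sb_mem le_rfl _).1 h3
  rw [← Sb_map] at h4
  exact (Sb_mem (O := U.1) (W := face i U) le_rfl g).2 h4

theorem X_mem_face {m : ℕ} (V : Sub F m) (i : Fin (m + 2)) :
    MvPolynomial.X i ∈ (face i V).2 := by
  show MvPolynomial.X i ∈ V.2.comap (fmap (Kap V.1) i)
  rw [Ideal.mem_comap, Sb_X_self]
  exact V.2.zero_mem

theorem X_mem_face_iff {m : ℕ} (V : Sub F m) (i : Fin (m + 2)) (j : Fin (m + 1)) :
    MvPolynomial.X (i.succAbove j) ∈ (face i V).2 ↔ MvPolynomial.X j ∈ V.2 := by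
  show MvPolynomial.X (i.succAbove j) ∈ V.2.comap (fmap (Kap V.1) i) ↔ _
  rw [Ideal.mem_comap, Sb_X_succ]

/-- PROOF. `fmap` is surjective. -/
theorem face_injective {m : ℕ} (i : Fin (m + 2)) :
    Function.Injective (face i : Sub F m → Sub F (m + 1)) := by
  rintro ⟨O, I⟩ ⟨O', J⟩ h
  unfold face at h
  obtain ⟨h1, h2⟩ := Sigma.mk.inj h
  have h1' : O = O' := h1
  subst h1'
  have h3 : I.comap (fmap (Kap O) i) = J.comap (fmap (Kap O) i) := eq_of_heq h2
  have h4 : I = J := Ideal.comap_injective_of_surjective (fmap (Kap O) i) (fmap_surjective _ i) h3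
  rw [h4]

/-- The boundary of a cycle which meets the faces properly consists of subvarieties which meet the faces properly.
PROOF. Some `mult W (face i V) i` is not zero, so `face i V ⊆ W` (`mult_eq_zero`). Let `U ⊆ V` be in the faces `t_j = 0`,
`j ∈ I`, of dimension `r`. Then `face i U ⊆ face i V ⊆ W` (`face_idl`, `idl_trans`), of dimension `r` (`face_isSub`), in the
faces `t_i = 0` and `t_(i.succAbove j) = 0`, `j ∈ I`; so `r + (I.card + 1) ≤ m + 1`. -/
theorem bdy_proper {k : Type} [Field k] [Algebra k F] {n : ℕ} {x : Fin (n + 1) → F} {m : ℕ}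
    {W : Sub F (m + 1)} (hW : Proper k x (m + 1) W) {V : Sub F m} (hV : IsSub k x m V)
    (h : bdy W V ≠ 0) : Proper k x m V := by
  classical
  unfold bdy at h
  obtain ⟨i, -, hi⟩ := Finset.exists_ne_zero_of_sum_ne_zero h
  have hm : mult W (face i V) i ≠ 0 := by
    intro h0
    rw [h0] at hi
    exact hi (by simp)
  have hVW : idl (face i V).1 W ≤ idl (face i V).1 (face i V) := by
    by_contra hn
    exact hm (mult_eq_zero W (face i V) i hn)
  intro I U r hU hUV hI
  have hUp : U.2.IsPrime := by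
    obtain ⟨_, _, _, h2, _⟩ := hU
    exact h2
  have hfU := face_isSub i hU
  have hfUp : (face i U).2.IsPrime := by
    obtain ⟨_, _, _, h2, _⟩ := hfU
    exact h2
  have hfVp : (face i V).2.IsPrime := by
    obtain ⟨_, _, _, h2, _⟩ := face_isSub i hV
    exact h2
  have h1 : idl (face i U).1 (face i V) ≤ idl (face i U).1 (face i U) := face_idl i hUp hUV
  have h2 := hW (insert i (I.image i.succAbove)) (face i U) r hfU
    (idl_trans hfUp hfVp hVW h1) (by
      intro j hj
      rcases Finset.mem_insert.1 hj with rfl | hj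
      · exact X_mem_face U _
      · obtain ⟨j', hj', rfl⟩ := Finset.mem_image.1 hj
        exact (X_mem_face_iff U i j').2 (hI j' hj'))
  rw [Finset.card_insert_of_notMem (by
    intro hj
    obtain ⟨j', _, hj'⟩ := Finset.mem_image.1 hj
    exact Fin.succAbove_ne i j' hj'),
    Finset.card_image_of_injective _ Fin.succAbove_right_injective] at h2
  omega

/-- A subvariety `V` of dimension `m` of `X × Δ ^ m` which is contained in a face does not occur in the boundary. -/
theorem bdy_eq_zero_of_mem {k : Type} [Field k] [Algebra k F] {n : ℕ} {x : Fin (n + 1) → F}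
    {m : ℕ} {W : Sub F (m + 1)} (hW : Proper k x (m + 1) W) {V : Sub F m}
    (hV : IsSub k x m V) (j : Fin (m + 1)) (hj : MvPolynomial.X j ∈ V.2) : bdy W V = 0 := by
  by_contra h
  have h1 := bdy_proper hW hV h {j} V m hV le_rfl (by
    intro i hi
    rw [Finset.mem_singleton] at hi
    rw [hi]
    exact hj)
  rw [Finset.card_singleton] at h1
  omega

end Pool.Agent.Lib.MP_b197b4_ntZ
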