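import Mathlib
import Pool.Agent.Lib.MP_b197b4_ntZ.Sb

/-!
# MP_b197b4_nt, project LIT, leaf Hq: closed points of the line `t_0 + t_1 = 1` outside its faces
-/

set_option autoImplicit false

namespace Pool.Agent.Lib.MP_b197b4_ntZ

open Polynomial IsLocalRing Pool.Agent.Lib.MP_b197b4_ntK Pool.Agent.Lib.MP_b197b4_ntA

/-- A closed point of the line `t_0 + t_1 = 1` outside its faces. -/
structure Hor {K : Type} [Field K] (q : Ideal (Pol 1 K)) : Prop where
  max : q.IsMaximal
  sum : ∑ i, MvPolynomial.X i - 1 ∈ q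
  ne : ∀ i, MvPolynomial.X i ∉ q

/-- The norm of `- t_1 / t_0` at the point `q`. -/
noncomputable def nu {K : Type} [Field K] (q : Ideal (Pol 1 K)) : K :=
  Algebra.norm K (Ideal.Quotient.mk q (-MvPolynomial.X 1)) /
    Algebra.norm K (Ideal.Quotient.mk q (MvPolynomial.X 0))

/-- The coordinate `t_1` of the line. -/
noncomputable def e1 (R : Type) [CommRing R] : Pol 1 R →ₐ[R] R[X] :=
  MvPolynomial.aeval ![1 - X, X]

private theorem Hq_e1_X (R : Type) [CommRing R] (i : Fin 2) :
    e1 R (MvPolynomial.X i) = ![1 - X, X] i := by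
  unfold e1
  rw [MvPolynomial.aeval_X]

private theorem Hq_sum (R : Type) [CommRing R] :
    e1 R (∑ i, MvPolynomial.X i - 1) = 0 := by
  rw [map_sub, map_one, Fin.sum_univ_two, map_add, Hq_e1_X, Hq_e1_X]
  show (1 - X : R[X]) + X - 1 = 0
  ring

private theorem Hq_dvd {K : Type} [Field K] {w : K[X]} (hw : Irreducible w) (a : K)
    (h : w.IsRoot a) : w ∣ X - C a :=
  (Polynomial.irreducible_X_sub_C a).dvd_symm hw (Polynomial.dvd_iff_isRoot.2 h)

private theorem Hq_norm {K : Type} [Field K] {w : K[X]} (hm : w.Monic) (c : K) :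
    Algebra.norm K (algebraMap K (AdjoinRoot w) c - AdjoinRoot.root w) = w.eval c := by
  have hw : w ≠ 0 := hm.ne_zero
  have h1 := charpoly_leftMulMatrix (AdjoinRoot.powerBasis hw)
  rw [AdjoinRoot.minpoly_powerBasis_gen_of_monic hm, AdjoinRoot.powerBasis_gen] at h1
  rw [Algebra.norm_eq_matrix_det (AdjoinRoot.powerBasis hw).basis, map_sub, AlgHom.commutes]
  have h2 := congrArg (Polynomial.eval c) h1
  rw [Matrix.eval_charpoly] at h2
  rw [← h2]
  rfl

/-- PROOF. `X 1 ↦ X`. -/
theorem e1_surjective (R : Type) [CommRing R] : Function.Surjective (e1 R) := by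
  intro f
  refine ⟨Polynomial.aeval (MvPolynomial.X 1) f, ?_⟩
  have h1 : ((e1 R).comp (Polynomial.aeval (R := R) (MvPolynomial.X 1 : Pol 1 R))) =
      AlgHom.id R R[X] := by
    refine Polynomial.algHom_ext ?_
    rw [AlgHom.comp_apply, Polynomial.aeval_X]
    show MvPolynomial.aeval ![1 - X, X] (MvPolynomial.X 1 : Pol 1 R) = X
    rw [MvPolynomial.aeval_X]
    rfl
  exact congrArg (fun g => g f) h1

/-- PROOF. Modulo `t_0 + t_1 - 1` every polynomial is congruent to a polynomial in `t_1`. -/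
theorem e1_ker (R : Type) [CommRing R] :
    RingHom.ker (e1 R) = Ideal.span {∑ i, MvPolynomial.X i - 1} := by
  refine le_antisymm ?_ ?_
  · intro p hp
    obtain ⟨I, hI⟩ : ∃ I : Ideal (Pol 1 R), I = Ideal.span {∑ i, MvPolynomial.X i - 1} := ⟨_, rfl⟩
    rw [← hI]
    have h1 : Ideal.Quotient.mkₐ R I = ((Ideal.Quotient.mkₐ R I).comp
        (Polynomial.aeval (R := R) (MvPolynomial.X 1 : Pol 1 R))).comp (e1 R) := by
      refine MvPolynomial.algHom_ext fun i => ?_
      rw [AlgHom.comp_apply, Hq_e1_X, AlgHom.comp_apply]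
      fin_cases i
      · show Ideal.Quotient.mk I (MvPolynomial.X 0) =
          Ideal.Quotient.mk I (Polynomial.aeval (MvPolynomial.X 1) (1 - X : R[X]))
        rw [map_sub, map_one, Polynomial.aeval_X, Ideal.Quotient.eq, hI]
        refine Ideal.subset_span ?_
        rw [Set.mem_singleton_iff, Fin.sum_univ_two]
        ring
      · show Ideal.Quotient.mk I (MvPolynomial.X 1) =
          Ideal.Quotient.mk I (Polynomial.aeval (MvPolynomial.X 1) (X : R[X]))
        rw [Polynomial.aeval_X]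
    have h2 := congrArg (fun g => g p) h1
    have h3 : Ideal.Quotient.mk I p = Ideal.Quotient.mk I
      (Polynomial.aeval (MvPolynomial.X 1) (e1 R p)) := h2
    rw [(RingHom.mem_ker).1 hp, map_zero, map_zero] at h3
    exact Ideal.Quotient.eq_zero_iff_mem.1 h3
  · rw [Ideal.span_le, Set.singleton_subset_iff]
    show e1 R (∑ i, MvPolynomial.X i - 1) = 0
    exact Hq_sum R

/-- PROOF. `q` contains the kernel of the surjective `e1`, so it is the preimage of a maximal ideal of `K[X]`, generated by a monic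
irreducible polynomial `w`; `X ∉ (w)` and `1 - X ∉ (w)`: `w(0) ≠ 0`, `w(1) ≠ 0` (if `w(0) = 0` then `X ∣ w`, so `w` is
associated to `X`, and `X ∈ (w)`). -/
theorem hor_exists {K : Type} [Field K] {q : Ideal (Pol 1 K)} (hq : Hor q) :
    ∃ w : K[X], w.Monic ∧ Irreducible w ∧ w.eval 0 ≠ 0 ∧ w.eval 1 ≠ 0 ∧
      q = (Ideal.span {w}).comap (e1 K) := by
  classical
  have hker : RingHom.ker (e1 K) ≤ q := by
    rw [e1_ker, Ideal.span_le, Set.singleton_subset_iff]
    exact hq.sum
  have hcm : (q.map (e1 K)).comap (e1 K) = q := by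
    rw [Ideal.comap_map_of_surjective (e1 K) (e1_surjective K), sup_eq_left]
    exact hker
  have hmax : (q.map (e1 K)).IsMaximal := by
    rcases Ideal.map_eq_top_or_isMaximal_of_surjective (e1 K) (e1_surjective K) hq.max with h | h
    · exfalso
      rw [h, Ideal.comap_top] at hcm
      exact hq.max.ne_top hcm.symm
    · exact h
  obtain ⟨g, hg⟩ := (IsPrincipalIdealRing.principal (q.map (e1 K))).principal
  have hg1 : q.map (e1 K) = Ideal.span {g} := hg
  have hg0 : g ≠ 0 := by
    rintro rfl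
    rw [Ideal.span_singleton_zero] at hg1
    have h2 := Ideal.bot_lt_of_maximal (q.map (e1 K)) (Polynomial.not_isField K)
    rw [hg1] at h2
    exact lt_irrefl _ h2
  have hgi : Irreducible g := by
    have h2 := hmax.isPrime
    rw [hg1, Ideal.span_singleton_prime hg0] at h2
    exact h2.irreducible
  have hass : Associated (normalize g) g := normalize_associated g
  have hw : Irreducible (normalize g) := hass.irreducible_iff.2 hgi
  have hspan : q.map (e1 K) = Ideal.span {normalize g} := by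
    rw [hg1, Ideal.span_singleton_eq_span_singleton]
    exact hass.symm
  have hq' : q = (Ideal.span {normalize g}).comap (e1 K) := by
    rw [← hspan, hcm]
  refine ⟨normalize g, Polynomial.monic_normalize hg0, hw, ?_, ?_, hq'⟩
  · intro h
    apply hq.ne 1
    rw [hq', Ideal.mem_comap, Hq_e1_X]
    exact Ideal.mem_span_singleton.2 (Hq_dvd hw 0 (by rwa [Polynomial.IsRoot]) |>.trans (by simp))
  · intro h
    apply hq.ne 0
    rw [hq', Ideal.mem_comap, Hq_e1_X]
    refine Ideal.mem_span_singleton.2 ((Hq_dvd hw 1 (by rwa [Polynomial.IsRoot])).trans ?_)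
    refine ⟨-1, ?_⟩
    show (1 - X : K[X]) = _
    rw [Polynomial.C_1]
    ring

/-- PROOF. The converse. -/
theorem hor_of {K : Type} [Field K] {w : K[X]} (hw : Irreducible w) (h0 : w.eval 0 ≠ 0)
    (h1 : w.eval 1 ≠ 0) : Hor ((Ideal.span {w}).comap (e1 K)) := by
  have hmax : (Ideal.span {w}).IsMaximal := PrincipalIdealRing.isMaximal_of_irreducible hw
  refine ⟨Ideal.comap_isMaximal_of_surjective (e1 K) (e1_surjective K), ?_, ?_⟩
  · rw [Ideal.mem_comap, Hq_sum]
    exact Ideal.zero_mem _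
  · intro i hi
    rw [Ideal.mem_comap, Hq_e1_X, Ideal.mem_span_singleton] at hi
    fin_cases i
    · apply h1
      have h2 : w ∣ X - C 1 := by
        refine (show w ∣ (1 - X : K[X]) from hi).trans ⟨-1, ?_⟩
        rw [Polynomial.C_1]
        ring
      have h3 : X - C 1 ∣ w := hw.dvd_symm (Polynomial.irreducible_X_sub_C 1) h2
      exact Polynomial.dvd_iff_isRoot.1 h3
    · apply h0
      have h2 : w ∣ X - C 0 := by
        refine (show w ∣ (X : K[X]) from hi).trans ?_
        rw [Polynomial.C_0, sub_zero]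
      have h3 : X - C 0 ∣ w := hw.dvd_symm (Polynomial.irreducible_X_sub_C 0) h2
      exact Polynomial.dvd_iff_isRoot.1 h3

/-- PROOF. `Pol 1 K ⧸ q ≃ₐ[K] K[X] ⧸ (w) = AdjoinRoot w`, `t_1 ↦ x`, the root; the norm of `c - x` is `w(c)`
(`w` is the minimal polynomial and the characteristic polynomial of `x`): `N(-t_1) = w(0)`, `N(t_0) = N(1 - x) = w(1)`. -/
theorem nu_eq {K : Type} [Field K] {w : K[X]} (hm : w.Monic) (hw : Irreducible w) :
    nu ((Ideal.span {w}).comap (e1 K)) = w.eval 0 / w.eval 1 := by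
  obtain ⟨φ, hφ⟩ : ∃ φ : Pol 1 K →ₐ[K] AdjoinRoot w, φ = (AdjoinRoot.mkₐ w).comp (e1 K) :=
    ⟨_, rfl⟩
  have hsurj : Function.Surjective φ := by
    rw [hφ]
    exact (AdjoinRoot.mk_surjective (g := w)).comp (e1_surjective K)
  have hker : (Ideal.span {w}).comap (e1 K) = RingHom.ker φ := by
    ext p
    rw [Ideal.mem_comap, RingHom.mem_ker, hφ]
    show _ ↔ AdjoinRoot.mk w (e1 K p) = 0
    rw [AdjoinRoot.mk_eq_zero, Ideal.mem_span_singleton]
  rw [hker]
  have hn : ∀ p : Pol 1 K, Algebra.norm K (Ideal.Quotient.mk (RingHom.ker φ) p) =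
      Algebra.norm K (φ p) := by
    intro p
    have h1 := Algebra.norm_eq_of_algEquiv (Ideal.quotientKerAlgEquivOfSurjective hsurj)
      (Ideal.Quotient.mk (RingHom.ker φ) p)
    rw [← h1]
    rfl
  unfold nu
  rw [hn, hn]
  have e0 : φ (-MvPolynomial.X 1) = algebraMap K (AdjoinRoot w) 0 - AdjoinRoot.root w := by
    rw [map_neg, map_zero, zero_sub, hφ, AlgHom.comp_apply, Hq_e1_X]
    rfl
  have e2 : φ (MvPolynomial.X 0) = algebraMap K (AdjoinRoot w) 1 - AdjoinRoot.root w := by
    rw [map_one, hφ, AlgHom.comp_apply, Hq_e1_X]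
    show AdjoinRoot.mk w (1 - X) = _
    rw [map_sub, map_one]
    rfl
  rw [e0, e2, Hq_norm hm, Hq_norm hm]

/-- PROOF. `e1` is surjective; monic associated polynomials are equal. -/
theorem hor_inj {K : Type} [Field K] {w w' : K[X]} (hm : w.Monic) (hm' : w'.Monic)
    (h : (Ideal.span {w}).comap (e1 K) = (Ideal.span {w'}).comap (e1 K)) : w = w' := by
  have h1 := Ideal.comap_injective_of_surjective (e1 K) (e1_surjective K) h
  rw [Ideal.span_singleton_eq_span_singleton] at h1
  exact Polynomial.eq_of_monic_of_associated hm hm' h1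

/-- PROOF. `hor_exists`, `nu_eq`. -/
theorem nu_ne {K : Type} [Field K] {q : Ideal (Pol 1 K)} (hq : Hor q) : nu q ≠ 0 := by
  obtain ⟨w, hm, hw, h0, h1, rfl⟩ := hor_exists hq
  rw [nu_eq hm hw]
  exact div_ne_zero h0 h1

/-- Every value is taken. PROOF. `w = X - c` with `c = f / (f - 1)`: `w(0) / w(1) = c / (c - 1) = f`. -/
theorem nu_surj {K : Type} [Field K] (f : K) (h0 : f ≠ 0) (h1 : f ≠ 1) :
    ∃ q : Ideal (Pol 1 K), Hor q ∧ nu q = f := by
  have hf : f - 1 ≠ 0 := sub_ne_zero.2 h1
  have e0 : (X - C (f / (f - 1)) : K[X]).eval 0 = -(f / (f - 1)) := by simp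
  have e2 : (X - C (f / (f - 1)) : K[X]).eval 1 = -(1 / (f - 1)) := by
    rw [Polynomial.eval_sub, Polynomial.eval_X, Polynomial.eval_C]
    field_simp
    ring
  have hi := Polynomial.irreducible_X_sub_C (f / (f - 1))
  refine ⟨(Ideal.span {X - C (f / (f - 1))}).comap (e1 K), hor_of hi ?_ ?_, ?_⟩
  · rw [e0]
    exact neg_ne_zero.2 (div_ne_zero h0 hf)
  · rw [e2]
    exact neg_ne_zero.2 (one_div_ne_zero hf)
  · rw [nu_eq (Polynomial.monic_X_sub_C _) hi, e0, e2]
    field_simp

end Pool.Agent.Lib.MP_b197b4_ntZ
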