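import Mathlib
import Pool.Agent.Lib.MP_b197b4_ntZ.Sb

/-!
# MP_b197b4_nt, project LIT, leaf Dm: dimensions of subvarieties
-/

set_option autoImplicit false

namespace Pool.Agent.Lib.MP_b197b4_ntZ

open IsLocalRing Pool.Agent.Lib.MP_b197b4_ntK Pool.Agent.Lib.MP_b197b4_ntA

variable {k : Type} {F : Type} [Field k] [Field F] [Algebra k F] {n : ℕ} {x : Fin (n + 1) → F}

/-- The ideal of `U` in `A[t_0, ..., t_m]`, where `A` is a subring of the local ring `U.1`. -/
noncomputable def nidl {m : ℕ} {A : Subring F} (U : Sub F m) (h : A ≤ U.1.toSubring) :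
    Ideal (Pol m A) :=
  U.2.comap (MvPolynomial.map ((residue U.1.toSubring).comp (Subring.inclusion h)))

/-- the homomorphism of the chart to the residue field -/
private noncomputable abbrev Dm_psi {S : LocalSubring F} {A : Subring F} (hi : A ≤ S.toSubring) : A →+* Kap S :=
  (residue S.toSubring).comp (Subring.inclusion hi)

private theorem Dm_mem {S : LocalSubring F} {A : Subring F} (hi : A ≤ S.toSubring) (a : A) :
    a ∈ XP_ker hi ↔ Dm_psi hi a = 0 := by
  rw [XP_ker, RingHom.mem_ker]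

private theorem Dm_unit {S : LocalSubring F} {A : Subring F} (hi : A ≤ S.toSubring) (a : A) :
    Dm_psi hi a ≠ 0 ↔ IsUnit (⟨(a : F), hi a.2⟩ : S.toSubring) := by
  rw [← not_iff_not, not_not, ← Dm_mem, XP_mem_ker]

private theorem Dm_frac (hne : ∀ i, x i ≠ 0) {e : ℕ} {S : LocalSubring F} (hS : S ∈ Pts k x e)
    {i : Fin (n + 1)} (hi : (cht k x i).toSubring ≤ S.toSubring) (z : Kap S) :
    ∃ a b : (cht k x i).toSubring, Dm_psi hi b ≠ 0 ∧ Dm_psi hi b * z = Dm_psi hi a := by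
  obtain ⟨⟨y, hy⟩, rfl⟩ := residue_surjective z
  obtain ⟨a, b, ha, hb, hu, rfl⟩ := XP_frac hne hS hi hy
  have hb0 : Dm_psi hi ⟨b, hb⟩ ≠ 0 := (Dm_unit hi ⟨b, hb⟩).2 hu
  refine ⟨⟨a, ha⟩, ⟨b, hb⟩, hb0, ?_⟩
  rw [XP_residue_div (hi ha) (hi hb) hu hy]
  exact mul_div_cancel₀ _ hb0

/-- common denominators -/
private theorem Dm_clear (hne : ∀ i, x i ≠ 0) {e : ℕ} {S : LocalSubring F} (hS : S ∈ Pts k x e)
    {i : Fin (n + 1)} (hi : (cht k x i).toSubring ≤ S.toSubring) {m : ℕ} (f : Pol m (Kap S)) :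
    ∃ (g : Pol m (cht k x i).toSubring) (b : (cht k x i).toSubring), Dm_psi hi b ≠ 0 ∧
      MvPolynomial.C (Dm_psi hi b) * f = MvPolynomial.map (Dm_psi hi) g := by
  induction f using MvPolynomial.induction_on with
  | C z =>
    obtain ⟨a, b, hb, h⟩ := Dm_frac hne hS hi z
    refine ⟨MvPolynomial.C a, b, hb, ?_⟩
    rw [← MvPolynomial.C_mul, h, MvPolynomial.map_C]
  | add p q hp hq =>
    obtain ⟨g, b, hb, h⟩ := hp
    obtain ⟨g', b', hb', h'⟩ := hq
    refine ⟨MvPolynomial.C b' * g + MvPolynomial.C b * g', b * b', ?_, ?_⟩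
    · rw [map_mul]
      exact mul_ne_zero hb hb'
    · rw [map_mul, map_mul, map_add, map_mul, map_mul, MvPolynomial.map_C, MvPolynomial.map_C, ← h, ← h']
      ring
  | mul_X p j hp =>
    obtain ⟨g, b, hb, h⟩ := hp
    refine ⟨g * MvPolynomial.X j, b, hb, ?_⟩
    rw [map_mul, MvPolynomial.map_X, ← h, mul_assoc]

/-- a point is determined by its ideal in a chart -/
private theorem Dm_pt (hne : ∀ i, x i ≠ 0) {e e' : ℕ} {S S' : LocalSubring F} (hS : S ∈ Pts k x e)
    (hS' : S' ∈ Pts k x e') {i : Fin (n + 1)} (hi : (cht k x i).toSubring ≤ S.toSubring)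
    (hi' : (cht k x i).toSubring ≤ S'.toSubring) (h : XP_ker hi = XP_ker hi') : S = S' := by
  have key : ∀ {r r' : ℕ} {T T' : LocalSubring F} (_ : T ∈ Pts k x r) (_ : T' ∈ Pts k x r')
      (h1 : (cht k x i).toSubring ≤ T.toSubring) (h2 : (cht k x i).toSubring ≤ T'.toSubring),
      XP_ker h1 = XP_ker h2 → T.toSubring ≤ T'.toSubring := by
    intro r r' T T' hT hT' h1 h2 h3 y hy
    obtain ⟨a, b, ha, hb, hu, rfl⟩ := XP_frac hne hT h1 hy
    have h4 : (⟨b, hb⟩ : (cht k x i).toSubring) ∉ XP_ker h2 := by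
      rw [← h3, XP_mem_ker, not_not]
      exact hu
    rw [XP_mem_ker, not_not] at h4
    obtain ⟨w, hw⟩ := h4.exists_right_inv
    have h5 : b * (w : F) = 1 := congrArg Subtype.val hw
    have h6 : a / b = a * (w : F) := by
      rw [div_eq_mul_inv, eq_inv_of_mul_eq_one_right h5]
    rw [h6]
    exact mul_mem (h2 ha) w.2
  refine LocalSubring.toSubring_injective (le_antisymm ?_ ?_)
  · exact key hS hS' hi hi' h
  · exact key hS' hS hi' hi h.symm

/-- the ideal of the point -/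
private theorem Dm_C {m : ℕ} {A : Subring F} {U : Sub F m} (hU : U.2.IsPrime) (h : A ≤ U.1.toSubring) (a : A) :
    MvPolynomial.C a ∈ nidl U h ↔ a ∈ XP_ker h := by
  rw [Dm_mem, nidl, Ideal.mem_comap, MvPolynomial.map_C]
  constructor
  · intro h1
    by_contra h2
    refine hU.ne_top (Ideal.eq_top_of_isUnit_mem _ h1 ?_)
    exact (Ne.isUnit h2).map MvPolynomial.C
  · intro h1
    have h2 : ((residue U.1.toSubring).comp (Subring.inclusion h)) a = 0 := h1
    rw [h2, map_zero]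
    exact zero_mem _

private theorem Dm_prime {m : ℕ} {A : Subring F} {U : Sub F m} (hU : U.2.IsPrime) (h : A ≤ U.1.toSubring) :
    (nidl U h).IsPrime := by
  have := hU
  exact Ideal.comap_isPrime _ _

/-- PROOF. Let `A = cht k x i`, `κ = κ(U.1)`, `L` the fraction field of `κ[t] / U.2`. The homomorphism `φ : A[t] → L` has the kernel
`nidl U hi`, and every element of `L` is a quotient of two values of `φ` (every element of `κ` is a quotient of two values
of `A → κ`: `XP_frac`). `A[t]` is a finitely generated `k`-algebra, so by `XP_dim_ker` the dimension of `A[t] / nidl` is the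
transcendence degree of `L` over `k`, which is the sum of the transcendence degree `s` of `κ` over `k` (`XP_exists`,
`XP_chart_dim`) and of that of `L` over `κ`, which is the dimension of `κ[t] / U.2` (`XP_dim_ker` over the field `κ`). -/
theorem nidl_dim (hne : ∀ i, x i ≠ 0) {m e : ℕ} {U : Sub F m} (hU : IsSub k x e U)
    {i : Fin (n + 1)} (hi : (cht k x i).toSubring ≤ U.1.toSubring) :
    ringKrullDim (Pol m (cht k x i).toSubring ⧸ nidl U hi) = e := by
  obtain ⟨s, r, hs, hp, -, hr, rfl⟩ := hU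
  have hpr := hp
  let _ : Algebra k (Kap U.1) := XP_alg (XP_const hi)
  have hdom : IsDomain (Pol m (Kap U.1) ⧸ U.2) := Ideal.Quotient.isDomain _
  let L := FractionRing (Pol m (Kap U.1) ⧸ U.2)
  have hFT : Algebra.FiniteType k (cht k x i) := (Subalgebra.fg_iff_finiteType _).1 (XP_fg i)
  have hFT' : Algebra.FiniteType k (MvPolynomial (Fin (m + 1)) (cht k x i)) :=
    Algebra.FiniteType.trans hFT inferInstance
  let φ : MvPolynomial (Fin (m + 1)) (cht k x i) →ₐ[k] L :=
    { toRingHom := (algebraMap (Pol m (Kap U.1) ⧸ U.2) L).comp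
        ((Ideal.Quotient.mk U.2).comp (MvPolynomial.map (Dm_psi hi)))
      commutes' := fun c => by
        change algebraMap (Pol m (Kap U.1) ⧸ U.2) L (Ideal.Quotient.mk U.2 (MvPolynomial.map (Dm_psi hi)
          (MvPolynomial.C (algebraMap k (cht k x i) c)))) = algebraMap k L c
        rw [MvPolynomial.map_C]
        rfl }
  have hφ : ∀ g, φ g = algebraMap (Pol m (Kap U.1) ⧸ U.2) L
      (Ideal.Quotient.mk U.2 (MvPolynomial.map (Dm_psi hi) g)) := fun g => rfl
  have hker : RingHom.ker φ = nidl U hi := by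
    ext g
    rw [RingHom.mem_ker, hφ]
    change _ ↔ MvPolynomial.map (Dm_psi hi) g ∈ U.2
    rw [← Ideal.Quotient.eq_zero_iff_mem, FaithfulSMul.algebraMap_eq_zero_iff]
  have hinj : ∀ {f : Pol m (Kap U.1)}, algebraMap (Pol m (Kap U.1) ⧸ U.2) L (Ideal.Quotient.mk U.2 f) = 0 →
      f ∈ U.2 := fun {f} h => by
    rwa [FaithfulSMul.algebraMap_eq_zero_iff, Ideal.Quotient.eq_zero_iff_mem] at h
  have hC : ∀ c : Kap U.1, c ≠ 0 → algebraMap (Pol m (Kap U.1) ⧸ U.2) L
      (Ideal.Quotient.mk U.2 (MvPolynomial.C c)) ≠ 0 := by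
    intro c hc h0
    exact hp.ne_top (Ideal.eq_top_of_isUnit_mem _ (hinj h0) ((Ne.isUnit hc).map MvPolynomial.C))
  have hfr : ∀ z : L, ∃ p q : Pol m (Kap U.1), z = algebraMap (Pol m (Kap U.1) ⧸ U.2) L
      (Ideal.Quotient.mk U.2 p) / algebraMap (Pol m (Kap U.1) ⧸ U.2) L (Ideal.Quotient.mk U.2 q) := by
    intro z
    obtain ⟨p, q, -, rfl⟩ := IsFractionRing.div_surjective (A := Pol m (Kap U.1) ⧸ U.2) z
    obtain ⟨p, rfl⟩ := Ideal.Quotient.mk_surjective p
    obtain ⟨q, rfl⟩ := Ideal.Quotient.mk_surjective q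
    exact ⟨p, q, rfl⟩
  obtain ⟨s1, t1, d1⟩ := XP_dim_ker φ (by
    intro z
    obtain ⟨p, q, rfl⟩ := hfr z
    obtain ⟨g, b, hb, hg⟩ := Dm_clear hne hs hi p
    obtain ⟨g', b', hb', hg'⟩ := Dm_clear hne hs hi q
    refine ⟨g * MvPolynomial.C b', g' * MvPolynomial.C b, ?_⟩
    have h1 : φ (g * MvPolynomial.C b') = algebraMap (Pol m (Kap U.1) ⧸ U.2) L
        (Ideal.Quotient.mk U.2 (MvPolynomial.C (Dm_psi hi b * Dm_psi hi b'))) *
        algebraMap (Pol m (Kap U.1) ⧸ U.2) L (Ideal.Quotient.mk U.2 p) := by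
      rw [hφ, ← map_mul, ← map_mul]
      congr 2
      rw [map_mul, MvPolynomial.map_C, ← hg, MvPolynomial.C_mul]
      ring
    have h2 : φ (g' * MvPolynomial.C b) = algebraMap (Pol m (Kap U.1) ⧸ U.2) L
        (Ideal.Quotient.mk U.2 (MvPolynomial.C (Dm_psi hi b * Dm_psi hi b'))) *
        algebraMap (Pol m (Kap U.1) ⧸ U.2) L (Ideal.Quotient.mk U.2 q) := by
      rw [hφ, ← map_mul, ← map_mul]
      congr 2
      rw [map_mul, MvPolynomial.map_C, ← hg', MvPolynomial.C_mul]
      ring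
    rw [h1, h2, mul_div_mul_left _ _ (hC _ (mul_ne_zero hb hb'))])
  obtain ⟨s2, t2, d2⟩ := XP_exists hne hs hi (XP_const hi)
  let φ' : Pol m (Kap U.1) →ₐ[Kap U.1] L :=
    { toRingHom := (algebraMap (Pol m (Kap U.1) ⧸ U.2) L).comp (Ideal.Quotient.mk U.2)
      commutes' := fun c => rfl }
  have hker' : RingHom.ker φ' = U.2 := by
    ext g
    exact ⟨fun h => hinj h, fun h => by
      change algebraMap (Pol m (Kap U.1) ⧸ U.2) L (Ideal.Quotient.mk U.2 g) = 0
      rw [Ideal.Quotient.eq_zero_iff_mem.2 h, map_zero]⟩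
  obtain ⟨s3, t3, d3⟩ := XP_dim_ker φ' (by
    intro z
    obtain ⟨p, q, rfl⟩ := hfr z
    exact ⟨p, q, rfl⟩)
  rw [hker', hr] at d3
  rw [XP_chart_dim hne hs hi] at d2
  have e3 : r = s3 := by exact_mod_cast d3
  have e2 : s = s2 := by exact_mod_cast d2
  have htr : Algebra.trdeg k (Kap U.1) + Algebra.trdeg (Kap U.1) L = Algebra.trdeg k L :=
    trdeg_add_eq k (Kap U.1)
  rw [t1, t3] at htr
  have t2' : Algebra.trdeg k (Kap U.1) = s2 := t2
  rw [t2'] at htr
  have e1 : s2 + s3 = s1 := by exact_mod_cast htr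
  have d1' : ringKrullDim (Pol m (cht k x i).toSubring ⧸ nidl U hi) = (s1 : WithBot ℕ∞) := by
    rw [← hker]
    exact d1
  rw [d1', ← e1, ← e2, ← e3]

/-- PROOF. `U.1` is the localization of `A = cht k x i` at the prime ideal `nidl U hi ∩ A` (`XP_frac`, `XP_ker`), the same for `U'.1`;
so `U.1 = U'.1`. Every element of `κ[t]` is an element of the image of `A[t]` divided by a nonzero element of the image of
`A` (`XP_frac`, common denominator of the coefficients), so an ideal of `κ[t]` is determined by its preimage in `A[t]`. -/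
theorem nidl_inj (hne : ∀ i, x i ≠ 0) {m e e' : ℕ} {U U' : Sub F m} (hU : IsSub k x e U)
    (hU' : IsSub k x e' U') {i : Fin (n + 1)} (hi : (cht k x i).toSubring ≤ U.1.toSubring)
    (hi' : (cht k x i).toSubring ≤ U'.1.toSubring) (h : nidl U hi = nidl U' hi') : U = U' := by
  obtain ⟨s, r, hs, hp, -, -, -⟩ := hU
  obtain ⟨s', r', hs', hp', -, -, -⟩ := hU'
  have h1 : U.1 = U'.1 := by
    refine Dm_pt hne hs hs' hi hi' ?_
    ext a
    rw [← Dm_C hp, ← Dm_C hp', h]
  obtain ⟨O, p⟩ := U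
  obtain ⟨O', p'⟩ := U'
  obtain rfl : O = O' := h1
  have h2 : p = p' := by
    ext f
    obtain ⟨g, b, hb, hg⟩ := Dm_clear hne hs hi f
    have h3 : ∀ q : Ideal (Pol m (Kap O)), f ∈ q ↔ MvPolynomial.map (Dm_psi hi) g ∈ q := by
      intro q
      rw [← hg]
      exact (Ideal.unit_mul_mem_iff_mem q ((Ne.isUnit hb).map MvPolynomial.C)).symm
    rw [h3 p, h3 p']
    exact iff_of_eq (congrArg (fun I => g ∈ I) h)
  rw [h2]

/-- PROOF. `nidl` is the preimage of `idl` under `A[t] → U.1[t]`. -/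
theorem nidl_le {m : ℕ} {V W : Sub F m} (h : idl V.1 W ≤ idl V.1 V) (hVW : V.1.toSubring ≤ W.1.toSubring)
    {i : Fin (n + 1)} (hi : (cht k x i).toSubring ≤ V.1.toSubring) :
    nidl W (hi.trans hVW) ≤ nidl V hi := by
  intro g hg
  have h1 : MvPolynomial.map (Subring.inclusion hi) g ∈ idl V.1 W := by
    unfold idl
    rw [dif_pos hVW, Ideal.mem_comap, MvPolynomial.map_map]
    exact hg
  have h2 := h h1
  unfold idl at h2
  rw [dif_pos le_rfl, Ideal.mem_comap, MvPolynomial.map_map] at h2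
  exact h2

/-- Every point is in a chart. -/
theorem exists_chart {e : ℕ} {S : LocalSubring F} (hS : S ∈ Pts k x e) :
    ∃ i, (cht k x i).toSubring ≤ S.toSubring := by
  obtain ⟨i, P, hP, -, rfl⟩ := hS
  exact ⟨i, LocalSubring.le_ofPrime _ _⟩

/-- **DIM**: if `V ⊆ W` then `dim V ≤ dim W`, with equality only for `V = W`.
PROOF. `V.1 ≤ W.1` (`le_of_idl`); a chart `i` of `V.1` (`exists_chart`) is a chart of `W.1`. `nidl W ≤ nidl V` (`nidl_le`), prime
ideals. If they are equal then `V = W` (`nidl_inj`) and `r = e`; if not, `XP_dim_lt` and `nidl_dim` give `r + 1 ≤ e`. -/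
theorem sub_dim (hne : ∀ i, x i ≠ 0) {m e r : ℕ} {V W : Sub F m} (hV : IsSub k x r V)
    (hW : IsSub k x e W) (h : idl V.1 W ≤ idl V.1 V) : r ≤ e ∧ (r = e → V = W) := by
  have hV' := hV
  have hW' := hW
  obtain ⟨s, -, hs, hp, -⟩ := hV'
  obtain ⟨-, -, -, hp', -⟩ := hW'
  have hVW := le_of_idl hp h
  obtain ⟨i, hi⟩ := exists_chart hs
  have h1 := nidl_le h hVW hi
  have h2 := nidl_dim hne hV hi
  have h3 := nidl_dim hne hW (hi.trans hVW)
  by_cases h4 : nidl W (hi.trans hVW) = nidl V hi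
  · have h5 : (r : WithBot ℕ∞) = e := by
      rw [← h2, ← h3, h4]
    have h6 : r = e := by exact_mod_cast h5
    exact ⟨h6.le, fun _ => (nidl_inj hne hW hV (hi.trans hVW) hi h4).symm⟩
  · have := Dm_prime hp' (hi.trans hVW)
    have h5 := XP_dim_lt (lt_of_le_of_ne h1 h4)
    rw [h2, h3] at h5
    have h6 : r + 1 ≤ e := by exact_mod_cast h5
    exact ⟨by omega, fun h7 => by omega⟩

/-- Points of `X`: `O ≤ S` implies that the dimension of `O` is at most that of `S`, with equality only for `O = S`.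
PROOF. `sub_dim` with `m = 0`, or directly with `XP_chart_dim` and `XP_dim_lt`. -/
theorem pts_dim (hne : ∀ i, x i ≠ 0) {e r : ℕ} {O S : LocalSubring F} (hO : O ∈ Pts k x r)
    (hS : S ∈ Pts k x e) (h : O.toSubring ≤ S.toSubring) : r ≤ e ∧ (r = e → O = S) := by
  obtain ⟨i, hi⟩ := exists_chart hO
  have h1 : XP_ker (hi.trans h) ≤ XP_ker hi := by
    intro a ha
    rw [XP_mem_ker] at ha ⊢
    intro hu
    exact ha (hu.map (Subring.inclusion h))
  have h2 := XP_chart_dim hne hO hi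
  have h3 := XP_chart_dim hne hS (hi.trans h)
  by_cases h4 : XP_ker (hi.trans h) = XP_ker hi
  · have h5 : (r : WithBot ℕ∞) = e := by
      rw [← h2, ← h3, h4]
    have h6 : r = e := by exact_mod_cast h5
    exact ⟨h6.le, fun _ => Dm_pt hne hO hS hi (hi.trans h) h4.symm⟩
  · have h5 := XP_dim_lt (lt_of_le_of_ne h1 h4)
    rw [h2, h3] at h5
    have h6 : r + 1 ≤ e := by exact_mod_cast h5
    exact ⟨by omega, fun h7 => by omega⟩

end Pool.Agent.Lib.MP_b197b4_ntZ
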