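import Mathlib
import Pool.Agent.Lib.MP_b197b4_ntZ.Sb

/-!
# MP_b197b4_nt, project LIT, leaf Va: the simplex over a field
-/

set_option autoImplicit false

namespace Pool.Agent.Lib.MP_b197b4_ntZ

open IsLocalRing Pool.Agent.Lib.MP_b197b4_ntK Pool.Agent.Lib.MP_b197b4_ntA

/-- The ideal of the simplex `t_0 + ... + t_m = 1`. -/
noncomputable def sim (m : ℕ) (R : Type) [CommRing R] : Ideal (Pol m R) :=
  Ideal.span {∑ i, MvPolynomial.X i - 1}

private noncomputable def Va_psi (m : ℕ) (K : Type) [Field K] : Pol m K →ₐ[K] MvPolynomial (Fin m) K :=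
  MvPolynomial.aeval (Fin.cons (1 - ∑ j, MvPolynomial.X j) MvPolynomial.X)

private theorem Va_psi_zero (m : ℕ) (K : Type) [Field K] :
    Va_psi m K (MvPolynomial.X 0) = 1 - ∑ j, MvPolynomial.X j := by
  unfold Va_psi
  rw [MvPolynomial.aeval_X, Fin.cons_zero]

private theorem Va_psi_succ (m : ℕ) (K : Type) [Field K] (j : Fin m) :
    Va_psi m K (MvPolynomial.X j.succ) = MvPolynomial.X j := by
  unfold Va_psi
  rw [MvPolynomial.aeval_X, Fin.cons_succ]

private theorem Va_psi_rename (m : ℕ) (K : Type) [Field K] (f : MvPolynomial (Fin m) K) :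
    Va_psi m K (MvPolynomial.rename Fin.succ f) = f := by
  have h : (Va_psi m K).comp (MvPolynomial.rename Fin.succ) = AlgHom.id K _ := by
    apply MvPolynomial.algHom_ext
    intro j
    rw [AlgHom.comp_apply, MvPolynomial.rename_X, Va_psi_succ, AlgHom.id_apply]
  exact DFunLike.congr_fun h f

private theorem Va_surj (m : ℕ) (K : Type) [Field K] : Function.Surjective (Va_psi m K) :=
  fun f => ⟨_, Va_psi_rename m K f⟩

private theorem Va_ker (m : ℕ) (K : Type) [Field K] : RingHom.ker (Va_psi m K).toRingHom = sim m K := by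
  apply le_antisymm
  · intro f hf
    have hf' : Va_psi m K f = 0 := hf
    have h : ((Ideal.Quotient.mkₐ K (sim m K)).comp ((MvPolynomial.rename Fin.succ).comp (Va_psi m K))) =
        Ideal.Quotient.mkₐ K (sim m K) := by
      apply MvPolynomial.algHom_ext
      intro i
      refine Fin.cases ?_ (fun j => ?_) i
      · rw [AlgHom.comp_apply, AlgHom.comp_apply, Va_psi_zero, map_sub, map_one, map_sum]
        simp only [MvPolynomial.rename_X]
        rw [Ideal.Quotient.mkₐ_eq_mk, Ideal.Quotient.eq, ← neg_mem_iff]
        have h1 : -(1 - ∑ j : Fin m, MvPolynomial.X (R := K) j.succ - MvPolynomial.X 0) =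
            ∑ i, MvPolynomial.X i - 1 := by
          rw [Fin.sum_univ_succ]
          ring
        rw [h1]
        exact Ideal.subset_span rfl
      · rw [AlgHom.comp_apply, AlgHom.comp_apply, Va_psi_succ, MvPolynomial.rename_X]
    have h2 := DFunLike.congr_fun h f
    rw [AlgHom.comp_apply, AlgHom.comp_apply, hf', map_zero, map_zero] at h2
    exact Ideal.Quotient.eq_zero_iff_mem.1 h2.symm
  · rw [sim, Ideal.span_le, Set.singleton_subset_iff]
    change Va_psi m K (∑ i, MvPolynomial.X i - 1) = 0
    rw [map_sub, map_one, map_sum, Fin.sum_univ_succ, Va_psi_zero]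
    simp only [Va_psi_succ]
    ring

private theorem Va_dim_equiv {A B : Type} [CommRing A] [CommRing B] (f : A →+* B) (hf : Function.Surjective f)
    {q : Ideal A} {q' : Ideal B} (h : q'.comap f = q) : ringKrullDim (A ⧸ q) = ringKrullDim (B ⧸ q') := by
  have h1 : RingHom.ker ((Ideal.Quotient.mk q').comp f) = q := by
    rw [← h]
    ext a
    rw [RingHom.mem_ker, RingHom.comp_apply, Ideal.Quotient.eq_zero_iff_mem, Ideal.mem_comap]
  have e := RingHom.quotientKerEquivOfSurjective
    (f := (Ideal.Quotient.mk q').comp f) (Ideal.Quotient.mk_surjective.comp hf)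
  rw [← ringKrullDim_eq_of_ringEquiv e, h1]

private theorem Va_dim_le {A : Type} [CommRing A] {I J : Ideal A} (h : I ≤ J) :
    ringKrullDim (A ⧸ J) ≤ ringKrullDim (A ⧸ I) :=
  ringKrullDim_le_of_surjective _ (Ideal.Quotient.factor_surjective h)

/-- PROOF. `K[t_0, .., t_m] → K[t_1, .., t_m]`, `t_0 ↦ 1 - t_1 - .. - t_m`, is surjective with the kernel `sim m K`
(the polynomial `t_0 - (1 - t_1 - .. - t_m)`; modulo `sim` every polynomial is congruent to one without `t_0`); the
target is a domain of dimension `m` (Mathlib: `MvPolynomial.ringKrullDim_of_isNoetherianRing` or similar). -/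
theorem sim_prime (m : ℕ) (K : Type) [Field K] :
    (sim m K).IsPrime ∧ ringKrullDim (Pol m K ⧸ sim m K) = m := by
  constructor
  · rw [← Va_ker]
    exact RingHom.ker_isPrime _
  · have e := RingHom.quotientKerEquivOfSurjective (f := (Va_psi m K).toRingHom) (Va_surj m K)
    rw [← Va_ker, ringKrullDim_eq_of_ringEquiv e, MvPolynomial.ringKrullDim_of_isNoetherianRing,
      ringKrullDim_eq_zero_of_field, Nat.card_fin, zero_add]

/-- PROOF. `sim ≤ q`; if `sim < q` then `XP_dim_lt` gives `dim + 1 ≤ m`. -/
theorem eq_sim {m : ℕ} {K : Type} [Field K] {q : Ideal (Pol m K)} (hq : q.IsPrime)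
    (hs : ∑ i, MvPolynomial.X i - 1 ∈ q) (hd : ringKrullDim (Pol m K ⧸ q) = m) :
    q = sim m K := by
  have h1 : sim m K ≤ q := by
    rw [sim, Ideal.span_le, Set.singleton_subset_iff]
    exact hs
  by_contra hne
  have h2 : sim m K < q := lt_of_le_of_ne h1 (Ne.symm hne)
  have := (sim_prime m K).1
  have h3 := XP_dim_lt h2
  rw [hd, (sim_prime m K).2] at h3
  have h4 : m + 1 ≤ m := by exact_mod_cast h3
  omega

/-- PROOF. Induction on `m` (for all `q`, `I`). If `I = ∅`: `sim ≤ q`, so the dimension is at most `m`. If `i ∈ I` then `m ≥ 1`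
(for `m = 0`: `X 0 ∈ q`, `X 0 - 1 ∈ q`), `q = q'.comap (fmap K i)` with `q' = q.map (fmap K i)` (`fmap_ker`, `fmap_surjective`),
prime, `fmap_sum`, and `X j ∈ q'` for `i.succAbove j ∈ I`; the quotients are isomorphic; the index set of `q'` has
`I.card - 1` elements. -/
theorem face_dim {m : ℕ} {K : Type} [Field K] {q : Ideal (Pol m K)} (hq : q.IsPrime)
    (hs : ∑ i, MvPolynomial.X i - 1 ∈ q) {r : ℕ} (hd : ringKrullDim (Pol m K ⧸ q) = r)
    (I : Finset (Fin (m + 1))) (hI : ∀ i ∈ I, MvPolynomial.X i ∈ q) : r + I.card ≤ m := by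
  classical
  have hemp : ∀ (m : ℕ) (q : Ideal (Pol m K)), ∑ i, MvPolynomial.X i - 1 ∈ q →
      ringKrullDim (Pol m K ⧸ q) = r → r ≤ m := by
    intro m q hs hd
    have h1 : sim m K ≤ q := by
      rw [sim, Ideal.span_le, Set.singleton_subset_iff]
      exact hs
    have h2 := Va_dim_le h1
    rw [hd, (sim_prime m K).2] at h2
    exact_mod_cast h2
  induction m with
  | zero =>
    have h1 : I = ∅ := by
      by_contra hne
      obtain ⟨i, hi⟩ := Finset.nonempty_iff_ne_empty.mpr hne
      have h2 := hI i hi
      rw [Fin.sum_univ_succ, Fin.sum_univ_zero, add_zero] at hs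
      have h3 : i = 0 := by
        apply Fin.ext
        have := i.2
        rw [Fin.val_zero]
        omega
      rw [h3] at h2
      have h4 := q.sub_mem h2 hs
      rw [sub_sub_cancel] at h4
      exact hq.ne_top ((Ideal.eq_top_iff_one q).mpr h4)
    rw [h1, Finset.card_empty, add_zero]
    exact hemp 0 q hs hd
  | succ m ih =>
    rcases I.eq_empty_or_nonempty with h0 | ⟨i, hi⟩
    · rw [h0, Finset.card_empty, add_zero]
      exact hemp (m + 1) q hs hd
    · have := hq
      have hsur : Function.Surjective (fmap K i).toRingHom := fmap_surjective K i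
      have hker : RingHom.ker (fmap K i).toRingHom ≤ q := by
        have h1 : RingHom.ker (fmap K i).toRingHom = Ideal.span {MvPolynomial.X i} := fmap_ker K i
        rw [h1, Ideal.span_le, Set.singleton_subset_iff]
        exact hI i hi
      have hcm : (q.map (fmap K i).toRingHom).comap (fmap K i).toRingHom = q := by
        rw [Ideal.comap_map_of_surjective _ hsur]
        exact sup_eq_left.mpr hker
      have hq' : (q.map (fmap K i).toRingHom).IsPrime := Ideal.map_isPrime_of_surjective hsur hker
      have hs' : ∑ j, MvPolynomial.X j - 1 ∈ q.map (fmap K i).toRingHom := by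
        rw [← fmap_sum K i]
        exact Ideal.mem_map_of_mem (fmap K i).toRingHom hs
      have hd' : ringKrullDim (Pol m K ⧸ q.map (fmap K i).toRingHom) = r := by
        rw [← Va_dim_equiv (fmap K i).toRingHom hsur hcm]
        exact hd
      have hI' : ∀ j ∈ Finset.univ.filter (fun j => i.succAbove j ∈ I),
          MvPolynomial.X j ∈ q.map (fmap K i).toRingHom := by
        intro j hj
        have h1 := hI _ (Finset.mem_filter.1 hj).2
        have h2 := Ideal.mem_map_of_mem (fmap K i).toRingHom h1
        have h3 : (fmap K i).toRingHom (MvPolynomial.X (i.succAbove j)) = MvPolynomial.X j := by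
          change fmap K i (MvPolynomial.X (i.succAbove j)) = MvPolynomial.X j
          rw [fmap, MvPolynomial.aeval_X, Fin.insertNth_apply_succAbove]
        rw [h3] at h2
        exact h2
      have h4 := ih hq' hs' hd' _ hI'
      have h5 : I ⊆ insert i ((Finset.univ.filter (fun j => i.succAbove j ∈ I)).image i.succAbove) := by
        intro k hk
        rcases eq_or_ne k i with rfl | hki
        · exact Finset.mem_insert_self _ _
        · obtain ⟨j, rfl⟩ := Fin.exists_succAbove_eq hki
          exact Finset.mem_insert_of_mem (Finset.mem_image_of_mem _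
            (Finset.mem_filter.2 ⟨Finset.mem_univ _, hk⟩))
      have h6 := (Finset.card_le_card h5).trans (Finset.card_insert_le _ _)
      have h7 : ((Finset.univ.filter (fun j => i.succAbove j ∈ I)).image i.succAbove).card ≤
        (Finset.univ.filter (fun j => i.succAbove j ∈ I)).card := Finset.card_image_le
      omega

/-- PROOF. Both sides contain the kernel `(t_i)` of the surjective `fmap`, and `fmap` maps the generator of `sim (m + 1)` to
the generator of `sim m` (`fmap_sum`). -/
theorem sim_comap (m : ℕ) (K : Type) [CommRing K] (i : Fin (m + 2)) :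
    (sim m K).comap (fmap K i) = sim (m + 1) K ⊔ Ideal.span {MvPolynomial.X i} := by
  have hsur := fmap_surjective K i
  have h1 : (sim (m + 1) K).map (fmap K i) = sim m K := by
    rw [sim, Ideal.map_span, Set.image_singleton, fmap_sum, sim]
  have h2 := Ideal.comap_map_of_surjective (fmap K i) hsur (sim (m + 1) K)
  rw [h1] at h2
  rw [h2]
  have h3 : Ideal.comap (fmap K i) ⊥ = RingHom.ker (fmap K i) := rfl
  rw [h3, fmap_ker]

end Pool.Agent.Lib.MP_b197b4_ntZ
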