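import Mathlib
import Pool.Agent.Lib.MP_b197b4_ntZ.Va
import Pool.Agent.Lib.MP_b197b4_ntZ.Dm

/-!
# MP_b197b4_nt, project LIT, leaf Vb: the subvarieties `O × Δ ^ m`, `O` a closed point
-/

set_option autoImplicit false

namespace Pool.Agent.Lib.MP_b197b4_ntZ

open IsLocalRing Pool.Agent.Lib.MP_b197b4_ntK Pool.Agent.Lib.MP_b197b4_ntA

variable {k : Type} {F : Type} [Field k] [Field F] [Algebra k F] {n : ℕ} {x : Fin (n + 1) → F}

private theorem Vb_max {A : Type} [CommRing A] {q : Ideal A} (hq : q.IsPrime)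
    (hd : ringKrullDim (A ⧸ q) = 0) : q.IsMaximal := by
  obtain ⟨J, hJ, hle⟩ := Ideal.exists_le_maximal q hq.ne_top
  rcases eq_or_lt_of_le hle with h | h
  · rw [h]
    exact hJ
  · exfalso
    have h1 := XP_dim_lt h
    rw [hd] at h1
    have h2 : Nontrivial (A ⧸ J) := Ideal.Quotient.nontrivial_iff.2 hJ.ne_top
    have h3 : (0 : WithBot ℕ∞) ≤ ringKrullDim (A ⧸ J) := ringKrullDim_nonneg_of_nontrivial
    have h4 : (0 : WithBot ℕ∞) + 1 ≤ 0 := le_trans (by gcongr) h1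
    exact absurd h4 (by norm_num)

private theorem Vb_comap {A B : Type} [CommRing A] [CommRing B] {f : A →+* B}
    (hf : Function.Surjective f) (J : Ideal B) (a : A) :
    J.comap f ⊔ Ideal.span {a} = (J ⊔ Ideal.span {f a}).comap f := by
  refine le_antisymm (sup_le (Ideal.comap_mono le_sup_left) ?_) fun g hg => ?_
  · rw [Ideal.span_le, Set.singleton_subset_iff]
    exact Ideal.mem_sup_right (Ideal.mem_span_singleton_self (f a))
  · have hg' : f g ∈ J ⊔ Ideal.span {f a} := hg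
    obtain ⟨j, hj, c, hc, hjc⟩ := Submodule.mem_sup.1 hg'
    obtain ⟨c', hc'⟩ := Ideal.mem_span_singleton'.1 hc
    obtain ⟨c'', rfl⟩ := hf c'
    refine Submodule.mem_sup.2 ⟨g - c'' * a, ?_, c'' * a, Ideal.mem_span_singleton'.2 ⟨c'', rfl⟩,
      sub_add_cancel _ _⟩
    show f (g - c'' * a) ∈ J
    have h1 : f (g - c'' * a) = j := by
      rw [map_sub, map_mul, hc', ← hjc, add_sub_cancel_right]
    rw [h1]
    exact hj

/-- `O × Δ ^ m`. -/
noncomputable def vt (m : ℕ) (O : LocalSubring F) : Sub F m := ⟨O, sim m (Kap O)⟩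

/-- PROOF. `s + r = 0`, so `V.1 ∈ Pts k x 0`, and `eq_sim` with `m = 0`. -/
theorem sub_zero {V : Sub F 0} (hV : IsSub k x 0 V) : V.1 ∈ Pts k x 0 ∧ V = vt 0 V.1 := by
  obtain ⟨O, q⟩ := V
  obtain ⟨s, r, hs, hp, hsum, hd, hsr⟩ := hV
  obtain rfl : s = 0 := by omega
  obtain rfl : r = 0 := by omega
  refine ⟨hs, ?_⟩
  have hq : q = sim 0 (Kap O) := eq_sim hp hsum hd
  show (⟨O, q⟩ : Sub F 0) = ⟨O, sim 0 (Kap O)⟩
  rw [hq]

/-- PROOF. `s + r = 1`: either `s = 1`, `r = 0` (a finite type domain over a field of dimension zero is a field: prime ideals are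
maximal in dimension zero), or `s = 0`, `r = 1` (`eq_sim`). -/
theorem sub_one {V : Sub F 1} (hV : IsSub k x 1 V) :
    (V.1 ∈ Pts k x 1 ∧ V.2.IsMaximal) ∨ (V.1 ∈ Pts k x 0 ∧ V = vt 1 V.1) := by
  obtain ⟨O, q⟩ := V
  obtain ⟨s, r, hs, hp, hsum, hd, hsr⟩ := hV
  rcases Nat.eq_zero_or_pos s with h0 | h0
  · subst h0
    obtain rfl : r = 1 := by omega
    refine Or.inr ⟨hs, ?_⟩
    have hq : q = sim 1 (Kap O) := eq_sim hp hsum hd
    show (⟨O, q⟩ : Sub F 1) = ⟨O, sim 1 (Kap O)⟩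
    rw [hq]
  · obtain rfl : r = 0 := by omega
    obtain rfl : s = 1 := by omega
    exact Or.inl ⟨hs, Vb_max hp hd⟩

/-- Conversely. PROOF. The quotient by a maximal ideal is a field, of dimension zero. -/
theorem isSub_one {P : LocalSubring F} (hP : P ∈ Pts k x 1) {q : Ideal (Pol 1 (Kap P))}
    (hq : q.IsMaximal) (hs : ∑ i, MvPolynomial.X i - 1 ∈ q) :
    IsSub k x 1 (⟨P, q⟩ : Sub F 1) := by
  refine ⟨1, 0, hP, hq.isPrime, hs, ?_, rfl⟩
  rw [Nat.cast_zero]
  exact ringKrullDim_eq_zero_of_isField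
    ((Ideal.Quotient.maximal_ideal_iff_isField_quotient q).1 hq)

/-- PROOF. `sim_prime`. -/
theorem vt_isSub {m : ℕ} {O : LocalSubring F} (hO : O ∈ Pts k x 0) : IsSub k x m (vt m O) := by
  exact ⟨0, m, hO, (sim_prime m _).1, Ideal.subset_span rfl, (sim_prime m _).2, Nat.zero_add m⟩

/-- PROOF. Let `V ⊆ vt m O`; `V.1 ≤ O` (`le_of_idl`), so `V.1 = O` and `V.1` has dimension `0` (`pts_dim`); `face_dim`. -/
theorem vt_proper (hne : ∀ i, x i ≠ 0) {m : ℕ} {O : LocalSubring F} (hO : O ∈ Pts k x 0) :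
    Proper k x m (vt m O) := by
  intro I V r hV hle hI
  obtain ⟨s, r', hs, hp, hsum, hd, hsr⟩ := hV
  have h1 := (pts_dim hne hs hO (le_of_idl hp hle)).1
  have h2 := face_dim hp hsum hd I hI
  omega

private theorem Vb_mult (m : ℕ) (O : LocalSubring F) (i : Fin (m + 2)) :
    mult (vt (m + 1) O) (face i (vt m O)) i = 1 := by
  have hsp : (sim m (Kap O)).IsPrime := (sim_prime m (Kap O)).1
  have hp : (face i (vt m O)).2.IsPrime := Ideal.comap_isPrime (fmap (Kap O) i) (sim m (Kap O))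
  have hpi : (idl O (face i (vt m O))).IsPrime := idl_prime hp
  have h : O.toSubring ≤ O.toSubring := le_rfl
  have hs : Function.Surjective ((residue O.toSubring).comp (Subring.inclusion h)) := by
    intro y
    obtain ⟨z, hz⟩ := residue_surjective y
    exact ⟨z, hz⟩
  have e1 : ∀ W : Ideal (Pol (m + 1) (Kap O)), idl O (⟨O, W⟩ : Sub F (m + 1)) =
      W.comap (MvPolynomial.map ((residue O.toSubring).comp (Subring.inclusion h))) := by
    intro W
    unfold idl
    exact dif_pos h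
  have key : idl O (vt (m + 1) O) ⊔ Ideal.span {MvPolynomial.X i} = idl O (face i (vt m O)) := by
    have e2 : vt (m + 1) O = ⟨O, sim (m + 1) (Kap O)⟩ := rfl
    have e3 : face i (vt m O) = ⟨O, (sim m (Kap O)).comap (fmap (Kap O) i)⟩ := rfl
    rw [e2, e3, e1, e1, sim_comap, Vb_comap (MvPolynomial.map_surjective _ hs), MvPolynomial.map_X]
  show lgth (idl O (face i (vt m O))) (idl O (vt (m + 1) O) ⊔ Ideal.span {MvPolynomial.X i}) = 1
  rw [key]
  exact lgth_self _

/-- PROOF. If `V.1 ≤ O` fails all multiplicities are zero (`mult_eq_zero_of_not_le`). Otherwise `V.1 = O` (`pts_dim`), so the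
dimension of the generic fibre is `m` and `V = vt m O` (`eq_sim`). For `V = vt m O` all multiplicities are `1`: `face i V` is
`⟨O, sim (m + 1) ⊔ (X i)⟩` (`sim_comap`), and `idl O (vt (m+1) O) ⊔ (X i) = idl O (face i V)` (`O[t] → κ(O)[t]` is surjective and
`X i ↦ X i`), so `lgth_self`. -/
theorem vt_bdy (hne : ∀ i, x i ≠ 0) {m : ℕ} {O : LocalSubring F} (hO : O ∈ Pts k x 0)
    {V : Sub F m} (hV : IsSub k x m V) :
    (V = vt m O → bdy (vt (m + 1) O) V = ∑ i : Fin (m + 2), (-1) ^ (i : ℕ)) ∧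
      (V ≠ vt m O → bdy (vt (m + 1) O) V = 0) := by
  refine ⟨fun h => ?_, fun h => ?_⟩
  · rw [h]
    unfold bdy
    refine Finset.sum_congr rfl fun i _ => ?_
    rw [Vb_mult]
    simp
  · unfold bdy
    refine Finset.sum_eq_zero fun i _ => ?_
    rw [mult_eq_zero_of_not_le, ENat.toNat_zero, Nat.cast_zero, mul_zero]
    intro hle
    obtain ⟨P, q⟩ := V
    obtain ⟨s, r, hs, hp, hsum, hd, hsr⟩ := hV
    obtain ⟨h1, h2⟩ := pts_dim hne hs hO hle
    obtain rfl : s = 0 := by omega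
    obtain rfl : r = m := by omega
    have h3 : P = O := h2 rfl
    subst h3
    apply h
    have hq : q = sim r (Kap P) := eq_sim hp hsum hd
    show (⟨P, q⟩ : Sub F r) = ⟨P, sim r (Kap P)⟩
    rw [hq]

end Pool.Agent.Lib.MP_b197b4_ntZ
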