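import Mathlib
import Pool.Agent.Lib.MP_b197b4_ntZ.Hq
import Pool.Agent.Lib.MP_b197b4_ntZ.CA1
import Pool.Agent.Lib.MP_b197b4_ntZ.Vb
import Pool.Agent.Lib.MP_b197b4_ntKE.LenB
import Pool.Agent.Lib.MP_b197b4_ntKE.LenL

/-!
# MP_b197b4_nt, project LIT, leaf B0: the boundary of a curve of `X × Δ ^ 1` and the divisor of the norm
-/

set_option autoImplicit false

namespace Pool.Agent.Lib.MP_b197b4_ntZ

open Polynomial IsLocalRing Pool.Agent.Lib.MP_b197b4_ntK Pool.Agent.Lib.MP_b197b4_ntA

variable {k : Type} {F : Type} [Field k] [Field F] [Algebra k F] {n : ℕ} {x : Fin (n + 1) → F}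

/-- The local ring of a curve at a closed point. PROOF. `locSub O P` is the image of the noetherian ring `O` (`LenB_noeth`,
`toLoc_surjective`); fractions: `LenB_frac`; finite length: `a = toLoc α`, `length_toLoc`, `LenL_ne_top` with `LenB_dim`
(`Module.length_ne_top_iff` / `IsFiniteLength`; the length over `O` and over the quotient `locSub O P` are equal). -/
theorem loc_curve (hne : ∀ i, x i ≠ 0) {O P : LocalSubring F} (hO : O ∈ Pts k x 0)
    (hP : P ∈ Pts k x 1) (h : O.toSubring ≤ P.toSubring) :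
    IsNoetherianRing (locSub O P) ∧
    (∀ a : locSub O P, a ≠ 0 → IsFiniteLength (locSub O P) (locSub O P ⧸ Ideal.span {a})) ∧
    ∀ u : Kap P, ∃ a b : locSub O P, (b : Kap P) ≠ 0 ∧ u = a / b := by
  refine ⟨?_, ?_, ?_⟩
  · have hN := MP_b197b4_ntKE.LenB_noeth hO
    exact isNoetherianRing_of_surjective _ _ (MP_b197b4_ntKE.toLoc h)
      (MP_b197b4_ntKE.toLoc_surjective h)
  · intro a ha
    have hN := MP_b197b4_ntKE.LenB_noeth hO
    obtain ⟨α, rfl⟩ := MP_b197b4_ntKE.toLoc_surjective h a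
    have hα : α ∉ XP_ker h := fun h1 => ha ((MP_b197b4_ntKE.toLoc_eq_zero h α).2 h1)
    rw [← Module.length_ne_top_iff, MP_b197b4_ntKE.length_toLoc]
    exact MP_b197b4_ntKE.LenL_ne_top (XP_ker h)
      (fun q hq hle => MP_b197b4_ntKE.LenB_dim hne hO hP h q hq hle) hα
  · intro u
    by_cases hu : u = 0
    · exact ⟨0, 1, by simp, by simp [hu]⟩
    · obtain ⟨α, β, -, hβ, h3⟩ := MP_b197b4_ntKE.LenB_frac hne hO hP h u hu
      exact ⟨MP_b197b4_ntKE.toLoc h α, MP_b197b4_ntKE.toLoc h β,
        (MP_b197b4_ntKE.toLoc_ne_zero h β).2 hβ, h3⟩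

private theorem B0_sim {K : Type} [Field K] (a : Pol 0 K) :
    a ∈ sim 0 K ↔ MvPolynomial.eval (fun _ => (1 : K)) a = 0 := by
  have hgen : (∑ i : Fin (0 + 1), (MvPolynomial.X i : Pol 0 K) - 1) = MvPolynomial.X 0 - 1 := by
    rw [Fin.sum_univ_one]
  have key : ∀ a : Pol 0 K, a - MvPolynomial.C (MvPolynomial.eval (fun _ => (1 : K)) a) ∈ sim 0 K := by
    intro a
    induction a using MvPolynomial.induction_on with
    | C c => rw [MvPolynomial.eval_C, sub_self]; exact Ideal.zero_mem _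
    | add p q hp hq =>
      rw [map_add, map_add]
      have h1 := Ideal.add_mem _ hp hq
      have h2 : p + q - (MvPolynomial.C (MvPolynomial.eval (fun _ => (1 : K)) p) +
          MvPolynomial.C (MvPolynomial.eval (fun _ => (1 : K)) q)) =
          p - MvPolynomial.C (MvPolynomial.eval (fun _ => (1 : K)) p) +
          (q - MvPolynomial.C (MvPolynomial.eval (fun _ => (1 : K)) q)) := by ring
      rw [h2]
      exact h1
    | mul_X p i hp =>
      rw [map_mul, MvPolynomial.eval_X, mul_one]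
      have hi : i = 0 := Fin.ext (by omega)
      subst hi
      have h1 : p * (MvPolynomial.X 0 - 1) ∈ sim 0 K := by
        apply Ideal.mul_mem_left
        rw [sim, hgen]
        exact Ideal.mem_span_singleton_self _
      have h2 := Ideal.add_mem _ h1 hp
      have h3 : p * MvPolynomial.X 0 - MvPolynomial.C (MvPolynomial.eval (fun _ => (1 : K)) p) =
          p * (MvPolynomial.X 0 - 1) +
          (p - MvPolynomial.C (MvPolynomial.eval (fun _ => (1 : K)) p)) := by ring
      rw [h3]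
      exact h2
  constructor
  · intro h
    rw [sim, hgen, Ideal.mem_span_singleton] at h
    obtain ⟨b, rfl⟩ := h
    rw [map_mul, map_sub, MvPolynomial.eval_X, map_one, sub_self, zero_mul]
  · intro h
    have h1 := key a
    rw [h, map_zero, _root_.sub_zero] at h1
    exact h1

/-- The value at `t_1 = c`. -/
private noncomputable def B0_f (R : Type) [CommRing R] (c : R) : Pol 1 R →+* R :=
  (Polynomial.evalRingHom c).comp (e1 R : Pol 1 R →+* R[X])

private theorem B0_f_apply (R : Type) [CommRing R] (c : R) (g : Pol 1 R) :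
    B0_f R c g = (e1 R g).eval c := rfl

private theorem B0_f_C (R : Type) [CommRing R] (c r : R) : B0_f R c (MvPolynomial.C r) = r := by
  rw [B0_f_apply, e1, MvPolynomial.aeval_C, Polynomial.algebraMap_eq, Polynomial.eval_C]

private theorem B0_e1_zero (R : Type) [CommRing R] : e1 R (MvPolynomial.X 0) = 1 - X := by
  rw [e1, MvPolynomial.aeval_X]
  rfl

private theorem B0_e1_one (R : Type) [CommRing R] : e1 R (MvPolynomial.X 1) = X := by
  rw [e1, MvPolynomial.aeval_X]
  rfl

private theorem B0_f_surj (R : Type) [CommRing R] (c : R) : Function.Surjective (B0_f R c) :=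
  fun r => ⟨MvPolynomial.C r, B0_f_C R c r⟩

private theorem B0_e1_map {R S : Type} [CommRing R] [CommRing S] (φ : R →+* S) (g : Pol 1 R) :
    e1 S (MvPolynomial.map φ g) = (e1 R g).map φ := by
  induction g using MvPolynomial.induction_on with
  | C c =>
    rw [MvPolynomial.map_C, e1, e1, MvPolynomial.aeval_C, MvPolynomial.aeval_C,
      Polynomial.algebraMap_eq, Polynomial.algebraMap_eq, Polynomial.map_C]
  | add p q hp hq => rw [map_add, map_add, map_add, Polynomial.map_add, hp, hq]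
  | mul_X p i hp =>
    rw [map_mul, map_mul, map_mul, Polynomial.map_mul, hp, MvPolynomial.map_X]
    congr 1
    fin_cases i
    · change e1 S (MvPolynomial.X 0) = (e1 R (MvPolynomial.X 0)).map φ
      rw [B0_e1_zero, B0_e1_zero, Polynomial.map_sub, Polynomial.map_one, Polynomial.map_X]
    · change e1 S (MvPolynomial.X 1) = (e1 R (MvPolynomial.X 1)).map φ
      rw [B0_e1_one, B0_e1_one, Polynomial.map_X]

/-- The value `c` of `t_1` on the face `t_i = 0`. -/
private theorem B0_X (R : Type) [CommRing R] (i : Fin 2) (c : R)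
    (hc : (i = 0 ∧ c = 1) ∨ (i = 1 ∧ c = 0)) :
    B0_f R c (MvPolynomial.X i) = 0 ∧
      ∃ s : R, e1 R (MvPolynomial.C s * MvPolynomial.X i) = X - Polynomial.C c := by
  rcases hc with ⟨rfl, rfl⟩ | ⟨rfl, rfl⟩
  · refine ⟨?_, -1, ?_⟩
    · rw [B0_f_apply, B0_e1_zero, Polynomial.eval_sub, Polynomial.eval_one, Polynomial.eval_X,
        sub_self]
    · rw [map_mul, B0_e1_zero, e1, MvPolynomial.aeval_C, Polynomial.algebraMap_eq]
      simp only [map_neg, map_one]
      ring
  · refine ⟨?_, 1, ?_⟩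
    · rw [B0_f_apply, B0_e1_one, Polynomial.eval_X]
    · rw [map_mul, B0_e1_one, e1, MvPolynomial.aeval_C, Polynomial.algebraMap_eq]
      simp only [map_one, map_zero]
      ring

/-- The point `t_i = 0` of the line. -/
private theorem B0_pt {R S : Type} [CommRing R] [Field S] (φ : R →+* S) (i : Fin 2) (c : R)
    (hc : (i = 0 ∧ c = 1) ∨ (i = 1 ∧ c = 0)) (g : Pol 1 R) :
    MvPolynomial.eval (fun _ => (1 : S)) (fmap S i (MvPolynomial.map φ g)) = φ (B0_f R c g) := by
  induction g using MvPolynomial.induction_on with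
  | C r =>
    rw [MvPolynomial.map_C, B0_f_C, fmap, MvPolynomial.aeval_C, MvPolynomial.algebraMap_eq,
      MvPolynomial.eval_C]
  | add p q hp hq => rw [map_add, map_add, map_add, map_add, map_add, hp, hq]
  | mul_X p j hp =>
    rw [map_mul, map_mul, map_mul, map_mul, map_mul, hp, MvPolynomial.map_X]
    congr 1
    rw [fmap, MvPolynomial.aeval_X]
    rcases hc with ⟨rfl, rfl⟩ | ⟨rfl, rfl⟩
    · fin_cases j
      · change MvPolynomial.eval (fun _ => (1 : S)) (0 : Pol 0 S) = φ (B0_f R 1 (MvPolynomial.X 0))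
        rw [(B0_X R 0 1 (Or.inl ⟨rfl, rfl⟩)).1, map_zero, map_zero]
      · change MvPolynomial.eval (fun _ => (1 : S)) (MvPolynomial.X 0 : Pol 0 S) =
          φ (B0_f R 1 (MvPolynomial.X 1))
        rw [B0_f_apply, B0_e1_one, Polynomial.eval_X, map_one, MvPolynomial.eval_X]
    · fin_cases j
      · change MvPolynomial.eval (fun _ => (1 : S)) (MvPolynomial.X 0 : Pol 0 S) =
          φ (B0_f R 0 (MvPolynomial.X 0))
        rw [B0_f_apply, B0_e1_zero, Polynomial.eval_sub, Polynomial.eval_one, Polynomial.eval_X,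
          _root_.sub_zero, map_one, MvPolynomial.eval_X]
      · change MvPolynomial.eval (fun _ => (1 : S)) (0 : Pol 0 S) = φ (B0_f R 0 (MvPolynomial.X 1))
        rw [(B0_X R 1 0 (Or.inr ⟨rfl, rfl⟩)).1, map_zero, map_zero]

private theorem B0_J {K : Type} [Field K] (R : Subring K) {q : Ideal (Pol 1 K)} (hq : Hor q)
    {w : K[X]} (hqw : q = (Ideal.span {w}).comap (e1 K)) (i : Fin 2) (c : R)
    (hc : (i = 0 ∧ c = 1) ∨ (i = 1 ∧ c = 0)) :
    q.comap (MvPolynomial.map R.subtype) ⊔ Ideal.span {MvPolynomial.X i} =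
      (valIdeal R w c).comap (B0_f R c) := by
  have hev : Function.Surjective (evalRingHom c) := fun r => ⟨Polynomial.C r, Polynomial.eval_C⟩
  have hmem : ∀ g : Pol 1 R, g ∈ q.comap (MvPolynomial.map R.subtype) ↔
      e1 R g ∈ (Ideal.span {w}).comap (mapRingHom R.subtype) := by
    intro g
    rw [Ideal.mem_comap, hqw, Ideal.mem_comap, Ideal.mem_comap, coe_mapRingHom, ← B0_e1_map]
  have hsum : (∑ j, MvPolynomial.X j - 1 : Pol 1 R) ∈ q.comap (MvPolynomial.map R.subtype) := by
    rw [Ideal.mem_comap, map_sub, map_sum, map_one]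
    simp only [MvPolynomial.map_X]
    exact hq.sum
  obtain ⟨hX, s, hs⟩ := B0_X R i c hc
  apply le_antisymm
  · apply sup_le
    · intro g hg
      rw [Ideal.mem_comap, B0_f_apply]
      exact Ideal.mem_map_of_mem (evalRingHom c) ((hmem g).1 hg)
    · rw [Ideal.span_le, Set.singleton_subset_iff, SetLike.mem_coe, Ideal.mem_comap, hX]
      exact Ideal.zero_mem _
  · intro g hg
    rw [Ideal.mem_comap, valIdeal, Ideal.mem_map_iff_of_surjective _ hev] at hg
    obtain ⟨g', hg', hgg⟩ := hg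
    obtain ⟨g'', rfl⟩ := e1_surjective R g'
    have h1 : g'' ∈ q.comap (MvPolynomial.map R.subtype) := (hmem g'').2 hg'
    have h2 : (e1 R (g - g'')).IsRoot c := by
      rw [Polynomial.IsRoot, map_sub, Polynomial.eval_sub, sub_eq_zero]
      exact hgg.symm
    obtain ⟨v, hv⟩ := Polynomial.dvd_iff_isRoot.2 h2
    obtain ⟨v', rfl⟩ := e1_surjective R v
    have h3 : g - g'' - MvPolynomial.C s * MvPolynomial.X i * v' ∈ RingHom.ker (e1 R) := by
      rw [RingHom.mem_ker, map_sub, map_mul (e1 R) (MvPolynomial.C s * MvPolynomial.X i) v', hs,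
        hv, sub_self]
    rw [e1_ker] at h3
    have h4 : g - g'' - MvPolynomial.C s * MvPolynomial.X i * v' ∈
        q.comap (MvPolynomial.map R.subtype) ⊔ Ideal.span {MvPolynomial.X i} := by
      refine (Ideal.span_le.2 ?_) h3
      rw [Set.singleton_subset_iff]
      exact Ideal.mem_sup_left hsum
    have h5 : MvPolynomial.C s * MvPolynomial.X i * v' ∈
        q.comap (MvPolynomial.map R.subtype) ⊔ Ideal.span {(MvPolynomial.X i : Pol 1 R)} := by
      refine Ideal.mem_sup_right ?_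
      exact Ideal.mul_mem_right _ _ (Ideal.mul_mem_left _ _ (Ideal.mem_span_singleton_self _))
    have h6 := Ideal.add_mem _ (Ideal.add_mem _ h4 h5) (Ideal.mem_sup_left h1 : g'' ∈
        q.comap (MvPolynomial.map R.subtype) ⊔ Ideal.span {(MvPolynomial.X i : Pol 1 R)})
    have h7 : g - g'' - MvPolynomial.C s * MvPolynomial.X i * v' +
        MvPolynomial.C s * MvPolynomial.X i * v' + g'' = g := by ring
    rwa [h7] at h6

private theorem B0_mult {O P : LocalSubring F} (h : O.toSubring ≤ P.toSubring)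
    {q : Ideal (Pol 1 (Kap P))} (hq : Hor q) {w : (Kap P)[X]}
    (hqw : q = (Ideal.span {w}).comap (e1 (Kap P))) (i : Fin 2) (c : locSub O P)
    (hc : (i = 0 ∧ c = 1) ∨ (i = 1 ∧ c = 0)) :
    mult (⟨P, q⟩ : Sub F 1) (face i (vt 0 O)) i =
      Module.length (locSub O P) (locSub O P ⧸ valIdeal (locSub O P) w c) := by
  obtain ⟨hloc, hker⟩ := resLoc_ker h
  have hp : ((sim 0 (Kap O)).comap (fmap (Kap O) i)).IsPrime := by
    have h1 := (sim_prime 0 (Kap O)).1
    exact Ideal.IsPrime.comap _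
  have h1 := mult_loc (⟨P, q⟩ : Sub F 1) O h ((sim 0 (Kap O)).comap (fmap (Kap O) i)) i
  have h2 : face i (vt 0 O) = (⟨O, (sim 0 (Kap O)).comap (fmap (Kap O) i)⟩ : Sub F 1) := rfl
  rw [h2, h1]
  have h3 : ((sim 0 (Kap O)).comap (fmap (Kap O) i)).comap (MvPolynomial.map (resLoc h)) =
      (maximalIdeal (locSub O P)).comap (B0_f (locSub O P) c) := by
    ext g
    rw [Ideal.mem_comap, Ideal.mem_comap, Ideal.mem_comap, B0_sim, ← hker, RingHom.mem_ker,
      B0_pt (resLoc h) i c hc g]
  have h4 : q.comap (MvPolynomial.map (locSub O P).subtype) ⊔ Ideal.span {MvPolynomial.X i} =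
      (valIdeal (locSub O P) w c).comap (B0_f (locSub O P) c) := B0_J (locSub O P) hq hqw i c hc
  have h5 : lgth (((sim 0 (Kap O)).comap (fmap (Kap O) i)).comap (MvPolynomial.map (resLoc h)))
      ((⟨P, q⟩ : Sub F 1).2.comap (MvPolynomial.map (locSub O (⟨P, q⟩ : Sub F 1).1).subtype) ⊔
        Ideal.span {MvPolynomial.X i}) =
      lgth ((maximalIdeal (locSub O P)).comap (B0_f (locSub O P) c))
        ((valIdeal (locSub O P) w c).comap (B0_f (locSub O P) c)) := by
    rw [h3]
    exact congrArg _ h4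
  rw [h5, lgth_comap (B0_f (locSub O P) c) (B0_f_surj (locSub O P) c) (maximalIdeal (locSub O P))
    (valIdeal (locSub O P) w c), lgth_local]

/-- **B0**. PROOF. `q = (w).comap (e1 K)`, `K = κ(P)`, `w` monic irreducible, `w(0), w(1) ≠ 0` (`hor_exists`); `R = locSub O P`.
By `mult_loc` the multiplicity `mult ⟨P, q⟩ (face i (vt 0 O)) i` is `lgth (p.comap (map (resLoc h))) (J)` in `R[t_0, t_1]`, where
`p = (sim 0 κ(O)).comap (fmap i)` and `J = q.comap (map R.subtype) ⊔ (X i)`. Let `f : R[t_0, t_1] → R` be the surjective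
`R`-algebra homomorphism `t_i ↦ 0`, `t_(1-i) ↦ 1`, and `c = 1` for `i = 0`, `c = 0` for `i = 1` (the value of `t_1`). Then
`p.comap (map (resLoc h)) = (maximalIdeal R).comap f` (`resLoc_ker`: both are the kernel of `R[t_0, t_1] → κ(O)`,
`t_i ↦ 0`, `t_(1-i) ↦ 1`) and `J = (valIdeal R w c).comap f`: both contain the kernel `(t_i, t_(1-i) - 1)` of `f`
(`t_0 + t_1 - 1 ∈ J`), and `f J = valIdeal R w c`, because `e1` maps `R[t_0, t_1]` onto `R[X]`, a polynomial `g` is in
`q.comap` iff `w` divides `e1 g` over `K`, and `f g = (e1 g)(c)`. By `lgth_comap`, `lgth_local` the multiplicity is the length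
of `R / valIdeal R w c`. So `bdy = length (R / valIdeal R w 1) - length (R / valIdeal R w 0) = - len R (w(0) / w(1))` by `ca1`
(hypotheses: `loc_curve`), and `nu q = w(0) / w(1)` (`nu_eq`). -/
theorem bdy_pt (hne : ∀ i, x i ≠ 0) {O P : LocalSubring F} (hO : O ∈ Pts k x 0)
    (hP : P ∈ Pts k x 1) (h : O.toSubring ≤ P.toSubring) {q : Ideal (Pol 1 (Kap P))}
    (hq : Hor q) : bdy (⟨P, q⟩ : Sub F 1) (vt 0 O) = -len (locSub O P) (nu q) := by
  obtain ⟨w, hwm, hwi, hw0, hw1, hqw⟩ := hor_exists hq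
  obtain ⟨hN, hfl, hfr⟩ := loc_curve hne hO hP h
  obtain ⟨n0, n1, h0, h1, h2⟩ := ca1 (locSub O P) hfl hfr w hw0 hw1
  have hnu : nu q = w.eval 0 / w.eval 1 := by
    rw [hqw]
    exact nu_eq hwm hwi
  rw [hnu, h2]
  have m0 := B0_mult h hq hqw 0 1 (Or.inl ⟨rfl, rfl⟩)
  have m1 := B0_mult h hq hqw 1 0 (Or.inr ⟨rfl, rfl⟩)
  rw [h1] at m0
  rw [h0] at m1
  unfold bdy
  rw [Fin.sum_univ_two, m0, m1]
  simp only [ENat.toNat_natCast]
  norm_num
  ring

end Pool.Agent.Lib.MP_b197b4_ntZ
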