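import Mathlib
import Pool.Agent.Lib.MP_b197b4_ntZ.Dm

/-!
# MP_b197b4_nt, project LIT, leaf Fn: boundaries are finite
-/

set_option autoImplicit false

namespace Pool.Agent.Lib.MP_b197b4_ntZ

open IsLocalRing Pool.Agent.Lib.MP_b197b4_ntK Pool.Agent.Lib.MP_b197b4_ntA

variable {k : Type} {F : Type} [Field k] [Field F] [Algebra k F] {n : ℕ} {x : Fin (n + 1) → F}

private theorem Fn_prime {m : ℕ} {A : Subring F} {U : Sub F m} (hU : U.2.IsPrime)
    (h : A ≤ U.1.toSubring) : (nidl U h).IsPrime := by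
  have := hU
  exact Ideal.comap_isPrime _ _

private theorem Fn_X {m : ℕ} {A : Subring F} {U : Sub F m} (h : A ≤ U.1.toSubring)
    (i : Fin (m + 1)) : (MvPolynomial.X i : Pol m A) ∈ nidl U h ↔ MvPolynomial.X i ∈ U.2 := by
  rw [nidl, Ideal.mem_comap, MvPolynomial.map_X]

private theorem Fn_isPrime {m e : ℕ} {U : Sub F m} (hU : IsSub k x e U) : U.2.IsPrime := by
  obtain ⟨_, _, _, h, _⟩ := hU
  exact h

private theorem Fn_chart {m e : ℕ} {U : Sub F m} (hU : IsSub k x e U) :
    ∃ j, (cht k x j).toSubring ≤ U.1.toSubring := by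
  obtain ⟨_, _, h, _⟩ := hU
  exact exists_chart h

private theorem Fn_fin (hne : ∀ i, x i ≠ 0) {m : ℕ} {W : Sub F (m + 1)}
    (hW : IsSub k x (m + 1) W) (hp : Proper k x (m + 1) W) (i : Fin (m + 2)) :
    {V : Sub F (m + 1) | IsSub k x m V ∧ idl V.1 W ≤ idl V.1 V ∧
      MvPolynomial.X i ∈ V.2}.Finite := by
  classical
  have key : ∀ j : Fin (n + 1), {V : Sub F (m + 1) | (IsSub k x m V ∧ idl V.1 W ≤ idl V.1 V ∧
      MvPolynomial.X i ∈ V.2) ∧ (cht k x j).toSubring ≤ V.1.toSubring}.Finite := by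
    intro j
    by_cases hj : (cht k x j).toSubring ≤ W.1.toSubring
    · have := XP_noeth (k := k) (x := x) j
      have hWp : (nidl W hj).IsPrime := Fn_prime (Fn_isPrime hW) hj
      have hX : (MvPolynomial.X i : Pol (m + 1) (cht k x j).toSubring) ∉ nidl W hj := by
        intro h
        have h1 := (Fn_X hj i).1 h
        have h2 := hp {i} W (m + 1) hW le_rfl (by
          intro l hl
          rw [Finset.mem_singleton.1 hl]
          exact h1)
        rw [Finset.card_singleton] at h2
        omega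
      have hfin := (nidl W hj ⊔ Ideal.span {(MvPolynomial.X i :
        Pol (m + 1) (cht k x j).toSubring)}).finite_minimalPrimes_of_isNoetherianRing
      refine Set.Finite.of_finite_image (f := fun V : Sub F (m + 1) =>
        if h : (cht k x j).toSubring ≤ V.1.toSubring then nidl V h else ⊤) (hfin.subset ?_) ?_
      · rintro _ ⟨V, ⟨⟨hV, hVW, hXV⟩, hjV⟩, rfl⟩
        have hle : V.1.toSubring ≤ W.1.toSubring := le_of_idl (Fn_isPrime hV) hVW
        have h1 : nidl W hj ≤ nidl V hjV := nidl_le hVW hle hjV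
        have hVp : (nidl V hjV).IsPrime := Fn_prime (Fn_isPrime hV) hjV
        simp only [dif_pos hjV]
        refine ⟨⟨hVp, sup_le h1 ((Ideal.span_singleton_le_iff_mem _).2 ((Fn_X hjV i).2 hXV))⟩, ?_⟩
        rintro Q ⟨hQ, hQle⟩ hQV
        by_contra hlt
        have h2 : Q < nidl V hjV := lt_of_le_not_ge hQV hlt
        have h3 : nidl W hj < Q := by
          refine lt_of_le_not_ge (le_sup_left.trans hQle) fun h => hX (h ?_)
          exact hQle (le_sup_right (a := nidl W hj) (Ideal.mem_span_singleton_self _))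
        have h4 := XP_dim_lt h2
        have h5 := XP_dim_lt h3
        rw [nidl_dim hne hW hj] at h5
        rw [nidl_dim hne hV hjV] at h4
        have h6 : ((m : ℕ) : WithBot ℕ∞) + 1 + 1 ≤ ((m + 1 : ℕ) : WithBot ℕ∞) :=
          (add_le_add_left h4 1).trans h5
        have h7 : m + 1 + 1 ≤ m + 1 := by exact_mod_cast h6
        omega
      · rintro V ⟨⟨hV, _, _⟩, hjV⟩ V' ⟨⟨hV', _, _⟩, hjV'⟩ h
        simp only [dif_pos hjV, dif_pos hjV'] at h
        exact nidl_inj hne hV hV' hjV hjV' h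
    · refine Set.finite_empty.subset ?_
      rintro V ⟨⟨hV, hVW, _⟩, hjV⟩
      exact hj (hjV.trans (le_of_idl (Fn_isPrime hV) hVW))
  refine (Set.finite_iUnion key).subset ?_
  rintro V hV
  obtain ⟨j, hj⟩ := Fn_chart hV.1
  exact Set.mem_iUnion.2 ⟨j, hV, hj⟩

/-- PROOF. If `mult W (face i V) i ≠ 0` then `V' = face i V ⊆ W` (`mult_eq_zero`), of dimension `m` (`face_isSub`), and
`t_i ∈ V'.2`; `V` is determined by `i` and `V'` (`face_injective`). So it is enough that for each `i` there
are finitely many `V' ⊆ W` of dimension `m` with `t_i ∈ V'.2`. Fix also a chart `j` of `V'.1` (`exists_chart`; it is a chart of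
`W.1`, `le_of_idl`) and let `A = cht k x j`. `nidl V'` contains `nidl W` (`nidl_le`) and `t_i`, and it is a minimal prime ideal
over `J = nidl W + (t_i)`: if `J ≤ r < nidl V'`, `r` prime, then `r ≠ nidl W`, because `t_i ∉ nidl W` (otherwise `t_i ∈ W.2`, and
`W` itself, of dimension `m + 1`, is in the face `t_i = 0`, which contradicts `Proper` with `I = {i}`, `V = W`), so
`nidl W < r < nidl V'` and `XP_dim_lt` twice gives `m + 2 ≤ m + 1` with `nidl_dim`. `A[t]` is noetherian (`XP_noeth`), so the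
set of the minimal prime ideals over `J` is finite, and `V'` is determined by `nidl V'` (`nidl_inj`). -/
theorem mult_finite (hne : ∀ i, x i ≠ 0) {m : ℕ} {W : Sub F (m + 1)}
    (hW : IsSub k x (m + 1) W) (hp : Proper k x (m + 1) W) :
    {V : Sub F m | IsSub k x m V ∧ ∃ i, mult W (face i V) i ≠ 0}.Finite := by
  have key : ∀ i : Fin (m + 2), {V : Sub F m | IsSub k x m V ∧ mult W (face i V) i ≠ 0}.Finite := by
    intro i
    refine Set.Finite.of_finite_image (f := face i) ((Fn_fin hne hW hp i).subset ?_)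
      (face_injective i).injOn
    rintro _ ⟨V, ⟨hV, hmu⟩, rfl⟩
    refine ⟨face_isSub i hV, ?_, X_mem_face V i⟩
    by_contra h
    exact hmu (mult_eq_zero W (face i V) i h)
  refine (Set.finite_iUnion key).subset ?_
  rintro V ⟨hV, i, hi⟩
  exact Set.mem_iUnion.2 ⟨i, hV, hi⟩

/-- PROOF. `mult_finite`. -/
theorem bdy_finite (hne : ∀ i, x i ≠ 0) {m : ℕ} {W : Sub F (m + 1)}
    (hW : IsSub k x (m + 1) W) (hp : Proper k x (m + 1) W) :
    {V : Sub F m | IsSub k x m V ∧ bdy W V ≠ 0}.Finite := by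
  refine (mult_finite hne hW hp).subset ?_
  rintro V ⟨hV, hb⟩
  refine ⟨hV, ?_⟩
  by_contra h
  refine hb ?_
  unfold bdy
  refine Finset.sum_eq_zero fun i _ => ?_
  have h0 : mult W (face i V) i = 0 := by
    by_contra h1
    exact h ⟨i, h1⟩
  rw [h0]
  simp

end Pool.Agent.Lib.MP_b197b4_ntZ
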