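import Mathlib
import Pool.Agent.Lib.MP_b197b4_ntZ.B0
import Pool.Agent.Lib.MP_b197b4_ntZ.Fn

/-!
# MP_b197b4_nt, project LIT, leaf Cy: the functions on the curves of `X` defined by a cycle of `X × Δ ^ 1`
-/

set_option autoImplicit false

namespace Pool.Agent.Lib.MP_b197b4_ntZ

open IsLocalRing Pool.Agent.Lib.MP_b197b4_ntK Pool.Agent.Lib.MP_b197b4_ntA

variable {k : Type} {F : Type} [Field k] [Field F] [Algebra k F] {n : ℕ} {x : Fin (n + 1) → F}

/-- PROOF. Let `V` be a curve of `X × Δ ^ 1` which meets the faces properly, `V = ⟨P, q⟩`. `sub_one`: either `P ∈ Pts k x 1`, and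
`q` is maximal, contains `∑ X - 1` and no `X j` (otherwise `V` itself, of dimension `1`, is in the face `t_j = 0`), so `Hor q`,
or `V = vt 1 O`. -/
theorem cyc_cases {V : Sub F 1} (hV : IsSub k x 1 V) (hp : Proper k x 1 V) :
    (V.1 ∈ Pts k x 1 ∧ Hor V.2) ∨ (V.1 ∈ Pts k x 0 ∧ V = vt 1 V.1) := by
  rcases sub_one hV with ⟨h1, h2⟩ | h1
  · left
    refine ⟨h1, h2, ?_, fun i hi => ?_⟩
    · obtain ⟨_, _, _, _, h3, _⟩ := hV
      exact h3
    · have h3 := hp {i} V 1 hV le_rfl (fun j hj => by rw [Finset.mem_singleton.1 hj]; exact hi)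
      rw [Finset.card_singleton] at h3
      omega
  · exact Or.inr h1

private theorem Cy_hasLen {L : Type} [Field L] {B : Subring L}
    (hfin : ∀ a : B, a ≠ 0 → IsFiniteLength B (B ⧸ Ideal.span {a}))
    (hfrac : ∀ u : L, ∃ a b : B, (b : L) ≠ 0 ∧ u = a / b) {u : L} (hu : u ≠ 0) : ∃ n, HasLen B u n := by
  obtain ⟨a, b, hb, rfl⟩ := hfrac u
  have ha : (a : L) ≠ 0 := fun h => hu (by rw [h, zero_div])
  have h1 : ∀ c : B, (c : L) ≠ 0 → ∃ r : ℕ, Module.length B (B ⧸ Ideal.span {c}) = r := by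
    intro c hc
    have h2 : Module.length B (B ⧸ Ideal.span {c}) ≠ ⊤ :=
      Module.length_ne_top_iff.2 (hfin c fun h => hc (by rw [h]; rfl))
    exact ⟨_, (ENat.natCast_toNat h2).symm⟩
  obtain ⟨r, hr⟩ := h1 a ha
  obtain ⟨s, hs⟩ := h1 b hb
  exact ⟨_, a, b, r, s, ha, hb, rfl, hr, hs, rfl⟩

private theorem Cy_len {L : Type} [Field L] {B : Subring L} {u : L} {n : ℤ} (h : HasLen B u n) : len B u = n := by
  have h2 : ∃ n, HasLen B u n := ⟨n, h⟩
  unfold len
  rw [dif_pos h2]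
  exact Pool.Agent.Lib.MP_b197b4_ntKE.LenL_unique _ h2.choose_spec h

private theorem Cy_hasLen_mul {L : Type} [Field L] {B : Subring L} {u v : L} {n m : ℤ} (hu : HasLen B u n)
    (hv : HasLen B v m) : HasLen B (u * v) (n + m) := by
  obtain ⟨a, b, r, s, ha, hb, rfl, hr, hs, rfl⟩ := hu
  obtain ⟨a', b', r', s', ha', hb', rfl, hr', hs', rfl⟩ := hv
  have hnz : ∀ c : B, (c : L) ≠ 0 → c ∈ nonZeroDivisors B := by
    intro c hc
    rw [mem_nonZeroDivisors_iff_ne_zero]
    exact fun h0 => hc (by rw [h0]; rfl)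
  have h2 : Ring.ord B (a * a') = Ring.ord B a + Ring.ord B a' := Ring.ord_mul B (hnz a' ha')
  have h3 : Ring.ord B (b * b') = Ring.ord B b + Ring.ord B b' := Ring.ord_mul B (hnz b' hb')
  unfold Ring.ord at h2 h3
  rw [hr, hr'] at h2
  rw [hs, hs'] at h3
  refine ⟨a * a', b * b', r + r', s + s', ?_, ?_, ?_, ?_, ?_, ?_⟩
  · exact mul_ne_zero ha ha'
  · exact mul_ne_zero hb hb'
  · change (a : L) / b * (a' / b') = (a : L) * a' / ((b : L) * b')
    exact div_mul_div_comm _ _ _ _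
  · rw [h2]
    exact (Nat.cast_add _ _).symm
  · rw [h3]
    exact (Nat.cast_add _ _).symm
  · push_cast
    ring

/-- PROOF. `len` is additive on nonzero elements for the local ring of a curve at a closed point (`loc_curve`;
see `MP_b197b4_ntKE/LenL.lean`, `LenL_unique`; `u = a/b`, `v = c/d`: `uv = ac/bd` and the length of `R/(ac)` is the sum of the lengths of `R/(a)`
and `R/(c)`, `R` a domain). -/
theorem len_mul (hne : ∀ i, x i ≠ 0) {O P : LocalSubring F} (hO : O ∈ Pts k x 0)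
    (hP : P ∈ Pts k x 1) (h : O.toSubring ≤ P.toSubring) {u v : Kap P} (hu : u ≠ 0) (hv : v ≠ 0) :
    len (locSub O P) (u * v) = len (locSub O P) u + len (locSub O P) v := by
  obtain ⟨_, hfin, hfrac⟩ := loc_curve hne hO hP h
  obtain ⟨n, hn⟩ := Cy_hasLen hfin hfrac hu
  obtain ⟨m, hm⟩ := Cy_hasLen hfin hfrac hv
  rw [Cy_len hn, Cy_len hm, Cy_len (Cy_hasLen_mul hn hm)]

private theorem Cy_l {L ι : Type} [Field L] {l : L → ℚ}
    (hl : ∀ c d : L, c ≠ 0 → d ≠ 0 → l (c * d) = l c + l d) (s : Finset ι) (f : ι → L) (m : ι → ℤ)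
    (hf : ∀ i ∈ s, f i ≠ 0) : l (∏ i ∈ s, f i ^ m i) = ∑ i ∈ s, (m i : ℚ) * l (f i) := by
  classical
  have h1 : l 1 = 0 := by
    have h := hl 1 1 one_ne_zero one_ne_zero
    rw [mul_one] at h
    linarith
  have h2 : ∀ (c : L), c ≠ 0 → ∀ n : ℕ, l (c ^ n) = n * l c := by
    intro c hc n
    induction n with
    | zero => rw [pow_zero, h1, Nat.cast_zero, zero_mul]
    | succ n ih =>
      rw [pow_succ, hl _ _ (pow_ne_zero _ hc) hc, ih]
      push_cast
      ring
  have h3 : ∀ (c : L), c ≠ 0 → l c⁻¹ = -l c := by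
    intro c hc
    have h := hl c c⁻¹ hc (inv_ne_zero hc)
    rw [mul_inv_cancel₀ hc, h1] at h
    linarith
  have h4 : ∀ (c : L), c ≠ 0 → ∀ n : ℤ, l (c ^ n) = n * l c := by
    intro c hc n
    obtain ⟨N, rfl | rfl⟩ := n.eq_nat_or_neg
    · rw [zpow_natCast, h2 c hc, Int.cast_natCast]
    · rw [zpow_neg, zpow_natCast, h3 _ (pow_ne_zero _ hc), h2 c hc]
      push_cast
      ring
  induction s using Finset.induction_on with
  | empty => rw [Finset.prod_empty, Finset.sum_empty, h1]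
  | insert a s ha ih =>
    have hfa : f a ≠ 0 := hf a (Finset.mem_insert_self a s)
    have hfs : ∀ i ∈ s, f i ≠ 0 := fun i hi => hf i (Finset.mem_insert_of_mem hi)
    rw [Finset.prod_insert ha, Finset.sum_insert ha,
      hl _ _ (zpow_ne_zero _ hfa) (Finset.prod_ne_zero_iff.2 fun i hi => zpow_ne_zero _ (hfs i hi)), ih hfs,
      h4 _ hfa]

open Classical in
private noncomputable def Cy_a (z : Sub F 1 →₀ ℤ) (P : LocalSubring F) : Kap P :=
  ∏ q ∈ (z.support.preimage (Sigma.mk P) sigma_mk_injective.injOn).filter (fun q => Hor q),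
    nu q ^ z (⟨P, q⟩ : Sub F 1)

private theorem Cy_a_ne (z : Sub F 1 →₀ ℤ) (P : LocalSubring F) : Cy_a z P ≠ 0 := by
  classical
  unfold Cy_a
  exact Finset.prod_ne_zero_iff.2 fun q hq => zpow_ne_zero _ (nu_ne (Finset.mem_filter.1 hq).2)

open Classical in
private theorem Cy_a_one (z : Sub F 1 →₀ ℤ) (P : LocalSubring F) (h : P ∉ z.support.image Sigma.fst) :
    Cy_a z P = 1 := by
  unfold Cy_a
  refine Finset.prod_eq_one fun q hq => absurd ?_ h
  have h1 := Finset.mem_preimage.1 (Finset.mem_filter.1 hq).1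
  exact Finset.mem_image.2 ⟨⟨P, q⟩, h1, rfl⟩

open Classical in
private theorem Cy_fin {α M : Type} [AddCommMonoid M] (T : Finset α) (g : α → M) (p : α → Prop)
    (h : ∀ P, p P → P ∉ T → g P = 0) : ∑ᶠ (P : α) (_ : p P), g P = ∑ P ∈ T, if p P then g P else 0 := by
  have h1 : ∑ᶠ (P : α) (_ : P ∈ {P : α | p P}), g P = ∑ P ∈ T, if p P then g P else 0 := by
    rw [finsum_mem_def, finsum_eq_sum_of_support_subset (s := T)]
    · refine Finset.sum_congr rfl fun P _ => ?_
      rw [Set.indicator_apply]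
      rfl
    · intro P hP
      by_contra hPT
      rw [Function.mem_support, Set.indicator_apply] at hP
      split_ifs at hP with h2
      · exact hP (h P h2 hPT)
      · exact hP rfl
  exact h1

open Classical in
private theorem Cy_sum (hne : ∀ i, x i ≠ 0) {z : Sub F 1 →₀ ℤ} (hz : IsCyc k x z) (ψ : Sub F 1 → ℚ)
    (hψ : ∀ O ∈ Pts k x 0, ψ (vt 1 O) = 0) (l : ∀ P : LocalSubring F, Kap P → ℚ)
    (hl : ∀ P ∈ Pts k x 1, ∀ c d : Kap P, c ≠ 0 → d ≠ 0 → l P (c * d) = l P c + l P d)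
    (hψl : ∀ P ∈ Pts k x 1, ∀ q : Ideal (Pol 1 (Kap P)), Hor q → ψ (⟨P, q⟩ : Sub F 1) = l P (nu q)) :
    (z.sum fun V c => (c : ℚ) * ψ V) =
      ∑ P ∈ z.support.image Sigma.fst, if P ∈ Pts k x 1 then l P (Cy_a z P) else 0 := by
  have h1 : (z.sum fun V c => (c : ℚ) * ψ V) = ∑ P ∈ z.support.image Sigma.fst,
      ∑ q ∈ z.support.preimage (Sigma.mk P) sigma_mk_injective.injOn,
        (z (⟨P, q⟩ : Sub F 1) : ℚ) * ψ ⟨P, q⟩ := by
    unfold Finsupp.sum
    conv_lhs => rw [← Finset.sigma_image_fst_preimage_mk z.support]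
    exact Finset.sum_sigma _ _ _
  rw [h1]
  refine Finset.sum_congr rfl fun P _ => ?_
  by_cases hP : P ∈ Pts k x 1
  · rw [if_pos hP]
    have h2 : ∀ q ∈ z.support.preimage (Sigma.mk P) sigma_mk_injective.injOn, Hor q := by
      intro q hq
      have h3 := hz _ (Finset.mem_preimage.1 hq)
      rcases cyc_cases h3.1 h3.2 with h4 | h4
      · exact h4.2
      · exact absurd (pts_dim hne hP h4.1 le_rfl).1 (by norm_num)
    unfold Cy_a
    rw [Finset.filter_true_of_mem h2, Cy_l (hl P hP) _ _ _ fun q hq => nu_ne (h2 q hq)]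
    exact Finset.sum_congr rfl fun q hq => by rw [hψl P hP q (h2 q hq)]
  · rw [if_neg hP]
    refine Finset.sum_eq_zero fun q hq => ?_
    have h3 := hz _ (Finset.mem_preimage.1 hq)
    rcases cyc_cases h3.1 h3.2 with h4 | h4
    · exact absurd h4.1 hP
    · rw [h4.2, hψ _ h4.1, mul_zero]

/-- **Cy**. PROOF. Let `a P = ∏ nu q ^ z ⟨P, q⟩` over the `q` with `⟨P, q⟩` in the support of `z` and `Hor q` (`1` if there is none;
`nu_ne`). `ne`, `finite` are clear. `div`: let `O` be a closed point. `0 = bdry z (vt 0 O) = ∑ z V bdy V (vt 0 O)` (hypothesis,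
`vt_isSub`); by `cyc_cases` each `V` in the support is `vt 1 O'`, with `bdy = 0` (`vt_bdy`: `1 - 1 = 0` or `0`), or `⟨P, q⟩` with `Hor q`,
`bdy = - len (locSub O P) (nu q)` if `O ≤ P` (`bdy_pt`) and `0` otherwise (`mult_eq_zero_of_not_le`). By `len_mul` the sum over
the `V` with `V.1 = P` is `- len (locSub O P) (a P)`, so the sum over `P` of `len (locSub O P) (a P)` is zero (`finsum` over the `P` in `Pts k x 1` with `O ≤ P`; for the
other `P` in `Pts k x 1`, `a P = 1` and `len _ 1 = 0`). -/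
theorem cyc_fun (hne : ∀ i, x i ≠ 0) {z : Sub F 1 →₀ ℤ} (hz : IsCyc k x z)
    (h0 : ∀ V : Sub F 0, IsSub k x 0 V → bdry z V = 0) :
    ∃ a : ∀ P : LocalSubring F, Kap P, CycX k x a ∧
      ∀ ψ : Sub F 1 → ℚ, (∀ O ∈ Pts k x 0, ψ (vt 1 O) = 0) →
        ∀ l : ∀ P : LocalSubring F, Kap P → ℚ,
          (∀ P ∈ Pts k x 1, ∀ c d : Kap P, c ≠ 0 → d ≠ 0 → l P (c * d) = l P c + l P d) →
          (∀ P ∈ Pts k x 1, ∀ q : Ideal (Pol 1 (Kap P)), Hor q →
            ψ (⟨P, q⟩ : Sub F 1) = l P (nu q)) →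
          (z.sum fun V c => (c : ℚ) * ψ V) =
            ∑ᶠ (P : LocalSubring F) (_ : P ∈ Pts k x 1), l P (a P) := by
  classical
  have hone : ∀ {O P : LocalSubring F}, O ∈ Pts k x 0 → P ∈ Pts k x 1 → O.toSubring ≤ P.toSubring →
      len (locSub O P) (1 : Kap P) = 0 := by
    intro O P hO hP h
    have h1 := len_mul hne hO hP h (one_ne_zero (α := Kap P)) one_ne_zero
    rw [mul_one] at h1
    omega
  refine ⟨Cy_a z, ⟨fun P _ => Cy_a_ne z P, ?_, fun O hO => ?_⟩, fun ψ hψ l hl hψl => ?_⟩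
  · refine (z.support.image Sigma.fst).finite_toSet.subset fun P hP => ?_
    by_contra h
    exact hP.2 (Cy_a_one z P fun h1 => h h1)
  · rw [Cy_fin (z.support.image Sigma.fst) (fun P => len (locSub O P) (Cy_a z P))
      (fun P => P ∈ Pts k x 1 ∧ O.toSubring ≤ P.toSubring) (by
        intro P hP hPT
        show len (locSub O P) (Cy_a z P) = 0
        rw [Cy_a_one z P hPT]
        exact hone hO hP.1 hP.2)]
    have h1 := Cy_sum hne hz (fun V => (bdy V (vt 0 O) : ℚ)) (by
      intro O' hO'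
      have h2 := vt_bdy hne hO' (vt_isSub (k := k) (x := x) (m := 0) hO)
      have h3 : bdy (vt 1 O') (vt 0 O) = 0 := by
        by_cases h4 : vt 0 O = vt 0 O'
        · have h5 := h2.1 h4
          have h6 : ∑ i : Fin (0 + 2), (-1 : ℤ) ^ (i : ℕ) = 0 := by decide
          rw [h6] at h5
          exact h5
        · exact h2.2 h4
      show ((bdy (vt 1 O') (vt 0 O) : ℤ) : ℚ) = 0
      rw [h3, Int.cast_zero])
      (fun P c => if O.toSubring ≤ P.toSubring then -(len (locSub O P) c : ℚ) else 0) (by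
        intro P hP c d hc hd
        by_cases h : O.toSubring ≤ P.toSubring
        · simp only [if_pos h]
          rw [len_mul hne hO hP h hc hd]
          push_cast
          ring
        · simp only [if_neg h]
          norm_num) (by
        intro P hP q hq
        show ((bdy (⟨P, q⟩ : Sub F 1) (vt 0 O) : ℤ) : ℚ) =
          if O.toSubring ≤ P.toSubring then -(len (locSub O P) (nu q) : ℚ) else 0
        by_cases h : O.toSubring ≤ P.toSubring
        · rw [if_pos h, bdy_pt hne hO hP h hq, Int.cast_neg]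
        · rw [if_neg h]
          have h2 : bdy (⟨P, q⟩ : Sub F 1) (vt 0 O) = 0 := by
            unfold bdy
            refine Finset.sum_eq_zero fun i _ => ?_
            rw [mult_eq_zero_of_not_le _ _ _ (fun h3 => h h3)]
            exact mul_zero _
          rw [h2, Int.cast_zero])
    have h2 : (z.sum fun V c => (c : ℚ) * ((bdy V (vt 0 O) : ℤ) : ℚ)) = 0 := by
      have h3 := h0 (vt 0 O) (vt_isSub hO)
      have h4 : (z.sum fun V c => (c : ℚ) * ((bdy V (vt 0 O) : ℤ) : ℚ)) = ((bdry z (vt 0 O) : ℤ) : ℚ) := by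
        unfold bdry Finsupp.sum
        push_cast
        rfl
      rw [h4, h3, Int.cast_zero]
    have h5 : ((∑ P ∈ z.support.image Sigma.fst, if (P ∈ Pts k x 1 ∧ O.toSubring ≤ P.toSubring) then
        len (locSub O P) (Cy_a z P) else 0 : ℤ) : ℚ) = 0 := by
      have h6 : (∑ P ∈ z.support.image Sigma.fst, if P ∈ Pts k x 1 then
          (if O.toSubring ≤ P.toSubring then -(len (locSub O P) (Cy_a z P) : ℚ) else 0) else 0) = 0 :=
        h1.symm.trans h2
      rw [Int.cast_sum, ← neg_eq_zero, ← Finset.sum_neg_distrib, ← h6]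
      refine Finset.sum_congr rfl fun P _ => ?_
      by_cases h7 : P ∈ Pts k x 1
      · by_cases h8 : O.toSubring ≤ P.toSubring
        · rw [if_pos ⟨h7, h8⟩, if_pos h7, if_pos h8]
        · rw [if_neg fun h => h8 h.2, if_pos h7, if_neg h8, Int.cast_zero, neg_zero]
      · rw [if_neg fun h => h7 h.1, if_neg h7, Int.cast_zero, neg_zero]
    exact_mod_cast h5
  · rw [Cy_sum hne hz ψ hψ l hl hψl]
    refine (Cy_fin (z.support.image Sigma.fst) (fun P => l P (Cy_a z P)) (fun P => P ∈ Pts k x 1) ?_).symm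
    intro P hP hPT
    show l P (Cy_a z P) = 0
    rw [Cy_a_one z P hPT]
    have h1 := hl P hP 1 1 one_ne_zero one_ne_zero
    rw [mul_one] at h1
    linarith

end Pool.Agent.Lib.MP_b197b4_ntZ
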