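import Mathlib
import Pool.Agent.Lib.MP_b197b4_ntK.Defs
import Pool.Agent.Lib.MP_b197b4_ntA.Cur2

/-!
# MP_b197b4_nt, project LIT, block K2G: generators of `K_2` modulo torsion

`P'(X, Y)`: for all `V ∈ D` the minimum of `0, ord V X, ord V Y` is attained at least twice. `hP` and `hs` give
`c X Y = 0` for all `X, Y ≠ 0` with `P'`.

(A) If `x` and `y` have disjoint supports, choose `z` with `ord V z > |ord V x|` on the support of `x` and
`ord V (1 - z) > |ord V y|` on the support of `y`. The pairs `(x z, y (1 - z))`, `(x z, 1 - z)`, `(z, y (1 - z))` satisfy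
`P'`, so `c x y = c (x z) (y (1 - z)) - c (x z) (1 - z) - c z (y (1 - z)) + c z (1 - z) = 0`.
(B) `c` is antisymmetric (Steinberg relations).
(C) If `x` and `y` have at most the divisor `V` in common, choose `z` with `ord V z = 1` and order zero at the other
divisors of `x` and `y`; with `a = ord V x`, `b = ord V y`, (A) gives `b c(x, z) = a c(y, z)`, `c(y, x) = b c(z, x)`,
`a c(z, y) = c(x, y)`, so `c(x, y) = - c(x, y)`.
(D) Induction on the number of common divisors: approximation.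
-/

set_option autoImplicit false

namespace Pool.Agent.Lib.MP_b197b4_ntZ

open IsLocalRing Pool.Agent.Lib.MP_b197b4_ntK

section K2G

open Pool.Agent.Lib.MP_b197b4_ntA

variable {K : Type} [Field K]

private lemma K2G_ord_neg {V : ValuationSubring K} (hV : IsDiscreteValuationRing V) {x : K}
    (hx : x ≠ 0) : ord V (-x) = ord V x := by
  have h1 : (-1 : K) ≠ 0 := neg_ne_zero.2 one_ne_zero
  have h2 : ord V (-1 : K) = 0 := by
    rw [ord_eq_zero_iff hV h1, Valuation.map_neg, map_one]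
  have h3 : -x = -1 * x := by ring
  rw [h3, ord_mul hV h1 hx, h2, zero_add]

/-- A sum with a dominant term. -/
private lemma K2G_add {V : ValuationSubring K} (hV : IsDiscreteValuationRing V) {x y : K}
    (hx : x ≠ 0) (hy : y ≠ 0) (h : ord V x < ord V y) : x + y ≠ 0 ∧ ord V (x + y) = ord V x := by
  have h1 : 0 < ord V (y / x) := by
    rw [ord_div hV hy hx]
    omega
  obtain ⟨h2, h3⟩ := Cur2_one_add hV (div_ne_zero hy hx) h1
  have e : x + y = x * (1 + y / x) := by
    field_simp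
  rw [e]
  exact ⟨mul_ne_zero hx h2, by rw [ord_mul hV hx h2, h3, add_zero]⟩

/-- An element of order one at `W` and of order zero at the others. -/
private lemma K2G_pi {W : ValuationSubring K} (hW : IsDiscreteValuationRing W)
    (T : Finset (ValuationSubring K)) (hT : ∀ W' ∈ T, IsDiscreteValuationRing W' ∧ W' ≠ W) :
    ∃ p : K, p ≠ 0 ∧ ord W p = 1 ∧ ∀ V ∈ T, ord V p = 0 := by
  classical
  obtain ⟨z, hz0, hz, hzT⟩ := Cur2_approx hW T hT
  obtain ⟨q, hq0, hq⟩ := Cur2_unif hW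
  obtain ⟨N, hN2, hN⟩ : ∃ N : ℕ, 2 ≤ N ∧ ∀ V ∈ T, -ord V q < N := by
    refine ⟨(T.sup fun V => (-ord V q).toNat) + 2, by omega, fun V h => ?_⟩
    have h1 := Finset.le_sup (f := fun V => (-ord V q).toNat) h
    have h2 := Int.self_le_toNat (-ord V q)
    have h3 : ((-ord V q).toNat : ℤ) ≤ ((T.sup fun V => (-ord V q).toNat : ℕ) : ℤ) := by
      exact_mod_cast h1
    push_cast
    linarith
  have hzN : z ^ N ≠ 0 := pow_ne_zero _ hz0
  have hNz : (2 : ℤ) ≤ N := by exact_mod_cast hN2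
  have hWN : 2 ≤ ord W (z ^ N) := by
    rw [ord_pow hW hz0]
    nlinarith
  obtain ⟨h1, h2⟩ := Cur2_one_add hW hzN (by omega)
  obtain ⟨h3, h4⟩ := K2G_add hW hq0 hzN (by omega)
  refine ⟨(q + z ^ N) / (1 + z ^ N), div_ne_zero h3 h1, ?_, fun V hV => ?_⟩
  · rw [ord_div hW h3 h1, h4, h2, hq, sub_zero]
  · have hVd := (hT V hV).1
    have hVz : ord V (z ^ N) ≤ -N := by
      rw [ord_pow hVd hz0]
      have := hzT V hV
      nlinarith
    obtain ⟨h5, h6⟩ := Cur2_one_add' hVd hzN (by omega)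
    obtain ⟨h7, h8⟩ := K2G_add hVd hzN hq0 (by have := hN V hV; omega)
    rw [ord_div hVd h3 h1, h6, add_comm q, h8, sub_self]

/-- Prescribed orders. -/
private lemma K2G_presc (T : Finset (ValuationSubring K))
    (hT : ∀ V ∈ T, IsDiscreteValuationRing V) (n : ValuationSubring K → ℤ) :
    ∃ x : K, x ≠ 0 ∧ ∀ V ∈ T, ord V x = n V := by
  classical
  induction T using Finset.induction_on with
  | empty => exact ⟨1, one_ne_zero, fun V h => absurd h (Finset.notMem_empty _)⟩
  | insert W T hWT ih =>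
    obtain ⟨x, hx0, hx⟩ := ih fun V h => hT V (Finset.mem_insert_of_mem h)
    have hW := hT W (Finset.mem_insert_self _ _)
    obtain ⟨p, hp0, hp, hpT⟩ := K2G_pi hW T fun V h =>
      ⟨hT V (Finset.mem_insert_of_mem h), fun e => hWT (e ▸ h)⟩
    have hpz : p ^ (n W - ord W x) ≠ 0 := zpow_ne_zero _ hp0
    refine ⟨x * p ^ (n W - ord W x), mul_ne_zero hx0 hpz, fun V hV => ?_⟩
    have hVd := hT V hV
    rw [ord_mul hVd hx0 hpz, ord_zpow hVd hp0]
    rcases Finset.mem_insert.1 hV with rfl | h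
    · rw [hp]
      ring
    · rw [hpT V h, hx V h]
      ring

/-- `(z, 1 - z)` is a point of the tropical line. -/
private lemma K2G_line {V : ValuationSubring K} (hV : IsDiscreteValuationRing V) {z : K}
    (hz : z ≠ 0) (hz1 : 1 - z ≠ 0) :
    (ord V z = 0 ∧ 0 ≤ ord V (1 - z)) ∨ (ord V (1 - z) = 0 ∧ 0 ≤ ord V z) ∨
      (ord V z = ord V (1 - z) ∧ ord V z ≤ 0) := by
  have hnz : -z ≠ 0 := neg_ne_zero.2 hz
  have hn := K2G_ord_neg hV hz
  rcases lt_trichotomy (ord V z) 0 with h | h | h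
  · obtain ⟨-, h2⟩ := Cur2_one_add' hV hnz (by omega)
    rw [← sub_eq_add_neg] at h2
    omega
  · left
    refine ⟨h, ?_⟩
    by_contra hc
    have h3 : -(1 - z) ≠ 0 := neg_ne_zero.2 hz1
    have h4 := K2G_ord_neg hV hz1
    obtain ⟨-, h5⟩ := Cur2_one_add' hV h3 (by omega)
    have e : 1 + -(1 - z) = z := by ring
    rw [e] at h5
    omega
  · obtain ⟨-, h2⟩ := Cur2_one_add hV hnz (by omega)
    rw [← sub_eq_add_neg] at h2
    omega

/-- The hypotheses on the symbol. -/
private structure K2G_H (D : Set (ValuationSubring K)) (c : K → K → ℚ) : Prop where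
  hD : ∀ V ∈ D, IsDiscreteValuationRing V
  hfin : ∀ x : K, x ≠ 0 → {V | V ∈ D ∧ ord V x ≠ 0}.Finite
  hl : ∀ x y z, x ≠ 0 → y ≠ 0 → z ≠ 0 → c (x * y) z = c x z + c y z
  hr : ∀ x y z, x ≠ 0 → y ≠ 0 → z ≠ 0 → c z (x * y) = c z x + c z y
  hs : ∀ x, x ≠ 0 → x ≠ 1 → c x (1 - x) = 0
  hT : ∀ X Y : K, X ≠ 0 → Y ≠ 0 → (∀ V ∈ D, (ord V X = 0 ∧ 0 ≤ ord V Y) ∨
    (ord V Y = 0 ∧ 0 ≤ ord V X) ∨ (ord V X = ord V Y ∧ ord V X ≤ 0)) → c X Y = 0

variable {D : Set (ValuationSubring K)} {c : K → K → ℚ}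

private lemma K2G_one_left (H : K2G_H D c) {y : K} (hy : y ≠ 0) : c 1 y = 0 := by
  have h := H.hl 1 1 y one_ne_zero one_ne_zero hy
  rw [one_mul] at h
  linarith

private lemma K2G_one_right (H : K2G_H D c) {y : K} (hy : y ≠ 0) : c y 1 = 0 := by
  have h := H.hr 1 1 y one_ne_zero one_ne_zero hy
  rw [one_mul] at h
  linarith

private lemma K2G_inv_left (H : K2G_H D c) {x y : K} (hx : x ≠ 0) (hy : y ≠ 0) :
    c x⁻¹ y = -c x y := by
  have h := H.hl x x⁻¹ y hx (inv_ne_zero hx) hy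
  rw [mul_inv_cancel₀ hx, K2G_one_left H hy] at h
  linarith

private lemma K2G_inv_right (H : K2G_H D c) {x y : K} (hx : x ≠ 0) (hy : y ≠ 0) :
    c y x⁻¹ = -c y x := by
  have h := H.hr x x⁻¹ y hx (inv_ne_zero hx) hy
  rw [mul_inv_cancel₀ hx, K2G_one_right H hy] at h
  linarith

private lemma K2G_pow_left (H : K2G_H D c) {x y : K} (hx : x ≠ 0) (hy : y ≠ 0) (n : ℕ) :
    c (x ^ n) y = n * c x y := by
  induction n with
  | zero => simp [K2G_one_left H hy]
  | succ n ih =>
    rw [pow_succ, H.hl _ _ _ (pow_ne_zero _ hx) hx hy, ih]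
    push_cast
    ring

private lemma K2G_zpow_left (H : K2G_H D c) {x y : K} (hx : x ≠ 0) (hy : y ≠ 0) (n : ℤ) :
    c (x ^ n) y = n * c x y := by
  cases n with
  | ofNat n =>
    rw [Int.ofNat_eq_natCast, zpow_natCast, K2G_pow_left H hx hy]
    push_cast
    ring
  | negSucc n =>
    rw [zpow_negSucc, K2G_inv_left H (pow_ne_zero _ hx) hy, K2G_pow_left H hx hy, Int.negSucc_eq]
    push_cast
    ring

/-- (B) antisymmetry -/
private lemma K2G_neg_self (H : K2G_H D c) {x : K} (hx : x ≠ 0) : c x (-x) = 0 := by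
  by_cases h1 : x = 1
  · rw [h1]
    exact K2G_one_left H (neg_ne_zero.2 one_ne_zero)
  · have h2 : 1 - x ≠ 0 := sub_ne_zero.2 (Ne.symm h1)
    have h3 : x⁻¹ ≠ 1 := fun h => h1 (inv_eq_one.1 h)
    have h4 : 1 - x⁻¹ ≠ 0 := sub_ne_zero.2 (Ne.symm h3)
    have h5 := H.hs x hx h1
    have h6 := H.hs x⁻¹ (inv_ne_zero hx) h3
    rw [K2G_inv_left H hx h4] at h6
    have e : -x = (1 - x) * (1 - x⁻¹)⁻¹ := by
      rw [eq_mul_inv_iff_mul_eq₀ h4]
      field_simp
      ring
    rw [e, H.hr _ _ _ h2 (inv_ne_zero h4) hx, K2G_inv_right H h4 hx, h5]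
    linarith

private lemma K2G_anti (H : K2G_H D c) {x y : K} (hx : x ≠ 0) (hy : y ≠ 0) : c x y = -c y x := by
  have hnx : -x ≠ 0 := neg_ne_zero.2 hx
  have hny : -y ≠ 0 := neg_ne_zero.2 hy
  have h1 := K2G_neg_self H (mul_ne_zero hx hy)
  have hnxy : -(x * y) ≠ 0 := neg_ne_zero.2 (mul_ne_zero hx hy)
  rw [H.hl x y _ hx hy hnxy] at h1
  have e1 : -(x * y) = -x * y := by ring
  have e2 : -(x * y) = x * -y := by ring
  have h2 : c x (-(x * y)) = c x (-x) + c x y := by
    rw [e1, H.hr _ _ _ hnx hy hx]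
  have h3 : c y (-(x * y)) = c y x + c y (-y) := by
    rw [e2, H.hr _ _ _ hx hny hy]
  rw [h2, h3, K2G_neg_self H hx, K2G_neg_self H hy] at h1
  linarith

/-- The auxiliary element of (A). -/
private lemma K2G_aux [Infinite K] (H : K2G_H D c) {x y : K} (hx : x ≠ 0) (hy : y ≠ 0)
    (hd : ∀ V ∈ D, ord V x = 0 ∨ ord V y = 0) :
    ∃ z : K, z ≠ 0 ∧ 1 - z ≠ 0 ∧ ∀ V ∈ D,
      (ord V y = 0 ∧ 0 ≤ ord V x + ord V z ∧ 0 ≤ ord V z ∧ ord V (1 - z) = 0) ∨
      (ord V x = 0 ∧ 0 ≤ ord V y + ord V (1 - z) ∧ 0 ≤ ord V (1 - z) ∧ ord V z = 0) ∨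
      (ord V x = 0 ∧ ord V y = 0) := by
  classical
  by_cases hS : ∀ V ∈ D, ord V x = 0 ∧ ord V y = 0
  · obtain ⟨z, hz⟩ := Infinite.exists_notMem_finset ({0, 1} : Finset K)
    simp only [Finset.mem_insert, Finset.mem_singleton, not_or] at hz
    exact ⟨z, hz.1, sub_ne_zero.2 (Ne.symm hz.2), fun V hV => Or.inr (Or.inr (hS V hV))⟩
  · push Not at hS
    obtain ⟨V₀, hV₀, hne⟩ := hS
    have hmem : ∀ V, V ∈ (H.hfin x hx).toFinset ∪ (H.hfin y hy).toFinset ↔
        V ∈ D ∧ (ord V x ≠ 0 ∨ ord V y ≠ 0) := by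
      intro V
      simp only [Finset.mem_union, Set.Finite.mem_toFinset, Set.mem_ofPred_eq]
      tauto
    obtain ⟨a, ha0, ha⟩ := K2G_presc ((H.hfin x hx).toFinset ∪ (H.hfin y hy).toFinset)
      (fun V hV => H.hD V ((hmem V).1 hV).1)
      (fun V => if ord V x ≠ 0 then |ord V x| + 1 else -(|ord V y| + 1))
    have key : ∀ V ∈ D, (ord V x ≠ 0 → 1 + a ≠ 0 ∧ ord V a = |ord V x| + 1 ∧ ord V (1 + a) = 0) ∧
        (ord V y ≠ 0 → 1 + a ≠ 0 ∧ ord V a = -(|ord V y| + 1) ∧
          ord V (1 + a) = -(|ord V y| + 1)) := by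
      intro V hV
      have hVd := H.hD V hV
      refine ⟨fun h => ?_, fun h => ?_⟩
      · have h1 := ha V ((hmem V).2 ⟨hV, Or.inl h⟩)
        simp only [ne_eq, h, not_false_eq_true, if_true] at h1
        have h0 := abs_nonneg (ord V x)
        obtain ⟨h2, h3⟩ := Cur2_one_add hVd ha0 (by omega)
        exact ⟨h2, h1, h3⟩
      · have hx' : ord V x = 0 := by
          rcases hd V hV with h' | h'
          · exact h'
          · exact absurd h' h
        have h1 := ha V ((hmem V).2 ⟨hV, Or.inr h⟩)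
        simp only [ne_eq, hx', not_true_eq_false, if_false] at h1
        have h0 := abs_nonneg (ord V y)
        obtain ⟨h2, h3⟩ := Cur2_one_add' hVd ha0 (by omega)
        exact ⟨h2, h1, h3.trans h1⟩
    have hne1 : 1 + a ≠ 0 := by
      by_cases h : ord V₀ x = 0
      · exact ((key V₀ hV₀).2 (hne h)).1
      · exact ((key V₀ hV₀).1 h).1
    have e : 1 - a / (1 + a) = 1 / (1 + a) := by
      field_simp
      ring
    refine ⟨a / (1 + a), div_ne_zero ha0 hne1, ?_, fun V hV => ?_⟩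
    · rw [e]
      exact one_div_ne_zero hne1
    · have hVd := H.hD V hV
      rw [e, ord_div hVd ha0 hne1, ord_div hVd one_ne_zero hne1, ord_one V hVd]
      have n1 := neg_abs_le (ord V x)
      have n2 := neg_abs_le (ord V y)
      by_cases h : ord V x = 0
      · by_cases h' : ord V y = 0
        · exact Or.inr (Or.inr ⟨h, h'⟩)
        · obtain ⟨-, h2, h3⟩ := (key V hV).2 h'
          have h0 := abs_nonneg (ord V y)
          right
          left
          refine ⟨h, by omega, by omega, by omega⟩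
      · obtain ⟨-, h2, h3⟩ := (key V hV).1 h
        have h0 := abs_nonneg (ord V x)
        have h' : ord V y = 0 := by
          rcases hd V hV with h'' | h''
          · exact absurd h'' h
          · exact h''
        left
        refine ⟨h', by omega, by omega, by omega⟩

/-- (A) disjoint supports -/
private lemma K2G_disj [Infinite K] (H : K2G_H D c) {x y : K} (hx : x ≠ 0) (hy : y ≠ 0)
    (hd : ∀ V ∈ D, ord V x = 0 ∨ ord V y = 0) : c x y = 0 := by
  obtain ⟨z, hz, hz1, h⟩ := K2G_aux H hx hy hd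
  have h1 : c (x * z) (y * (1 - z)) = 0 := by
    refine H.hT _ _ (mul_ne_zero hx hz) (mul_ne_zero hy hz1) fun V hV => ?_
    have hVd := H.hD V hV
    have hl := K2G_line hVd hz hz1
    rw [ord_mul hVd hx hz, ord_mul hVd hy hz1]
    rcases h V hV with h | h | h <;> omega
  have h2 : c (x * z) (1 - z) = 0 := by
    refine H.hT _ _ (mul_ne_zero hx hz) hz1 fun V hV => ?_
    have hVd := H.hD V hV
    have hl := K2G_line hVd hz hz1
    rw [ord_mul hVd hx hz]
    rcases h V hV with h | h | h <;> omega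
  have h3 : c z (y * (1 - z)) = 0 := by
    refine H.hT _ _ hz (mul_ne_zero hy hz1) fun V hV => ?_
    have hVd := H.hD V hV
    have hl := K2G_line hVd hz hz1
    rw [ord_mul hVd hy hz1]
    rcases h V hV with h | h | h <;> omega
  have h4 : c z (1 - z) = 0 := H.hs z hz fun e => hz1 (by rw [e, sub_self])
  rw [H.hl _ _ _ hx hz (mul_ne_zero hy hz1), h3, H.hr _ _ _ hy hz1 hx] at h1
  rw [H.hl _ _ _ hx hz hz1, h4] at h2
  linarith

/-- (C) one common divisor -/
private lemma K2G_single [Infinite K] (H : K2G_H D c) {V₀ : ValuationSubring K} (hV₀ : V₀ ∈ D)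
    {x y : K} (hx : x ≠ 0) (hy : y ≠ 0)
    (hd : ∀ V ∈ D, V ≠ V₀ → ord V x = 0 ∨ ord V y = 0) : c x y = 0 := by
  classical
  have hmem : ∀ V, V ∈ ((H.hfin x hx).toFinset ∪ (H.hfin y hy).toFinset).erase V₀ ↔
      V ≠ V₀ ∧ V ∈ D ∧ (ord V x ≠ 0 ∨ ord V y ≠ 0) := by
    intro V
    simp only [Finset.mem_erase, Finset.mem_union, Set.Finite.mem_toFinset, Set.mem_ofPred_eq]
    tauto
  obtain ⟨z, hz0, hz, hzT⟩ := K2G_pi (H.hD V₀ hV₀)
    (((H.hfin x hx).toFinset ∪ (H.hfin y hy).toFinset).erase V₀)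
    fun V hV => ⟨H.hD V ((hmem V).1 hV).2.1, ((hmem V).1 hV).1⟩
  have hz' : ∀ V ∈ D, V ≠ V₀ → ord V z = 0 ∨ (ord V x = 0 ∧ ord V y = 0) := by
    intro V hV hne
    by_cases h : ord V x = 0 ∧ ord V y = 0
    · exact Or.inr h
    · exact Or.inl (hzT V ((hmem V).2 ⟨hne, hV, by tauto⟩))
  have g : ∀ {u v w : K}, u ≠ 0 → v ≠ 0 → w ≠ 0 → ∀ m n : ℤ,
      m * ord V₀ u + n * ord V₀ v = 0 →
      (∀ V ∈ D, V ≠ V₀ → ord V w = 0 ∨ (ord V u = 0 ∧ ord V v = 0)) →
      (m : ℚ) * c u w + n * c v w = 0 := by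
    intro u v w hu hv hw m n h0 h1
    have hu' := zpow_ne_zero m hu
    have hv' := zpow_ne_zero n hv
    rw [← K2G_zpow_left H hu hw, ← K2G_zpow_left H hv hw, ← H.hl _ _ _ hu' hv' hw]
    refine K2G_disj H (mul_ne_zero hu' hv') hw fun V hV => ?_
    have hVd := H.hD V hV
    rw [ord_mul hVd hu' hv', ord_zpow hVd hu, ord_zpow hVd hv]
    by_cases hVV : V = V₀
    · rw [hVV]
      exact Or.inl h0
    · rcases h1 V hV hVV with h | ⟨h, h'⟩
      · exact Or.inr h
      · left
        rw [h, h', mul_zero, mul_zero, add_zero]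
  have e1 := g hx hy hz0 (ord V₀ y) (-ord V₀ x) (by ring) hz'
  have e2 := g hy hz0 hx 1 (-ord V₀ y) (by rw [hz]; ring) fun V hV hne => by
    rcases hd V hV hne with h | h
    · exact Or.inl h
    · rcases hz' V hV hne with h' | h'
      · exact Or.inr ⟨h, h'⟩
      · exact Or.inl h'.1
  have e3 := g hz0 hx hy (ord V₀ x) (-1) (by rw [hz]; ring) fun V hV hne => by
    rcases hd V hV hne with h | h
    · rcases hz' V hV hne with h' | h'
      · exact Or.inr ⟨h', h⟩
      · exact Or.inl h'.2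
    · exact Or.inl h
  have a1 := K2G_anti H hx hy
  have a2 := K2G_anti H hz0 hx
  have a3 := K2G_anti H hz0 hy
  push_cast at e1 e2 e3
  rw [a3] at e3
  rw [a2] at e2
  linarith

/-- (D) the general case -/
private lemma K2G_gen [Infinite K] (H : K2G_H D c) {y : K} (hy : y ≠ 0)
    (S : Finset (ValuationSubring K)) :
    ∀ x : K, x ≠ 0 → (∀ V ∈ D, ord V x ≠ 0 → ord V y ≠ 0 → V ∈ S) → c x y = 0 := by
  classical
  induction S using Finset.induction_on with
  | empty =>
    intro x hx h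
    refine K2G_disj H hx hy fun V hV => ?_
    by_contra hc
    push Not at hc
    exact absurd (h V hV hc.1 hc.2) (Finset.notMem_empty _)
  | insert V₀ S hVS ih =>
    intro x hx h
    by_cases hV₀ : V₀ ∈ D
    · have hmem : ∀ V, V ∈ insert V₀ (H.hfin y hy).toFinset ↔
          V = V₀ ∨ (V ∈ D ∧ ord V y ≠ 0) := by
        intro V
        simp only [Finset.mem_insert, Set.Finite.mem_toFinset, Set.mem_ofPred_eq]
      obtain ⟨w, hw0, hw⟩ := K2G_presc (insert V₀ (H.hfin y hy).toFinset)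
        (fun V hV => by
          rcases (hmem V).1 hV with rfl | h
          · exact H.hD _ hV₀
          · exact H.hD V h.1)
        (fun V => if V = V₀ then ord V x else 0)
      have hw₀ : ord V₀ w = ord V₀ x := by
        have := hw V₀ ((hmem V₀).2 (Or.inl rfl))
        simpa using this
      have hw' : ∀ V ∈ D, V ≠ V₀ → ord V y ≠ 0 → ord V w = 0 := by
        intro V hV hne hVy
        have := hw V ((hmem V).2 (Or.inr ⟨hV, hVy⟩))
        simpa [hne] using this
      have h1 : c w y = 0 := K2G_single H hV₀ hw0 hy fun V hV hne => by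
        by_cases hVy : ord V y = 0
        · exact Or.inr hVy
        · exact Or.inl (hw' V hV hne hVy)
      have h2 : c (x / w) y = 0 := by
        refine ih (x / w) (div_ne_zero hx hw0) fun V hV hVx hVy => ?_
        rw [ord_div (H.hD V hV) hx hw0] at hVx
        have hne : V ≠ V₀ := by
          rintro rfl
          exact hVx (by omega)
        have h3 := hw' V hV hne hVy
        have h4 := h V hV (by omega) hVy
        exact (Finset.mem_insert.1 h4).resolve_left hne
      have e : x = w * (x / w) := by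
        field_simp
      rw [e, H.hl _ _ _ hw0 (div_ne_zero hx hw0) hy, h1, h2, add_zero]
    · refine ih x hx fun V hV hVx hVy => ?_
      rcases Finset.mem_insert.1 (h V hV hVx hVy) with rfl | h'
      · exact absurd hV hV₀
      · exact h'

end K2G

/-- **K2G**: modulo torsion `K_2` is generated by the symbols `{-t_1/t_0, -t_2/t_0}`, `t_0 + t_1 + t_2 = 1`, such that for
all `V` in `D` the minimum of the orders of the `t_i` is attained at least twice. -/
theorem k2g {K : Type} [Field K] [Infinite K] (D : Set (ValuationSubring K))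
    (hD : ∀ V ∈ D, IsDiscreteValuationRing V) (hinf : ∀ V ∈ D, Infinite (ResidueField V))
    (hfin : ∀ x : K, x ≠ 0 → {V | V ∈ D ∧ ord V x ≠ 0}.Finite)
    (c : K → K → ℚ)
    (hl : ∀ x y z, x ≠ 0 → y ≠ 0 → z ≠ 0 → c (x * y) z = c x z + c y z)
    (hr : ∀ x y z, x ≠ 0 → y ≠ 0 → z ≠ 0 → c z (x * y) = c z x + c z y)
    (hs : ∀ x, x ≠ 0 → x ≠ 1 → c x (1 - x) = 0)
    (hP : ∀ t : Fin 3 → K, (∀ i, t i ≠ 0) → ∑ i, t i = 1 →
      (∀ V ∈ D, ∀ i, ∃ j, j ≠ i ∧ ord V (t j) ≤ ord V (t i)) → c (-(t 1 / t 0)) (-(t 2 / t 0)) = 0)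
    (x y : K) (hx : x ≠ 0) (hy : y ≠ 0) : c x y = 0 := by
  have H : K2G_H D c := by
    refine ⟨hD, hfin, hl, hr, hs, fun X Y hX hY hXY => ?_⟩
    by_cases h0 : 1 - X - Y = 0
    · have e : Y = 1 - X := by linear_combination -h0
      rw [e]
      refine hs X hX fun h1 => hY ?_
      rw [e, h1, sub_self]
    · have ht0 : (1 - X - Y)⁻¹ ≠ 0 := inv_ne_zero h0
      have hnX : -X * (1 - X - Y)⁻¹ ≠ 0 := mul_ne_zero (neg_ne_zero.2 hX) ht0
      have hnY : -Y * (1 - X - Y)⁻¹ ≠ 0 := mul_ne_zero (neg_ne_zero.2 hY) ht0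
      have key := hP ![(1 - X - Y)⁻¹, -X * (1 - X - Y)⁻¹, -Y * (1 - X - Y)⁻¹]
        (by
          intro i
          fin_cases i
          · exact ht0
          · exact hnX
          · exact hnY)
        (by
          simp only [Fin.sum_univ_three, Matrix.cons_val_zero, Matrix.cons_val_one,
            Matrix.cons_val_two, Matrix.head_cons, Matrix.tail_cons]
          field_simp
          ring)
        (by
          intro V hV
          have hVd := hD V hV
          have e1 : ord V (-X * (1 - X - Y)⁻¹) = ord V X + ord V (1 - X - Y)⁻¹ := by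
            rw [ord_mul hVd (neg_ne_zero.2 hX) ht0, K2G_ord_neg hVd hX]
          have e2 : ord V (-Y * (1 - X - Y)⁻¹) = ord V Y + ord V (1 - X - Y)⁻¹ := by
            rw [ord_mul hVd (neg_ne_zero.2 hY) ht0, K2G_ord_neg hVd hY]
          have h := hXY V hV
          have c0 : ∃ j : Fin 3, j ≠ 0 ∧ ord V ((![(1 - X - Y)⁻¹, -X * (1 - X - Y)⁻¹,
              -Y * (1 - X - Y)⁻¹] : Fin 3 → K) j) ≤ ord V (1 - X - Y)⁻¹ := by
            by_cases h1 : ord V X ≤ 0
            · refine ⟨1, by decide, ?_⟩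
              show ord V (-X * (1 - X - Y)⁻¹) ≤ _
              omega
            · refine ⟨2, by decide, ?_⟩
              show ord V (-Y * (1 - X - Y)⁻¹) ≤ _
              omega
          have c1 : ∃ j : Fin 3, j ≠ 1 ∧ ord V ((![(1 - X - Y)⁻¹, -X * (1 - X - Y)⁻¹,
              -Y * (1 - X - Y)⁻¹] : Fin 3 → K) j) ≤ ord V (-X * (1 - X - Y)⁻¹) := by
            by_cases h1 : 0 ≤ ord V X
            · refine ⟨0, by decide, ?_⟩
              show ord V (1 - X - Y)⁻¹ ≤ _
              omega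
            · refine ⟨2, by decide, ?_⟩
              show ord V (-Y * (1 - X - Y)⁻¹) ≤ _
              omega
          have c2 : ∃ j : Fin 3, j ≠ 2 ∧ ord V ((![(1 - X - Y)⁻¹, -X * (1 - X - Y)⁻¹,
              -Y * (1 - X - Y)⁻¹] : Fin 3 → K) j) ≤ ord V (-Y * (1 - X - Y)⁻¹) := by
            by_cases h1 : 0 ≤ ord V Y
            · refine ⟨0, by decide, ?_⟩
              show ord V (1 - X - Y)⁻¹ ≤ _
              omega
            · refine ⟨1, by decide, ?_⟩
              show ord V (-X * (1 - X - Y)⁻¹) ≤ _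
              omega
          intro i
          fin_cases i
          · exact c0
          · exact c1
          · exact c2)
      have e3 : -((-X * (1 - X - Y)⁻¹) / (1 - X - Y)⁻¹) = X := by
        field_simp
      have e4 : -((-Y * (1 - X - Y)⁻¹) / (1 - X - Y)⁻¹) = Y := by
        field_simp
      have key' : c (-((-X * (1 - X - Y)⁻¹) / (1 - X - Y)⁻¹))
          (-((-Y * (1 - X - Y)⁻¹) / (1 - X - Y)⁻¹)) = 0 := key
      rw [e3, e4] at key'
      exact key'
  exact K2G_gen H hy (hfin y hy).toFinset x hx fun V hV _ hVy =>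
    (Set.Finite.mem_toFinset _).2 ⟨hV, hVy⟩

end Pool.Agent.Lib.MP_b197b4_ntZ
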