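import Mathlib
import Pool.Agent.Lib.MP_b197b4_ntZ.Hq
import Pool.Agent.Lib.MP_b197b4_ntZ.Vb

/-!
# MP_b197b4_nt, project LIT, leaf Pa: surfaces over a curve
-/

set_option autoImplicit false

namespace Pool.Agent.Lib.MP_b197b4_ntZ

open IsLocalRing Pool.Agent.Lib.MP_b197b4_ntK Pool.Agent.Lib.MP_b197b4_ntA

/-- The coordinates `t_1, t_2` of the plane `t_0 + t_1 + t_2 = 1`. -/
noncomputable def e2 (R : Type) [CommRing R] : Pol 2 R →ₐ[R] MvPolynomial (Fin 2) R :=
  MvPolynomial.aeval ![1 - MvPolynomial.X 0 - MvPolynomial.X 1, MvPolynomial.X 0, MvPolynomial.X 1]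

private noncomputable def Pa_s (R : Type) [CommRing R] : MvPolynomial (Fin 2) R →ₐ[R] Pol 2 R :=
  MvPolynomial.aeval ![MvPolynomial.X 1, MvPolynomial.X 2]

theorem e2_surjective (R : Type) [CommRing R] : Function.Surjective (e2 R) := by
  have h : (e2 R).comp (Pa_s R) = AlgHom.id R _ := by
    apply MvPolynomial.algHom_ext
    intro i
    fin_cases i
    · show e2 R (Pa_s R (MvPolynomial.X 0)) = MvPolynomial.X 0
      rw [Pa_s, MvPolynomial.aeval_X]
      show e2 R (MvPolynomial.X 1) = MvPolynomial.X 0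
      rw [e2, MvPolynomial.aeval_X]
      rfl
    · show e2 R (Pa_s R (MvPolynomial.X 1)) = MvPolynomial.X 1
      rw [Pa_s, MvPolynomial.aeval_X]
      show e2 R (MvPolynomial.X 2) = MvPolynomial.X 1
      rw [e2, MvPolynomial.aeval_X]
      rfl
  intro p
  exact ⟨Pa_s R p, AlgHom.congr_fun h p⟩

/-- PROOF. Modulo `t_0 + t_1 + t_2 - 1` every polynomial is congruent to a polynomial in `t_1, t_2`. -/
theorem e2_ker (R : Type) [CommRing R] :
    RingHom.ker (e2 R) = Ideal.span {∑ i, MvPolynomial.X i - 1} := by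
  have hg : e2 R (∑ i, MvPolynomial.X i - 1) = 0 := by
    rw [map_sub, map_sum, map_one, Fin.sum_univ_three, e2, MvPolynomial.aeval_X,
      MvPolynomial.aeval_X, MvPolynomial.aeval_X]
    show (1 - MvPolynomial.X 0 - MvPolynomial.X 1) + MvPolynomial.X 0 + MvPolynomial.X 1 - 1 =
      (0 : MvPolynomial (Fin 2) R)
    ring
  refine le_antisymm (fun f hf => ?_) ?_
  · have hf0 : e2 R f = 0 := hf
    have h : (Ideal.Quotient.mkₐ R (Ideal.span {(∑ i, MvPolynomial.X i - 1 : Pol 2 R)})).comp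
        ((Pa_s R).comp (e2 R)) =
        Ideal.Quotient.mkₐ R (Ideal.span {(∑ i, MvPolynomial.X i - 1 : Pol 2 R)}) := by
      apply MvPolynomial.algHom_ext
      intro i
      show Ideal.Quotient.mk _ (Pa_s R (e2 R (MvPolynomial.X i))) =
        Ideal.Quotient.mk _ (MvPolynomial.X i)
      rw [Ideal.Quotient.mk_eq_mk_iff_sub_mem]
      fin_cases i
      · show Pa_s R (e2 R (MvPolynomial.X 0)) - MvPolynomial.X 0 ∈ _
        have h1 : Pa_s R (e2 R (MvPolynomial.X 0)) = 1 - MvPolynomial.X 1 - MvPolynomial.X 2 := by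
          rw [e2, MvPolynomial.aeval_X]
          show Pa_s R (1 - MvPolynomial.X 0 - MvPolynomial.X 1) = _
          rw [map_sub, map_sub, map_one, Pa_s, MvPolynomial.aeval_X, MvPolynomial.aeval_X]
          rfl
        rw [h1]
        refine Ideal.mem_span_singleton'.2 ⟨-1, ?_⟩
        rw [Fin.sum_univ_three]
        ring
      · show Pa_s R (e2 R (MvPolynomial.X 1)) - MvPolynomial.X 1 ∈ _
        have h1 : Pa_s R (e2 R (MvPolynomial.X 1)) = MvPolynomial.X 1 := by
          rw [e2, MvPolynomial.aeval_X]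
          show Pa_s R (MvPolynomial.X 0) = _
          rw [Pa_s, MvPolynomial.aeval_X]
          rfl
        rw [h1, sub_self]
        exact zero_mem _
      · show Pa_s R (e2 R (MvPolynomial.X 2)) - MvPolynomial.X 2 ∈ _
        have h1 : Pa_s R (e2 R (MvPolynomial.X 2)) = MvPolynomial.X 2 := by
          rw [e2, MvPolynomial.aeval_X]
          show Pa_s R (MvPolynomial.X 1) = _
          rw [Pa_s, MvPolynomial.aeval_X]
          rfl
        rw [h1, sub_self]
        exact zero_mem _
    have h2 := AlgHom.congr_fun h f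
    have h3 : Ideal.Quotient.mk (Ideal.span {(∑ i, MvPolynomial.X i - 1 : Pol 2 R)})
        (Pa_s R (e2 R f)) = Ideal.Quotient.mk _ f := h2
    rw [hf0, map_zero, map_zero] at h3
    exact Ideal.Quotient.eq_zero_iff_mem.1 h3.symm
  · rw [Ideal.span_le, Set.singleton_subset_iff]
    exact hg

/-- PROOF. `(π)` is a nonzero prime ideal of the domain `K[t_1, t_2]` of dimension two, so the dimension `d` of the quotient
is at most one (`XP_dim_lt`); by `XP_dim_ker` it is the transcendence degree of the fraction field `L` of the quotient. If it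
were zero, both coordinates would be algebraic over `K`: nonzero polynomials `f(t_1)` and `g(t_2)` would be divisible by `π`, so
`π` would be a polynomial in `t_1` only and in `t_2` only (degrees), a constant. -/
theorem dim_quot {K : Type} [Field K] {π : MvPolynomial (Fin 2) K} (hπ : Irreducible π) :
    ringKrullDim (MvPolynomial (Fin 2) K ⧸ Ideal.span {π}) = 1 := by
  have hp : Prime π := hπ.prime
  have hP : (Ideal.span {π}).IsPrime := (Ideal.span_singleton_prime hp.ne_zero).2 hp
  have h2 : Pool.Agent.Lib.MP_b197b4_ntD.HasDim K (MvPolynomial (Fin 2) K) 2 :=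
    ⟨AlgHom.id _ _, fun _ _ h => h, RingHom.isIntegral_of_surjective _ fun x => ⟨x, rfl⟩⟩
  obtain ⟨h, t, e1, e2, e3⟩ := h2.quotient (Ideal.span {π})
  have h3 : (Ideal.span {π}).height = 1 :=
    Ideal.height_span_singleton_eq_one_of_mem_nonZeroDivisors
      (mem_nonZeroDivisors_of_ne_zero hp.ne_zero) hp.not_isUnit
  have h4 : h = 1 := by
    rw [h3] at e1
    exact_mod_cast e1.symm
  have h5 : t = 1 := by omega
  have h6 : IsDomain (MvPolynomial (Fin 2) K ⧸ Ideal.span {π}) := Ideal.Quotient.isDomain _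
  rw [e2.ringKrullDim, h5]
  rfl

variable {k : Type} {F : Type} [Field k] [Field F] [Algebra k F] {n : ℕ} {x : Fin (n + 1) → F}

/-- The surface `π = 0` over the curve `P`. -/
noncomputable def su (P : LocalSubring F) (π : MvPolynomial (Fin 2) (Kap P)) : Sub F 2 :=
  ⟨P, (Ideal.span {π}).comap (e2 (Kap P))⟩

/-- PROOF. `e2` is surjective, so the quotient rings are isomorphic; `dim_quot`; `1 + 1 = 2`. -/
theorem su_isSub {P : LocalSubring F} (hP : P ∈ Pts k x 1) {π : MvPolynomial (Fin 2) (Kap P)}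
    (hπ : Irreducible π) : IsSub k x 2 (su P π) := by
  have hp : Prime π := hπ.prime
  have hP' : (Ideal.span {π}).IsPrime := (Ideal.span_singleton_prime hp.ne_zero).2 hp
  refine ⟨1, 1, hP, Ideal.comap_isPrime _ _, ?_, ?_, rfl⟩
  · have h : (∑ i, MvPolynomial.X i - 1 : Pol 2 (Kap P)) ∈ RingHom.ker (e2 (Kap P)) := by
      rw [e2_ker]
      exact Ideal.mem_span_singleton_self _
    have h1 : e2 (Kap P) (∑ i, MvPolynomial.X i - 1) ∈ Ideal.span {π} := by
      have h' : e2 (Kap P) (∑ i, MvPolynomial.X i - 1) = 0 := h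
      rw [h']
      exact zero_mem _
    exact h1
  · have h1 : Function.Bijective (Ideal.quotientMap (Ideal.span {π})
        (e2 (Kap P)).toRingHom (le_refl ((Ideal.span {π}).comap (e2 (Kap P)).toRingHom))) :=
      ⟨Ideal.quotientMap_injective, Ideal.quotientMap_surjective (e2_surjective (Kap P))⟩
    have h2 := ringKrullDim_eq_of_ringEquiv (RingEquiv.ofBijective _ h1)
    rw [dim_quot hπ] at h2
    exact_mod_cast h2

/-- the vertices -/
private def Pa_v (K : Type) [Field K] : Fin 3 → Fin 2 → K := ![![0, 0], ![1, 0], ![0, 1]]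

private noncomputable def Pa_ev (K : Type) [Field K] (l : Fin 3) : Pol 2 K →ₐ[K] K :=
  (MvPolynomial.aeval (Pa_v K l)).comp (e2 K)

private theorem Pa_ev_X (K : Type) [Field K] (l i : Fin 3) :
    Pa_ev K l (MvPolynomial.X i) = if i = l then 1 else 0 := by
  have h : Pa_ev K l (MvPolynomial.X i) =
      MvPolynomial.aeval (Pa_v K l) ((![1 - MvPolynomial.X 0 - MvPolynomial.X 1, MvPolynomial.X 0,
        MvPolynomial.X 1] : Fin 3 → MvPolynomial (Fin 2) K) i) := by
    show MvPolynomial.aeval (Pa_v K l) (e2 K (MvPolynomial.X i)) = _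
    rw [e2, MvPolynomial.aeval_X]
  rw [h]
  fin_cases l <;> fin_cases i <;> simp [Pa_v]

/-- values modulo an ideal which contains all the `t_i`, `i ≠ l` -/
private theorem Pa_sub {K : Type} [Field K] {q : Ideal (Pol 2 K)} (l : Fin 3)
    (hq : ∀ i, i ≠ l → MvPolynomial.X i ∈ q) (hs : ∑ i, MvPolynomial.X i - 1 ∈ q) (f : Pol 2 K) :
    f - MvPolynomial.C (Pa_ev K l f) ∈ q := by
  have hl : MvPolynomial.X l - 1 ∈ q := by
    have h1 : (MvPolynomial.X l - 1 : Pol 2 K) = (∑ i, MvPolynomial.X i - 1) -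
        ∑ i ∈ Finset.univ.erase l, MvPolynomial.X i := by
      rw [← Finset.add_sum_erase Finset.univ _ (Finset.mem_univ l)]
      ring
    rw [h1]
    exact sub_mem hs (sum_mem fun i hi => hq i (Finset.ne_of_mem_erase hi))
  have h : (Algebra.ofId K (Pol 2 K ⧸ q)).comp (Pa_ev K l) = Ideal.Quotient.mkₐ K q := by
    apply MvPolynomial.algHom_ext
    intro i
    show algebraMap K (Pol 2 K ⧸ q) (Pa_ev K l (MvPolynomial.X i)) =
      Ideal.Quotient.mk q (MvPolynomial.X i)
    rw [Pa_ev_X]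
    by_cases hi : i = l
    · rw [if_pos hi, map_one, hi, ← map_one (Ideal.Quotient.mk q), eq_comm,
        Ideal.Quotient.mk_eq_mk_iff_sub_mem]
      exact hl
    · rw [if_neg hi, map_zero, eq_comm, Ideal.Quotient.eq_zero_iff_mem]
      exact hq i hi
  have h2 := AlgHom.congr_fun h f
  have h3 : Ideal.Quotient.mk q (MvPolynomial.C (Pa_ev K l f)) = Ideal.Quotient.mk q f := h2
  exact Ideal.Quotient.mk_eq_mk_iff_sub_mem _ _ |>.1 h3.symm

private theorem Pa_dim {K : Type} [Field K] {q : Ideal (Pol 2 K)} (hp : q.IsPrime) (l : Fin 3)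
    (hq : ∀ i, i ≠ l → MvPolynomial.X i ∈ q) (hs : ∑ i, MvPolynomial.X i - 1 ∈ q) :
    ringKrullDim (Pol 2 K ⧸ q) = 0 := by
  have h0 : Nontrivial (Pol 2 K ⧸ q) := Ideal.Quotient.nontrivial_iff.2 hp.ne_top
  have h1 : Function.Bijective (algebraMap K (Pol 2 K ⧸ q)) := by
    refine ⟨(algebraMap K (Pol 2 K ⧸ q)).injective, fun z => ?_⟩
    obtain ⟨f, rfl⟩ := Ideal.Quotient.mk_surjective z
    refine ⟨Pa_ev K l f, ?_⟩
    show Ideal.Quotient.mk q (MvPolynomial.C (Pa_ev K l f)) = _
    exact ((Ideal.Quotient.mk_eq_mk_iff_sub_mem _ _).2 (Pa_sub l hq hs f)).symm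
  rw [← ringKrullDim_eq_of_ringEquiv (RingEquiv.ofBijective _ h1)]
  exact ringKrullDim_eq_zero_of_field K

private theorem Pa_ev_zero {K : Type} [Field K] {q : Ideal (Pol 2 K)} (hp : q.IsPrime) (l : Fin 3)
    (hq : ∀ i, i ≠ l → MvPolynomial.X i ∈ q) (hs : ∑ i, MvPolynomial.X i - 1 ∈ q) {f : Pol 2 K}
    (hf : f ∈ q) : Pa_ev K l f = 0 := by
  by_contra h
  have h1 : MvPolynomial.C (Pa_ev K l f) ∈ q := by
    have h2 := sub_mem hf (Pa_sub l hq hs f)
    rwa [sub_sub_cancel] at h2
  refine hp.ne_top (Ideal.eq_top_of_isUnit_mem _ h1 ?_)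
  exact (isUnit_iff_ne_zero.2 h).map MvPolynomial.C

/-- `π` does not divide the coordinates -/
private theorem Pa_ndvd {K : Type} [Field K] {π : MvPolynomial (Fin 2) K} (hπ : Irreducible π)
    (h : ∀ l, MvPolynomial.aeval (Pa_v K l) π ≠ 0) (i : Fin 3) : ¬ π ∣ e2 K (MvPolynomial.X i) := by
  rintro ⟨g, hg⟩
  obtain ⟨l, hl⟩ : ∃ l : Fin 3, i ≠ l := by
    by_cases hi : i = 0
    · exact ⟨1, by rw [hi]; decide⟩
    · exact ⟨0, hi⟩
  have h0 : ∀ l, MvPolynomial.aeval (Pa_v K l) (e2 K (MvPolynomial.X i)) = if i = l then 1 else 0 :=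
    fun l => Pa_ev_X K l i
  have hne : e2 K (MvPolynomial.X i) ≠ 0 := by
    intro h1
    have h2 := h0 i
    rw [h1, map_zero, if_pos rfl] at h2
    exact zero_ne_one h2
  have hd : (e2 K (MvPolynomial.X i)).totalDegree ≤ 1 := by
    rw [e2, MvPolynomial.aeval_X]
    fin_cases i
    · show (1 - MvPolynomial.X 0 - MvPolynomial.X 1 : MvPolynomial (Fin 2) K).totalDegree ≤ 1
      refine (MvPolynomial.totalDegree_sub _ _).trans (max_le ((MvPolynomial.totalDegree_sub _ _).trans
        (max_le ?_ ?_)) ?_)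
      · rw [MvPolynomial.totalDegree_one]
        exact Nat.zero_le _
      · rw [MvPolynomial.totalDegree_X]
      · rw [MvPolynomial.totalDegree_X]
    · show (MvPolynomial.X 0 : MvPolynomial (Fin 2) K).totalDegree ≤ 1
      rw [MvPolynomial.totalDegree_X]
    · show (MvPolynomial.X 1 : MvPolynomial (Fin 2) K).totalDegree ≤ 1
      rw [MvPolynomial.totalDegree_X]
  have hg0 : g ≠ 0 := by
    rintro rfl
    rw [mul_zero] at hg
    exact hne hg
  have h3 : π.totalDegree ≠ 0 := by
    intro h4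
    rw [MvPolynomial.totalDegree_eq_zero_iff_eq_C] at h4
    refine hπ.not_isUnit ?_
    rw [h4]
    refine (isUnit_iff_ne_zero.2 fun h5 => hπ.ne_zero ?_).map MvPolynomial.C
    rw [h4, h5, map_zero]
  rw [hg, MvPolynomial.totalDegree_mul_of_isDomain hπ.ne_zero hg0] at hd
  have h4 : g.totalDegree = 0 := by omega
  rw [MvPolynomial.totalDegree_eq_zero_iff_eq_C] at h4
  have h5 := h0 l
  rw [if_neg hl, hg, map_mul, h4, MvPolynomial.aeval_C] at h5
  rcases mul_eq_zero.1 h5 with h6 | h6
  · exact h l h6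
  · refine hg0 ?_
    rw [h4]
    have h7 : g.coeff 0 = 0 := h6
    rw [h7, map_zero]

/-- PROOF. Let `V ⊆ W = su P π` (so `V.1 ≤ P`, `le_of_idl`) of dimension `r` and `t_i ∈ V.2` for `i ∈ I`. `r ≤ 2` (`sub_dim`).
If `I ≠ ∅` then `V ≠ W`, because `t_i ∉ W.2`: otherwise `e2 t_i = π h`, so `π` has total degree at
most one, and it is not constant, so `h` is a nonzero constant and `π` is zero at the vertices where `t_i = 0`: contradiction
(two of `h00`, `h10`, `h01`). So
`r ≤ 1`. If `I` has three elements then `1 ∈ V.2`, impossible. If `I = {i, j}`, `l` the third index, then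
`t_i, t_j, t_l - 1 ∈ V.2`, so `V.2` is this maximal ideal, of dimension `0`, and `r` is the dimension of `V.1`. If `r = 1`
then `V.1 = P` (`pts_dim`), `idl P W ≤ idl P V` means `W.2 ≤ V.2` (`O[t] → κ(O)[t]` is surjective for `O = P`), so `π` is zero at
the vertex `t_l = 1`: contradiction with `h00` (`l = 0`), `h10` (`l = 1`) or `h01` (`l = 2`). So `r = 0 ≤ 2 - 2`. -/
theorem su_proper (hne : ∀ i, x i ≠ 0) {P : LocalSubring F} (hP : P ∈ Pts k x 1)
    {π : MvPolynomial (Fin 2) (Kap P)} (hπ : Irreducible π)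
    (h00 : MvPolynomial.eval ![0, 0] π ≠ 0) (h10 : MvPolynomial.eval ![1, 0] π ≠ 0)
    (h01 : MvPolynomial.eval ![0, 1] π ≠ 0) : Proper k x 2 (su P π) := by
  have hv : ∀ l, MvPolynomial.aeval (Pa_v (Kap P) l) π ≠ 0 := by
    intro l
    fin_cases l
    · exact h00
    · exact h10
    · exact h01
  have hW := su_isSub hP hπ
  intro I V r hV hVW hI
  obtain ⟨hr2, hreq⟩ := sub_dim hne hV hW hVW
  obtain ⟨s, r', hV1, hVp, hVs, hVd, hsr⟩ := id hV
  have hle : V.1.toSubring ≤ P.toSubring := le_of_idl hVp hVW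
  have hr1 : I.Nonempty → r ≤ 1 := by
    rintro ⟨i, hi⟩
    by_contra h
    have h2 : V = su P π := hreq (by omega)
    have h3 := hI i hi
    rw [h2] at h3
    have h4 : e2 (Kap P) (MvPolynomial.X i) ∈ Ideal.span {π} := h3
    exact Pa_ndvd hπ hv i (Ideal.mem_span_singleton.1 h4)
  have hc3 : I.card ≤ 3 := by
    have := I.card_le_univ
    simpa using this
  rcases I.eq_empty_or_nonempty with rfl | hne'
  · simpa using hr2
  have hr := hr1 hne'
  have hc : I.card ≠ 3 := by
    intro h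
    have hI' : I = Finset.univ := (Finset.card_eq_iff_eq_univ I).1 (by simpa using h)
    refine hVp.ne_top ((Ideal.eq_top_iff_one _).2 ?_)
    have h1 : (1 : Pol 2 (Kap V.1)) = ∑ i, MvPolynomial.X i - (∑ i, MvPolynomial.X i - 1) := by
      ring
    rw [h1]
    exact sub_mem (sum_mem fun i _ => hI i (by rw [hI']; exact Finset.mem_univ i)) hVs
  by_cases hc2 : I.card = 2
  swap
  · omega
  -- two coordinates
  obtain ⟨l, hl⟩ : ∃ l, ∀ i, i ≠ l → i ∈ I := by
    have h1 : (Iᶜ).card = 1 := by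
      rw [Finset.card_compl, hc2]
      simp
    obtain ⟨l, hl⟩ := Finset.card_eq_one.1 h1
    refine ⟨l, fun i hi => ?_⟩
    by_contra h2
    have h3 : i ∈ Iᶜ := Finset.mem_compl.2 h2
    rw [hl, Finset.mem_singleton] at h3
    exact hi h3
  have hq : ∀ i, i ≠ l → MvPolynomial.X i ∈ V.2 := fun i hi => hI i (hl i hi)
  have hd0 := Pa_dim hVp l hq hVs
  rw [hd0] at hVd
  have hr0 : r' = 0 := by exact_mod_cast hVd.symm
  by_contra hcon
  have hs1 : s = 1 := by omega
  subst hs1
  have hPV : V.1 = P := (pts_dim hne hV1 hP hle).2 rfl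
  obtain ⟨O, q⟩ := V
  have hPV' : O = P := hPV
  subst hPV'
  have hle' : (su O π).2 ≤ q := by
    have hf : Function.Surjective (MvPolynomial.map (σ := Fin 3)
        ((residue O.toSubring).comp (Subring.inclusion (le_refl O.toSubring)))) := by
      refine MvPolynomial.map_surjective _ fun z => ?_
      obtain ⟨w, hw⟩ := residue_surjective z
      exact ⟨w, hw⟩
    have e1 : idl O (su O π) = (su O π).2.comap (MvPolynomial.map
        ((residue O.toSubring).comp (Subring.inclusion (le_refl O.toSubring)))) :=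
      dif_pos (le_refl O.toSubring)
    have e2 : idl O (⟨O, q⟩ : Sub F 2) = q.comap (MvPolynomial.map
        ((residue O.toSubring).comp (Subring.inclusion (le_refl O.toSubring)))) :=
      dif_pos (le_refl O.toSubring)
    have h1 : idl O (su O π) ≤ idl O (⟨O, q⟩ : Sub F 2) := hVW
    rw [e1, e2] at h1
    exact (Ideal.comap_le_comap_iff_of_surjective _ hf _ _).1 h1
  obtain ⟨p, hp⟩ := e2_surjective (Kap O) π
  have h1 : p ∈ q := hle' (by
    show e2 (Kap O) p ∈ Ideal.span {π}
    rw [hp]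
    exact Ideal.mem_span_singleton_self π)
  have h2 := Pa_ev_zero hVp l hq hVs h1
  have h3 : MvPolynomial.aeval (Pa_v (Kap O) l) (e2 (Kap O) p) = 0 := h2
  rw [hp] at h3
  exact hv l h3

end Pool.Agent.Lib.MP_b197b4_ntZ
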