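import Mathlib
import Pool.Agent.Lib.MP_b197b4_ntZ.Pa
import Pool.Agent.Lib.MP_b197b4_ntZ.Alg6

/-!
# MP_b197b4_nt, project LIT, leaf Pb: the boundary of a surface over a curve
-/

set_option autoImplicit false

namespace Pool.Agent.Lib.MP_b197b4_ntZ

open Polynomial IsLocalRing Pool.Agent.Lib.MP_b197b4_ntK Pool.Agent.Lib.MP_b197b4_ntA

variable {F : Type} [Field F]

private theorem Pb_fmap_same (K : Type) [Field K] (i : Fin 3) : fmap K i (MvPolynomial.X i) = 0 := by
  unfold fmap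
  rw [MvPolynomial.aeval_X, Fin.insertNth_apply_same]

private theorem Pb_fmap_succ (K : Type) [Field K] (i : Fin 3) (l : Fin 2) :
    fmap K i (MvPolynomial.X (i.succAbove l)) = MvPolynomial.X l := by
  unfold fmap
  rw [MvPolynomial.aeval_X, Fin.insertNth_apply_succAbove]

private theorem Pb_e2X (K : Type) [Field K] (j : Fin 3) : e2 K (MvPolynomial.X j) =
    (![1 - MvPolynomial.X 0 - MvPolynomial.X 1, MvPolynomial.X 0, MvPolynomial.X 1] :
      Fin 3 → MvPolynomial (Fin 2) K) j := by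
  unfold e2
  rw [MvPolynomial.aeval_X]

private theorem Pb_same (K : Type) [Field K] (i : Fin 3) :
    edge i (e2 K (MvPolynomial.X i)) = 0 := by
  rw [Pb_e2X]
  unfold edge
  fin_cases i
  · simp
  · simp
  · simp

private theorem Pb_succ (K : Type) [Field K] (i : Fin 3) (l : Fin 2) :
    edge i (e2 K (MvPolynomial.X (i.succAbove l))) = (![1 - X, X] : Fin 2 → K[X]) l := by
  rw [Pb_e2X]
  unfold edge
  fin_cases i
  · fin_cases l
    · show MvPolynomial.aeval _ (MvPolynomial.X 0 : MvPolynomial (Fin 2) K) = 1 - X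
      simp
    · show MvPolynomial.aeval _ (MvPolynomial.X 1 : MvPolynomial (Fin 2) K) = X
      simp
  · fin_cases l
    · show MvPolynomial.aeval _ (1 - MvPolynomial.X 0 - MvPolynomial.X 1 : MvPolynomial (Fin 2) K) = 1 - X
      simp
    · show MvPolynomial.aeval _ (MvPolynomial.X 1 : MvPolynomial (Fin 2) K) = X
      simp
  · fin_cases l
    · show MvPolynomial.aeval _ (1 - MvPolynomial.X 0 - MvPolynomial.X 1 : MvPolynomial (Fin 2) K) = 1 - X
      simp
    · show MvPolynomial.aeval _ (MvPolynomial.X 0 : MvPolynomial (Fin 2) K) = X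
      simp

/-- PROOF. Compare the images of the three variables: e.g. `i = 0`: `t_0 ↦ 0`, `t_1 ↦ t_0 ↦ 1 - X`, `t_2 ↦ t_1 ↦ X`, and
`edge 0 (e2 t_1) = edge 0 (X 0) = 1 - X`. -/
theorem e1_fmap (K : Type) [Field K] (i : Fin 3) (g : Pol 2 K) :
    e1 K (fmap K i g) = edge i (e2 K g) := by
  have h : (e1 K).comp (fmap K i) = (edge i).comp (e2 K) := by
    refine MvPolynomial.algHom_ext fun j => ?_
    show e1 K (fmap K i (MvPolynomial.X j)) = edge i (e2 K (MvPolynomial.X j))
    rcases Fin.eq_self_or_eq_succAbove i j with hj | ⟨l, hj⟩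
    · rw [hj, Pb_fmap_same, Pb_same, map_zero]
    · rw [hj, Pb_fmap_succ, Pb_succ]
      unfold e1
      rw [MvPolynomial.aeval_X]
  exact DFunLike.congr_fun h g

private theorem Pb_ev {K : Type} [Field K] (i : Fin 3) (c : K) (G : MvPolynomial (Fin 2) K) :
    (edge i G).eval c = MvPolynomial.eval (fun j =>
      ((if i = 0 then ![1 - X, X] else if i = 1 then ![0, X] else ![X, 0] : Fin 2 → K[X]) j).eval c) G := by
  unfold edge
  have h1 := MvPolynomial.comp_aeval_apply
    (f := (if i = 0 then ![1 - X, X] else if i = 1 then ![0, X] else ![X, 0] : Fin 2 → K[X]))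
    (Polynomial.aeval c : K[X] →ₐ[K] K) G
  rw [Polynomial.coe_aeval_eq_eval] at h1
  rw [h1, ← MvPolynomial.coe_aeval_eq_eval]
  rfl

private theorem Pb_edges {K : Type} [Field K] (G : MvPolynomial (Fin 2) K) :
    (edge 0 G).eval 0 = MvPolynomial.eval ![1, 0] G ∧
    (edge 0 G).eval 1 = MvPolynomial.eval ![0, 1] G ∧
    (edge 1 G).eval 0 = MvPolynomial.eval ![0, 0] G ∧
    (edge 1 G).eval 1 = MvPolynomial.eval ![0, 1] G ∧
    (edge 2 G).eval 0 = MvPolynomial.eval ![0, 0] G ∧
    (edge 2 G).eval 1 = MvPolynomial.eval ![1, 0] G := by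
  refine ⟨?_, ?_, ?_, ?_, ?_, ?_⟩ <;> rw [Pb_ev] <;>
    refine congrArg (fun v => MvPolynomial.eval v G) (funext fun j => ?_) <;> fin_cases j <;> simp

private theorem Pb_ne {K : Type} [Field K] {π : MvPolynomial (Fin 2) K}
    (h00 : MvPolynomial.eval ![0, 0] π ≠ 0) (h10 : MvPolynomial.eval ![1, 0] π ≠ 0) (i : Fin 3) :
    edge i π ≠ 0 := by
  intro h
  obtain ⟨h1, h2, h3, h4, h5, h6⟩ := Pb_edges π
  fin_cases i
  · apply h10
    rw [← h1]
    have h7 : edge 0 π = 0 := h
    rw [h7, eval_zero]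
  · apply h00
    rw [← h3]
    have h7 : edge 1 π = 0 := h
    rw [h7, eval_zero]
  · apply h00
    rw [← h5]
    have h7 : edge 2 π = 0 := h
    rw [h7, eval_zero]

private theorem Pb_comap {A B : Type} [CommRing A] [CommRing B] (f : A →+* B)
    (hf : Function.Surjective f) (J : Ideal B) (a : A) :
    J.comap f ⊔ Ideal.span {a} = (J ⊔ Ideal.span {f a}).comap f := by
  have h1 : J ⊔ Ideal.span {f a} = (J.comap f ⊔ Ideal.span {a}).map f := by
    rw [Ideal.map_sup, Ideal.map_comap_of_surjective f hf, Ideal.map_span, Set.image_singleton]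
  rw [h1, Ideal.comap_map_of_surjective f hf]
  refine (sup_eq_left.2 ?_).symm
  exact (Ideal.comap_mono bot_le).trans le_sup_left

private theorem Pb_locSub_surj (P : LocalSubring F) : Function.Surjective (locSub P P).subtype := by
  intro z
  obtain ⟨y, hy⟩ := residue_surjective z
  exact ⟨⟨z, ⟨y, y.2, hy⟩⟩, rfl⟩

private theorem Pb_resLoc (P : LocalSubring F) :
    resLoc (le_refl P.toSubring) = (locSub P P).subtype := by
  ext ⟨z, hz⟩
  obtain ⟨y, hy⟩ := residue_surjective z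
  subst hy
  exact (resLoc_exists (le_refl P.toSubring)).choose_spec.2 y.1 y.2 y.2 hz

private theorem Pb_gen {A B C : Type} [CommRing A] [CommRing B] [CommRing C] (u : A →+* B)
    (v : B →+* C) (f : A →+* C) (hu : Function.Surjective u) (hf : Function.Surjective f)
    (hfv : f = v.comp u) (x : A) (hx : f x = 0) (π : B)
    (hker : ∀ g, f g = 0 → g ∈ (Ideal.span {π}).comap u ⊔ Ideal.span {x}) (y : C) (hy : v π = y) :
    (Ideal.span {π}).comap u ⊔ Ideal.span {x} = (Ideal.span {y}).comap f := by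
  subst hy
  have h1 : ((Ideal.span {π}).comap u ⊔ Ideal.span {x}).map f = Ideal.span {v π} := by
    rw [Ideal.map_sup, Ideal.map_span, Set.image_singleton, hx, Ideal.span_singleton_zero,
      sup_bot_eq, hfv, ← Ideal.map_map, Ideal.map_comap_of_surjective u hu, Ideal.map_span,
      Set.image_singleton]
  rw [← h1, Ideal.comap_map_of_surjective f hf]
  exact (sup_eq_left.2 fun g hg => hker g hg).symm

private theorem Pb_ker (K : Type) [Field K] (i : Fin 3) (π : MvPolynomial (Fin 2) K) (g : Pol 2 K)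
    (hg : e1 K (fmap K i g) = 0) :
    g ∈ (Ideal.span {π}).comap (e2 K : Pol 2 K →+* MvPolynomial (Fin 2) K) ⊔
      Ideal.span {MvPolynomial.X i} := by
  have hg2 : fmap K i g ∈ RingHom.ker (e1 K) := hg
  rw [e1_ker, Ideal.mem_span_singleton'] at hg2
  obtain ⟨c, hc⟩ := hg2
  obtain ⟨c', hc'⟩ := fmap_surjective K i c
  obtain ⟨s, hs⟩ : ∃ s : Pol 2 K, s = ∑ j, MvPolynomial.X j - 1 := ⟨_, rfl⟩
  have hs2 : fmap K i s = ∑ j, MvPolynomial.X j - 1 := by
    rw [hs]
    exact fmap_sum K i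
  have hg3 : g - c' * s ∈ RingHom.ker (fmap K i) := by
    show fmap K i (g - c' * s) = 0
    rw [map_sub, map_mul, hc', hs2, hc, sub_self]
  rw [fmap_ker] at hg3
  have hg4 : s ∈ (Ideal.span {π}).comap (e2 K : Pol 2 K →+* MvPolynomial (Fin 2) K) := by
    have h5 : s ∈ RingHom.ker (e2 K) := by
      rw [e2_ker, hs]
      exact Ideal.subset_span rfl
    show e2 K s ∈ Ideal.span {π}
    have h6 : e2 K s = 0 := h5
    rw [h6]
    exact Ideal.zero_mem _
  have h7 : g = c' * s + (g - c' * s) := by ring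
  rw [h7]
  exact Ideal.add_mem _ (Ideal.mem_sup_left (Ideal.mul_mem_left _ _ hg4)) (Ideal.mem_sup_right hg3)

private theorem Pb_surj (K : Type) [Field K] (i : Fin 3) :
    Function.Surjective ((e1 K : Pol 1 K →+* K[X]).comp (fmap K i : Pol 2 K →+* Pol 1 K)) := by
  intro y
  obtain ⟨z, hz⟩ := e1_surjective K y
  obtain ⟨w, hw⟩ := fmap_surjective K i z
  refine ⟨w, ?_⟩
  rw [RingHom.comp_apply]
  show e1 K (fmap K i w) = y
  rw [hw, hz]

private theorem Pb_ideal (K : Type) [Field K] (i : Fin 3) (π : MvPolynomial (Fin 2) K) :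
    (Ideal.span {π}).comap (e2 K : Pol 2 K →+* MvPolynomial (Fin 2) K) ⊔
      Ideal.span {MvPolynomial.X i} =
      (Ideal.span {edge i π}).comap ((e1 K : Pol 1 K →+* K[X]).comp (fmap K i : Pol 2 K →+* Pol 1 K)) := by
  have h1 : (e1 K : Pol 1 K →+* K[X]).comp (fmap K i : Pol 2 K →+* Pol 1 K) =
      ((edge i : MvPolynomial (Fin 2) K →ₐ[K] K[X]) : MvPolynomial (Fin 2) K →+* K[X]).comp (e2 K : Pol 2 K →+* MvPolynomial (Fin 2) K) := by
    refine RingHom.ext fun g => ?_
    rw [RingHom.comp_apply, RingHom.comp_apply]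
    exact e1_fmap K i g
  have h2 : ((e1 K : Pol 1 K →+* K[X]).comp (fmap K i : Pol 2 K →+* Pol 1 K)) (MvPolynomial.X i) = 0 := by
    rw [RingHom.comp_apply]
    show e1 K (fmap K i (MvPolynomial.X i)) = 0
    rw [Pb_fmap_same, map_zero]
  have h3 : ∀ g : Pol 2 K, ((e1 K : Pol 1 K →+* K[X]).comp (fmap K i : Pol 2 K →+* Pol 1 K)) g = 0 →
      g ∈ (Ideal.span {π}).comap (e2 K : Pol 2 K →+* MvPolynomial (Fin 2) K) ⊔
        Ideal.span {MvPolynomial.X i} := by
    intro g hg
    rw [RingHom.comp_apply] at hg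
    exact Pb_ker K i π g hg
  exact Pb_gen (e2 K : Pol 2 K →+* MvPolynomial (Fin 2) K)
    ((edge i : MvPolynomial (Fin 2) K →ₐ[K] K[X]) : MvPolynomial (Fin 2) K →+* K[X]) _ (e2_surjective K)
    (Pb_surj K i) h1 (MvPolynomial.X i) h2 π h3 (edge i π) rfl

private theorem Pb_mult (P : LocalSubring F) (J p : Ideal (Pol 2 (Kap P))) [p.IsPrime] (i : Fin 3) :
    mult (⟨P, J⟩ : Sub F 2) (⟨P, p⟩ : Sub F 2) i = lgth p (J ⊔ Ideal.span {MvPolynomial.X i}) := by
  have h1 := mult_loc (⟨P, J⟩ : Sub F 2) P (le_refl _) p i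
  dsimp only at h1
  rw [Pb_resLoc] at h1
  rw [h1]
  have hs : Function.Surjective (MvPolynomial.map (σ := Fin 3) (locSub P P).subtype) :=
    MvPolynomial.map_surjective _ (Pb_locSub_surj P)
  have h2 := Pb_comap (MvPolynomial.map (σ := Fin 3) (locSub P P).subtype) hs J (MvPolynomial.X i)
  rw [MvPolynomial.map_X] at h2
  rw [h2]
  exact lgth_comap (MvPolynomial.map (σ := Fin 3) (locSub P P).subtype) hs p _

/-- PROOF. `K = κ(P)`. By `mult_loc` with `O = P`: `R = locSub P P` is all of `K` (every element of `K` is a residue class), and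
`resLoc` and `R.subtype` are the same map `R ≃ K`; so by `lgth_comap` for the surjective `map R.subtype : R[t] → K[t]` the
multiplicity is `lgth p (q ⊔ (X i))` in `Pol 2 K` with `p = ((w).comap e1).comap (fmap i)`, `q = (π).comap e2`. Let
`f = e1 ∘ fmap i = edge i ∘ e2 : Pol 2 K → K[X]` (`e1_fmap`), surjective. `p = (w).comap f` and
`q ⊔ (X i) = (edge i π).comap f`: the kernel of `f` is generated by `∑ X - 1` and `X i` (`fmap_ker`, `e1_ker`, `fmap_sum`),
which are in `q ⊔ (X i)` (`∑ X - 1` is in the kernel of `e2`), and `f (q ⊔ (X i))` is generated by `edge i π`. `edge i π ≠ 0`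
because its values at `0` and `1` are values of `π` at vertices. `lgth_comap`, `lgth_poly`. -/
theorem su_mult {P : LocalSubring F} {π : MvPolynomial (Fin 2) (Kap P)}
    (h00 : MvPolynomial.eval ![0, 0] π ≠ 0) (h10 : MvPolynomial.eval ![1, 0] π ≠ 0)
    (h01 : MvPolynomial.eval ![0, 1] π ≠ 0) {w : (Kap P)[X]} (hw : Irreducible w)
    (i : Fin 3) :
    mult (su P π) (face i (⟨P, (Ideal.span {w}).comap (e1 (Kap P))⟩ : Sub F 1)) i =
      emultiplicity w (edge i π) := by
  have hwp : (Ideal.span {w}).IsPrime := (Ideal.span_singleton_prime hw.ne_zero).2 hw.prime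
  have h1 := Pb_mult P ((Ideal.span {π}).comap (e2 (Kap P) : Pol 2 (Kap P) →+* _))
    ((Ideal.span {w}).comap ((e1 (Kap P) : Pol 1 (Kap P) →+* (Kap P)[X]).comp
      (fmap (Kap P) i : Pol 2 (Kap P) →+* Pol 1 (Kap P)))) i
  refine Eq.trans h1 ?_
  rw [Pb_ideal, lgth_comap _ (Pb_surj (Kap P) i)]
  exact lgth_poly w (edge i π) hw (Pb_ne h00 h10 i)

/-- PROOF. The values of `edge i G` at `0` and `1` are values of `G` at vertices: `edge 0 G`: `G(1,0)`, `G(0,1)`;
`edge 1 G`: `G(0,0)`, `G(0,1)`; `edge 2 G`: `G(0,0)`, `G(1,0)`. -/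
theorem edge_eval {K : Type} [Field K] (G : MvPolynomial (Fin 2) K) :
    (edge 0 G).eval 0 = MvPolynomial.eval ![1, 0] G ∧
    (edge 0 G).eval 1 = MvPolynomial.eval ![0, 1] G ∧
    (edge 1 G).eval 0 = MvPolynomial.eval ![0, 0] G ∧
    (edge 1 G).eval 1 = MvPolynomial.eval ![0, 1] G ∧
    (edge 2 G).eval 0 = MvPolynomial.eval ![0, 0] G ∧
    (edge 2 G).eval 1 = MvPolynomial.eval ![1, 0] G := by
  exact Pb_edges G

end Pool.Agent.Lib.MP_b197b4_ntZ
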