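import Mathlib
import Pool.Agent.Lib.MP_b197b4_ntZ.Pb
import Pool.Agent.Lib.MP_b197b4_ntZ.Fn

/-!
# MP_b197b4_nt, project LIT, leaf P6a: functions on curves which kill the boundaries
-/

set_option autoImplicit false

namespace Pool.Agent.Lib.MP_b197b4_ntZ

open Polynomial IsLocalRing Pool.Agent.Lib.MP_b197b4_ntK Pool.Agent.Lib.MP_b197b4_ntA

variable {k : Type} {F : Type} [Field k] [Field F] [Algebra k F] {n : ℕ} {x : Fin (n + 1) → F}

/-- `ψ`, a function on the curves of `X × Δ ^ 1`, is zero on all boundaries. -/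
def Kill (k : Type) {F : Type} [Field k] [Field F] [Algebra k F] {n : ℕ}
    (x : Fin (n + 1) → F) (ψ : Sub F 1 → ℚ) : Prop :=
  ∀ W : Sub F 2, IsSub k x 2 W → Proper k x 2 W →
    ∑ᶠ (V : Sub F 1) (_ : IsSub k x 1 V), (bdy W V : ℚ) * ψ V = 0

private theorem P6a_map {α : Type*} [DecidableEq α] (N : Multiset α) (f : α → ℚ) (T : Finset α)
    (h : ∀ a ∈ N, a ∈ T) : (N.map f).sum = ∑ a ∈ T, (N.count a : ℚ) * f a := by
  rw [Finset.sum_multiset_map_count,
    Finset.sum_subset (s₂ := T) (fun a ha => h a (Multiset.mem_toFinset.1 ha))]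
  · exact Finset.sum_congr rfl fun a _ => nsmul_eq_mul _ _
  · intro a _ ha
    rw [Multiset.count_eq_zero_of_notMem (fun h => ha (Multiset.mem_toFinset.2 h)), zero_smul]

private theorem P6a_edge {K : Type} [Field K] {π : MvPolynomial (Fin 2) K}
    (h00 : MvPolynomial.eval ![0, 0] π ≠ 0) (h10 : MvPolynomial.eval ![1, 0] π ≠ 0)
    (h01 : MvPolynomial.eval ![0, 1] π ≠ 0) (i : Fin 3) :
    (edge i π).eval 0 ≠ 0 ∧ (edge i π).eval 1 ≠ 0 := by
  obtain ⟨a, b, c, d, e, f⟩ := edge_eval π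
  match i with
  | 0 => rw [a, b]; exact ⟨h10, h01⟩
  | 1 => rw [c, d]; exact ⟨h00, h01⟩
  | 2 => rw [e, f]; exact ⟨h00, h10⟩

private theorem P6a_ev {K : Type} [Field K] {w g : K[X]} (h : w ∣ g) (c : K)
    (hg : g.eval c ≠ 0) : w.eval c ≠ 0 := by
  obtain ⟨u, rfl⟩ := h
  rw [eval_mul] at hg
  exact left_ne_zero_of_mul hg

open Classical in
private theorem P6a_mem {K : Type} [Field K] {w g : K[X]} (hg : g ≠ 0) :
    w ∈ UniqueFactorizationMonoid.normalizedFactors g ↔ Irreducible w ∧ w.Monic ∧ w ∣ g := by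
  rw [UniqueFactorizationMonoid.mem_normalizedFactors_iff' hg]
  constructor
  · rintro ⟨h1, h2, h3⟩
    exact ⟨h1, (normalize_eq_self_iff_monic h1.ne_zero).1 h2, h3⟩
  · rintro ⟨h1, h2, h3⟩
    exact ⟨h1, h2.normalize_eq_self, h3⟩

open Classical in
private theorem P6a_count {K : Type} [Field K] {w g : K[X]} (hg : g ≠ 0) (hi : Irreducible w)
    (hm : w.Monic) :
    emultiplicity w g = (UniqueFactorizationMonoid.normalizedFactors g).count w := by
  rw [UniqueFactorizationMonoid.emultiplicity_eq_count_normalizedFactors hi hg,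
    hm.normalize_eq_self]

/-- PROOF. `Kill` for `W = vt 2 O` (`vt_isSub`, `vt_proper`): by `vt_bdy` the sum is `(1 - 1 + 1) ψ (vt 1 O)`. -/
theorem kill_vt (hne : ∀ i, x i ≠ 0) {ψ : Sub F 1 → ℚ} (hψ : Kill k x ψ) {O : LocalSubring F}
    (hO : O ∈ Pts k x 0) : ψ (vt 1 O) = 0 := by
  classical
  have h := hψ (vt 2 O) (vt_isSub hO) (vt_proper hne hO)
  rw [finsum_eq_single _ (vt 1 O), finsum_eq_if, if_pos (vt_isSub hO)] at h
  · have h1 := (vt_bdy (x := x) (k := k) hne hO (vt_isSub (m := 1) hO)).1 rfl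
    have h2 : (∑ i : Fin (1 + 2), (-1 : ℤ) ^ (i : ℕ)) = 1 := by decide
    have h3 : bdy (vt 2 O) (vt 1 O) = 1 := h1.trans h2
    rw [h3] at h
    simpa using h
  · intro V hV
    rw [finsum_eq_if]
    split_ifs with h1
    · have h2 : bdy (vt 2 O) V = 0 := (vt_bdy hne hO h1).2 hV
      rw [h2]
      simp
    · rfl

/-- the closed point `w = 0` of the line over `P` -/
private noncomputable def P6a_V (P : LocalSubring F) (w : (Kap P)[X]) : Sub F 1 :=
  ⟨P, (Ideal.span {w}).comap (e1 (Kap P))⟩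

private theorem P6a_inj {P : LocalSubring F} {w w' : (Kap P)[X]} (hm : w.Monic) (hm' : w'.Monic)
    (h : P6a_V P w = P6a_V P w') : w = w' := by
  unfold P6a_V at h
  exact hor_inj hm hm' (eq_of_heq (Sigma.mk.inj h).2)

open Classical in
private theorem P6a_bdy {P : LocalSubring F} {π : MvPolynomial (Fin 2) (Kap P)}
    (h00 : MvPolynomial.eval ![0, 0] π ≠ 0) (h10 : MvPolynomial.eval ![1, 0] π ≠ 0)
    (h01 : MvPolynomial.eval ![0, 1] π ≠ 0) {w : (Kap P)[X]} (hw : Irreducible w)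
    (hm : w.Monic) :
    bdy (su P π) (P6a_V P w) = ∑ i : Fin 3, (-1) ^ (i : ℕ) *
      (((UniqueFactorizationMonoid.normalizedFactors (edge i π)).count w : ℕ) : ℤ) := by
  unfold bdy
  refine Finset.sum_congr rfl fun i _ => ?_
  have hg : edge i π ≠ 0 := by
    intro h0
    refine (P6a_edge h00 h10 h01 i).1 ?_
    rw [h0, eval_zero]
  have h1 : mult (su P π) (face i (P6a_V P w)) i = emultiplicity w (edge i π) :=
    su_mult h00 h10 h01 hw i
  rw [h1, P6a_count hg hw hm, ENat.toNat_natCast]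

open Classical in
private theorem P6a_supp (hne : ∀ i, x i ≠ 0) {ψ : Sub F 1 → ℚ} (hψ : Kill k x ψ)
    {P : LocalSubring F}
    (hP : P ∈ Pts k x 1) {π : MvPolynomial (Fin 2) (Kap P)} (hπ : Irreducible π)
    (h00 : MvPolynomial.eval ![0, 0] π ≠ 0) (h10 : MvPolynomial.eval ![1, 0] π ≠ 0)
    (h01 : MvPolynomial.eval ![0, 1] π ≠ 0) {V : Sub F 1} (hV : IsSub k x 1 V)
    (h : (bdy (su P π) V : ℚ) * ψ V ≠ 0) :
    ∃ w : (Kap P)[X], (∃ i, w ∈ UniqueFactorizationMonoid.normalizedFactors (edge i π)) ∧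
      V = P6a_V P w := by
  have hb : bdy (su P π) V ≠ 0 := by
    intro h0
    rw [h0] at h
    simp at h
  have hpsi : ψ V ≠ 0 := right_ne_zero_of_mul h
  have hle : V.1.toSubring ≤ P.toSubring := by
    by_contra hle
    refine hb ?_
    unfold bdy
    refine Finset.sum_eq_zero fun i _ => ?_
    have h0 : mult (su P π) (face i V) i = 0 :=
      mult_eq_zero_of_not_le (su P π) (face i V) i hle
    rw [h0]
    simp
  rcases sub_one hV with ⟨h1, h2⟩ | ⟨h1, h2⟩
  · have h3 : V.1 = P := (pts_dim hne h1 hP hle).2 rfl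
    obtain ⟨O, q⟩ := V
    change O = P at h3
    subst h3
    have hs : ∑ i, MvPolynomial.X i - 1 ∈ q := by
      obtain ⟨_, _, _, _, h4, _⟩ := hV
      exact h4
    have hh : Hor q := ⟨h2, hs, fun j hj =>
      hb (bdy_eq_zero_of_mem (su_proper hne hP hπ h00 h10 h01) hV j hj)⟩
    obtain ⟨w, hm, hw, _, _, hq⟩ := hor_exists hh
    have hVw : (⟨O, q⟩ : Sub F 1) = P6a_V O w := by
      rw [hq]
      rfl
    refine ⟨w, ?_, hVw⟩
    by_contra hcon
    refine hb ?_
    rw [hVw, P6a_bdy h00 h10 h01 hw hm]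
    refine Finset.sum_eq_zero fun i _ => ?_
    rw [Multiset.count_eq_zero_of_notMem (fun h5 => hcon ⟨i, h5⟩)]
    simp
  · exact absurd (by rw [h2]; exact kill_vt hne hψ h1) hpsi

open Classical in
/-- PROOF. Let `W = su P π` (`su_isSub`, `su_proper`). In the sum of `Kill` the terms with `V.1 ≠ P` vanish: if `bdy W V ≠ 0` then
`V.1 ≤ P` (`mult_eq_zero_of_not_le`); `sub_one`: either `V.1 ∈ Pts k x 1`, so `V.1 = P` (`pts_dim`), or `V = vt 1 V.1`, `ψ V = 0`
(`kill_vt`). If `V.1 = P`, `V = ⟨P, q⟩` with `q` maximal, `∑ X - 1 ∈ q`; if some `X j ∈ q` then `bdy W V = 0`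
(`bdy_eq_zero_of_mem`); so `Hor q`, `q = (w).comap e1`, `w` monic irreducible, `w(0), w(1) ≠ 0` (`hor_exists`, `hor_inj`). By
`su_mult`, `bdy = ∑_i (-1)^i c_w(edge i π)`, `c_w` the multiplicity of `w`. The multiplicity of `w` in a nonzero `g` is the number of
times `w` occurs in `normalizedFactors g`; all normalized factors of `edge i π` are monic irreducible, not zero at `0` and at `1`
(`edge_eval`). So the sum of `Kill` is `∑_i (-1)^i (sum over the normalizedFactors w of edge i π of ψ ⟨P, (w).comap e1⟩)`. The sum over `V` is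
finite (`bdy_finite`). -/
theorem kill_su (hne : ∀ i, x i ≠ 0) {ψ : Sub F 1 → ℚ} (hψ : Kill k x ψ) {P : LocalSubring F}
    (hP : P ∈ Pts k x 1) {π : MvPolynomial (Fin 2) (Kap P)} (hπ : Irreducible π)
    (h00 : MvPolynomial.eval ![0, 0] π ≠ 0) (h10 : MvPolynomial.eval ![1, 0] π ≠ 0)
    (h01 : MvPolynomial.eval ![0, 1] π ≠ 0) :
    ∑ i : Fin 3, (-1 : ℚ) ^ (i : ℕ) *
      ((UniqueFactorizationMonoid.normalizedFactors (edge i π)).map fun w =>
        ψ (⟨P, (Ideal.span {w}).comap (e1 (Kap P))⟩ : Sub F 1)).sum = 0 := by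
  have h := hψ (su P π) (su_isSub hP hπ) (su_proper hne hP hπ h00 h10 h01)
  have hg : ∀ i, edge i π ≠ 0 := by
    intro i h0
    refine (P6a_edge h00 h10 h01 i).1 ?_
    rw [h0, eval_zero]
  let T : Finset ((Kap P)[X]) := Finset.univ.biUnion fun i : Fin 3 =>
    (UniqueFactorizationMonoid.normalizedFactors (edge i π)).toFinset
  have hT : ∀ w, w ∈ T ↔ ∃ i, w ∈ UniqueFactorizationMonoid.normalizedFactors (edge i π) := by
    intro w
    simp only [T, Finset.mem_biUnion, Finset.mem_univ, true_and, Multiset.mem_toFinset]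
  have hT2 : ∀ w ∈ T, Irreducible w ∧ w.Monic ∧ w.eval 0 ≠ 0 ∧ w.eval 1 ≠ 0 := by
    intro w hw
    obtain ⟨i, hi⟩ := (hT w).1 hw
    obtain ⟨h1, h2, h3⟩ := (P6a_mem (hg i)).1 hi
    exact ⟨h1, h2, P6a_ev h3 0 (P6a_edge h00 h10 h01 i).1, P6a_ev h3 1 (P6a_edge h00 h10 h01 i).2⟩
  have hS : (∑ᶠ (V : Sub F 1) (_ : IsSub k x 1 V), (bdy (su P π) V : ℚ) * ψ V) =
      ∑ V ∈ T.image (P6a_V P), (bdy (su P π) V : ℚ) * ψ V := by
    refine finsum_mem_eq_sum_of_subset (s := {V : Sub F 1 | IsSub k x 1 V}) _ ?_ ?_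
    · rintro V ⟨hV, h1⟩
      obtain ⟨w, hw, rfl⟩ := P6a_supp hne hψ hP hπ h00 h10 h01 hV h1
      exact Finset.mem_coe.2 (Finset.mem_image_of_mem _ ((hT w).2 hw))
    · intro V hV
      obtain ⟨w, hw, rfl⟩ := Finset.mem_image.1 (Finset.mem_coe.1 hV)
      obtain ⟨h1, h2, h3, h4⟩ := hT2 w hw
      have hh := hor_of h1 h3 h4
      exact isSub_one hP hh.max hh.sum
  rw [hS, Finset.sum_image (fun w hw w' hw' he => P6a_inj (hT2 w hw).2.1 (hT2 w' hw').2.1 he)] at h
  rw [← h]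
  have hL : ∀ i : Fin 3, ((UniqueFactorizationMonoid.normalizedFactors (edge i π)).map fun w =>
        ψ (⟨P, (Ideal.span {w}).comap (e1 (Kap P))⟩ : Sub F 1)).sum =
      ∑ w ∈ T, ((UniqueFactorizationMonoid.normalizedFactors (edge i π)).count w : ℚ) *
        ψ (P6a_V P w) :=
    fun i => P6a_map _ _ T fun w hw => (hT w).2 ⟨i, hw⟩
  simp_rw [hL, Finset.mul_sum]
  rw [Finset.sum_comm]
  refine Finset.sum_congr rfl fun w hw => ?_
  rw [P6a_bdy h00 h10 h01 (hT2 w hw).1 (hT2 w hw).2.1]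
  push_cast
  rw [Finset.sum_mul]
  exact Finset.sum_congr rfl fun i _ => by ring

end Pool.Agent.Lib.MP_b197b4_ntZ
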