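import Mathlib
import Pool.Agent.Lib.MP_b197b4_ntZ.P6a

/-!
# MP_b197b4_nt, project LIT, leaf P6: functions on curves which kill the boundaries
-/

set_option autoImplicit false

namespace Pool.Agent.Lib.MP_b197b4_ntZ

open Polynomial IsLocalRing Pool.Agent.Lib.MP_b197b4_ntK Pool.Agent.Lib.MP_b197b4_ntA

variable {k : Type} {F : Type} [Field k] [Field F] [Algebra k F] {n : ℕ} {x : Fin (n + 1) → F}

/-- **P6**. PROOF. `Φ g = ((normalizedFactors g).map fun w => ψ ⟨P, (w).comap e1⟩).sum`. `hm`: `normalizedFactors_mul`; `h0`: a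
nonzero constant has no factors. `hE`: by induction on the factorization of `G` in the factorial ring `MvPolynomial (Fin 2) K`
(`UniqueFactorizationMonoid.induction_on_prime` or similar): for units all three terms are zero (`edge i` of a nonzero constant is a
nonzero constant), for irreducible `π` it is `kill_su`, and both sides are additive (`edge i` is a ring homomorphism; the values
of the factors at the vertices are not zero). Now `alg6`, `hor_exists`, `nu_eq`: `ψ ⟨P, q⟩ = Φ w = l (w(0) / w(1)) = l (nu q)`. -/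
theorem kill_curve (hne : ∀ i, x i ≠ 0) {ψ : Sub F 1 → ℚ} (hψ : Kill k x ψ) {P : LocalSubring F}
    (hP : P ∈ Pts k x 1) :
    ∃ l : Kap P → ℚ, (∀ c d : Kap P, c ≠ 0 → d ≠ 0 → l (c * d) = l c + l d) ∧
      ∀ q : Ideal (Pol 1 (Kap P)), Hor q → ψ (⟨P, q⟩ : Sub F 1) = l (nu q) := by
  classical
  obtain ⟨Φ, hΦ⟩ : ∃ Φ : (Kap P)[X] → ℚ, Φ = fun g =>
      ((UniqueFactorizationMonoid.normalizedFactors g).map fun w =>
        ψ (⟨P, (Ideal.span {w}).comap (e1 (Kap P))⟩ : Sub F 1)).sum := ⟨_, rfl⟩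
  have hm : ∀ g h : (Kap P)[X], g ≠ 0 → h ≠ 0 → Φ (g * h) = Φ g + Φ h := by
    intro g h hg hh
    rw [hΦ]
    show (Multiset.map _ (UniqueFactorizationMonoid.normalizedFactors (g * h))).sum = _
    rw [UniqueFactorizationMonoid.normalizedFactors_mul hg hh, Multiset.map_add, Multiset.sum_add]
  have hu : ∀ g : (Kap P)[X], IsUnit g → Φ g = 0 := by
    intro g hg
    rw [hΦ]
    show (Multiset.map _ (UniqueFactorizationMonoid.normalizedFactors g)).sum = _
    rw [UniqueFactorizationMonoid.normalizedFactors_of_isUnit hg, Multiset.map_zero, Multiset.sum_zero]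
  have hne0 : ∀ (g : (Kap P)[X]) (c : Kap P), g.eval c ≠ 0 → g ≠ 0 := by
    rintro g c h rfl
    exact h (Polynomial.eval_zero)
  have hE : ∀ G : MvPolynomial (Fin 2) (Kap P), MvPolynomial.eval ![0, 0] G ≠ 0 →
      MvPolynomial.eval ![1, 0] G ≠ 0 → MvPolynomial.eval ![0, 1] G ≠ 0 →
      ∑ i : Fin 3, (-1 : ℚ) ^ (i : ℕ) * Φ (edge i G) = 0 := by
    intro G
    refine UniqueFactorizationMonoid.induction_on_prime G ?_ ?_ ?_
    · intro h
      exact absurd (map_zero _) h
    · intro G hG _ _ _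
      refine Finset.sum_eq_zero fun i _ => ?_
      rw [hu _ (hG.map (edge i)), mul_zero]
    · intro a p _ hp ih h00 h10 h01
      rw [map_mul] at h00 h10 h01
      have p00 := left_ne_zero_of_mul h00
      have p10 := left_ne_zero_of_mul h10
      have p01 := left_ne_zero_of_mul h01
      have a00 := right_ne_zero_of_mul h00
      have a10 := right_ne_zero_of_mul h10
      have a01 := right_ne_zero_of_mul h01
      have hedge : ∀ G : MvPolynomial (Fin 2) (Kap P), MvPolynomial.eval ![0, 0] G ≠ 0 →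
          MvPolynomial.eval ![1, 0] G ≠ 0 → ∀ i : Fin 3, edge i G ≠ 0 := by
        intro G g00 g10 i
        obtain ⟨e1, -, e3, -, e5, -⟩ := edge_eval G
        fin_cases i
        · exact hne0 _ 0 (by rw [← e1] at g10; exact g10)
        · exact hne0 _ 0 (by rw [← e3] at g00; exact g00)
        · exact hne0 _ 0 (by rw [← e5] at g00; exact g00)
      have h1 : ∀ i : Fin 3, (-1 : ℚ) ^ (i : ℕ) * Φ (edge i (p * a)) =
          (-1 : ℚ) ^ (i : ℕ) * Φ (edge i p) + (-1 : ℚ) ^ (i : ℕ) * Φ (edge i a) := by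
        intro i
        rw [map_mul, hm _ _ (hedge p p00 p10 i) (hedge a a00 a10 i), mul_add]
      rw [Finset.sum_congr rfl fun i _ => h1 i, Finset.sum_add_distrib, ih a00 a10 a01, add_zero]
      have h2 := kill_su hne hψ hP hp.irreducible p00 p10 p01
      rw [hΦ]
      exact h2
  obtain ⟨l, hl1, hl2⟩ := alg6 Φ
    (fun g h g0 _ h0 _ => hm g h (hne0 g 0 g0) (hne0 h 0 h0))
    (fun c hc => hu _ (Polynomial.isUnit_C.2 (isUnit_iff_ne_zero.2 hc)))
    (by
      intro G h00 h10 h01
      have h1 := hE G h00 h10 h01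
      rw [Fin.sum_univ_three] at h1
      simp only [Fin.val_zero, Fin.val_one, Fin.val_two, pow_zero, pow_one, one_mul, neg_one_mul,
        neg_one_sq] at h1
      linarith)
  refine ⟨l, hl1, ?_⟩
  intro q hq
  obtain ⟨w, hw1, hw2, hw3, hw4, rfl⟩ := hor_exists hq
  rw [nu_eq hw1 hw2, ← hl2 w hw3 hw4, hΦ]
  show _ = (Multiset.map _ (UniqueFactorizationMonoid.normalizedFactors w)).sum
  rw [UniqueFactorizationMonoid.normalizedFactors_irreducible hw2, hw1.normalize_eq_self,
    Multiset.map_singleton, Multiset.sum_singleton]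

end Pool.Agent.Lib.MP_b197b4_ntZ
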