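import Mathlib
import Pool.Agent.Lib.MP_b197b4_ntK.Sym

/-!
# MP_b197b4_nt, project LIT, leaf St: the Steinberg relation for tame symbols
-/

set_option autoImplicit false

namespace Pool.Agent.Lib.MP_b197b4_ntZ

open IsLocalRing Pool.Agent.Lib.MP_b197b4_ntK

private theorem St_res_one_sub {K : Type} [Field K] {V : ValuationSubring K} {f : K}
    (h : V.valuation f < 1) : V.valuation (1 - f) = 1 ∧ res V (1 - f) = 1 := by
  have hf : f ∈ V := (ValuationSubring.valuation_le_one_iff V f).1 h.le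
  refine ⟨Valuation.map_one_sub_of_lt _ h, ?_⟩
  rw [res_sub V.one_mem hf, res_one, (res_eq_zero_iff hf).2 h, sub_zero]

/-- The Steinberg relation: `f` of positive order, a unit, or of negative order. -/
theorem tame_st {K : Type} [Field K] {V : ValuationSubring K} (hV : IsDiscreteValuationRing V)
    {f : K} (h0 : f ≠ 0) (h1 : f ≠ 1) : tame V f (1 - f) = 1 := by
  have h1' : 1 - f ≠ 0 := sub_ne_zero.2 (Ne.symm h1)
  rcases lt_trichotomy (ord V f) 0 with h | h | h
  · have hi : f⁻¹ ≠ 0 := inv_ne_zero h0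
    have hlt : V.valuation f⁻¹ < 1 := by
      rw [← ord_pos_iff hV hi, ord_inv hV h0]
      omega
    obtain ⟨hv, hr⟩ := St_res_one_sub hlt
    have hw0 : 1 - f⁻¹ ≠ 0 := by
      intro h2
      rw [h2, map_zero] at hv
      exact zero_ne_one hv
    have e : 1 - f = -(f * (1 - f⁻¹)) := by
      field_simp
      ring
    have hord : ord V (1 - f) = ord V f := by
      have hn : (-1 : K) ≠ 0 := neg_ne_zero.2 one_ne_zero
      have hn0 : ord V (-1 : K) = 0 := by
        rw [ord_eq_zero_iff hV hn, Valuation.map_neg, map_one]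
      have e' : 1 - f = -1 * (f * (1 - f⁻¹)) := by rw [e]; ring
      rw [e', ord_mul hV hn (mul_ne_zero h0 hw0), ord_mul hV h0 hw0, hn0,
        (ord_eq_zero_iff hV hw0).2 hv]
      ring
    obtain ⟨n, hn⟩ : ∃ n : ℕ, ord V f = -(n : ℤ) :=
      ⟨(-ord V f).toNat, by rw [Int.toNat_of_nonneg (by omega)]; ring⟩
    have key : (-1 : K) ^ (ord V f * ord V (1 - f)) * f ^ ord V (1 - f) / (1 - f) ^ ord V f =
        (1 - f⁻¹) ^ n := by
      rw [hord, hn]
      have e1 : (-(n : ℤ)) * (-(n : ℤ)) = ((n * n : ℕ) : ℤ) := by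
        push_cast
        ring
      rw [e1, zpow_natCast, zpow_neg, zpow_neg, zpow_natCast, zpow_natCast]
      have e2 : (1 - f) ^ n = (-1) ^ n * (f ^ n * (1 - f⁻¹) ^ n) := by
        rw [e, ← mul_pow, ← mul_pow]
        congr 1
        ring
      have e3 : (-1 : K) ^ (n * n) * (-1) ^ n = 1 := by
        rw [← pow_add]
        refine Even.neg_one_pow ?_
        have h3 := Nat.even_mul_succ_self n
        have h4 : n * n + n = n * (n + 1) := by ring
        rw [h4]
        exact h3
      have hfn : f ^ n ≠ 0 := pow_ne_zero _ h0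
      rw [div_inv_eq_mul, e2]
      calc (-1 : K) ^ (n * n) * (f ^ n)⁻¹ * ((-1) ^ n * (f ^ n * (1 - f⁻¹) ^ n))
          = ((-1 : K) ^ (n * n) * (-1) ^ n) * ((f ^ n)⁻¹ * f ^ n) * (1 - f⁻¹) ^ n := by ring
        _ = (1 - f⁻¹) ^ n := by rw [e3, inv_mul_cancel₀ hfn, one_mul, one_mul]
    unfold tame
    rw [key, res_pow (mem_of_val_one hv), hr, one_pow]
  · have hv : V.valuation f = 1 := (ord_eq_zero_iff hV h0).1 h
    have hle : V.valuation (1 - f) ≤ 1 := by
      rw [ValuationSubring.valuation_le_one_iff]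
      exact sub_mem V.one_mem (mem_of_val_one hv)
    rcases hle.lt_or_eq with h2 | h2
    · have h3 := (St_res_one_sub h2).2
      rw [sub_sub_cancel] at h3
      rw [tame_unit_left hV hv h1', h3, one_zpow]
    · exact tame_eq_one h ((ord_eq_zero_iff hV h1').2 h2)
  · obtain ⟨hv, hr⟩ := St_res_one_sub ((ord_pos_iff hV h0).1 h)
    rw [tame_unit_right hV hv, hr, one_zpow]

end Pool.Agent.Lib.MP_b197b4_ntZ
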