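import Mathlib
import Pool.Agent.Lib.MP_b197b4_ntA.Cur2

/-!
# MP_b197b4_nt, project LIT, block LEN, part A: lengths and orders, with residue degrees

`B` is a domain contained in the field `K`, `S` a finite set of discrete valuation rings of `K` which contain `B`,
`D` their intersection, `c D ⊆ B` with `c ≠ 0`. The length of `B / a B` is the sum of the `ord W a` times the length
of the residue field of `W`.
-/

set_option autoImplicit false

namespace Pool.Agent.Lib.MP_b197b4_ntZ

open IsLocalRing Pool.Agent.Lib.MP_b197b4_ntK Pool.Agent.Lib.MP_b197b4_ntA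

section LnA_length

variable {B K : Type} [CommRing B] [Field K] [Algebra B K]

/-- the length of `Q / P` -/
noncomputable def LnA_L (P Q : Submodule B K) : ℕ∞ := Module.length B (Q ⧸ P.submoduleOf Q)

theorem LnA_self (P : Submodule B K) : LnA_L P P = 0 := by
  unfold LnA_L
  rw [Module.length_eq_zero_iff, Submodule.Quotient.subsingleton_iff]
  exact Submodule.submoduleOf_self P

theorem LnA_add {P Q R : Submodule B K} (h1 : P ≤ Q) (h2 : Q ≤ R) :
    LnA_L P R = LnA_L P Q + LnA_L Q R := by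
  unfold LnA_L
  have h3 : P.submoduleOf R ≤ Q.submoduleOf R := fun y hy => h1 hy
  have h4 : P.submoduleOf Q ≤ (P.submoduleOf R).comap (Submodule.inclusion h2) := fun y hy => hy
  refine Module.length_eq_add_of_exact
    (Submodule.mapQ (P.submoduleOf Q) (P.submoduleOf R) (Submodule.inclusion h2) h4)
    (Submodule.factor h3) ?_ (Submodule.factor_surjective h3) ?_
  · rw [← LinearMap.ker_eq_bot]
    refine Submodule.ker_liftQ_eq_bot' _ _ ?_
    ext y
    rw [LinearMap.mem_ker, LinearMap.comp_apply, Submodule.mkQ_apply,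
      Submodule.Quotient.mk_eq_zero]
    exact Iff.rfl
  · intro z
    obtain ⟨z, rfl⟩ := Submodule.Quotient.mk_surjective _ z
    constructor
    · intro hz
      have hz' : z ∈ Q.submoduleOf R := by
        change (Submodule.Quotient.mk z : R ⧸ Q.submoduleOf R) = 0 at hz
        rwa [Submodule.Quotient.mk_eq_zero] at hz
      exact ⟨Submodule.Quotient.mk ⟨(z : K), hz'⟩, rfl⟩
    · rintro ⟨y, hy⟩
      obtain ⟨y, rfl⟩ := Submodule.Quotient.mk_surjective _ y
      rw [← hy]
      change (Submodule.Quotient.mk (Submodule.inclusion h2 y) : R ⧸ Q.submoduleOf R) = 0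
      rw [Submodule.Quotient.mk_eq_zero]
      exact y.2

/-- multiplication by `a` -/
noncomputable def LnA_mul (B : Type) {K : Type} [CommRing B] [Field K] [Algebra B K] (a : K)
    (ha : a ≠ 0) : K ≃ₗ[B] K :=
  (LinearEquiv.smulOfNeZero K K a ha).restrictScalars B

theorem LnA_mul_apply (a : K) (ha : a ≠ 0) (y : K) : LnA_mul B a ha y = a * y := rfl

/-- the submodule `a P` -/
noncomputable def LnA_sm (a : K) (ha : a ≠ 0) (P : Submodule B K) : Submodule B K :=
  P.map (LnA_mul B a ha).toLinearMap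

theorem LnA_mem_sm (a : K) (ha : a ≠ 0) (P : Submodule B K) (y : K) :
    y ∈ LnA_sm a ha P ↔ a⁻¹ * y ∈ P := by
  constructor
  · rintro ⟨z, hz, rfl⟩
    change a⁻¹ * (a * z) ∈ P
    rwa [inv_mul_cancel_left₀ ha]
  · intro h
    exact ⟨_, h, by change a * (a⁻¹ * y) = y; rw [mul_inv_cancel_left₀ ha]⟩

theorem LnA_smul (a : K) (ha : a ≠ 0) (P Q : Submodule B K) :
    LnA_L (LnA_sm a ha P) (LnA_sm a ha Q) = LnA_L P Q := by
  unfold LnA_L
  refine ((Submodule.Quotient.equiv (P.submoduleOf Q)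
    ((LnA_sm a ha P).submoduleOf (LnA_sm a ha Q))
    ((LnA_mul B a ha).submoduleMap Q) ?_).length_eq).symm
  ext y
  constructor
  · rintro ⟨z, hz, rfl⟩
    exact ⟨_, hz, rfl⟩
  · rintro ⟨z, hz, hzy⟩
    obtain ⟨w, hw, hwy⟩ := y.2
    have h1 : z = w := (LnA_mul B a ha).injective (hzy.trans hwy.symm)
    subst h1
    exact ⟨⟨z, hw⟩, hz, Subtype.ext hwy⟩

theorem LnA_sm_sm (a b : K) (ha : a ≠ 0) (hb : b ≠ 0) (P : Submodule B K) :
    LnA_sm (a * b) (mul_ne_zero ha hb) P = LnA_sm a ha (LnA_sm b hb P) := by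
  ext y
  rw [LnA_mem_sm, LnA_mem_sm, LnA_mem_sm, mul_inv, mul_comm a⁻¹ b⁻¹, mul_assoc]

end LnA_length

section LnA_semi

variable {B K : Type} [CommRing B] [Field K] [Algebra B K]

/-- The module structure on the residue field of a valuation ring which contains `B`. -/
noncomputable abbrev resMod {B K : Type} [CommRing B] [Field K] [Algebra B K] (W : ValuationSubring K)
    (h : ∀ b : B, algebraMap B K b ∈ W) : Module B (ResidueField W) :=
  Module.compHom _ ((residue W).comp ((algebraMap B K).codRestrict W h))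

/-- The length over `B` of the residue field of a valuation ring which contains `B`. -/
noncomputable def resLen (B : Type) {K : Type} [CommRing B] [Field K] [Algebra B K]
    (W : ValuationSubring K) (h : ∀ b : B, algebraMap B K b ∈ W) : ℕ∞ :=
  @Module.length B (ResidueField W) _ _ (resMod W h)

/-- the intersection of the valuation rings in `S` -/
def LnA_D (S : Finset (ValuationSubring K)) (hB : ∀ W ∈ S, ∀ b : B, algebraMap B K b ∈ W) :
    Submodule B K where
  carrier := {y | ∀ W ∈ S, y ∈ W}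
  add_mem' h1 h2 W hW := add_mem (h1 W hW) (h2 W hW)
  zero_mem' W _ := W.zero_mem
  smul_mem' b y h W hW := by
    rw [Algebra.smul_def]
    exact mul_mem (hB W hW b) (h W hW)

variable {S : Finset (ValuationSubring K)} {hB : ∀ W ∈ S, ∀ b : B, algebraMap B K b ∈ W}

theorem LnA_mem_D (y : K) : y ∈ LnA_D S hB ↔ ∀ W ∈ S, y ∈ W := Iff.rfl

theorem LnA_mem_smD (hS : ∀ W ∈ S, IsDiscreteValuationRing W) {a : K} (ha : a ≠ 0) {y : K}
    (hy : y ≠ 0) : y ∈ LnA_sm a ha (LnA_D S hB) ↔ ∀ W ∈ S, ord W a ≤ ord W y := by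
  rw [LnA_mem_sm, LnA_mem_D]
  refine forall₂_congr fun W hW => ?_
  rw [← ord_nonneg_iff (hS W hW) (mul_ne_zero (inv_ne_zero ha) hy),
    ord_mul (hS W hW) (inv_ne_zero ha) hy, ord_inv (hS W hW) ha]
  omega

/-- A uniformizer of `W` which is a unit at the other valuation rings. -/
theorem LnA_unif (hS : ∀ W ∈ S, IsDiscreteValuationRing W) {W : ValuationSubring K} (hW : W ∈ S) :
    ∃ q : K, q ≠ 0 ∧ ord W q = 1 ∧ ∀ W' ∈ S, W' ≠ W → ord W' q = 0 := by
  classical
  obtain ⟨p, hp0, hp⟩ := Cur2_unif (hS W hW)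
  obtain ⟨a, ha0, ha1, ha2⟩ := Cur2_approx (hS W hW) (S.erase W) fun W' hW' =>
    ⟨hS W' (Finset.mem_of_mem_erase hW'), Finset.ne_of_mem_erase hW'⟩
  -- a large exponent
  obtain ⟨M, hM2, hM⟩ : ∃ M : ℕ, 2 ≤ M ∧ ∀ W' ∈ S.erase W, -ord W' p < M := by
    refine ⟨(S.erase W).sup (fun W' => (-ord W' p).toNat) + 2, by omega, fun W' hW' => ?_⟩
    have h1 := Finset.le_sup (f := fun W' => (-ord W' p).toNat) hW'
    have h2 : (-ord W' p).toNat ≤ (S.erase W).sup (fun W' => (-ord W' p).toNat) := h1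
    have h3 : -ord W' p ≤ ((-ord W' p).toNat : ℤ) := Int.self_le_toNat _
    push_cast
    omega
  have haM : a ^ M ≠ 0 := pow_ne_zero _ ha0
  have e1 : p + a ^ M = p * (1 + a ^ M / p) := by field_simp
  have e2 : p + a ^ M = a ^ M * (1 + p / a ^ M) := by field_simp; ring
  have hord : ∀ W' ∈ S, ord W' (a ^ M) = M * ord W' a := fun W' hW' => ord_pow (hS W' hW') ha0 M
  -- at `W`
  have h1 : 0 < ord W (a ^ M / p) := by
    rw [ord_div (hS W hW) haM hp0, hord W hW, hp]
    have : (2 : ℤ) ≤ M := by exact_mod_cast hM2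
    nlinarith
  have h2 := Cur2_one_add (hS W hW) (div_ne_zero haM hp0) h1
  have h3 : 0 < ord W (a ^ M) := by
    rw [hord W hW]
    have : (2 : ℤ) ≤ M := by exact_mod_cast hM2
    nlinarith
  have h4 := Cur2_one_add (hS W hW) haM h3
  have h5 : p + a ^ M ≠ 0 := by
    rw [e1]
    exact mul_ne_zero hp0 h2.1
  refine ⟨(p + a ^ M) / (1 + a ^ M), div_ne_zero h5 h4.1, ?_, fun W' hW' hne => ?_⟩
  · rw [ord_div (hS W hW) h5 h4.1, h4.2, e1, ord_mul (hS W hW) hp0 h2.1, h2.2, hp]
    ring
  · have hW'e : W' ∈ S.erase W := Finset.mem_erase.2 ⟨hne, hW'⟩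
    have h6 := hM W' hW'e
    have h7 := ha2 W' hW'e
    have h8 : ord W' (a ^ M) < 0 := by
      rw [hord W' hW']
      have : (2 : ℤ) ≤ M := by exact_mod_cast hM2
      nlinarith
    have h9 : 0 < ord W' (p / a ^ M) := by
      rw [ord_div (hS W' hW') hp0 haM, hord W' hW']
      have : (2 : ℤ) ≤ M := by exact_mod_cast hM2
      nlinarith
    have h10 := Cur2_one_add (hS W' hW') (div_ne_zero hp0 haM) h9
    have h11 := Cur2_one_add' (hS W' hW') haM h8
    rw [ord_div (hS W' hW') h5 h4.1, h11.2, e2, ord_mul (hS W' hW') haM h10.1, h10.2]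
    ring

/-- Every residue class of `W` is the residue class of an element of `D`. -/
theorem LnA_lift (hS : ∀ W ∈ S, IsDiscreteValuationRing W) {W : ValuationSubring K} (hW : W ∈ S)
    {y : K} (hy : y ∈ W) : ∃ z : K, (∀ W' ∈ S, z ∈ W') ∧ W.valuation (z - y) < 1 := by
  classical
  by_cases hy0 : y = 0
  · refine ⟨0, fun W' _ => W'.zero_mem, ?_⟩
    rw [hy0, sub_zero, map_zero]
    exact zero_lt_one
  obtain ⟨a, ha0, ha1, ha2⟩ := Cur2_approx (hS W hW) (S.erase W) fun W' hW' =>
    ⟨hS W' (Finset.mem_of_mem_erase hW'), Finset.ne_of_mem_erase hW'⟩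
  obtain ⟨M, hM2, hM⟩ : ∃ M : ℕ, 1 ≤ M ∧ ∀ W' ∈ S.erase W, -ord W' y < M := by
    refine ⟨(S.erase W).sup (fun W' => (-ord W' y).toNat) + 1, by omega, fun W' hW' => ?_⟩
    have h1 := Finset.le_sup (f := fun W' => (-ord W' y).toNat) hW'
    have h2 : (-ord W' y).toNat ≤ (S.erase W).sup (fun W' => (-ord W' y).toNat) := h1
    have h3 : -ord W' y ≤ ((-ord W' y).toNat : ℤ) := Int.self_le_toNat _
    push_cast
    omega
  have hM1 : (1 : ℤ) ≤ M := by exact_mod_cast hM2
  have haM : a ^ M ≠ 0 := pow_ne_zero _ ha0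
  have h3 : 0 < ord W (a ^ M) := by
    rw [ord_pow (hS W hW) ha0]
    nlinarith
  have h4 := Cur2_one_add (hS W hW) haM h3
  have hyn : 0 ≤ ord W y := (ord_nonneg_iff (hS W hW) hy0).2 hy
  refine ⟨y / (1 + a ^ M), fun W' hW' => ?_, ?_⟩
  · by_cases hne : W' = W
    · subst hne
      refine (ord_nonneg_iff (hS W' hW') (div_ne_zero hy0 h4.1)).1 ?_
      rw [ord_div (hS W' hW') hy0 h4.1, h4.2]
      omega
    · have hW'e : W' ∈ S.erase W := Finset.mem_erase.2 ⟨hne, hW'⟩
      have h6 := hM W' hW'e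
      have h7 := ha2 W' hW'e
      have h8 : ord W' (a ^ M) ≤ -M := by
        rw [ord_pow (hS W' hW') ha0]
        nlinarith
      have h11 := Cur2_one_add' (hS W' hW') haM (by omega)
      refine (ord_nonneg_iff (hS W' hW') (div_ne_zero hy0 h4.1)).1 ?_
      rw [ord_div (hS W' hW') hy0 h4.1, h11.2]
      omega
  · have e : y / (1 + a ^ M) - y = -(y * a ^ M / (1 + a ^ M)) := by
      have := h4.1
      field_simp
      ring
    have h12 : y * a ^ M / (1 + a ^ M) ≠ 0 := div_ne_zero (mul_ne_zero hy0 haM) h4.1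
    rw [e, Valuation.map_neg, ← ord_pos_iff (hS W hW) h12,
      ord_div (hS W hW) (mul_ne_zero hy0 haM) h4.1, ord_mul (hS W hW) hy0 haM, h4.2]
    omega

theorem LnA_res_zero {W : ValuationSubring K} {x : K} (h : x ∈ W) :
    residue W ⟨x, h⟩ = 0 ↔ W.valuation x < 1 := by
  rw [← res_of_mem h, res_eq_zero_iff h]

/-- `D / q D` is the residue field of `W`. -/
theorem LnA_one (hS : ∀ W ∈ S, IsDiscreteValuationRing W) {W : ValuationSubring K} (hW : W ∈ S)
    {q : K} (hq0 : q ≠ 0) (hq : ord W q = 1) (hq' : ∀ W' ∈ S, W' ≠ W → ord W' q = 0) :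
    LnA_L (LnA_sm q hq0 (LnA_D S hB)) (LnA_D S hB) = resLen B W (hB W hW) := by
  unfold LnA_L resLen
  let _ := resMod W (hB W hW)
  let φ : LnA_D S hB →ₗ[B] ResidueField W :=
    { toFun := fun y => residue W ⟨y.1, y.2 W hW⟩
      map_add' := fun y z => by
        rw [← map_add]
        rfl
      map_smul' := fun b y => by
        change residue W _ = residue W ((algebraMap B K).codRestrict W (hB W hW) b) *
          residue W _
        rw [← map_mul]
        congr 1
        apply Subtype.ext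
        change b • (y : K) = algebraMap B K b * y
        rw [Algebra.smul_def] }
  have hφ : Function.Surjective φ := by
    intro c
    obtain ⟨y, rfl⟩ := residue_surjective c
    obtain ⟨z, hz, hzy⟩ := LnA_lift hS hW y.2
    refine ⟨⟨z, hz⟩, ?_⟩
    change residue W ⟨z, hz W hW⟩ = residue W y
    rw [← sub_eq_zero, ← map_sub]
    exact (LnA_res_zero (sub_mem (hz W hW) y.2)).2 hzy
  have hker : LinearMap.ker φ = (LnA_sm q hq0 (LnA_D S hB)).submoduleOf (LnA_D S hB) := by
    ext y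
    rw [LinearMap.mem_ker]
    change residue W ⟨y.1, y.2 W hW⟩ = 0 ↔ (y : K) ∈ LnA_sm q hq0 (LnA_D S hB)
    rw [LnA_res_zero]
    by_cases hy0 : (y : K) = 0
    · rw [hy0, map_zero]
      exact ⟨fun _ => zero_mem _, fun _ => zero_lt_one⟩
    · rw [LnA_mem_smD hS hq0 hy0, ← ord_pos_iff (hS W hW) hy0]
      constructor
      · intro h W' hW'
        by_cases hne : W' = W
        · subst hne
          rw [hq]
          omega
        · rw [hq' W' hW' hne]
          exact (ord_nonneg_iff (hS W' hW') hy0).2 (y.2 W' hW')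
      · intro h
        have := h W hW
        rw [hq] at this
        omega
  rw [← hker]
  exact (φ.quotKerEquivOfSurjective hφ).length_eq

theorem LnA_sm_le (hS : ∀ W ∈ S, IsDiscreteValuationRing W) {a : K} (ha : a ≠ 0)
    (h : ∀ W ∈ S, 0 ≤ ord W a) : LnA_sm a ha (LnA_D S hB) ≤ LnA_D S hB := by
  rintro _ ⟨y, hy, rfl⟩ W hW
  exact mul_mem ((ord_nonneg_iff (hS W hW) ha).1 (h W hW)) (hy W hW)

/-- The length of `D / y D`. -/
theorem LnA_lenD (hS : ∀ W ∈ S, IsDiscreteValuationRing W) (f : ValuationSubring K → ℕ)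
    (hf : ∀ (W : ValuationSubring K) (hW : W ∈ S), resLen B W (hB W hW) = f W) :
    ∀ (N : ℕ) (y : K) (hy : y ≠ 0), (∀ W ∈ S, 0 ≤ ord W y) → ∑ W ∈ S, ord W y = N →
      LnA_L (LnA_sm y hy (LnA_D S hB)) (LnA_D S hB) =
        ((∑ W ∈ S, (ord W y).toNat * f W : ℕ) : ℕ∞) := by
  classical
  intro N
  induction N with
  | zero =>
    intro y hy h1 h2
    have h3 : ∀ W ∈ S, ord W y = 0 := (Finset.sum_eq_zero_iff_of_nonneg h1).1 h2
    have h4 : LnA_sm y hy (LnA_D S hB) = LnA_D S hB := by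
      refine le_antisymm (LnA_sm_le hS hy h1) fun z hz => ?_
      by_cases hz0 : z = 0
      · rw [hz0]
        exact zero_mem _
      refine (LnA_mem_smD hS hy hz0).2 fun W hW => ?_
      rw [h3 W hW]
      exact (ord_nonneg_iff (hS W hW) hz0).2 (hz W hW)
    have h5 : ∑ W ∈ S, (ord W y).toNat * f W = 0 :=
      Finset.sum_eq_zero fun W hW => by rw [h3 W hW, Int.toNat_zero, zero_mul]
    rw [h4, LnA_self, h5]
    rfl
  | succ N ih =>
    intro y hy h1 h2
    obtain ⟨W, hW, hpos⟩ : ∃ W ∈ S, 0 < ord W y := by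
      by_contra hcon
      push Not at hcon
      have h3 : ∑ W ∈ S, ord W y ≤ 0 := Finset.sum_nonpos hcon
      rw [h2] at h3
      push_cast at h3
      omega
    obtain ⟨q, hq0, hq, hq'⟩ := LnA_unif hS hW
    have hy' : y / q ≠ 0 := div_ne_zero hy hq0
    have h3 : ∀ W' ∈ S, ord W' (y / q) = ord W' y - ord W' q := fun W' hW' =>
      ord_div (hS W' hW') hy hq0
    have h4 : ∀ W' ∈ S, 0 ≤ ord W' (y / q) := by
      intro W' hW'
      rw [h3 W' hW']
      by_cases h : W' = W
      · subst h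
        omega
      · rw [hq' W' hW' h, sub_zero]
        exact h1 W' hW'
    have h5 : ∑ W' ∈ S, ord W' q = 1 := by
      rw [← hq]
      exact Finset.sum_eq_single_of_mem W hW fun W' hW' h => hq' W' hW' h
    have h6 : ∑ W' ∈ S, ord W' (y / q) = N := by
      rw [Finset.sum_congr rfl h3, Finset.sum_sub_distrib, h2, h5]
      push_cast
      ring
    have h7 := ih (y / q) hy' h4 h6
    have hqn : ∀ W' ∈ S, 0 ≤ ord W' q := by
      intro W' hW'
      by_cases h : W' = W
      · subst h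
        omega
      · rw [hq' W' hW' h]
    have e4 : y = q * (y / q) := by field_simp
    have h8 : LnA_sm y hy (LnA_D S hB) = LnA_sm q hq0 (LnA_sm (y / q) hy' (LnA_D S hB)) := by
      rw [← LnA_sm_sm q (y / q) hq0 hy']
      congr 1
    have h9 : LnA_sm q hq0 (LnA_sm (y / q) hy' (LnA_D S hB)) ≤ LnA_sm q hq0 (LnA_D S hB) :=
      Submodule.map_mono (LnA_sm_le hS hy' h4)
    have h10 : ∑ W' ∈ S, (ord W' y).toNat * f W' =
        ∑ W' ∈ S, (ord W' (y / q)).toNat * f W' + f W := by
      have h11 : ∑ W' ∈ S, (if W' = W then f W else 0) = f W := by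
        rw [Finset.sum_ite_eq' S W (fun _ => f W), if_pos hW]
      rw [← h11, ← Finset.sum_add_distrib]
      refine Finset.sum_congr rfl fun W' hW' => ?_
      rw [h3 W' hW']
      by_cases h : W' = W
      · subst h
        rw [if_pos rfl, hq]
        have : (ord W' y).toNat = (ord W' y - 1).toNat + 1 := by omega
        rw [this]
        ring
      · rw [if_neg h, hq' W' hW' h, sub_zero, add_zero]
    rw [h8, LnA_add h9 (LnA_sm_le hS hq0 hqn), LnA_smul, h7, LnA_one hS hW hq0 hq hq', hf W hW,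
      h10]
    push_cast
    rfl

/-- The length of `B / a B`. -/
theorem LnA_lenB (hinj : Function.Injective (algebraMap B K)) (a : B)
    (ha : algebraMap B K a ≠ 0) :
    LnA_L (LnA_sm (algebraMap B K a) ha (LinearMap.range (Algebra.linearMap B K)))
      (LinearMap.range (Algebra.linearMap B K)) = Module.length B (B ⧸ Ideal.span {a}) := by
  unfold LnA_L
  have hinj' : Function.Injective (Algebra.linearMap B K) := hinj
  let e : B ≃ₗ[B] LinearMap.range (Algebra.linearMap B K) := LinearEquiv.ofInjective _ hinj'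
  have he : ∀ b : B, ((e b : LinearMap.range (Algebra.linearMap B K)) : K) = algebraMap B K b :=
    fun b => rfl
  refine ((Submodule.Quotient.equiv (Ideal.span {a})
    ((LnA_sm (algebraMap B K a) ha (LinearMap.range (Algebra.linearMap B K))).submoduleOf
      (LinearMap.range (Algebra.linearMap B K))) e ?_).length_eq).symm
  ext y
  constructor
  · rintro ⟨z, hz, rfl⟩
    obtain ⟨c, rfl⟩ := Ideal.mem_span_singleton'.1 hz
    refine ⟨algebraMap B K c, ⟨c, rfl⟩, ?_⟩
    change algebraMap B K a * algebraMap B K c = algebraMap B K (c * a)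
    rw [map_mul, mul_comm]
  · rintro ⟨c, ⟨d, rfl⟩, hcy⟩
    refine ⟨d * a, Ideal.mem_span_singleton'.2 ⟨d, rfl⟩, Subtype.ext ?_⟩
    refine Eq.trans ?_ hcy
    change algebraMap B K (d * a) = algebraMap B K a * algebraMap B K d
    rw [map_mul, mul_comm]

/-- **Lengths and orders, with residue degrees.** -/
theorem LnA_main (hinj : Function.Injective (algebraMap B K))
    (hS : ∀ W ∈ S, IsDiscreteValuationRing W)
    (hB : ∀ W ∈ S, ∀ b : B, algebraMap B K b ∈ W) (f : ValuationSubring K → ℕ)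
    (hf : ∀ (W : ValuationSubring K) (hW : W ∈ S), resLen B W (hB W hW) = f W)
    (hc : ∃ c : K, c ≠ 0 ∧ ∀ y, (∀ W ∈ S, y ∈ W) → ∃ b : B, c * y = algebraMap B K b) (a : B)
    (ha : a ≠ 0) :
    Module.length B (B ⧸ Ideal.span {a}) =
      ((∑ W ∈ S, (ord W (algebraMap B K a)).toNat * f W : ℕ) : ℕ∞) := by
  have ha' : algebraMap B K a ≠ 0 := fun h => ha (hinj (by rw [h, map_zero]))
  have han : ∀ W ∈ S, 0 ≤ ord W (algebraMap B K a) := fun W hW =>
    (ord_nonneg_iff (hS W hW) ha').2 (hB W hW a)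
  obtain ⟨N, hN⟩ := Int.eq_ofNat_of_zero_le (Finset.sum_nonneg han)
  have hBD : LinearMap.range (Algebra.linearMap B K) ≤ LnA_D S hB := by
    rintro _ ⟨b, rfl⟩ W hW
    exact hB W hW b
  -- the length of `D / B` is finite
  obtain ⟨c, hc0, hcD⟩ := hc
  obtain ⟨b₀, hb₀⟩ := hcD 1 fun W _ => one_mem W
  rw [mul_one] at hb₀
  have hcn : ∀ W ∈ S, 0 ≤ ord W c := fun W hW =>
    (ord_nonneg_iff (hS W hW) hc0).2 (hb₀ ▸ hB W hW b₀)
  obtain ⟨M, hM⟩ := Int.eq_ofNat_of_zero_le (Finset.sum_nonneg hcn)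
  have h1 := LnA_lenD (hB := hB) hS f hf M c hc0 hcn hM
  have h2 : LnA_sm c hc0 (LnA_D S hB) ≤ LinearMap.range (Algebra.linearMap B K) := by
    rintro _ ⟨y, hy, rfl⟩
    obtain ⟨b, hb⟩ := hcD y hy
    exact ⟨b, hb.symm⟩
  rw [LnA_add h2 hBD] at h1
  have hfin : LnA_L (LinearMap.range (Algebra.linearMap B K)) (LnA_D S hB) ≠ ⊤ := by
    intro h
    rw [h, add_top] at h1
    exact ENat.top_ne_natCast _ h1
  -- comparison
  have h3 : LnA_sm (algebraMap B K a) ha' (LinearMap.range (Algebra.linearMap B K)) ≤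
      LinearMap.range (Algebra.linearMap B K) := by
    rintro _ ⟨_, ⟨b, rfl⟩, rfl⟩
    refine ⟨a * b, ?_⟩
    change algebraMap B K (a * b) = algebraMap B K a * algebraMap B K b
    rw [map_mul]
  have h4 : LnA_sm (algebraMap B K a) ha' (LinearMap.range (Algebra.linearMap B K)) ≤
      LnA_sm (algebraMap B K a) ha' (LnA_D S hB) := Submodule.map_mono hBD
  have h5 := LnA_add h3 hBD
  have h6 := LnA_add h4 (LnA_sm_le hS ha' han)
  rw [LnA_smul] at h6
  rw [h5, LnA_lenD hS f hf N _ ha' han hN, LnA_lenB hinj, add_comm] at h6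
  exact WithTop.add_left_cancel hfin h6

end LnA_semi

end Pool.Agent.Lib.MP_b197b4_ntZ
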