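import Mathlib
import Pool.Agent.Lib.MP_b197b4_ntZ.LenA

/-!
# MP_b197b4_nt, project LIT, block LEN, part B: one dimensional local domains

`B` is a one dimensional Noetherian local domain in the field `K`, and its integral closure `C` in `K` is finite over `B`
and has the field of fractions `K`. The discrete valuation rings of `K` which dominate `B` are the localisations of the
Dedekind domain `C`; they are finitely many, their intersection is `C`, and their residue fields are finite over the
residue field of `B`. If `K` is the field of fractions of `B`, the length of `B / a B` is the sum of the orders of `a`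
times the residue degrees.
-/

set_option autoImplicit false
set_option linter.style.haveILetI false

namespace Pool.Agent.Lib.MP_b197b4_ntZ

open IsLocalRing Pool.Agent.Lib.MP_b197b4_ntK Pool.Agent.Lib.MP_b197b4_ntA
  IsDedekindDomain IsDedekindDomain.HeightOneSpectrum

section LenB

/-- `V` is a discrete valuation ring which dominates the local ring `B`. -/
def LDom (B : Type) {K : Type} [CommRing B] [Field K] [Algebra B K] (V : ValuationSubring K) :
    Prop :=
  IsDiscreteValuationRing V ∧ ∀ b : B, algebraMap B K b ∈ V ∧
    (IsUnit b ↔ V.valuation (algebraMap B K b) = 1)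

/-- `B` is a one dimensional Noetherian local domain contained in `K`, its integral closure in `K` is
finite over `B` and has the field of fractions `K`. -/
structure LHyp (B K : Type) [CommRing B] [Field K] [Algebra B K] : Prop where
  dom : IsDomain B
  loc : IsLocalRing B
  noeth : IsNoetherianRing B
  dim : Ring.DimensionLEOne B
  nf : ¬ IsField B
  inj : Function.Injective (algebraMap B K)
  fin : Module.Finite B (integralClosure B K)
  frac : IsFractionRing (integralClosure B K) K

variable {B K : Type} [CommRing B] [Field K] [Algebra B K]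

theorem LHyp.exists_nonunit (h : LHyp B K) : ∃ b : B, b ≠ 0 ∧ ¬ IsUnit b := by
  haveI := h.dom
  by_contra hc
  push Not at hc
  refine h.nf ⟨⟨0, 1, zero_ne_one⟩, mul_comm, fun {a} ha => ?_⟩
  obtain ⟨u, hu⟩ := hc a ha
  exact ⟨((u⁻¹ : Bˣ) : B), by rw [← hu, Units.mul_inv]⟩

theorem LHyp.dedekind (h : LHyp B K) : IsDedekindDomain (integralClosure B K) := by
  haveI := h.dom
  haveI := h.noeth
  haveI := h.dim
  haveI := h.fin
  haveI := h.frac
  haveI h1 : IsNoetherianRing (integralClosure B K) := IsNoetherianRing.of_finite B _
  haveI h2 : Ring.DimensionLEOne (integralClosure B K) := Ring.DimensionLEOne.integralClosure B K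
  haveI h3 : IsIntegrallyClosed (integralClosure B K) := by
    refine (isIntegrallyClosed_iff K).2 fun {x} hx => ?_
    haveI : Algebra.IsIntegral B (integralClosure B K) := inferInstance
    exact ⟨⟨x, isIntegral_trans (R := B) x hx⟩, rfl⟩
  exact { toIsDomain := inferInstance, toIsNoetherian := h1, toDimensionLEOne := h2,
          toIsIntegralClosure := inferInstance }

/-- A valuation ring which contains `B` contains its integral closure. -/
theorem mem_of_integralClosure {V : ValuationSubring K} (hV : ∀ b : B, algebraMap B K b ∈ V)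
    {y : K} (hy : y ∈ integralClosure B K) : y ∈ V := by
  obtain ⟨p, hp, h0⟩ := hy
  have h1 : IsIntegral V y := by
    refine ⟨p.map ((algebraMap B K).codRestrict V hV), hp.map _, ?_⟩
    rw [Polynomial.eval₂_map]
    exact h0
  obtain ⟨z, hz⟩ := (IsIntegrallyClosed.isIntegral_iff (R := V) (K := K)).1 h1
  rw [← hz]
  exact z.2

theorem LHyp.atPrime_disc (h : LHyp B K) :
    haveI := h.dedekind
    haveI := h.frac
    ∀ v : HeightOneSpectrum (integralClosure B K),
      IsDiscreteValuationRing (valuationSubringAtPrime K v) := by
  haveI := h.dedekind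
  haveI := h.frac
  intro v
  exact IsLocalization.AtPrime.isDiscreteValuationRing_of_dedekind_domain
    (integralClosure B K) v.ne_bot (valuationSubringAtPrime K v)

theorem LHyp.atPrime_val (h : LHyp B K) :
    haveI := h.dedekind
    haveI := h.frac
    ∀ (v : HeightOneSpectrum (integralClosure B K)) (c : integralClosure B K),
      (valuationSubringAtPrime K v).valuation (c : K) < 1 ↔ c ∈ v.asIdeal := by
  haveI := h.dedekind
  haveI := h.frac
  intro v c
  rw [← IsLocalization.AtPrime.to_map_mem_maximal_iff (valuationSubringAtPrime K v) v.asIdeal c]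
  exact (ValuationSubring.valuation_lt_one_iff (valuationSubringAtPrime K v)
    (algebraMap (integralClosure B K) (valuationSubringAtPrime K v) c)).symm

theorem LHyp.atPrime_dom (h : LHyp B K) :
    haveI := h.dedekind
    haveI := h.frac
    ∀ v : HeightOneSpectrum (integralClosure B K), LDom B (valuationSubringAtPrime K v) := by
  haveI := h.dedekind
  haveI := h.frac
  haveI := h.loc
  haveI := h.dom
  intro v
  have hmem : ∀ b : B, algebraMap B K b ∈ valuationSubringAtPrime K v := fun b => by
    have h1 : algebraMap B K b =
        (algebraMap (integralClosure B K) (valuationSubringAtPrime K v)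
          (algebraMap B (integralClosure B K) b) : K) := rfl
    rw [h1]
    exact (algebraMap (integralClosure B K) (valuationSubringAtPrime K v) _).2
  refine ⟨h.atPrime_disc v, fun b => ⟨hmem b, fun hu => ?_, fun hv => ?_⟩⟩
  · have h1 : IsUnit ((algebraMap B K).codRestrict (valuationSubringAtPrime K v) hmem b) :=
      hu.map _
    exact (ValuationSubring.valuation_eq_one_iff (valuationSubringAtPrime K v)
      ((algebraMap B K).codRestrict (valuationSubringAtPrime K v) hmem b)).1 h1
  · by_contra hb
    haveI : Algebra.IsIntegral B (integralClosure B K) := inferInstance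
    haveI := v.isPrime
    haveI hmax : v.asIdeal.IsMaximal := v.isMaximal
    haveI : (v.asIdeal.comap (algebraMap B (integralClosure B K))).IsMaximal :=
      Ideal.isMaximal_comap_of_isIntegral_of_isMaximal v.asIdeal
    have h1 : v.asIdeal.comap (algebraMap B (integralClosure B K)) = maximalIdeal B :=
      eq_maximalIdeal inferInstance
    have h2 : b ∈ v.asIdeal.comap (algebraMap B (integralClosure B K)) := by
      rw [h1, mem_maximalIdeal]
      exact hb
    have h3 := (h.atPrime_val v (algebraMap B (integralClosure B K) b)).2 h2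
    have h4 : ((algebraMap B (integralClosure B K) b : integralClosure B K) : K) =
      algebraMap B K b := rfl
    rw [h4, hv] at h3
    exact lt_irrefl _ h3

/-- The dominating discrete valuation rings are the localisations of the integral closure. -/
theorem LHyp.dom_eq (h : LHyp B K) :
    haveI := h.dedekind
    haveI := h.frac
    ∀ V : ValuationSubring K, LDom B V → ∃ v : HeightOneSpectrum (integralClosure B K),
      V = valuationSubringAtPrime K v := by
  haveI := h.dedekind
  haveI := h.frac
  intro V hV
  have hC : ∀ c : integralClosure B K, (c : K) ∈ V := fun c =>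
    mem_of_integralClosure (fun b => (hV.2 b).1) c.2
  let j : integralClosure B K →+* V := (algebraMap (integralClosure B K) K).codRestrict V hC
  have hj : ∀ c, j c ∈ maximalIdeal V ↔ V.valuation (c : K) < 1 := fun c =>
    ValuationSubring.valuation_lt_one_iff V (j c)
  have hne : (maximalIdeal V).comap j ≠ ⊥ := by
    obtain ⟨b, hb0, hb⟩ := h.exists_nonunit
    intro hbot
    have h1 : algebraMap B (integralClosure B K) b ∈ (maximalIdeal V).comap j := by
      rw [Ideal.mem_comap, hj]
      have h2 : V.valuation (algebraMap B K b) ≤ 1 :=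
        (ValuationSubring.valuation_le_one_iff V _).2 (hV.2 b).1
      exact lt_of_le_of_ne h2 fun h3 => hb ((hV.2 b).2.2 h3)
    rw [hbot, Ideal.mem_bot] at h1
    exact hb0 (h.inj (by
      rw [map_zero]
      exact congrArg (Subtype.val : integralClosure B K → K) h1))
  let v : HeightOneSpectrum (integralClosure B K) :=
    ⟨(maximalIdeal V).comap j, Ideal.IsPrime.comap j, hne⟩
  refine ⟨v, (Cur2_eq_of_le (h.atPrime_disc v) hV.1 ?_).symm⟩
  rintro x ⟨a, s, hs, rfl⟩
  have h1 : V.valuation (s : K) = 1 := by
    have h2 : V.valuation (s : K) ≤ 1 := (ValuationSubring.valuation_le_one_iff V _).2 (hC s)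
    refine le_antisymm h2 (not_lt.1 fun h3 => hs ?_)
    exact (hj s).2 h3
  have h2 : V.valuation ((a : K) * (s : K)⁻¹) ≤ 1 := by
    rw [map_mul, map_inv₀, h1, inv_one, mul_one]
    exact (ValuationSubring.valuation_le_one_iff V _).2 (hC a)
  exact (ValuationSubring.valuation_le_one_iff V _).1 h2

/-- **Finitely many discrete valuation rings dominate `B`.** -/
theorem LHyp.dom_finite (h : LHyp B K) : {V : ValuationSubring K | LDom B V}.Finite := by
  haveI := h.dedekind
  haveI := h.frac
  obtain ⟨b, hb0, hb⟩ := h.exists_nonunit
  have hne : Ideal.span {algebraMap B (integralClosure B K) b} ≠ 0 := by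
    intro h0
    have h1 : algebraMap B (integralClosure B K) b = 0 := Ideal.span_singleton_eq_bot.1 h0
    exact hb0 (h.inj (by
      rw [map_zero]
      exact congrArg (Subtype.val : integralClosure B K → K) h1))
  refine ((Ideal.finite_factors hne).image fun v => valuationSubringAtPrime K v).subset ?_
  intro V hV
  obtain ⟨v, rfl⟩ := h.dom_eq V hV
  refine ⟨v, ?_, rfl⟩
  have h2 : (valuationSubringAtPrime K v).valuation (algebraMap B K b) < 1 := by
    have h3 : (valuationSubringAtPrime K v).valuation (algebraMap B K b) ≤ 1 :=
      (ValuationSubring.valuation_le_one_iff _ _).2 (hV.2 b).1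
    exact lt_of_le_of_ne h3 fun h4 => hb ((hV.2 b).2.2 h4)
  have h5 : algebraMap B (integralClosure B K) b ∈ v.asIdeal := (h.atPrime_val v _).1 h2
  change v.asIdeal ∣ Ideal.span {algebraMap B (integralClosure B K) b}
  rw [Ideal.dvd_span_singleton]
  exact h5

theorem LHyp.mem_T (h : LHyp B K) (V : ValuationSubring K) :
    V ∈ h.dom_finite.toFinset ↔ LDom B V := Set.Finite.mem_toFinset _

/-- **The intersection of the dominating discrete valuation rings is the integral closure.** -/
theorem LHyp.mem_integralClosure_iff (h : LHyp B K) (y : K) :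
    y ∈ integralClosure B K ↔ ∀ V : ValuationSubring K, LDom B V → y ∈ V := by
  haveI := h.dedekind
  haveI := h.frac
  constructor
  · intro hy V hV
    exact mem_of_integralClosure (fun b => (hV.2 b).1) hy
  · intro hy
    have h1 : y ∈ (algebraMap (integralClosure B K) K).range := by
      refine mem_integers_of_valuation_le_one K y fun v => ?_
      have h2 := hy _ (h.atPrime_dom v)
      rw [valuationSubringAtPrime_eq_valuationSubring] at h2
      exact h2
    obtain ⟨c, rfl⟩ := h1
    exact c.2

/-- The residue field of a dominating discrete valuation ring is a finite `B`-module. -/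
theorem LHyp.res_finite (h : LHyp B K) {V : ValuationSubring K} (hV : LDom B V) :
    @Module.Finite B (ResidueField V) _ _ (resMod V fun b => (hV.2 b).1) := by
  classical
  let _ := resMod V fun b => (hV.2 b).1
  haveI := h.fin
  have hC : ∀ c : integralClosure B K, (c : K) ∈ V := fun c =>
    mem_of_integralClosure (fun b => (hV.2 b).1) c.2
  let φ : integralClosure B K →ₗ[B] ResidueField V :=
    { toFun := fun y => residue V ⟨y.1, hC y⟩
      map_add' := fun y z => by
        rw [← map_add]
        rfl
      map_smul' := fun b y => by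
        change residue V _ = residue V ((algebraMap B K).codRestrict V (fun b => (hV.2 b).1) b) *
          residue V _
        rw [← map_mul]
        congr 1
        apply Subtype.ext
        change b • (y : K) = algebraMap B K b * y
        rw [Algebra.smul_def] }
  refine Module.Finite.of_surjective φ fun c => ?_
  obtain ⟨y, rfl⟩ := residue_surjective c
  have hS : ∀ W ∈ h.dom_finite.toFinset, IsDiscreteValuationRing W := fun W hW =>
    ((h.mem_T W).1 hW).1
  obtain ⟨z, hz, hzy⟩ := LnA_lift hS ((h.mem_T V).2 hV) y.2
  have hz' : z ∈ integralClosure B K := (h.mem_integralClosure_iff z).2 fun W hW =>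
    hz W ((h.mem_T W).2 hW)
  refine ⟨⟨z, hz'⟩, ?_⟩
  change residue V ⟨z, _⟩ = residue V y
  rw [← sub_eq_zero, ← map_sub]
  exact (LnA_res_zero (sub_mem (hC ⟨z, hz'⟩) y.2)).2 hzy

/-- The natural embedding of the residue field of `B` in that of `V`. -/
theorem LDom.exists_hom [IsLocalRing B] {V : ValuationSubring K} (hV : LDom B V) :
    ∃ φ : ResidueField B →+* ResidueField V,
      ∀ b : B, φ (residue B b) = res V (algebraMap B K b) := by
  haveI : IsLocalHom ((algebraMap B K).codRestrict V fun b => (hV.2 b).1) := ⟨fun b hb =>
    (hV.2 b).2.2 ((ValuationSubring.valuation_eq_one_iff V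
      ((algebraMap B K).codRestrict V (fun b => (hV.2 b).1) b)).1 hb)⟩
  refine ⟨ResidueField.map ((algebraMap B K).codRestrict V fun b => (hV.2 b).1), fun b => ?_⟩
  rw [ResidueField.map_residue, res_of_mem (hV.2 b).1]
  rfl

/-- The length over `B` of the residue field is the residue degree. -/
theorem LHyp.resLen_eq (h : LHyp B K) [IsLocalRing B] {V : ValuationSubring K} (hV : LDom B V)
    (φ : ResidueField B →+* ResidueField V)
    (hφ : ∀ b : B, φ (residue B b) = res V (algebraMap B K b)) :
    @Module.Finite (ResidueField B) (ResidueField V) _ _ φ.toAlgebra.toModule ∧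
    resLen B V (fun b => (hV.2 b).1) =
      ((@Module.finrank (ResidueField B) (ResidueField V) _ _ φ.toAlgebra.toModule : ℕ) : ℕ∞) := by
  unfold resLen
  let _ := resMod V fun b => (hV.2 b).1
  let _ := φ.toAlgebra
  haveI : Module.Finite B (ResidueField V) := h.res_finite hV
  haveI : IsScalarTower B (ResidueField B) (ResidueField V) := ⟨fun b c d => by
    obtain ⟨c, rfl⟩ := residue_surjective c
    have h1 : φ (residue B b) = residue V ((algebraMap B K).codRestrict V
        (fun b => (hV.2 b).1) b) := by
      rw [hφ, res_of_mem (hV.2 b).1]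
      rfl
    change φ (b • residue B c) * d = residue V ((algebraMap B K).codRestrict V
        (fun b => (hV.2 b).1) b) * (φ (residue B c) * d)
    rw [← h1, Algebra.smul_def, map_mul, mul_assoc]
    rfl⟩
  haveI hfin : Module.Finite (ResidueField B) (ResidueField V) :=
    Module.Finite.of_restrictScalars_finite B _ _
  refine ⟨hfin, ?_⟩
  rw [Module.length_eq_of_surjective (R := ResidueField B) (S := B) residue_surjective,
    Module.length_eq_finrank]

open Classical in
/-- The residue degree of `V` over `B`. -/
noncomputable def rdeg (B : Type) {K : Type} [CommRing B] [Field K] [Algebra B K]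
    (V : ValuationSubring K) : ℕ :=
  if h : ∀ b : B, algebraMap B K b ∈ V then (resLen B V h).toNat else 0

theorem LHyp.resLen_rdeg (h : LHyp B K) {V : ValuationSubring K} (hV : LDom B V) :
    resLen B V (fun b => (hV.2 b).1) = (rdeg B V : ℕ∞) := by
  haveI := h.loc
  obtain ⟨φ, hφ⟩ := hV.exists_hom
  have h1 := (h.resLen_eq hV φ hφ).2
  unfold rdeg
  rw [dif_pos fun b => (hV.2 b).1, h1]
  rfl

theorem LHyp.rdeg_eq (h : LHyp B K) [IsLocalRing B] {V : ValuationSubring K} (hV : LDom B V)
    (φ : ResidueField B →+* ResidueField V)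
    (hφ : ∀ b : B, φ (residue B b) = res V (algebraMap B K b)) :
    rdeg B V = @Module.finrank (ResidueField B) (ResidueField V) _ _ φ.toAlgebra.toModule := by
  have h1 := h.resLen_rdeg hV
  rw [(h.resLen_eq hV φ hφ).2] at h1
  exact_mod_cast h1.symm

/-- **The length of `C / y C`**, where `C` is the integral closure of `B`. -/
theorem LHyp.length_closure (h : LHyp B K) {y : K} (hy0 : y ≠ 0) (hy : y ∈ integralClosure B K) :
    Module.length B (integralClosure B K ⧸ Ideal.span {(⟨y, hy⟩ : integralClosure B K)}) =
      ((∑ V ∈ h.dom_finite.toFinset, (ord V y).toNat * rdeg B V : ℕ) : ℕ∞) := by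
  have hS : ∀ W ∈ h.dom_finite.toFinset, IsDiscreteValuationRing W := fun W hW =>
    ((h.mem_T W).1 hW).1
  have hB : ∀ W ∈ h.dom_finite.toFinset, ∀ b : B, algebraMap B K b ∈ W := fun W hW b =>
    (((h.mem_T W).1 hW).2 b).1
  have hyn : ∀ W ∈ h.dom_finite.toFinset, 0 ≤ ord W y := fun W hW =>
    (ord_nonneg_iff (hS W hW) hy0).2 ((h.mem_integralClosure_iff y).1 hy W
      ((h.mem_T W).1 hW))
  obtain ⟨N, hN⟩ := Int.eq_ofNat_of_zero_le (Finset.sum_nonneg hyn)
  have h1 := LnA_lenD (hB := hB) hS (rdeg B) (fun W hW =>
    h.resLen_rdeg ((h.mem_T W).1 hW)) N y hy0 hyn hN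
  rw [← h1]
  unfold LnA_L
  have hD : LnA_D h.dom_finite.toFinset hB = Subalgebra.toSubmodule (integralClosure B K) := by
    ext z
    rw [LnA_mem_D, Subalgebra.mem_toSubmodule, h.mem_integralClosure_iff]
    exact ⟨fun h' V hV => h' V ((h.mem_T V).2 hV),
      fun h' V hV => h' V ((h.mem_T V).1 hV)⟩
  rw [hD]
  refine (Submodule.Quotient.equiv ((Ideal.span {(⟨y, hy⟩ : integralClosure B K)}).restrictScalars B)
    ((LnA_sm y hy0 (Subalgebra.toSubmodule (integralClosure B K))).submoduleOf
      (Subalgebra.toSubmodule (integralClosure B K)))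
    (LinearEquiv.refl B (integralClosure B K)) ?_).length_eq
  ext z
  constructor
  · rintro ⟨w, hw, rfl⟩
    obtain ⟨c, rfl⟩ := Ideal.mem_span_singleton'.1 hw
    refine ⟨(c : K), c.2, ?_⟩
    change y * (c : K) = (c : K) * y
    ring
  · rintro ⟨c, hc, hcz⟩
    refine ⟨⟨c, hc⟩ * ⟨y, hy⟩, Ideal.mem_span_singleton'.2 ⟨⟨c, hc⟩, rfl⟩, Subtype.ext ?_⟩
    refine Eq.trans ?_ hcz
    change c * y = y * c
    ring

/-- **LEN**: the length of `B / a B` is the sum of the orders times the residue degrees. -/
theorem LHyp.length_eq (h : LHyp B K) (hfr : IsFractionRing B K) {a : B} (ha : a ≠ 0) :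
    Module.length B (B ⧸ Ideal.span {a}) =
      ((∑ V ∈ h.dom_finite.toFinset, (ord V (algebraMap B K a)).toNat * rdeg B V : ℕ) : ℕ∞) := by
  haveI := h.dom
  have hS : ∀ W ∈ h.dom_finite.toFinset, IsDiscreteValuationRing W := fun W hW =>
    ((h.mem_T W).1 hW).1
  have hB : ∀ W ∈ h.dom_finite.toFinset, ∀ b : B, algebraMap B K b ∈ W := fun W hW b =>
    (((h.mem_T W).1 hW).2 b).1
  refine LnA_main h.inj hS hB (rdeg B) (fun W hW =>
    h.resLen_rdeg ((h.mem_T W).1 hW)) ?_ a ha
  have hfg : (Subalgebra.toSubmodule (integralClosure B K)).FG := by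
    haveI := h.fin
    exact (Submodule.fg_top _).1 (Module.Finite.fg_top (R := B) (M := integralClosure B K))
  obtain ⟨c, hc, hcC⟩ := FractionalIdeal.isFractional_of_fg (S := nonZeroDivisors B) hfg
  refine ⟨algebraMap B K c, fun h0 => nonZeroDivisors.ne_zero hc
    (h.inj (by rw [h0, map_zero])), fun y hy => ?_⟩
  have hy' : y ∈ integralClosure B K := (h.mem_integralClosure_iff y).2 fun V hV =>
    hy V ((h.mem_T V).2 hV)
  obtain ⟨b, hb⟩ := hcC y hy'
  exact ⟨b, by rw [hb, Algebra.smul_def]⟩

end LenB

end Pool.Agent.Lib.MP_b197b4_ntZ
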