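import Mathlib
import Pool.Agent.Lib.MP_b197b4_ntA.SurA1

/-!
# MP_b197b4_nt, project LIT, leaf NF: finiteness of the integral closure
-/

set_option autoImplicit false

namespace Pool.Agent.Lib.MP_b197b4_ntZ

/-- **NF**. Noether normalization and the Frobenius map (`SurA1_integralClosure_fg`). -/
theorem nf {k L : Type} [Field k] [PerfectField k] [Field L] [Algebra k L]
    (A : Subalgebra k L) (hA : A.FG) (hfr : IsFractionRing A L) :
    Module.Finite A (integralClosure A L) := by
  have : Algebra.FiniteType k A := A.fg_iff_finiteType.1 hA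
  exact (Pool.Agent.Lib.MP_b197b4_ntA.SurA1_integralClosure_fg k A L).1

end Pool.Agent.Lib.MP_b197b4_ntZ
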