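import Mathlib
import Pool.Agent.Lib.MP_b197b4_ntZ.NF
import Pool.Agent.Lib.MP_b197b4_ntZ.LenB
import Pool.Agent.Lib.MP_b197b4_ntA.LenOrd

/-!
# MP_b197b4_nt, project LIT, leaf LEN: lengths and orders with residue degrees

Generalises `LO_lenB_ord` of `MP_b197b4_ntA/LenOrd.lean`, where all the residue degrees are 1.
-/

set_option autoImplicit false

namespace Pool.Agent.Lib.MP_b197b4_ntZ

open IsLocalRing Pool.Agent.Lib.MP_b197b4_ntK Pool.Agent.Lib.MP_b197b4_ntA

section LEN

variable {k L : Type} [Field k] [Field L] [Algebra k L]

private lemma LEN_frac {A : Subalgebra k L} (hfr : IsFractionRing A L) {B : Subring L}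
    (hAB : ∀ a ∈ A, a ∈ B) : IsFractionRing B L := by
  refine IsFractionRing.of_field _ _ fun z => ?_
  obtain ⟨a, b, hb, rfl⟩ := IsFractionRing.div_surjective (A := A) z
  exact ⟨⟨a, hAB a a.2⟩, ⟨b, hAB b b.2⟩, rfl⟩

/-- The integral closure of the local ring is finite. -/
private lemma LEN_fin [PerfectField k] (A : Subalgebra k L) (hA : A.FG)
    (hfr : IsFractionRing A L) (p : Ideal A.toSubring) [p.IsPrime] :
    Module.Finite (LocalSubring.ofPrime A.toSubring p).toSubring
      (integralClosure (LocalSubring.ofPrime A.toSubring p).toSubring L) := by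
  have h1 : Module.Finite A (integralClosure A L) := nf A hA hfr
  have h2 : (Subalgebra.toSubmodule (integralClosure A L)).FG :=
    (Submodule.fg_top _).1 (Module.Finite.fg_top (R := A) (M := integralClosure A L))
  obtain ⟨T, hT⟩ := h2
  refine (Module.Finite.iff_fg (N := Subalgebra.toSubmodule
    (integralClosure (LocalSubring.ofPrime A.toSubring p).toSubring L))).2 ⟨T, ?_⟩
  have hAB : ∀ a ∈ A, a ∈ (LocalSubring.ofPrime A.toSubring p).toSubring := fun a ha =>
    LocalSubring.le_ofPrime A.toSubring p ha
  apply le_antisymm
  · rw [Submodule.span_le]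
    intro x hx
    have h3 : x ∈ Subalgebra.toSubmodule (integralClosure A L) :=
      hT ▸ Submodule.subset_span hx
    obtain ⟨f, hf, h0⟩ : IsIntegral A x := h3
    let j : A →+* (LocalSubring.ofPrime A.toSubring p).toSubring :=
      (algebraMap A L).codRestrict _ fun a => hAB a a.2
    refine ⟨f.map j, hf.map _, ?_⟩
    rw [Polynomial.eval₂_map]
    exact h0
  · intro x hx
    have h3 : IsIntegral (LocalSubring.ofPrime A.toSubring p).toSubring x := hx
    obtain ⟨m, hm⟩ := IsIntegral.exists_multiple_integral_of_isLocalization p.primeCompl x h3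
    have hm0 : ((m : A.toSubring) : L) ≠ 0 := by
      intro h0
      apply m.2
      have : (m : A.toSubring) = 0 := Subtype.ext h0
      rw [this]
      exact p.zero_mem
    have hm' : IsIntegral A (((m : A.toSubring) : L) * x) := hm
    have h4 : ((m : A.toSubring) : L) * x ∈ Submodule.span A (T : Set L) := by
      rw [hT]
      exact hm'
    have h5 : ∀ y ∈ Submodule.span A (T : Set L), y ∈ Submodule.span
        (LocalSubring.ofPrime A.toSubring p).toSubring (T : Set L) := by
      intro y hy
      induction hy using Submodule.span_induction with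
      | mem y hy => exact Submodule.subset_span hy
      | zero => exact zero_mem _
      | add y z _ _ h h' => exact add_mem h h'
      | smul a y _ h =>
        exact Submodule.smul_mem _ (⟨(a : L), hAB a a.2⟩ :
          (LocalSubring.ofPrime A.toSubring p).toSubring) h
    have h6 := h5 _ h4
    obtain ⟨u, hu⟩ := IsLocalization.map_units (LocalSubring.ofPrime A.toSubring p).toSubring m
    have hu' : (((u : (LocalSubring.ofPrime A.toSubring p).toSubring)) : L) =
        ((m : A.toSubring) : L) := congrArg Subtype.val hu
    have h7 : (((u⁻¹ : (LocalSubring.ofPrime A.toSubring p).toSubringˣ) :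
        (LocalSubring.ofPrime A.toSubring p).toSubring) : L) * ((m : A.toSubring) : L) = 1 := by
      rw [← hu']
      exact congrArg Subtype.val u.inv_mul
    have h8 : x = ((u⁻¹ : (LocalSubring.ofPrime A.toSubring p).toSubringˣ) :
        (LocalSubring.ofPrime A.toSubring p).toSubring) • (((m : A.toSubring) : L) * x) := by
      change x = (((u⁻¹ : (LocalSubring.ofPrime A.toSubring p).toSubringˣ) :
        (LocalSubring.ofPrime A.toSubring p).toSubring) : L) * (((m : A.toSubring) : L) * x)
      rw [← mul_assoc, h7, one_mul]
    rw [h8]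
    exact Submodule.smul_mem _ _ h6

private lemma LEN_hyp [PerfectField k] (A : Subalgebra k L) (hA : A.FG)
    (hfr : IsFractionRing A L) (p : Ideal A.toSubring) [p.IsPrime] (hp : p ≠ ⊥)
    (hh : ∀ q : Ideal A.toSubring, q.IsPrime → q < p → q = ⊥) :
    LHyp (LocalSubring.ofPrime A.toSubring p).toSubring L := by
  have hinj : Function.Injective (algebraMap A.toSubring
      (LocalSubring.ofPrime A.toSubring p).toSubring) := fun a b hab =>
    Subtype.ext (congrArg (Subtype.val :
      (LocalSubring.ofPrime A.toSubring p).toSubring → L) hab)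
  have hne : maximalIdeal (LocalSubring.ofPrime A.toSubring p).toSubring ≠ ⊥ := by
    obtain ⟨a, ha, ha0⟩ := Submodule.exists_mem_ne_zero_of_ne_bot hp
    intro h0
    have h1 := (IsLocalization.AtPrime.to_map_mem_maximal_iff
      (LocalSubring.ofPrime A.toSubring p).toSubring p a).2 ha
    rw [h0, Ideal.mem_bot] at h1
    exact ha0 (hinj (by rw [h1, map_zero]))
  have hnA : IsNoetherianRing A.toSubring := by
    have h1 : Algebra.FiniteType k A := A.fg_iff_finiteType.1 hA
    exact Algebra.FiniteType.isNoetherianRing k A
  refine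
    { dom := inferInstance
      loc := inferInstance
      noeth := IsLocalization.isNoetherianRing p.primeCompl _ hnA
      dim := ⟨fun {q} hq0 hq => ?_⟩
      nf := fun h => hne (IsLocalRing.isField_iff_maximalIdeal_eq.1 h)
      inj := Subtype.val_injective
      fin := LEN_fin A hA hfr p
      frac := ?_ }
  · have h1 : q.comap (algebraMap A.toSubring _) ≤ p := by
      intro a ha
      by_contra hap
      have h2 := IsLocalization.map_units (LocalSubring.ofPrime A.toSubring p).toSubring
        (⟨a, hap⟩ : p.primeCompl)
      exact hq.ne_top (Ideal.eq_top_of_isUnit_mem q ha h2)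
    have h3 : (q.comap (algebraMap A.toSubring _)).map (algebraMap A.toSubring
        (LocalSubring.ofPrime A.toSubring p).toSubring) = q :=
      IsLocalization.map_under p.primeCompl _ q
    rcases h1.lt_or_eq with h4 | h4
    · exfalso
      have h5 := hh _ (Ideal.IsPrime.comap _) h4
      rw [h5, Ideal.map_bot] at h3
      exact hq0 h3.symm
    · rw [h4, IsLocalization.AtPrime.map_eq_maximalIdeal p] at h3
      rw [← h3]
      infer_instance
  · refine IsFractionRing.of_field _ _ fun z => ?_
    obtain ⟨a, b, hb, rfl⟩ := IsFractionRing.div_surjective (A := A) z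
    have hAB : ∀ a ∈ A, a ∈ (LocalSubring.ofPrime A.toSubring p).toSubring := fun a ha =>
      LocalSubring.le_ofPrime A.toSubring p ha
    exact ⟨algebraMap (LocalSubring.ofPrime A.toSubring p).toSubring _ ⟨a, hAB a a.2⟩,
      algebraMap (LocalSubring.ofPrime A.toSubring p).toSubring _ ⟨b, hAB b b.2⟩, rfl⟩

private lemma LEN_dom (P : LocalSubring L) (V : ValuationSubring L) :
    LDom P.toSubring V ↔ IsDiscreteValuationRing V ∧ P ≤ V.toLocalSubring := by
  constructor
  · rintro ⟨h1, h2⟩
    refine ⟨h1, ⟨fun b hb => (h2 ⟨b, hb⟩).1, ⟨fun b hb => ?_⟩⟩⟩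
    refine (h2 b).2.2 ?_
    exact (ValuationSubring.valuation_eq_one_iff V ⟨(b : L), (h2 b).1⟩).1 hb
  · rintro ⟨h1, h2, h3⟩
    refine ⟨h1, fun b => ⟨h2 b.2, fun hb => ?_, fun hb => ?_⟩⟩
    · exact (ValuationSubring.valuation_eq_one_iff V ⟨(b : L), h2 b.2⟩).1
        (hb.map (Subring.inclusion h2))
    · exact h3.map_nonunit b
        ((ValuationSubring.valuation_eq_one_iff V ⟨(b : L), h2 b.2⟩).2 hb)

end LEN

/-- **LEN**. `B` is the local ring of a finitely generated domain `A` over a perfect field at a prime ideal `p` of height one;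
the discrete valuation rings `V` of `L = Frac A` which dominate `B` are finite in number, of finite residue degrees `deg V`,
and the length of `B / a B` is the sum of `deg V * ord V a`.

PROOF. `A' = integralClosure A L` is a finite `A`-module (`nf`), so `B' =` the integral closure of `B` in `L` `= A'` localized
at `A \ p` is a finite `B`-module; `B'` is an integrally closed noetherian domain of dimension one (integral over the one
dimensional `B`), not a field: a Dedekind domain with finitely many maximal ideals (those over `p`). The localizations of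
`B'` at its maximal ideals are discrete valuation rings of `L` dominating `B`; conversely, if a discrete valuation ring `V`
dominates `B` then `B' ⊆ V` (`V` is integrally closed), the maximal ideal of `V` meets `B'` in a maximal ideal `m` (nonzero,
as it contains that of `B`), `B'_m ⊆ V`, and `B'_m`, a discrete valuation ring, is a maximal subring, so `V = B'_m`.
The residue field of `B'_m` is `B' / m`, finite over `κ(B)`. Length: `length_B (B / aB) = length_B (B' / aB')` (`B' / B` has
finite length: finitely generated and torsion over the one dimensional local noetherian domain `B`; compare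
`B ⊇ aB`, `B' ⊇ aB'`, multiplication by `a` is an isomorphism `B' / B → aB' / aB`; see `LO_lenB_ord`), and
`B' / aB' = ∏ B'_m / a B'_m`, of length `∑ [B'/m : κ(B)] ord_m a` (filtration by the powers of the uniformizer; or adapt
`LO_one`, `LO_lenD` of `LenOrd.lean`, whose steps `D / π_W D` have now the length `deg W`). -/
theorem len_sum {k L : Type} [Field k] [PerfectField k] [Field L] [Algebra k L]
    (A : Subalgebra k L) (hA : A.FG) (hfr : IsFractionRing A L)
    (p : Ideal A.toSubring) [p.IsPrime] (hp : p ≠ ⊥)
    (hh : ∀ q : Ideal A.toSubring, q.IsPrime → q < p → q = ⊥) :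
    ∃ (T : Finset (ValuationSubring L)) (deg : ValuationSubring L → ℕ),
      (∀ V, V ∈ T ↔ IsDiscreteValuationRing V ∧
        LocalSubring.ofPrime A.toSubring p ≤ V.toLocalSubring) ∧
      (∀ V ∈ T, ∃ φ : ResidueField (LocalSubring.ofPrime A.toSubring p).toSubring →+*
          ResidueField V,
        (∀ b : (LocalSubring.ofPrime A.toSubring p).toSubring, φ (residue _ b) = res V (b : L)) ∧
        @Module.Finite _ _ _ _ φ.toAlgebra.toModule ∧
        deg V = @Module.finrank _ _ _ _ φ.toAlgebra.toModule) ∧
      ∀ a : (LocalSubring.ofPrime A.toSubring p).toSubring, a ≠ 0 →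
        Module.length (LocalSubring.ofPrime A.toSubring p).toSubring
            ((LocalSubring.ofPrime A.toSubring p).toSubring ⧸ Ideal.span {a}) =
          ((∑ V ∈ T, deg V * (ord V (a : L)).toNat : ℕ) : ℕ∞) := by
  have h := LEN_hyp A hA hfr p hp hh
  refine ⟨h.dom_finite.toFinset, rdeg (LocalSubring.ofPrime A.toSubring p).toSubring,
    fun V => ?_, fun V hV => ?_, fun a ha => ?_⟩
  · rw [h.mem_T, LEN_dom]
  · have hV' := (h.mem_T V).1 hV
    obtain ⟨φ, hφ⟩ := hV'.exists_hom
    exact ⟨φ, hφ, (h.resLen_eq hV' φ hφ).1, h.rdeg_eq hV' φ hφ⟩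
  · have hfrB : IsFractionRing (LocalSubring.ofPrime A.toSubring p).toSubring L :=
      LEN_frac hfr fun a ha => LocalSubring.le_ofPrime A.toSubring p ha
    rw [h.length_eq hfrB ha]
    congr 1
    refine Finset.sum_congr rfl fun V _ => ?_
    rw [mul_comm]
    rfl

end Pool.Agent.Lib.MP_b197b4_ntZ
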