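import Mathlib
import Pool.Agent.Lib.MP_b197b4_ntZ.Hq
import Pool.Agent.Lib.MP_b197b4_ntZ.Vb

/-!
# MP_b197b4_nt, project LIT: graphs of symbols on surfaces, definitions
-/

set_option autoImplicit false

namespace Pool.Agent.Lib.MP_b197b4_ntZ

open IsLocalRing Pool.Agent.Lib.MP_b197b4_ntK Pool.Agent.Lib.MP_b197b4_ntA

section

variable {F : Type} [Field F]

/-- The point of `S × Δ ^ 2` with the coordinates `τ` (functions on `S`). -/
noncomputable def gr (S : LocalSubring F) (τ : Fin 3 → Kap S) : Sub F 2 :=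
  ⟨S, RingHom.ker (MvPolynomial.aeval τ : Pol 2 (Kap S) →ₐ[Kap S] Kap S)⟩

/-- The natural homomorphism of the residue field of the centre `P` to the residue field of `V`. -/
def NatK (P S : LocalSubring F) (V : ValuationSubring (Kap S)) (φ : Kap P →+* ResidueField V) :
    Prop :=
  ∀ (y : F) (hP : y ∈ P.toSubring) (hS : y ∈ S.toSubring),
    φ (residue _ ⟨y, hP⟩) = res V (residue _ ⟨y, hS⟩)

/-- The centre of the discrete valuation ring `V` of `κ(S)` on the closure of `gr S τ` is the point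
`(P, p)`. -/
def At (P S : LocalSubring F) (τ : Fin 3 → Kap S) (p : Ideal (Pol 2 (Kap P)))
    (V : ValuationSubring (Kap S)) : Prop :=
  IsDiscreteValuationRing V ∧ Cen P S V ∧ (∀ j, τ j ∈ V) ∧
    ∀ φ : Kap P →+* ResidueField V, NatK P S V φ → ∀ g : Pol 2 (Kap P),
      g ∈ p ↔ MvPolynomial.eval₂ φ (fun j => res V (τ j)) g = 0

end

/-- Tropical coordinates at `V`: the minimum of the orders is attained at least twice. -/
def TropV {K : Type} [Field K] (V : ValuationSubring K) (τ : Fin 3 → K) : Prop :=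
  ∀ i, ∃ j, j ≠ i ∧ ord V (τ j) ≤ ord V (τ i)

/-- Coordinates of a surface in `S × Δ ^ 2` which meets the faces properly. -/
structure Trop (k : Type) {F : Type} [Field k] [Field F] [Algebra k F] {n : ℕ}
    (x : Fin (n + 1) → F) (S : LocalSubring F) (τ : Fin 3 → Kap S) : Prop where
  ne : ∀ i, τ i ≠ 0
  sum : ∑ i, τ i = 1
  trop : ∀ P ∈ Pts k x 1, ∀ V : ValuationSubring (Kap S), IsDiscreteValuationRing V →
    Cen P S V → TropV V τ

end Pool.Agent.Lib.MP_b197b4_ntZ
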