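import Mathlib
import Pool.Agent.Lib.MP_b197b4_ntZ.TDefs
import Pool.Agent.Lib.MP_b197b4_ntZ.LEN
import Pool.Agent.Lib.MP_b197b4_ntKE.LenB
import Pool.Agent.Lib.MP_b197b4_ntKE.LenL

/-!
# MP_b197b4_nt, project LIT, leaf Fv: finitely many valuations over a curve on a surface
-/

set_option autoImplicit false

namespace Pool.Agent.Lib.MP_b197b4_ntZ

open IsLocalRing Pool.Agent.Lib.MP_b197b4_ntK Pool.Agent.Lib.MP_b197b4_ntA

variable {k : Type} {F : Type} [Field k] [Field F] [Algebra k F] {n : ℕ} {x : Fin (n + 1) → F}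

private theorem Fv_kap (P S : LocalSubring F) (V : ValuationSubring (Kap S)) (h : Cen P S V) :
    Nonempty (Kap P →+* ResidueField V) := by
  obtain ⟨g, hg⟩ : ∃ g : P.toSubring →+* V, ∀ (y : P.toSubring),
      (g y : Kap S) = residue _ (⟨(y : F), h.1 y.2⟩ : S.toSubring) :=
    ⟨((residue S.toSubring).comp (Subring.inclusion h.1)).codRestrict V.toSubring
      (fun y => (h.2 y y.2 (h.1 y.2)).1), fun y => rfl⟩
  have hloc : IsLocalHom g := by
    constructor
    intro y hy
    rw [ValuationSubring.valuation_eq_one_iff, hg] at hy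
    exact (h.2 y y.2 (h.1 y.2)).2.mpr hy
  exact ⟨ResidueField.map g⟩

/-- The homomorphism of a chart to the field of functions of a point. -/
private noncomputable def Fv_phi {S : LocalSubring F} {i : Fin (n + 1)}
    (hi : (cht k x i).toSubring ≤ S.toSubring) :
    @AlgHom k (cht k x i) (Kap S) _ _ _ _ (XP_alg (XP_const hi)) :=
  letI : Algebra k (Kap S) := XP_alg (XP_const hi)
  { toRingHom := (residue S.toSubring).comp (Subring.inclusion hi)
    commutes' := fun _ => rfl }

private theorem Fv_phi_apply {S : LocalSubring F} {i : Fin (n + 1)}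
    (hi : (cht k x i).toSubring ≤ S.toSubring) (a : cht k x i) :
    Fv_phi hi a = residue S.toSubring ⟨a, hi a.2⟩ := rfl

private theorem Fv_ker {S : LocalSubring F} {i : Fin (n + 1)}
    (hi : (cht k x i).toSubring ≤ S.toSubring) (a : (cht k x i).toSubring) :
    residue S.toSubring ⟨(a : F), hi a.2⟩ = 0 ↔ a ∈ XP_ker hi := by
  rw [XP_mem_ker, residue_eq_zero_iff, mem_maximalIdeal, mem_nonunits_iff]

private theorem Fv_main [PerfectField k] (hne : ∀ i, x i ≠ 0) {S : LocalSubring F}
    (hS : S ∈ Pts k x 2) (i : Fin (n + 1)) (Q : Ideal (cht k x i).toSubring) [Q.IsPrime]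
    (hd : ringKrullDim ((cht k x i).toSubring ⧸ Q) = 1)
    (hPS : (LocalSubring.ofPrime (cht k x i).toSubring Q).toSubring ≤ S.toSubring)
    (V₀ : ValuationSubring (Kap S)) (hV₀ : Cen (LocalSubring.ofPrime (cht k x i).toSubring Q) S V₀) :
    {V : ValuationSubring (Kap S) | IsDiscreteValuationRing V ∧
      Cen (LocalSubring.ofPrime (cht k x i).toSubring Q) S V}.Finite := by
  have hi : (cht k x i).toSubring ≤ S.toSubring := (LocalSubring.le_ofPrime _ Q).trans hPS
  let _ : Algebra k (Kap S) := XP_alg (XP_const hi)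
  let φ : cht k x i →ₐ[k] Kap S := Fv_phi hi
  let A : Subalgebra k (Kap S) := φ.range
  have hft : Algebra.FiniteType k (cht k x i) := (Subalgebra.fg_iff_finiteType _).1 (XP_fg i)
  have hA : A.FG := (Subalgebra.fg_iff_finiteType _).2
    (Algebra.FiniteType.of_surjective φ.rangeRestrict φ.rangeRestrict_surjective)
  let ψ : (cht k x i).toSubring →+* A.toSubring := (φ.rangeRestrict : cht k x i →ₐ[k] A).toRingHom
  have hψ : ∀ a : (cht k x i).toSubring, ((ψ a : A.toSubring) : Kap S) =
    residue S.toSubring ⟨(a : F), hi a.2⟩ := fun a => rfl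
  have hψs : Function.Surjective ψ := φ.rangeRestrict_surjective
  have hker : RingHom.ker ψ = XP_ker hi := by
    ext a
    rw [RingHom.mem_ker, ← Fv_ker hi a, ← hψ a]
    exact ⟨fun h => by rw [h]; rfl, fun h => Subtype.ext h⟩
  have hfr : IsFractionRing A (Kap S) := IsFractionRing.of_field _ _ (by
    intro z
    obtain ⟨⟨y, hy⟩, rfl⟩ := residue_surjective z
    obtain ⟨a, b, ha, hb, hu, rfl⟩ := XP_frac hne hS hi hy
    refine ⟨φ.rangeRestrict ⟨a, ha⟩, φ.rangeRestrict ⟨b, hb⟩, ?_⟩
    exact XP_residue_div (hi ha) (hi hb) hu hy)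
  have hle : XP_ker hi ≤ Q := by
    intro z hz
    by_contra hzP
    have h1 := (XP_unit (cht k x i).toSubring Q z).2 hzP
    have h2 := (hV₀.2 z (LocalSubring.le_ofPrime _ _ z.2) (hi z.2)).2.1 h1
    rw [(Fv_ker hi z).2 hz, map_zero] at h2
    exact zero_ne_one h2
  have hcm : (Q.map ψ).comap ψ = Q := by
    rw [Ideal.comap_map_of_surjective _ hψs, sup_eq_left]
    intro a ha
    apply hle
    rw [← hker]
    exact ha
  have hmem : ∀ a, ψ a ∈ Q.map ψ ↔ a ∈ Q := by
    intro a
    rw [← Ideal.mem_comap, hcm]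
  have hpp : (Q.map ψ).IsPrime := Ideal.map_isPrime_of_surjective hψs (by rw [hker]; exact hle)
  have hdS := XP_chart_dim hne hS hi
  have hp : Q.map ψ ≠ ⊥ := by
    intro h0
    rw [h0] at hcm
    have h1 : XP_ker hi = Q := by rw [← hker, ← hcm]; rfl
    rw [h1, hd] at hdS
    exact absurd hdS (by decide)
  have hh : ∀ q : Ideal A.toSubring, q.IsPrime → q < Q.map ψ → q = ⊥ := by
    intro q hq hlt
    have h1 : q.comap ψ < Q := by
      refine lt_of_le_of_ne ?_ ?_
      · rw [← hcm]
        exact Ideal.comap_mono hlt.le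
      · intro h2
        apply hlt.ne
        rw [← h2, Ideal.map_comap_of_surjective _ hψs]
    have hqc : (q.comap ψ).IsPrime := Ideal.IsPrime.comap _
    have h2 : XP_ker hi ≤ q.comap ψ := by
      rw [← hker]
      exact Ideal.comap_mono bot_le
    by_cases h3 : XP_ker hi = q.comap ψ
    · rw [← Ideal.map_comap_of_surjective _ hψs q, ← h3, ← hker, eq_bot_iff]
      exact Ideal.map_le_iff_le_comap.2 le_rfl
    · exfalso
      have h4 := XP_dim_lt (lt_of_le_of_ne h2 h3)
      have h5 := XP_dim_lt h1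
      rw [hdS] at h4
      rw [hd] at h5
      have h6 : (1 : WithBot ℕ∞) + 1 + 1 ≤ 2 := (add_le_add_left h5 1).trans h4
      exact absurd h6 (by decide)
  obtain ⟨T, deg, hT, -, -⟩ := len_sum A hA hfr (Q.map ψ) hp hh
  refine T.finite_toSet.subset ?_
  rintro V ⟨hV, hcen⟩
  refine Finset.mem_coe.2 ((hT V).2 ⟨hV, ?_⟩)
  have hin : ∀ a : (cht k x i).toSubring, ((ψ a : A.toSubring) : Kap S) ∈ V := fun a =>
    (hcen.2 a (LocalSubring.le_ofPrime _ _ a.2) (hi a.2)).1
  have hun : ∀ a : (cht k x i).toSubring, V.valuation ((ψ a : A.toSubring) : Kap S) = 1 ↔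
      a ∉ Q := fun a =>
    ((hcen.2 a (LocalSubring.le_ofPrime _ _ a.2) (hi a.2)).2).symm.trans (XP_unit _ Q a)
  have hfrac : ∀ z ∈ (LocalSubring.ofPrime A.toSubring (Q.map ψ)).toSubring,
      ∃ a s : (cht k x i).toSubring, s ∉ Q ∧
        z = ((ψ a : A.toSubring) : Kap S) / ((ψ s : A.toSubring) : Kap S) := by
    intro z hz
    obtain ⟨a, s, hs, rfl⟩ := XP_mem _ _ hz
    obtain ⟨a, rfl⟩ := hψs a
    obtain ⟨s, rfl⟩ := hψs s
    exact ⟨a, s, fun h => hs ((hmem s).2 h), rfl⟩
  have hsub : (LocalSubring.ofPrime A.toSubring (Q.map ψ)).toSubring ≤ V.toSubring := by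
    intro z hz
    obtain ⟨a, s, hs, rfl⟩ := hfrac z hz
    have h1 := (hun s).2 hs
    change _ ∈ V
    rw [← ValuationSubring.valuation_le_one_iff, map_div₀, h1, div_one]
    exact (ValuationSubring.valuation_le_one_iff _ _).2 (hin a)
  refine ⟨hsub, ⟨?_⟩⟩
  rintro ⟨z, hz⟩ hu
  obtain ⟨a, s, hs, rfl⟩ := hfrac z hz
  have h1 := (hun s).2 hs
  have h2 : V.valuation (((ψ a : A.toSubring) : Kap S) / ((ψ s : A.toSubring) : Kap S)) = 1 :=
    (ValuationSubring.valuation_eq_one_iff V ⟨_, hsub hz⟩).1 hu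
  rw [map_div₀, h1, div_one] at h2
  have ha := (hun a).1 h2
  have ha' : ψ a ∉ Q.map ψ := fun h => ha ((hmem a).1 h)
  have hs' : ψ s ∉ Q.map ψ := fun h => hs ((hmem s).1 h)
  have hinv := Pool.Agent.Lib.MP_b197b4_ntKE.Ch_div_mem (Q.map ψ) (a := ψ s) ha'
  refine IsUnit.of_mul_eq_one ⟨_, hinv⟩ (Subtype.ext ?_)
  change ((ψ a : A.toSubring) : Kap S) / ((ψ s : A.toSubring) : Kap S) *
    (((ψ s : A.toSubring) : Kap S) / ((ψ a : A.toSubring) : Kap S)) = 1
  have e1 : ((ψ a : A.toSubring) : Kap S) ≠ 0 := xcen_ne _ _ ha'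
  have e2 : ((ψ s : A.toSubring) : Kap S) ≠ 0 := xcen_ne _ _ hs'
  rw [div_mul_div_comm, mul_comm, div_self (mul_ne_zero e2 e1)]

/-- PROOF. Let `S` be a surface, `P ≤ S` a curve (if `P ≤ S` fails there is no `V`), `i` a chart of `P`, `κ(S)` with the
`k`-algebra structure `XP_alg`, `A` the image of `cht k x i` in `κ(S)` (finitely generated, with the fraction field `κ(S)`,
`XP_frac`), `p` the prime ideal of `A` defined by `P` (the image of the prime ideal of `cht k x i`; `a ∈ p` iff it is the class of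
a non-unit of `P`). `ringKrullDim A = 2`, `ringKrullDim (A / p) = 1` (`XP_chart_dim`), so `p ≠ ⊥` and by `XP_dim_lt` there is no
prime strictly between `⊥` and `p`. `(LocalSubring.ofPrime A p).toSubring = locSub P S`. `Cen P S V` says that `V` contains
`locSub P S` and the elements of `P` are units of `P` iff their classes are units of `V`, i.e.
`LocalSubring.ofPrime A p ≤ V.toLocalSubring`. Now `len_sum` (`T` is the set in question). -/
theorem fin_V [PerfectField k] (hne : ∀ i, x i ≠ 0) {P S : LocalSubring F} (hP : P ∈ Pts k x 1)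
    (hS : S ∈ Pts k x 2) :
    {V : ValuationSubring (Kap S) | IsDiscreteValuationRing V ∧ Cen P S V}.Finite := by
  by_cases hex : ∃ V₀ : ValuationSubring (Kap S), Cen P S V₀
  · obtain ⟨V₀, hV₀⟩ := hex
    obtain ⟨i, Q, hQ, hd, rfl⟩ := hP
    exact Fv_main hne hS i Q hd hV₀.1 V₀ hV₀
  · refine Set.finite_empty.subset ?_
    rintro V ⟨-, hV⟩
    exact hex ⟨V, hV⟩

/-- The residue fields are infinite. PROOF. The residue field of `V` contains `κ(P)` (`exists_kap`), which has transcendence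
degree one over `k` (`XP_exists`, `XP_chart_dim`), so it is infinite. -/
theorem inf_V (hne : ∀ i, x i ≠ 0) {P S : LocalSubring F} (hP : P ∈ Pts k x 1)
    (V : ValuationSubring (Kap S)) (hV : Cen P S V) : Infinite (ResidueField V) := by
  obtain ⟨φ⟩ := Fv_kap P S V hV
  have hP' := hP
  obtain ⟨i, Q, hQ, hd, rfl⟩ := hP'
  have hi : (cht k x i).toSubring ≤ (LocalSubring.ofPrime (cht k x i).toSubring Q).toSubring :=
    LocalSubring.le_ofPrime _ Q
  obtain ⟨s, h1, h2⟩ := XP_exists hne hP hi (XP_const hi)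
  rw [XP_chart_dim hne hP hi] at h2
  let _ : Algebra k (Kap (LocalSubring.ofPrime (cht k x i).toSubring Q)) := XP_alg (XP_const hi)
  have hs : (1 : ℕ) = s := by exact_mod_cast h2
  have hinf : Infinite (Kap (LocalSubring.ofPrime (cht k x i).toSubring Q)) := by
    by_contra hfin
    rw [not_infinite_iff_finite] at hfin
    have : Module.Finite k (Kap (LocalSubring.ofPrime (cht k x i).toSubring Q)) :=
      Module.Finite.of_finite
    have : Algebra.IsAlgebraic k (Kap (LocalSubring.ofPrime (cht k x i).toSubring Q)) :=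
      Algebra.IsAlgebraic.of_finite k _
    have h3 : Algebra.trdeg k (Kap (LocalSubring.ofPrime (cht k x i).toSubring Q)) = 0 :=
      trdeg_eq_zero
    rw [h1, ← hs] at h3
    exact absurd h3 (by norm_num)
  exact Infinite.of_injective φ φ.injective

end Pool.Agent.Lib.MP_b197b4_ntZ
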