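import Mathlib
import Pool.Agent.Lib.MP_b197b4_ntZ.TDefs
import Pool.Agent.Lib.MP_b197b4_ntZ.LEN
import Pool.Agent.Lib.MP_b197b4_ntKE.LenB
import Pool.Agent.Lib.MP_b197b4_ntKE.LenL

/-!
# MP_b197b4_nt, project LIT, leaf Tba: the local rings of the graph of a symbol
-/

set_option autoImplicit false

namespace Pool.Agent.Lib.MP_b197b4_ntZ

open IsLocalRing Pool.Agent.Lib.MP_b197b4_ntK Pool.Agent.Lib.MP_b197b4_ntA
open Pool.Agent.Lib.MP_b197b4_ntKE (Ch_div_mem)

variable {k : Type} {F : Type} [Field k] [Field F] [Algebra k F] {n : ℕ} {x : Fin (n + 1) → F}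

section TbaAux

/-! ### Dimensions (as in `nidl_dim`, without the equation of the simplex) -/

private noncomputable abbrev Tba_psi {S : LocalSubring F} {A : Subring F}
    (hi : A ≤ S.toSubring) : A →+* Kap S :=
  (residue S.toSubring).comp (Subring.inclusion hi)

private theorem Tba_mem {S : LocalSubring F} {A : Subring F} (hi : A ≤ S.toSubring) (a : A) :
    a ∈ XP_ker hi ↔ Tba_psi hi a = 0 := by
  rw [XP_ker, RingHom.mem_ker]

private theorem Tba_unit {S : LocalSubring F} {A : Subring F} (hi : A ≤ S.toSubring) (a : A) :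
    Tba_psi hi a ≠ 0 ↔ IsUnit (⟨(a : F), hi a.2⟩ : S.toSubring) := by
  rw [← not_iff_not, not_not, ← Tba_mem, XP_mem_ker]

private theorem Tba_frac (hne : ∀ i, x i ≠ 0) {e : ℕ} {S : LocalSubring F} (hS : S ∈ Pts k x e)
    {i : Fin (n + 1)} (hi : (cht k x i).toSubring ≤ S.toSubring) (z : Kap S) :
    ∃ a b : (cht k x i).toSubring, Tba_psi hi b ≠ 0 ∧ Tba_psi hi b * z = Tba_psi hi a := by
  obtain ⟨⟨y, hy⟩, rfl⟩ := residue_surjective z
  obtain ⟨a, b, ha, hb, hu, rfl⟩ := XP_frac hne hS hi hy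
  have hb0 : Tba_psi hi ⟨b, hb⟩ ≠ 0 := (Tba_unit hi ⟨b, hb⟩).2 hu
  refine ⟨⟨a, ha⟩, ⟨b, hb⟩, hb0, ?_⟩
  rw [XP_residue_div (hi ha) (hi hb) hu hy]
  exact mul_div_cancel₀ _ hb0

/-- common denominators -/
private theorem Tba_clear (hne : ∀ i, x i ≠ 0) {e : ℕ} {S : LocalSubring F}
    (hS : S ∈ Pts k x e) {i : Fin (n + 1)} (hi : (cht k x i).toSubring ≤ S.toSubring) {m : ℕ}
    (f : Pol m (Kap S)) :
    ∃ (g : Pol m (cht k x i).toSubring) (b : (cht k x i).toSubring), Tba_psi hi b ≠ 0 ∧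
      MvPolynomial.C (Tba_psi hi b) * f = MvPolynomial.map (Tba_psi hi) g := by
  induction f using MvPolynomial.induction_on with
  | C z =>
    obtain ⟨a, b, hb, h⟩ := Tba_frac hne hS hi z
    refine ⟨MvPolynomial.C a, b, hb, ?_⟩
    rw [← MvPolynomial.C_mul, h, MvPolynomial.map_C]
  | add p q hp hq =>
    obtain ⟨g, b, hb, h⟩ := hp
    obtain ⟨g', b', hb', h'⟩ := hq
    refine ⟨MvPolynomial.C b' * g + MvPolynomial.C b * g', b * b', ?_, ?_⟩
    · rw [map_mul]
      exact mul_ne_zero hb hb'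
    · rw [map_mul, map_mul, map_add, map_mul, map_mul, MvPolynomial.map_C, MvPolynomial.map_C,
        ← h, ← h']
      ring
  | mul_X p j hp =>
    obtain ⟨g, b, hb, h⟩ := hp
    refine ⟨g * MvPolynomial.X j, b, hb, ?_⟩
    rw [map_mul, MvPolynomial.map_X, ← h, mul_assoc]

private theorem Tba_dim (hne : ∀ i, x i ≠ 0) {m s r : ℕ} {U : Sub F m} (hs : U.1 ∈ Pts k x s)
    (hp : U.2.IsPrime) (hr : ringKrullDim (Pol m (Kap U.1) ⧸ U.2) = r)
    {i : Fin (n + 1)} (hi : (cht k x i).toSubring ≤ U.1.toSubring) :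
    ringKrullDim (Pol m (cht k x i).toSubring ⧸ nidl U hi) = ((s + r : ℕ) : WithBot ℕ∞) := by
  let _ : Algebra k (Kap U.1) := XP_alg (XP_const hi)
  have hdom : IsDomain (Pol m (Kap U.1) ⧸ U.2) := Ideal.Quotient.isDomain _
  let L := FractionRing (Pol m (Kap U.1) ⧸ U.2)
  have hFT : Algebra.FiniteType k (cht k x i) := (Subalgebra.fg_iff_finiteType _).1 (XP_fg i)
  have hFT' : Algebra.FiniteType k (MvPolynomial (Fin (m + 1)) (cht k x i)) :=
    Algebra.FiniteType.trans hFT inferInstance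
  let φ : MvPolynomial (Fin (m + 1)) (cht k x i) →ₐ[k] L :=
    { toRingHom := (algebraMap (Pol m (Kap U.1) ⧸ U.2) L).comp
        ((Ideal.Quotient.mk U.2).comp (MvPolynomial.map (Tba_psi hi)))
      commutes' := fun c => by
        change algebraMap (Pol m (Kap U.1) ⧸ U.2) L (Ideal.Quotient.mk U.2
          (MvPolynomial.map (Tba_psi hi)
          (MvPolynomial.C (algebraMap k (cht k x i) c)))) = algebraMap k L c
        rw [MvPolynomial.map_C]
        rfl }
  have hφ : ∀ g, φ g = algebraMap (Pol m (Kap U.1) ⧸ U.2) L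
      (Ideal.Quotient.mk U.2 (MvPolynomial.map (Tba_psi hi) g)) := fun g => rfl
  have hker : RingHom.ker φ = nidl U hi := by
    ext g
    rw [RingHom.mem_ker, hφ]
    change _ ↔ MvPolynomial.map (Tba_psi hi) g ∈ U.2
    rw [← Ideal.Quotient.eq_zero_iff_mem, FaithfulSMul.algebraMap_eq_zero_iff]
  have hinj : ∀ {f : Pol m (Kap U.1)},
      algebraMap (Pol m (Kap U.1) ⧸ U.2) L (Ideal.Quotient.mk U.2 f) = 0 →
      f ∈ U.2 := fun {f} h => by
    rwa [FaithfulSMul.algebraMap_eq_zero_iff, Ideal.Quotient.eq_zero_iff_mem] at h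
  have hC : ∀ c : Kap U.1, c ≠ 0 → algebraMap (Pol m (Kap U.1) ⧸ U.2) L
      (Ideal.Quotient.mk U.2 (MvPolynomial.C c)) ≠ 0 := by
    intro c hc h0
    exact hp.ne_top (Ideal.eq_top_of_isUnit_mem _ (hinj h0) ((Ne.isUnit hc).map MvPolynomial.C))
  have hfr : ∀ z : L, ∃ p q : Pol m (Kap U.1), z = algebraMap (Pol m (Kap U.1) ⧸ U.2) L
      (Ideal.Quotient.mk U.2 p) /
        algebraMap (Pol m (Kap U.1) ⧸ U.2) L (Ideal.Quotient.mk U.2 q) := by
    intro z
    obtain ⟨p, q, -, rfl⟩ := IsFractionRing.div_surjective (A := Pol m (Kap U.1) ⧸ U.2) z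
    obtain ⟨p, rfl⟩ := Ideal.Quotient.mk_surjective p
    obtain ⟨q, rfl⟩ := Ideal.Quotient.mk_surjective q
    exact ⟨p, q, rfl⟩
  obtain ⟨s1, t1, d1⟩ := XP_dim_ker φ (by
    intro z
    obtain ⟨p, q, rfl⟩ := hfr z
    obtain ⟨g, b, hb, hg⟩ := Tba_clear hne hs hi p
    obtain ⟨g', b', hb', hg'⟩ := Tba_clear hne hs hi q
    refine ⟨g * MvPolynomial.C b', g' * MvPolynomial.C b, ?_⟩
    have h1 : φ (g * MvPolynomial.C b') = algebraMap (Pol m (Kap U.1) ⧸ U.2) L
        (Ideal.Quotient.mk U.2 (MvPolynomial.C (Tba_psi hi b * Tba_psi hi b'))) *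
        algebraMap (Pol m (Kap U.1) ⧸ U.2) L (Ideal.Quotient.mk U.2 p) := by
      rw [hφ, ← map_mul, ← map_mul]
      congr 2
      rw [map_mul, MvPolynomial.map_C, ← hg, MvPolynomial.C_mul]
      ring
    have h2 : φ (g' * MvPolynomial.C b) = algebraMap (Pol m (Kap U.1) ⧸ U.2) L
        (Ideal.Quotient.mk U.2 (MvPolynomial.C (Tba_psi hi b * Tba_psi hi b'))) *
        algebraMap (Pol m (Kap U.1) ⧸ U.2) L (Ideal.Quotient.mk U.2 q) := by
      rw [hφ, ← map_mul, ← map_mul]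
      congr 2
      rw [map_mul, MvPolynomial.map_C, ← hg', MvPolynomial.C_mul]
      ring
    rw [h1, h2, mul_div_mul_left _ _ (hC _ (mul_ne_zero hb hb'))])
  obtain ⟨s2, t2, d2⟩ := XP_exists hne hs hi (XP_const hi)
  let φ' : Pol m (Kap U.1) →ₐ[Kap U.1] L :=
    { toRingHom := (algebraMap (Pol m (Kap U.1) ⧸ U.2) L).comp (Ideal.Quotient.mk U.2)
      commutes' := fun c => rfl }
  have hker' : RingHom.ker φ' = U.2 := by
    ext g
    exact ⟨fun h => hinj h, fun h => by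
      change algebraMap (Pol m (Kap U.1) ⧸ U.2) L (Ideal.Quotient.mk U.2 g) = 0
      rw [Ideal.Quotient.eq_zero_iff_mem.2 h, map_zero]⟩
  obtain ⟨s3, t3, d3⟩ := XP_dim_ker φ' (by
    intro z
    obtain ⟨p, q, rfl⟩ := hfr z
    exact ⟨p, q, rfl⟩)
  rw [hker', hr] at d3
  rw [XP_chart_dim hne hs hi] at d2
  have e3 : r = s3 := by exact_mod_cast d3
  have e2 : s = s2 := by exact_mod_cast d2
  have htr : Algebra.trdeg k (Kap U.1) + Algebra.trdeg (Kap U.1) L = Algebra.trdeg k L :=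
    trdeg_add_eq k (Kap U.1)
  rw [t1, t3] at htr
  have t2' : Algebra.trdeg k (Kap U.1) = s2 := t2
  rw [t2'] at htr
  have e1 : s2 + s3 = s1 := by exact_mod_cast htr
  have d1' : ringKrullDim (Pol m (cht k x i).toSubring ⧸ nidl U hi) = (s1 : WithBot ℕ∞) := by
    rw [← hker]
    exact d1
  rw [d1', ← e1, ← e2, ← e3]

/-! ### The local ring of the graph over `P` -/

/-- Evaluation at `τ`. -/
private noncomputable def Tba_Ev {A : Subring F} {S : LocalSubring F} (h : A ≤ S.toSubring)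
    (τ : Fin 3 → Kap S) : Pol 2 A →+* Kap S :=
  MvPolynomial.eval₂Hom (Tba_psi h) τ

private theorem Tba_Ev_C {A : Subring F} {S : LocalSubring F} (h : A ≤ S.toSubring)
    (τ : Fin 3 → Kap S) (a : A) : Tba_Ev h τ (MvPolynomial.C a) = Tba_psi h a :=
  MvPolynomial.eval₂Hom_C _ _ _

private theorem Tba_Ev_X {A : Subring F} {S : LocalSubring F} (h : A ≤ S.toSubring)
    (τ : Fin 3 → Kap S) (j : Fin 3) : Tba_Ev h τ (MvPolynomial.X j) = τ j :=
  MvPolynomial.eval₂Hom_X' _ _ _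

private theorem Tba_Ev_map {A B : Subring F} {S : LocalSubring F} (hAB : A ≤ B)
    (h : B ≤ S.toSubring) (τ : Fin 3 → Kap S) (g : Pol 2 A) :
    Tba_Ev h τ (MvPolynomial.map (Subring.inclusion hAB) g) = Tba_Ev (hAB.trans h) τ g := by
  unfold Tba_Ev
  rw [MvPolynomial.coe_eval₂Hom, MvPolynomial.coe_eval₂Hom, MvPolynomial.eval₂_map]
  rfl

private theorem Tba_mem_gr {A : Subring F} {S : LocalSubring F} (h : A ≤ S.toSubring)
    (τ : Fin 3 → Kap S) (g : Pol 2 A) :
    MvPolynomial.map (Tba_psi h) g ∈ (gr S τ).2 ↔ Tba_Ev h τ g = 0 := by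
  unfold gr Tba_Ev
  rw [RingHom.mem_ker, MvPolynomial.coe_eval₂Hom]
  have h1 : (MvPolynomial.aeval τ : Pol 2 (Kap S) →ₐ[Kap S] Kap S)
      (MvPolynomial.map (Tba_psi h) g) = MvPolynomial.eval₂ (Tba_psi h) τ g := by
    rw [MvPolynomial.aeval_def, MvPolynomial.eval₂_map]
    rfl
  change (MvPolynomial.aeval τ : Pol 2 (Kap S) →ₐ[Kap S] Kap S)
      (MvPolynomial.map (Tba_psi h) g) = 0 ↔ _
  rw [h1]

private theorem Tba_idl_gr {P S : LocalSubring F} (h : P.toSubring ≤ S.toSubring)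
    (τ : Fin 3 → Kap S) (g : Pol 2 P.toSubring) :
    g ∈ idl P (gr S τ) ↔ Tba_Ev h τ g = 0 := by
  rw [← Tba_mem_gr h τ g]
  unfold idl
  have h' : P.toSubring ≤ (gr S τ).1.toSubring := h
  rw [dif_pos h']
  rfl

private theorem Tba_idl_self {P : LocalSubring F} {m : ℕ} (p : Ideal (Pol m (Kap P)))
    (g : Pol m P.toSubring) :
    g ∈ idl P (⟨P, p⟩ : Sub F m) ↔ MvPolynomial.map (residue P.toSubring) g ∈ p := by
  unfold idl
  have h' : P.toSubring ≤ (⟨P, p⟩ : Sub F m).1.toSubring := le_rfl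
  rw [dif_pos h']
  rfl

/-- The ring `B' = P[τ]`. -/
private noncomputable def Tba_B {P S : LocalSubring F} (h : P.toSubring ≤ S.toSubring)
    (τ : Fin 3 → Kap S) : Subring (Kap S) := (Tba_Ev h τ).range

private noncomputable def Tba_f {P S : LocalSubring F} (h : P.toSubring ≤ S.toSubring)
    (τ : Fin 3 → Kap S) : Pol 2 P.toSubring →+* Tba_B h τ := (Tba_Ev h τ).rangeRestrict

private theorem Tba_f_surj {P S : LocalSubring F} (h : P.toSubring ≤ S.toSubring)
    (τ : Fin 3 → Kap S) : Function.Surjective (Tba_f h τ) :=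
  (Tba_Ev h τ).rangeRestrict_surjective

private theorem Tba_f_coe {P S : LocalSubring F} (h : P.toSubring ≤ S.toSubring)
    (τ : Fin 3 → Kap S) (g : Pol 2 P.toSubring) : (Tba_f h τ g : Kap S) = Tba_Ev h τ g := rfl

private theorem Tba_f_ker {P S : LocalSubring F} (h : P.toSubring ≤ S.toSubring)
    (τ : Fin 3 → Kap S) (g : Pol 2 P.toSubring) :
    Tba_f h τ g = 0 ↔ g ∈ idl P (gr S τ) := by
  rw [Tba_idl_gr h, ← Tba_f_coe]
  exact ⟨fun h1 => by rw [h1]; rfl, fun h1 => Subtype.ext h1⟩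

/-- The prime ideal `m'` of `B'`. -/
private noncomputable def Tba_m {P S : LocalSubring F} (h : P.toSubring ≤ S.toSubring)
    (τ : Fin 3 → Kap S) (p : Ideal (Pol 2 (Kap P))) : Ideal (Tba_B h τ) :=
  (idl P (⟨P, p⟩ : Sub F 2)).map (Tba_f h τ)

private theorem Tba_f_mem {P S : LocalSubring F} (h : P.toSubring ≤ S.toSubring)
    (τ : Fin 3 → Kap S) (p : Ideal (Pol 2 (Kap P)))
    (hle : idl P (gr S τ) ≤ idl P (⟨P, p⟩ : Sub F 2)) (g : Pol 2 P.toSubring) :
    Tba_f h τ g ∈ Tba_m h τ p ↔ g ∈ idl P (⟨P, p⟩ : Sub F 2) := by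
  unfold Tba_m
  rw [Ideal.mem_map_iff_of_surjective _ (Tba_f_surj h τ)]
  constructor
  · rintro ⟨g', hg', he⟩
    have h1 : Tba_f h τ (g - g') = 0 := by rw [map_sub, he, sub_self]
    have h2 := hle ((Tba_f_ker h τ _).1 h1)
    have h3 := add_mem h2 hg'
    rwa [sub_add_cancel] at h3
  · intro hg
    exact ⟨g, hg, rfl⟩

private theorem Tba_m_prime {P S : LocalSubring F} (h : P.toSubring ≤ S.toSubring)
    (τ : Fin 3 → Kap S) (p : Ideal (Pol 2 (Kap P))) (hp : p.IsPrime)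
    (hle : idl P (gr S τ) ≤ idl P (⟨P, p⟩ : Sub F 2)) : (Tba_m h τ p).IsPrime := by
  have hprime : (idl P (⟨P, p⟩ : Sub F 2)).IsPrime := idl_prime (V := (⟨P, p⟩ : Sub F 2)) hp
  refine Ideal.map_isPrime_of_surjective (Tba_f_surj h τ) fun g hg => ?_
  exact hle ((Tba_f_ker h τ g).1 hg)

private theorem Tba_comap {P S : LocalSubring F} (h : P.toSubring ≤ S.toSubring)
    (τ : Fin 3 → Kap S) (p : Ideal (Pol 2 (Kap P)))
    (hle : idl P (gr S τ) ≤ idl P (⟨P, p⟩ : Sub F 2)) :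
    (Tba_m h τ p).comap (Tba_f h τ) = idl P (⟨P, p⟩ : Sub F 2) := by
  ext g
  rw [Ideal.mem_comap, Tba_f_mem h τ p hle]

private theorem Tba_mult {P S : LocalSubring F} (h : P.toSubring ≤ S.toSubring)
    (τ : Fin 3 → Kap S) (p : Ideal (Pol 2 (Kap P))) (hp : p.IsPrime)
    (hle : idl P (gr S τ) ≤ idl P (⟨P, p⟩ : Sub F 2)) (i : Fin 3) :
    mult (gr S τ) (⟨P, p⟩ : Sub F 2) i =
      lgth (Tba_m h τ p) (Ideal.span {Tba_f h τ (MvPolynomial.X i)}) := by
  have hm := Tba_m_prime h τ p hp hle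
  rw [← lgth_comap (Tba_f h τ) (Tba_f_surj h τ), Tba_comap h τ p hle]
  unfold mult
  congr 1
  ext g
  rw [Ideal.mem_comap, Ideal.mem_span_singleton, Submodule.mem_sup]
  constructor
  · rintro ⟨a, ha, b, hb, rfl⟩
    obtain ⟨c, rfl⟩ := Ideal.mem_span_singleton.1 hb
    rw [map_add, (Tba_f_ker h τ a).2 ha, zero_add, map_mul]
    exact dvd_mul_right _ _
  · rintro ⟨c, hc⟩
    obtain ⟨c, rfl⟩ := Tba_f_surj h τ c
    refine ⟨g - MvPolynomial.X i * c, ?_, MvPolynomial.X i * c, ?_, by ring⟩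
    · refine (Tba_f_ker h τ _).1 ?_
      rw [map_sub, map_mul, hc, sub_self]
    · exact Ideal.mul_mem_right _ _ (Ideal.mem_span_singleton_self _)

/-- The statement, for the local ring `L`. -/
private structure Tba_St {P S : LocalSubring F} (τ : Fin 3 → Kap S) (p : Ideal (Pol 2 (Kap P)))
    (L : LocalSubring (Kap S)) : Prop where
  loc : ∀ y ∈ locSub P S, y ∈ L.toSubring
  tau : ∀ j, τ j ∈ L.toSubring
  mul : ∀ i, ∀ ht : τ i ∈ L.toSubring, mult (gr S τ) (⟨P, p⟩ : Sub F 2) i =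
    Module.length L.toSubring (L.toSubring ⧸ Ideal.span {(⟨τ i, ht⟩ : L.toSubring)})
  rho : ∃ ρ : Pol 2 (Kap P) →+* ResidueField L.toSubring,
    Function.Surjective ρ ∧ RingHom.ker ρ = p ∧
    (∀ j, ∀ ht : τ j ∈ L.toSubring, ρ (MvPolynomial.X j) = residue _ ⟨τ j, ht⟩) ∧
    ∀ (y : F) (hyP : y ∈ P.toSubring) (hyS : y ∈ S.toSubring)
      (hy : residue S.toSubring ⟨y, hyS⟩ ∈ L.toSubring),
      ρ (MvPolynomial.C (residue _ ⟨y, hyP⟩)) = residue _ ⟨residue S.toSubring ⟨y, hyS⟩, hy⟩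

private theorem Tba_st {P S : LocalSubring F} (h : P.toSubring ≤ S.toSubring)
    (τ : Fin 3 → Kap S) (p : Ideal (Pol 2 (Kap P))) (hp : p.IsMaximal)
    (hle : idl P (gr S τ) ≤ idl P (⟨P, p⟩ : Sub F 2)) [hm : (Tba_m h τ p).IsPrime] :
    Tba_St τ p (LocalSubring.ofPrime (Tba_B h τ) (Tba_m h τ p)) := by
  have hBL : Tba_B h τ ≤ (LocalSubring.ofPrime (Tba_B h τ) (Tba_m h τ p)).toSubring :=
    LocalSubring.le_ofPrime _ _
  have hC : ∀ (y : F) (hyP : y ∈ P.toSubring) (hyS : y ∈ S.toSubring),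
      residue S.toSubring ⟨y, hyS⟩ = (Tba_f h τ (MvPolynomial.C ⟨y, hyP⟩) : Kap S) := by
    intro y hyP hyS
    rw [Tba_f_coe, Tba_Ev_C]
    rfl
  have hX : ∀ j, τ j = (Tba_f h τ (MvPolynomial.X j) : Kap S) := by
    intro j
    rw [Tba_f_coe, Tba_Ev_X]
  refine ⟨?_, ?_, ?_, ?_⟩
  · rintro _ ⟨⟨y, hyS⟩, hyP, rfl⟩
    have h1 := hC y hyP hyS
    have h2 : residue S.toSubring ⟨y, hyS⟩ ∈
        (LocalSubring.ofPrime (Tba_B h τ) (Tba_m h τ p)).toSubring := by
      rw [h1]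
      exact hBL (Tba_f h τ (MvPolynomial.C ⟨y, hyP⟩)).2
    exact h2
  · intro j
    rw [hX j]
    exact hBL (Tba_f h τ (MvPolynomial.X j)).2
  · intro i ht
    rw [Tba_mult h τ p hp.isPrime hle i, lgth_ofPrime]
    have h1 : (⟨(Tba_f h τ (MvPolynomial.X i) : Kap S),
        LocalSubring.le_ofPrime _ _ (Tba_f h τ (MvPolynomial.X i)).2⟩ :
        (LocalSubring.ofPrime (Tba_B h τ) (Tba_m h τ p)).toSubring) = ⟨τ i, ht⟩ :=
      Subtype.ext (hX i).symm
    rw [h1]
  · let Θ : Pol 2 P.toSubring →+*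
        ResidueField (LocalSubring.ofPrime (Tba_B h τ) (Tba_m h τ p)).toSubring :=
      (residue _).comp ((Subring.inclusion hBL).comp (Tba_f h τ))
    have hΘ : ∀ g, Θ g = residue _ (⟨(Tba_f h τ g : Kap S), hBL (Tba_f h τ g).2⟩ :
        (LocalSubring.ofPrime (Tba_B h τ) (Tba_m h τ p)).toSubring) := fun g => rfl
    have hΘ0 : ∀ g, Θ g = 0 ↔ MvPolynomial.map (residue P.toSubring) g ∈ p := by
      intro g
      rw [← Tba_idl_self, ← Tba_f_mem h τ p hle g, hΘ, residue_eq_zero_iff, mem_maximalIdeal,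
        mem_nonunits_iff, XP_unit, not_not]
    let r : Pol 2 P.toSubring →+* Pol 2 (Kap P) := MvPolynomial.map (residue P.toSubring)
    have hr : Function.Surjective r := MvPolynomial.map_surjective _ residue_surjective
    let ρ : Pol 2 (Kap P) →+*
        ResidueField (LocalSubring.ofPrime (Tba_B h τ) (Tba_m h τ p)).toSubring :=
      RingHom.liftOfSurjective r hr ⟨Θ, fun g hg => by
        rw [RingHom.mem_ker] at hg ⊢
        rw [hΘ0]
        change r g ∈ p
        rw [hg]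
        exact zero_mem _⟩
    have hρ : ∀ g, ρ (r g) = Θ g := fun g => RingHom.liftOfRightInverse_comp_apply _ _ _ _ g
    have hρ0 : ∀ g, ρ g = 0 ↔ g ∈ p := by
      intro g
      obtain ⟨g, rfl⟩ := hr g
      rw [hρ, hΘ0]
    have hρB : ∀ b : Tba_B h τ, ∃ g, ρ g = residue _ (⟨(b : Kap S), hBL b.2⟩ :
        (LocalSubring.ofPrime (Tba_B h τ) (Tba_m h τ p)).toSubring) := by
      intro b
      obtain ⟨g, rfl⟩ := Tba_f_surj h τ b
      exact ⟨r g, (hρ g).trans (hΘ g)⟩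
    refine ⟨ρ, ?_, ?_, ?_, ?_⟩
    · intro c
      obtain ⟨⟨y, hy⟩, rfl⟩ := residue_surjective c
      obtain ⟨b, t, ht, rfl⟩ := XP_mem _ _ hy
      obtain ⟨g, hg⟩ := hρB b
      obtain ⟨g', hg'⟩ := hρB t
      have hut := (XP_unit (Tba_B h τ) (Tba_m h τ p) t).2 ht
      have ht0 : ρ g' ≠ 0 := by
        rw [hg']
        exact (residue_ne_zero_iff_isUnit _).2 hut
      have hg'p : g' ∉ p := fun h1 => ht0 ((hρ0 g').2 h1)
      obtain ⟨w, hw⟩ : ∃ w, g' * w - 1 ∈ p := by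
        obtain ⟨w, a, ha, h1⟩ := hp.exists_inv hg'p
        refine ⟨w, ?_⟩
        have h2 : g' * w - 1 = -a := by linear_combination h1
        rw [h2]
        exact neg_mem ha
      have h1 : ρ g' * ρ w = 1 := by
        have h2 := (hρ0 _).2 hw
        rw [map_sub, map_mul, map_one, sub_eq_zero] at h2
        exact h2
      refine ⟨g * w, ?_⟩
      rw [map_mul]
      have h3 : residue (LocalSubring.ofPrime (Tba_B h τ) (Tba_m h τ p)).toSubring
          ⟨(b : Kap S) / (t : Kap S), hy⟩ * ρ g' = ρ g := by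
        rw [hg, hg', ← map_mul]
        congr 1
        apply Subtype.ext
        change (b : Kap S) / (t : Kap S) * (t : Kap S) = b
        have ht' : (t : Kap S) ≠ 0 := by
          intro h0
          apply ht
          have h4 : t = 0 := Subtype.ext h0
          rw [h4]
          exact zero_mem _
        rw [div_mul_cancel₀ _ ht']
      rw [← h3, mul_assoc, h1, mul_one]
    · ext g
      rw [RingHom.mem_ker, hρ0]
    · intro j ht
      have h1 : r (MvPolynomial.X j) = MvPolynomial.X j := MvPolynomial.map_X _ _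
      rw [← h1, hρ, hΘ]
      congr 1
      exact Subtype.ext (hX j).symm
    · intro y hyP hyS hy
      have h1 : r (MvPolynomial.C ⟨y, hyP⟩) =
          MvPolynomial.C (residue P.toSubring ⟨y, hyP⟩) := MvPolynomial.map_C _ _
      rw [← h1, hρ, hΘ]
      congr 1
      exact Subtype.ext (hC y hyP hyS).symm

/-- Localisations of two rings. -/
private theorem Tba_loc {K : Type} [Field K] {A B : Subring K} (hAB : A ≤ B) (m : Ideal B)
    [m.IsPrime] [(m.comap (Subring.inclusion hAB)).IsPrime]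
    (hB : ∀ b ∈ B, b ∈ (LocalSubring.ofPrime A (m.comap (Subring.inclusion hAB))).toSubring) :
    LocalSubring.ofPrime B m = LocalSubring.ofPrime A (m.comap (Subring.inclusion hAB)) := by
  apply LocalSubring.toSubring_injective
  apply le_antisymm
  · intro y hy
    obtain ⟨b, t, ht, rfl⟩ := XP_mem _ _ hy
    obtain ⟨a₁, s₁, hs₁, e₁⟩ := XP_mem _ _ (hB b b.2)
    obtain ⟨a₂, s₂, hs₂, e₂⟩ := XP_mem _ _ (hB t t.2)
    have n₂ : (s₂ : K) ≠ 0 := by
      intro h0
      apply hs₂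
      have h4 : s₂ = 0 := Subtype.ext h0
      rw [h4]
      exact zero_mem _
    have ha₂ : a₂ ∉ m.comap (Subring.inclusion hAB) := by
      intro h1
      have h2 : Subring.inclusion hAB a₂ = Subring.inclusion hAB s₂ * t := by
        apply Subtype.ext
        change (a₂ : K) = s₂ * t
        rw [e₂, mul_div_cancel₀ _ n₂]
      rw [Ideal.mem_comap, h2] at h1
      rcases (inferInstance : m.IsPrime).mem_or_mem h1 with h3 | h3
      · exact hs₂ h3
      · exact ht h3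
    rw [e₁, e₂, div_div_div_eq]
    have h4 : s₁ * a₂ ∉ m.comap (Subring.inclusion hAB) := fun h5 =>
      ((inferInstance : (m.comap (Subring.inclusion hAB)).IsPrime).mem_or_mem h5).elim hs₁ ha₂
    exact Ch_div_mem _ (a := a₁ * s₂) (b := s₁ * a₂) h4
  · intro y hy
    obtain ⟨a, s, hs, rfl⟩ := XP_mem _ _ hy
    exact Ch_div_mem m (a := Subring.inclusion hAB a) (b := Subring.inclusion hAB s) hs

end TbaAux

/-- The local ring `B` of `gr S τ` at a point `(P, p)` of dimension one, as a subring of `κ(S)`.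

PROOF. `K = κ(S)`, `R = locSub P S`, `B' = R[τ_0, τ_1, τ_2]`, the image of `f : R[t] → K`, `t_j ↦ τ_j`. The kernel of `f` is
`(gr S τ).2.comap (map R.subtype)`. `idl P (gr S τ) ≤ idl P ⟨P, p⟩` says that `ker f ≤ p' := p.comap (map (resLoc h))` (see the
proof of `mult_loc`), so `p' = f⁻¹(m')` for the prime ideal `m' = f(p')` of `B'`. (1) By `mult_loc` and `lgth_comap` (for
`f : R[t] → B'`; `ker f ⊔ (t_i) = f⁻¹(τ_i B')`) the multiplicity is `lgth m' (τ_i)`, and by `lgth_ofPrime` the length of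
`B / τ_i B`, `B = LocalSubring.ofPrime B' m'`. (2) Let `i` be a chart of `P`, `A₀` the image of `cht k x i` in `K`
(`XP_alg` makes `K` a `k`-algebra), `A = A₀[τ]`, finitely generated, with the fraction field `K` (`XP_frac`), `p_A = m' ∩ A`; `R` is
the localization of `A₀` at the prime of `P`, so `LocalSubring.ofPrime A p_A = B`. (3) `A` has dimension `2` (the transcendence
degree of `K`, `XP_dim_ker`, `XP_exists`, `XP_chart_dim`), and `A / p_A` has dimension `1` (its fraction field is that of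
`κ(P)[t] / p`, algebraic over `κ(P)`), so `p_A ≠ ⊥` and no prime is strictly between `⊥` and `p_A` (`XP_dim_lt`). (4) The residue
field of `B` is `κ(P)[t] / p`, by the homomorphism `ρ` with `ρ (class of t_j) = class of τ_j`, `ρ (residue P y) = ` class of
`residue S y`. -/
theorem gr_loc' (hne : ∀ i, x i ≠ 0) {P S : LocalSubring F} (hP : P ∈ Pts k x 1)
    (hS : S ∈ Pts k x 2) (τ : Fin 3 → Kap S) (p : Ideal (Pol 2 (Kap P))) (hp : p.IsMaximal)
    (hle : idl P (gr S τ) ≤ idl P (⟨P, p⟩ : Sub F 2)) (h : P.toSubring ≤ S.toSubring) :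
    ∃ (_ : Algebra k (Kap S)) (A : Subalgebra k (Kap S)) (pA : Ideal A.toSubring)
      (_ : pA.IsPrime), A.FG ∧ IsFractionRing A (Kap S) ∧ pA ≠ ⊥ ∧
      (∀ q : Ideal A.toSubring, q.IsPrime → q < pA → q = ⊥) ∧
      (∀ y ∈ locSub P S, y ∈ (LocalSubring.ofPrime A.toSubring pA).toSubring) ∧
      (∀ j, τ j ∈ (LocalSubring.ofPrime A.toSubring pA).toSubring) ∧
      (∀ i, ∀ ht : τ i ∈ (LocalSubring.ofPrime A.toSubring pA).toSubring,
        mult (gr S τ) (⟨P, p⟩ : Sub F 2) i =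
          Module.length (LocalSubring.ofPrime A.toSubring pA).toSubring
            ((LocalSubring.ofPrime A.toSubring pA).toSubring ⧸ Ideal.span
              {(⟨τ i, ht⟩ : (LocalSubring.ofPrime A.toSubring pA).toSubring)})) ∧
      (∀ y ∈ (LocalSubring.ofPrime A.toSubring pA).toSubring, ∃ g g' : Pol 2 P.toSubring,
        MvPolynomial.map (residue P.toSubring) g' ∉ p ∧
        y = MvPolynomial.eval₂ ((residue S.toSubring).comp (Subring.inclusion h)) τ g /
          MvPolynomial.eval₂ ((residue S.toSubring).comp (Subring.inclusion h)) τ g') ∧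
      ∃ ρ : Pol 2 (Kap P) →+* ResidueField (LocalSubring.ofPrime A.toSubring pA).toSubring,
        Function.Surjective ρ ∧ RingHom.ker ρ = p ∧
        (∀ j, ∀ ht : τ j ∈ (LocalSubring.ofPrime A.toSubring pA).toSubring,
          ρ (MvPolynomial.X j) = residue _ ⟨τ j, ht⟩) ∧
        ∀ (y : F) (hyP : y ∈ P.toSubring) (hyS : y ∈ S.toSubring)
          (hy : residue S.toSubring ⟨y, hyS⟩ ∈
            (LocalSubring.ofPrime A.toSubring pA).toSubring),
          ρ (MvPolynomial.C (residue _ ⟨y, hyP⟩)) = residue _ ⟨residue S.toSubring ⟨y, hyS⟩, hy⟩ := by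
  obtain ⟨i, hi⟩ := exists_chart hP
  have hiS : (cht k x i).toSubring ≤ S.toSubring := hi.trans h
  have hm := Tba_m_prime h τ p hp.isPrime hle
  let inst : Algebra k (Kap S) := XP_alg (XP_const hiS)
  -- the chart of the graph
  let φ : MvPolynomial (Fin 3) (cht k x i) →ₐ[k] Kap S :=
    { toRingHom := Tba_Ev hiS τ
      commutes' := fun c => Tba_Ev_C hiS τ _ }
  have hφ : ∀ g, φ g = Tba_Ev hiS τ g := fun g => rfl
  have hFT : Algebra.FiniteType k (cht k x i) := (Subalgebra.fg_iff_finiteType _).1 (XP_fg i)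
  have hFT' : Algebra.FiniteType k (MvPolynomial (Fin 3) (cht k x i)) :=
    Algebra.FiniteType.trans hFT inferInstance
  have hAB : φ.range.toSubring ≤ Tba_B h τ := by
    rintro _ ⟨g, rfl⟩
    exact ⟨MvPolynomial.map (Subring.inclusion hi) g, Tba_Ev_map hi h τ g⟩
  have hpA : ((Tba_m h τ p).comap (Subring.inclusion hAB)).IsPrime := Ideal.comap_isPrime _ _
  let Φ : Pol 2 (cht k x i).toSubring →+* φ.range.toSubring := φ.toRingHom.rangeRestrict
  have hΦ : ∀ g, (Φ g : Kap S) = Tba_Ev hiS τ g := fun g => rfl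
  have hΦs : Function.Surjective Φ := φ.toRingHom.rangeRestrict_surjective
  have hΦ0 : ∀ g, Φ g = 0 ↔ g ∈ nidl (gr S τ) hiS := by
    intro g
    have h1 : g ∈ nidl (gr S τ) hiS ↔ Tba_Ev hiS τ g = 0 := Tba_mem_gr hiS τ g
    rw [h1, ← hΦ]
    exact ⟨fun h2 => by rw [h2]; rfl, fun h2 => Subtype.ext h2⟩
  have hΦp : ∀ g, Φ g ∈ (Tba_m h τ p).comap (Subring.inclusion hAB) ↔
      g ∈ nidl (⟨P, p⟩ : Sub F 2) hi := by
    intro g
    have h1 : Subring.inclusion hAB (Φ g) =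
        Tba_f h τ (MvPolynomial.map (Subring.inclusion hi) g) := by
      apply Subtype.ext
      rw [Tba_f_coe, Tba_Ev_map hi h τ g]
      rfl
    rw [Ideal.mem_comap, h1, Tba_f_mem h τ p hle, Tba_idl_self, MvPolynomial.map_map]
    rfl
  -- dimensions
  have hd2 : ringKrullDim (Pol 2 (cht k x i).toSubring ⧸ nidl (gr S τ) hiS) =
      ((2 + 0 : ℕ) : WithBot ℕ∞) := by
    refine Tba_dim hne (U := gr S τ) (r := 0) hS (RingHom.ker_isPrime _) ?_ hiS
    have h1 : Function.Surjective (MvPolynomial.aeval τ : Pol 2 (Kap S) →ₐ[Kap S] Kap S) :=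
      fun c => ⟨MvPolynomial.C c, MvPolynomial.aeval_C _ _⟩
    have h2 : ringKrullDim (Pol 2 (Kap S) ⧸
        RingHom.ker (MvPolynomial.aeval τ : Pol 2 (Kap S) →ₐ[Kap S] Kap S)) =
        ringKrullDim (Kap S) :=
      ringKrullDim_eq_of_ringEquiv (RingHom.quotientKerEquivOfSurjective
        (f := (MvPolynomial.aeval τ : Pol 2 (Kap S) →ₐ[Kap S] Kap S).toRingHom) h1)
    exact h2.trans (ringKrullDim_eq_zero_of_field (Kap S))
  have hd1 : ringKrullDim (Pol 2 (cht k x i).toSubring ⧸ nidl (⟨P, p⟩ : Sub F 2) hi) =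
      ((1 + 0 : ℕ) : WithBot ℕ∞) := by
    refine Tba_dim hne (U := (⟨P, p⟩ : Sub F 2)) (r := 0) hP hp.isPrime ?_ hi
    have hf : IsField (Pol 2 (Kap P) ⧸ p) := (Ideal.Quotient.maximal_ideal_iff_isField_quotient p).1 hp
    exact ringKrullDim_eq_zero_of_isField hf
  refine ⟨inst, φ.range, (Tba_m h τ p).comap (Subring.inclusion hAB), hpA, ?_, ?_, ?_, ?_, ?_⟩
  · rw [← Algebra.map_top]
    exact hFT'.out.map φ
  · refine IsFractionRing.of_field _ _ fun z => ?_
    obtain ⟨a, b, hb, hab⟩ := Tba_frac hne hS hiS z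
    refine ⟨⟨φ (MvPolynomial.C a), ⟨_, rfl⟩⟩, ⟨φ (MvPolynomial.C b), ⟨_, rfl⟩⟩, ?_⟩
    change z = Tba_Ev hiS τ (MvPolynomial.C a) / Tba_Ev hiS τ (MvPolynomial.C b)
    rw [Tba_Ev_C, Tba_Ev_C, ← hab, mul_div_cancel_left₀ _ hb]
  · intro hbot
    have h1 : nidl (⟨P, p⟩ : Sub F 2) hi = nidl (gr S τ) hiS := by
      ext g
      rw [← hΦp, ← hΦ0, hbot, Ideal.mem_bot]
    rw [h1, hd2] at hd1
    exact absurd hd1 (by decide)
  · intro q hq hlt
    by_contra hq0
    have hqc : (q.comap Φ).IsPrime := Ideal.comap_isPrime _ _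
    have hgr : (gr S τ).2.IsPrime := RingHom.ker_isPrime _
    have hN : (nidl (gr S τ) hiS).IsPrime := Ideal.comap_isPrime _ _
    have h1 : nidl (gr S τ) hiS < q.comap Φ := by
      refine lt_of_le_of_ne (fun g hg => ?_) fun he => hq0 ?_
      · rw [Ideal.mem_comap, (hΦ0 g).2 hg]
        exact zero_mem _
      · rw [eq_bot_iff]
        intro a ha
        obtain ⟨g, rfl⟩ := hΦs a
        have h2 : g ∈ q.comap Φ := ha
        rw [← he, ← hΦ0] at h2
        rw [h2]
        exact zero_mem _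
    have h2 : q.comap Φ < nidl (⟨P, p⟩ : Sub F 2) hi := by
      refine lt_of_le_of_ne (fun g hg => ?_) fun he => hlt.ne ?_
      · rw [← hΦp]
        exact hlt.le hg
      · ext a
        obtain ⟨g, rfl⟩ := hΦs a
        rw [hΦp, ← he]
        rfl
    have h3 := XP_dim_lt h1
    have h4 := XP_dim_lt h2
    rw [hd2] at h3
    rw [hd1] at h4
    have h5 : ((1 + 0 : ℕ) : WithBot ℕ∞) + 1 + 1 ≤ ((2 + 0 : ℕ) : WithBot ℕ∞) :=
      (add_le_add_left h4 1).trans h3
    exact absurd h5 (by decide)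
  · have hloc : ∀ b ∈ Tba_B h τ, b ∈ (LocalSubring.ofPrime φ.range.toSubring
        ((Tba_m h τ p).comap (Subring.inclusion hAB))).toSubring := by
      rintro _ ⟨g, rfl⟩
      induction g using MvPolynomial.induction_on with
      | C y =>
        rw [Tba_Ev_C]
        obtain ⟨y, hy⟩ := y
        obtain ⟨a, b, ha, hb, hu, rfl⟩ := XP_frac hne hP hi hy
        have hbp : Φ (MvPolynomial.C ⟨b, hb⟩) ∉
            (Tba_m h τ p).comap (Subring.inclusion hAB) := by
          rw [hΦp]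
          intro h1
          have h2 : MvPolynomial.C (Tba_psi hi ⟨b, hb⟩) ∈ p := by
            have h3 : MvPolynomial.map (Tba_psi hi) (MvPolynomial.C ⟨b, hb⟩) ∈ p := h1
            rwa [MvPolynomial.map_C] at h3
          have h4 : Tba_psi hi ⟨b, hb⟩ ≠ 0 := (Tba_unit hi ⟨b, hb⟩).2 hu
          exact hp.ne_top (Ideal.eq_top_of_isUnit_mem _ h2
            ((Ne.isUnit h4).map MvPolynomial.C))
        have h5 := Ch_div_mem _ (a := Φ (MvPolynomial.C ⟨a, ha⟩)) hbp
        have huS : IsUnit (⟨b, h (hi hb)⟩ : S.toSubring) := hu.map (Subring.inclusion h)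
        have h6 : Tba_psi h ⟨a / b, hy⟩ = (Φ (MvPolynomial.C ⟨a, ha⟩) : Kap S) /
            (Φ (MvPolynomial.C ⟨b, hb⟩) : Kap S) := by
          rw [hΦ, hΦ, Tba_Ev_C, Tba_Ev_C]
          exact XP_residue_div (h (hi ha)) (h (hi hb)) huS (h hy)
        rw [h6]
        exact h5
      | add g g' hg hg' =>
        rw [map_add]
        exact add_mem hg hg'
      | mul_X g j hg =>
        rw [map_mul, Tba_Ev_X]
        refine mul_mem hg (LocalSubring.le_ofPrime _ _ ?_)
        exact ⟨MvPolynomial.X j, Tba_Ev_X hiS τ j⟩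
    have hgen : ∀ y ∈ (LocalSubring.ofPrime φ.range.toSubring
        ((Tba_m h τ p).comap (Subring.inclusion hAB))).toSubring, ∃ g g' : Pol 2 P.toSubring,
        MvPolynomial.map (residue P.toSubring) g' ∉ p ∧
        y = MvPolynomial.eval₂ ((residue S.toSubring).comp (Subring.inclusion h)) τ g /
          MvPolynomial.eval₂ ((residue S.toSubring).comp (Subring.inclusion h)) τ g' := by
      intro y hy
      obtain ⟨a, s, hs, rfl⟩ := XP_mem _ _ hy
      obtain ⟨g, rfl⟩ := hΦs a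
      obtain ⟨g', rfl⟩ := hΦs s
      refine ⟨MvPolynomial.map (Subring.inclusion hi) g, MvPolynomial.map (Subring.inclusion hi) g',
        ?_, ?_⟩
      · rw [hΦp] at hs
        rw [MvPolynomial.map_map]
        exact hs
      · have h1 := Tba_Ev_map hi h τ g
        have h2 := Tba_Ev_map hi h τ g'
        rw [hΦ, hΦ, ← h1, ← h2]
        rfl
    have hst := Tba_st h τ p hp hle
    rw [Tba_loc hAB (Tba_m h τ p) hloc] at hst
    exact ⟨hst.loc, hst.tau, hst.mul, hgen, hst.rho⟩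

/-- The same without the generation. -/
theorem gr_loc (hne : ∀ i, x i ≠ 0) {P S : LocalSubring F} (hP : P ∈ Pts k x 1)
    (hS : S ∈ Pts k x 2) (τ : Fin 3 → Kap S) (p : Ideal (Pol 2 (Kap P))) (hp : p.IsMaximal)
    (hle : idl P (gr S τ) ≤ idl P (⟨P, p⟩ : Sub F 2)) (h : P.toSubring ≤ S.toSubring) :
    ∃ (_ : Algebra k (Kap S)) (A : Subalgebra k (Kap S)) (pA : Ideal A.toSubring)
      (_ : pA.IsPrime), A.FG ∧ IsFractionRing A (Kap S) ∧ pA ≠ ⊥ ∧
      (∀ q : Ideal A.toSubring, q.IsPrime → q < pA → q = ⊥) ∧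
      (∀ y ∈ locSub P S, y ∈ (LocalSubring.ofPrime A.toSubring pA).toSubring) ∧
      (∀ j, τ j ∈ (LocalSubring.ofPrime A.toSubring pA).toSubring) ∧
      (∀ i, ∀ ht : τ i ∈ (LocalSubring.ofPrime A.toSubring pA).toSubring,
        mult (gr S τ) (⟨P, p⟩ : Sub F 2) i =
          Module.length (LocalSubring.ofPrime A.toSubring pA).toSubring
            ((LocalSubring.ofPrime A.toSubring pA).toSubring ⧸ Ideal.span
              {(⟨τ i, ht⟩ : (LocalSubring.ofPrime A.toSubring pA).toSubring)})) ∧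
      ∃ ρ : Pol 2 (Kap P) →+* ResidueField (LocalSubring.ofPrime A.toSubring pA).toSubring,
        Function.Surjective ρ ∧ RingHom.ker ρ = p ∧
        (∀ j, ∀ ht : τ j ∈ (LocalSubring.ofPrime A.toSubring pA).toSubring,
          ρ (MvPolynomial.X j) = residue _ ⟨τ j, ht⟩) ∧
        ∀ (y : F) (hyP : y ∈ P.toSubring) (hyS : y ∈ S.toSubring)
          (hy : residue S.toSubring ⟨y, hyS⟩ ∈
            (LocalSubring.ofPrime A.toSubring pA).toSubring),
          ρ (MvPolynomial.C (residue _ ⟨y, hyP⟩)) = residue _ ⟨residue S.toSubring ⟨y, hyS⟩, hy⟩ := by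
  obtain ⟨a1, a2, a3, a4, a5, a6, a7, a8, a9, a10, a11, -, a12⟩ := gr_loc' hne hP hS τ p hp hle h
  exact ⟨a1, a2, a3, a4, a5, a6, a7, a8, a9, a10, a11, a12⟩

end Pool.Agent.Lib.MP_b197b4_ntZ
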