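import Mathlib
import Pool.Agent.Lib.MP_b197b4_ntZ.Tba
import Pool.Agent.Lib.MP_b197b4_ntZ.LEN
import Pool.Agent.Lib.MP_b197b4_ntKE.LenB
import Pool.Agent.Lib.MP_b197b4_ntKE.LenL
import Pool.Agent.Lib.MP_b197b4_ntA.XNrm

/-!
# MP_b197b4_nt, project LIT, leaf Tb: the multiplicities of the graph of a symbol
-/

set_option autoImplicit false

namespace Pool.Agent.Lib.MP_b197b4_ntZ

open IsLocalRing Pool.Agent.Lib.MP_b197b4_ntK Pool.Agent.Lib.MP_b197b4_ntA

variable {k : Type} {F : Type} [Field k] [Field F] [Algebra k F] {n : ℕ} {x : Fin (n + 1) → F}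

section TbAux

private theorem Tb_dom {L : Type} [Field L] {B : LocalSubring L} {V : ValuationSubring L}
    (h : B ≤ V.toLocalSubring) {b : L} (hb : b ∈ B.toSubring) :
    b ∈ V ∧ (IsUnit (⟨b, hb⟩ : B.toSubring) ↔ V.valuation b = 1) := by
  obtain ⟨h2, h3⟩ := h
  refine ⟨h2 hb, fun hu => ?_, fun hu => ?_⟩
  · exact (ValuationSubring.valuation_eq_one_iff V ⟨b, h2 hb⟩).1 (hu.map (Subring.inclusion h2))
  · exact h3.map_nonunit ⟨b, hb⟩
      ((ValuationSubring.valuation_eq_one_iff V ⟨b, h2 hb⟩).2 hu)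

private theorem Tb_of_dom {L : Type} [Field L] {B : LocalSubring L} {V : ValuationSubring L}
    (h1 : ∀ b ∈ B.toSubring, b ∈ V)
    (h2 : ∀ b (hb : b ∈ B.toSubring), V.valuation b = 1 → IsUnit (⟨b, hb⟩ : B.toSubring)) :
    B ≤ V.toLocalSubring := by
  refine ⟨fun b hb => h1 b hb, ⟨fun b hb => ?_⟩⟩
  exact h2 b b.2 ((ValuationSubring.valuation_eq_one_iff V ⟨(b : L), h1 b b.2⟩).1 hb)

private noncomputable abbrev Tb_e {P S : LocalSubring F} (h : P.toSubring ≤ S.toSubring)
    (τ : Fin 3 → Kap S) (g : Pol 2 P.toSubring) : Kap S :=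
  MvPolynomial.eval₂ ((residue S.toSubring).comp (Subring.inclusion h)) τ g

private theorem Tb_res {P S : LocalSubring F} (h : P.toSubring ≤ S.toSubring)
    (τ : Fin 3 → Kap S) {V : ValuationSubring (Kap S)} (hc : Cen P S V) (hτ : ∀ j, τ j ∈ V)
    {φ : Kap P →+* ResidueField V} (hφ : NatK P S V φ) (g : Pol 2 P.toSubring) :
    Tb_e h τ g ∈ V ∧ res V (Tb_e h τ g) =
      MvPolynomial.eval₂ φ (fun j => res V (τ j)) (MvPolynomial.map (residue P.toSubring) g) := by
  induction g using MvPolynomial.induction_on with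
  | C a =>
    unfold Tb_e
    rw [MvPolynomial.eval₂_C, MvPolynomial.map_C, MvPolynomial.eval₂_C]
    exact ⟨(hc.2 a a.2 (h a.2)).1, (hφ a a.2 (h a.2)).symm⟩
  | add g g' hg hg' =>
    unfold Tb_e at hg hg' ⊢
    rw [MvPolynomial.eval₂_add, map_add, MvPolynomial.eval₂_add]
    exact ⟨add_mem hg.1 hg'.1, by rw [res_add hg.1 hg'.1, hg.2, hg'.2]⟩
  | mul_X g j hg =>
    unfold Tb_e at hg ⊢
    rw [MvPolynomial.eval₂_mul, MvPolynomial.eval₂_X, map_mul, MvPolynomial.map_X,
      MvPolynomial.eval₂_mul, MvPolynomial.eval₂_X]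
    exact ⟨mul_mem hg.1 (hτ j), by rw [res_mul hg.1 (hτ j), hg.2]⟩

private theorem Tb_rho {P S : LocalSubring F} (h : P.toSubring ≤ S.toSubring)
    (τ : Fin 3 → Kap S) {B : LocalSubring (Kap S)} (hloc : ∀ y ∈ locSub P S, y ∈ B.toSubring)
    (hτ : ∀ j, τ j ∈ B.toSubring) {ρ : Pol 2 (Kap P) →+* ResidueField B.toSubring}
    (hX : ∀ j, ∀ ht : τ j ∈ B.toSubring, ρ (MvPolynomial.X j) = residue _ ⟨τ j, ht⟩)
    (hC : ∀ (y : F) (hyP : y ∈ P.toSubring) (hyS : y ∈ S.toSubring)
      (hy : residue S.toSubring ⟨y, hyS⟩ ∈ B.toSubring),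
      ρ (MvPolynomial.C (residue _ ⟨y, hyP⟩)) = residue _ ⟨residue S.toSubring ⟨y, hyS⟩, hy⟩)
    (g : Pol 2 P.toSubring) :
    ∃ hm : Tb_e h τ g ∈ B.toSubring, residue _ (⟨Tb_e h τ g, hm⟩ : B.toSubring) =
      ρ (MvPolynomial.map (residue P.toSubring) g) := by
  have key : ∃ a : B.toSubring, (a : Kap S) = Tb_e h τ g ∧
      residue _ a = ρ (MvPolynomial.map (residue P.toSubring) g) := by
    induction g using MvPolynomial.induction_on with
    | C a =>
      have h1 : residue S.toSubring ⟨a, h a.2⟩ ∈ B.toSubring := hloc _ ⟨⟨a, h a.2⟩, a.2, rfl⟩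
      refine ⟨⟨_, h1⟩, ?_, ?_⟩
      · unfold Tb_e
        rw [MvPolynomial.eval₂_C]
        rfl
      · rw [MvPolynomial.map_C]
        exact (hC a a.2 (h a.2) h1).symm
    | add g g' hg hg' =>
      obtain ⟨a, ha, ha'⟩ := hg
      obtain ⟨b, hb, hb'⟩ := hg'
      refine ⟨a + b, ?_, ?_⟩
      · unfold Tb_e at ha hb ⊢
        rw [MvPolynomial.eval₂_add, ← ha, ← hb]
        rfl
      · rw [map_add, ha', hb', map_add, map_add]
    | mul_X g j hg =>
      obtain ⟨a, ha, ha'⟩ := hg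
      refine ⟨a * ⟨τ j, hτ j⟩, ?_, ?_⟩
      · unfold Tb_e at ha ⊢
        rw [MvPolynomial.eval₂_mul, MvPolynomial.eval₂_X, ← ha]
        rfl
      · rw [map_mul, ha', map_mul, map_mul, MvPolynomial.map_X, hX j (hτ j)]
  obtain ⟨⟨a, ha⟩, rfl, h2⟩ := key
  exact ⟨ha, h2⟩

/-- The norm through an intermediate field. -/
private theorem Tb_norm {κ κB κV K0 : Type} [Field κ] [Field κB] [Field κV] [CommRing K0]
    [Algebra κ K0] (φ : κ →+* κV) (ψ : κB →+* κV) (ρ : K0 →+* κB) (hρ : Function.Bijective ρ)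
    (hc : ∀ c : κ, ψ (ρ (algebraMap κ K0 c)) = φ c) (z : K0) :
    @Algebra.norm κ κV _ _ φ.toAlgebra (ψ (ρ z)) =
      (Algebra.norm κ z) ^ @Module.finrank κB κV _ _ ψ.toAlgebra.toModule := by
  let _ : Algebra κ κV := φ.toAlgebra
  let _ : Algebra κB κV := ψ.toAlgebra
  let _ : Algebra κ κB := (ρ.comp (algebraMap κ K0)).toAlgebra
  have _ : IsScalarTower κ κB κV := IsScalarTower.of_algebraMap_eq fun c => (hc c).symm
  let e : K0 ≃ₐ[κ] κB := AlgEquiv.ofBijective { ρ with commutes' := fun _ => rfl } hρ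
  have h1 : Algebra.norm κ (ρ z) = Algebra.norm κ z := Algebra.norm_eq_of_algEquiv e z
  have h2 : Algebra.norm κ (ψ (ρ z)) = Algebra.norm κ (Algebra.norm κB (ψ (ρ z))) :=
    (Algebra.norm_norm (S := κB)).symm
  have h3 : Algebra.norm κB (ψ (ρ z)) = ρ z ^ Module.finrank κB κV :=
    Algebra.norm_algebraMap (S := κV) (ρ z)
  change Algebra.norm κ (ψ (ρ z)) = Algebra.norm κ z ^ Module.finrank κB κV
  rw [h2, h3, map_pow, h1]

end TbAux

/-- **The multiplicities of the graph** in terms of valuations.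

PROOF. `gr_loc` and `len_sum` for `A`, `pA`; let `B` be the local ring. (1) `B ≤ V.toLocalSubring` (domination) iff `At P S τ p V`
(for a discrete valuation ring `V`): if `V` dominates `B` then it dominates `locSub P S` (an element of `P` which is not a unit
goes to the maximal ideal of `B`: its class under `ρ` is zero), which is `Cen P S V`; `τ_j ∈ V`; the residue field map
`κ(B) → κ(V)` composed with `ρ` is `g ↦ eval₂ φ (res V ∘ τ) g` for every natural `φ` (unique: every element of `κ(P)` is a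
`residue P y` with `y ∈ P ⊆ S`), injective on `κ(B)`, so its kernel is `p`. Conversely, if `At` holds then `A ⊆ V` (`A` is in
`B`, generated... : `B` is generated by `locSub P S` and the `τ_j` and inverses of elements not in the kernel), every element of
`B` is `f(g) / f(g')` with `g, g'` polynomials over `locSub P S`, `g'` not in the kernel of the reduction to `κ(P)[t]/p`, so
`f(g')` is a unit of `V`, and it is in the maximal ideal iff `g` reduces to `p`. (2) The degree formula: `nrm P S V` is the norm for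
`φ : κ(P) → κ(V)` (natural maps are unique); `κ(P)[t]/p = κ(B) → κ(V)` has degree `deg V`, and
`N_{κ(V)/κ(P)} (z) = N_{κ(B)/κ(P)} (z) ^ deg V` for `z ∈ κ(B)` (`Algebra.norm_algebraMap`, `Algebra.norm_norm`). (3) The length. (4) `T` is not empty if some
`X i ∈ p`, `τ i ≠ 0`: `τ i` is in the maximal ideal of `B`, so the length of `B / τ_i` is not zero, so the sum is not empty. -/
theorem gr_mult [PerfectField k] (hne : ∀ i, x i ≠ 0) {P S : LocalSubring F}
    (hP : P ∈ Pts k x 1) (hS : S ∈ Pts k x 2) (τ : Fin 3 → Kap S) (p : Ideal (Pol 2 (Kap P)))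
    (hp : p.IsMaximal) (hle : idl P (gr S τ) ≤ idl P (⟨P, p⟩ : Sub F 2)) :
    ∃ (T : Finset (ValuationSubring (Kap S))) (deg : ValuationSubring (Kap S) → ℕ),
      (∀ V, V ∈ T ↔ At P S τ p V) ∧
      (∀ V ∈ T, ∀ φ : Kap P →+* ResidueField V, NatK P S V φ → ∀ g : Pol 2 (Kap P),
        nrm P S V (MvPolynomial.eval₂ φ (fun j => res V (τ j)) g) =
          (Algebra.norm (Kap P) (Ideal.Quotient.mk p g)) ^ deg V) ∧
      (∀ i, τ i ≠ 0 → mult (gr S τ) (⟨P, p⟩ : Sub F 2) i =
        ((∑ V ∈ T, deg V * (ord V (τ i)).toNat : ℕ) : ℕ∞)) ∧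
      ∀ i, MvPolynomial.X i ∈ p → τ i ≠ 0 → T.Nonempty := by
  classical
  have h : P.toSubring ≤ S.toSubring :=
    le_of_idl (U := (⟨P, p⟩ : Sub F 2)) (V := gr S τ) hp.isPrime hle
  obtain ⟨inst, A, pA, hpA, hA, hfr, hbot, hh, hloc, hτ, hmul, hgen, ρ, hρs, hρk, hX, hC⟩ :=
    gr_loc' hne hP hS τ p hp hle h
  obtain ⟨T, deg, hT, hdeg, hlen⟩ := len_sum A hA hfr pA hbot hh
  generalize hB : LocalSubring.ofPrime A.toSubring pA = B at *
  have hρ0 : ∀ g, ρ g = 0 ↔ g ∈ p := fun g => by rw [← RingHom.mem_ker, hρk]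
  have hunit : ∀ b (hb : b ∈ B.toSubring), IsUnit (⟨b, hb⟩ : B.toSubring) ↔
      residue B.toSubring ⟨b, hb⟩ ≠ 0 := fun b hb => (residue_ne_zero_iff_isUnit _).symm
  -- the homomorphism of the residue fields for `V ∈ T`
  have hnat : ∀ V ∈ T, ∀ ψ : ResidueField B.toSubring →+* ResidueField V,
      (∀ b : B.toSubring, ψ (residue _ b) = res V (b : Kap S)) →
      ∀ φ : Kap P →+* ResidueField V, NatK P S V φ → ∀ g : Pol 2 (Kap P),
        MvPolynomial.eval₂ φ (fun j => res V (τ j)) g = ψ (ρ g) := by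
    intro V _ ψ hψ φ hφ g
    have h1 : MvPolynomial.eval₂Hom φ (fun j => res V (τ j)) = ψ.comp ρ := by
      refine MvPolynomial.ringHom_ext (fun c => ?_) fun j => ?_
      · obtain ⟨⟨y, hy⟩, rfl⟩ := residue_surjective c
        have h2 : residue S.toSubring ⟨y, h hy⟩ ∈ B.toSubring := hloc _ ⟨⟨y, h hy⟩, hy, rfl⟩
        rw [MvPolynomial.coe_eval₂Hom, MvPolynomial.eval₂_C, RingHom.comp_apply,
          hC y hy (h hy) h2, hψ, hφ y hy (h hy)]
      · rw [MvPolynomial.coe_eval₂Hom, MvPolynomial.eval₂_X, RingHom.comp_apply, hX j (hτ j), hψ]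
    exact congrArg (fun f => f g) h1
  have hTAt : ∀ V, V ∈ T ↔ At P S τ p V := by
    intro V
    constructor
    · intro hV
      obtain ⟨hd, hdom⟩ := (hT V).1 hV
      obtain ⟨ψ, hψ, -, -⟩ := hdeg V hV
      refine ⟨hd, ⟨h, fun y hyP hyS => ?_⟩, fun j => (Tb_dom hdom (hτ j)).1, ?_⟩
      · have h2 : residue S.toSubring ⟨y, hyS⟩ ∈ B.toSubring := hloc _ ⟨⟨y, hyS⟩, hyP, rfl⟩
        refine ⟨(Tb_dom hdom h2).1, ?_⟩
        rw [← (Tb_dom hdom h2).2, hunit, ← hC y hyP hyS h2, Ne, hρ0,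
          ← residue_ne_zero_iff_isUnit]
        constructor
        · intro h3 h4
          exact hp.ne_top (Ideal.eq_top_of_isUnit_mem _ h4 ((Ne.isUnit h3).map MvPolynomial.C))
        · intro h3 h4
          apply h3
          rw [h4, map_zero]
          exact zero_mem _
      · intro φ hφ g
        rw [hnat V hV ψ hψ φ hφ g, map_eq_zero_iff ψ ψ.injective, hρ0]
    · rintro ⟨hd, hc, hτV, hat⟩
      refine (hT V).2 ⟨hd, ?_⟩
      obtain ⟨φ, hφ⟩ := exists_kap P S V hc
      have hφ' : NatK P S V φ := hφ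
      have h1 : ∀ g : Pol 2 P.toSubring, MvPolynomial.map (residue P.toSubring) g ∉ p ↔
          V.valuation (Tb_e h τ g) = 1 := by
        intro g
        obtain ⟨h2, h3⟩ := Tb_res h τ hc hτV hφ' g
        rw [hat φ hφ', ← h3, ← Ne, res_ne_zero_iff h2]
      refine Tb_of_dom ?_ ?_
      · intro b hb
        obtain ⟨g, g', hg', rfl⟩ := hgen b hb
        have h2 := (h1 g').1 hg'
        have h3 := (Tb_res h τ hc hτV hφ' g).1
        rw [← ValuationSubring.valuation_le_one_iff, map_div₀]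
        change V.valuation (Tb_e h τ g) / V.valuation (Tb_e h τ g') ≤ 1
        rw [h2, div_one, ValuationSubring.valuation_le_one_iff]
        exact h3
      · intro b hb hval
        obtain ⟨g, g', hg', hbe⟩ := hgen b hb
        have h2 := (h1 g').1 hg'
        have h4 : V.valuation (Tb_e h τ g) = 1 := by
          rw [hbe, map_div₀] at hval
          change V.valuation (Tb_e h τ g) / V.valuation (Tb_e h τ g') = 1 at hval
          rwa [h2, div_one] at hval
        have h5 := (h1 g).2 h4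
        obtain ⟨hm, h6⟩ := Tb_rho h τ hloc hτ hX hC g
        obtain ⟨hm', h6'⟩ := Tb_rho h τ hloc hτ hX hC g'
        have h7 : IsUnit (⟨Tb_e h τ g, hm⟩ : B.toSubring) := by
          rw [hunit, h6, Ne, hρ0]
          exact h5
        have h8 : (⟨b, hb⟩ : B.toSubring) * ⟨Tb_e h τ g', hm'⟩ = ⟨Tb_e h τ g, hm⟩ := by
          apply Subtype.ext
          change b * Tb_e h τ g' = Tb_e h τ g
          rw [hbe]
          change Tb_e h τ g / Tb_e h τ g' * Tb_e h τ g' = Tb_e h τ g
          refine div_mul_cancel₀ _ fun h0 => ?_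
          rw [h0, map_zero] at h2
          exact zero_ne_one h2
        rw [← h8] at h7
        exact isUnit_of_mul_isUnit_left h7
  refine ⟨T, deg, hTAt, ?_, ?_, ?_⟩
  · intro V hV φ hφ g
    obtain ⟨ψ, hψ, -, hd⟩ := hdeg V hV
    rw [hnat V hV ψ hψ φ hφ g]
    have hcen := ((hTAt V).1 hV).2.1
    have hex := exists_kap P S V hcen
    unfold nrm
    rw [dif_pos hex, hd]
    have hφe : hex.choose = φ := by
      ext c
      obtain ⟨⟨y, hy⟩, rfl⟩ := residue_surjective c
      rw [hex.choose_spec y hy (h hy), hφ y hy (h hy)]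
    rw [hφe]
    have hlift : ∀ a ∈ p, ρ a = 0 := fun a ha => (hρ0 a).2 ha
    have hbij : Function.Bijective (Ideal.Quotient.lift p ρ hlift) := by
      constructor
      · rw [injective_iff_map_eq_zero]
        intro z hz
        obtain ⟨g, rfl⟩ := Ideal.Quotient.mk_surjective z
        rw [Ideal.Quotient.lift_mk, hρ0] at hz
        exact Ideal.Quotient.eq_zero_iff_mem.2 hz
      · intro c
        obtain ⟨g, rfl⟩ := hρs c
        exact ⟨Ideal.Quotient.mk p g, Ideal.Quotient.lift_mk _ _ _⟩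
    have := Tb_norm φ ψ (Ideal.Quotient.lift p ρ hlift) hbij (fun c => ?_)
      (Ideal.Quotient.mk p g)
    · rw [Ideal.Quotient.lift_mk] at this
      exact this
    · have h1 : algebraMap (Kap P) (Pol 2 (Kap P) ⧸ p) c = Ideal.Quotient.mk p (MvPolynomial.C c) :=
        rfl
      rw [h1, Ideal.Quotient.lift_mk, ← hnat V hV ψ hψ φ hφ, MvPolynomial.eval₂_C]
  · intro i hi
    rw [hmul i (hτ i)]
    exact hlen ⟨τ i, hτ i⟩ fun h0 => hi (congrArg Subtype.val h0)
  · intro i hi hi0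
    rw [Finset.nonempty_iff_ne_empty]
    intro hT0
    have h1 := hlen ⟨τ i, hτ i⟩ fun h0 => hi0 (congrArg Subtype.val h0)
    rw [hT0, Finset.sum_empty, Nat.cast_zero, Module.length_eq_zero_iff] at h1
    have h2 : Ideal.span {(⟨τ i, hτ i⟩ : B.toSubring)} = ⊤ :=
      Ideal.Quotient.subsingleton_iff.1 h1
    rw [Ideal.span_singleton_eq_top, hunit, ← hX i (hτ i), Ne, hρ0] at h2
    exact h2 hi

end Pool.Agent.Lib.MP_b197b4_ntZ
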