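import Mathlib
import Pool.Agent.Lib.MP_b197b4_ntZ.Tb
import Pool.Agent.Lib.MP_b197b4_ntA.XNrm

/-!
# MP_b197b4_nt, project LIT, leaf Ta: the graph of a symbol is a surface which meets the faces properly
-/

set_option autoImplicit false

namespace Pool.Agent.Lib.MP_b197b4_ntZ

open IsLocalRing Pool.Agent.Lib.MP_b197b4_ntK Pool.Agent.Lib.MP_b197b4_ntA

variable {k : Type} {F : Type} [Field k] [Field F] [Algebra k F] {n : ℕ} {x : Fin (n + 1) → F}

/-- PROOF. `aeval τ` is surjective onto the field `κ(S)`, so its kernel is maximal and the quotient has dimension `0`; `2 + 0 = 2`. -/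
theorem gr_isSub {S : LocalSubring F} (hS : S ∈ Pts k x 2) {τ : Fin 3 → Kap S}
    (hs : ∑ i, τ i = 1) : IsSub k x 2 (gr S τ) := by
  have hsurj : Function.Surjective (MvPolynomial.aeval τ : Pol 2 (Kap S) →ₐ[Kap S] Kap S) :=
    fun c => ⟨MvPolynomial.C c, by rw [← MvPolynomial.algebraMap_eq, AlgHom.commutes]; rfl⟩
  have hmax : (gr S τ).2.IsMaximal := RingHom.ker_isMaximal_of_surjective _ hsurj
  have h0 : MvPolynomial.aeval τ (∑ i, MvPolynomial.X i - 1 : Pol 2 (Kap S)) = 0 := by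
    rw [map_sub, map_sum, map_one]
    simp only [MvPolynomial.aeval_X]
    rw [hs, sub_self]
  refine ⟨2, 0, hS, hmax.isPrime, ?_, ?_, rfl⟩
  · exact h0
  · exact ringKrullDim_eq_zero_of_isField
      ((Ideal.Quotient.maximal_ideal_iff_isField_quotient _).mp hmax)

/-- PROOF. Let `V ⊆ W = gr S τ` of dimension `r`, `t_i ∈ V.2` for `i ∈ I`. `r ≤ 2` (`sub_dim`, `gr_isSub`). If `I ≠ ∅` then `V ≠ W`
because `t_i ∉ W.2` (`τ_i ≠ 0`), so `r ≤ 1`. `I.card = 3` is impossible (`1 ∈ V.2`). Let `I = {i, j}` and `l` the third index, and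
suppose `r = 1`. `face_dim` for `V.2` says that the dimension of the generic fibre is `0`, so `V.1 = P ∈ Pts k x 1`; and
`V.2` is maximal (`t_i, t_j, t_l - 1 ∈ V.2`). By `gr_mult` there is `V' ∈ T`, i.e. `At P S τ V.2 V'`. `res V' (τ_i) = 0`,
`res V' (τ_j) = 0`, `res V' (τ_l) = 1` (a natural `φ` exists by `exists_kap`; apply the last clause of `At` to `X i`, `X j`,
`X l - 1`), so `ord V' τ_i > 0`, `ord V' τ_j > 0`, `ord V' τ_l = 0`, which contradicts `TropV V' τ` at the index `l`. So `r ≤ 0`. -/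
theorem gr_proper [PerfectField k] (hne : ∀ i, x i ≠ 0) {S : LocalSubring F} (hS : S ∈ Pts k x 2)
    {τ : Fin 3 → Kap S} (hτ : Trop k x S τ) : Proper k x 2 (gr S τ) := by
  intro I V r hV h hI
  obtain ⟨hr2, heq⟩ := sub_dim hne hV (gr_isSub hS hτ.sum) h
  rcases I.eq_empty_or_nonempty with rfl | ⟨i, hi⟩
  · rw [Finset.card_empty]
    exact hr2
  have hr1 : r ≤ 1 := by
    by_contra hcon
    have h2 : r = 2 := by omega
    have h3 := hI i hi
    rw [heq h2] at h3
    have h4 : MvPolynomial.aeval τ (MvPolynomial.X i : Pol 2 (Kap S)) = 0 := h3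
    rw [MvPolynomial.aeval_X] at h4
    exact hτ.ne i h4
  obtain ⟨s, r', hs, hprime, hsum, hdim, hsr⟩ := hV
  have hf := face_dim hprime hsum hdim I hI
  by_contra hcon
  have hcard : I.card = 2 := by
    omega
  have hr'0 : r' = 0 := by omega
  have hs1 : s = 1 := by omega
  subst hs1
  subst hr'0
  have hmax : V.2.IsMaximal := by
    rw [Ideal.Quotient.maximal_ideal_iff_isField_quotient]
    have hd : IsDomain (Pol 2 (Kap V.1) ⧸ V.2) := (Ideal.Quotient.isDomain_iff_prime _).mpr hprime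
    have hk : Ring.KrullDimLE 0 (Pol 2 (Kap V.1) ⧸ V.2) :=
      Ring.krullDimLE_iff.mpr (by rw [hdim])
    exact Ring.KrullDimLE.isField_of_isDomain
  obtain ⟨T, deg, hT, -, -, hTne⟩ := gr_mult hne hs hS τ V.2 hmax h
  obtain ⟨V', hV'⟩ := hTne i (hI i hi) (hτ.ne i)
  obtain ⟨hdvr, hcen, hmem, hev⟩ := (hT V').mp hV'
  obtain ⟨φ, hφ⟩ := exists_kap V.1 S V' hcen
  have hzero : ∀ a ∈ I, res V' (τ a) = 0 := by
    intro a ha
    have h5 := (hev φ hφ _).mp (hI a ha)
    rwa [MvPolynomial.eval₂_X] at h5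
  have hone : ∑ a, res V' (τ a) = 1 := by
    have h6 := (hev φ hφ _).mp hsum
    rw [MvPolynomial.eval₂_sub, MvPolynomial.eval₂_sum, MvPolynomial.eval₂_one, sub_eq_zero] at h6
    rw [← h6]
    exact Finset.sum_congr rfl fun a _ => by rw [MvPolynomial.eval₂_X]
  have hcompl : Iᶜ.card = 1 := by
    rw [Finset.card_compl, Fintype.card_fin, hcard]
  obtain ⟨l, hl⟩ := Finset.card_eq_one.mp hcompl
  have hin : ∀ a, a ≠ l → a ∈ I := by
    intro a ha
    by_contra hc
    have h7 : a ∈ Iᶜ := Finset.mem_compl.mpr hc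
    rw [hl, Finset.mem_singleton] at h7
    exact ha h7
  have hl1 : res V' (τ l) = 1 := by
    rw [← hone]
    exact (Finset.sum_eq_single l (fun a _ ha => hzero a (hin a ha))
      (fun hc => absurd (Finset.mem_univ _) hc)).symm
  have hl0 : ord V' (τ l) = 0 := by
    rw [ord_eq_zero_iff hdvr (hτ.ne l), ← res_ne_zero_iff (hmem l), hl1]
    exact one_ne_zero
  obtain ⟨j, hj, hjl⟩ := hτ.trop V.1 hs V' hdvr hcen l
  have hj0 : 0 < ord V' (τ j) := by
    rw [ord_pos_iff hdvr (hτ.ne j), ← res_eq_zero_iff (hmem j)]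
    exact hzero j (hin j hj)
  omega

end Pool.Agent.Lib.MP_b197b4_ntZ
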