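import Mathlib
import Pool.Agent.Lib.MP_b197b4_ntZ.TDefs

/-!
# MP_b197b4_nt, project LIT, leaf Tc: tame symbols of tropical coordinates
-/

set_option autoImplicit false

namespace Pool.Agent.Lib.MP_b197b4_ntZ

open IsLocalRing Pool.Agent.Lib.MP_b197b4_ntK Pool.Agent.Lib.MP_b197b4_ntA

variable {K : Type} [Field K] {V : ValuationSubring K} {τ : Fin 3 → K}

private theorem Tc_ord_neg (hV : IsDiscreteValuationRing V) {x : K} (hx : x ≠ 0) :
    ord V (-x) = ord V x := by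
  have h1 : ord V (-1 : K) = 0 :=
    (ord_eq_zero_iff hV (neg_ne_zero.2 one_ne_zero)).2 (by rw [Valuation.map_neg, map_one])
  rw [← neg_one_mul, ord_mul hV (neg_ne_zero.2 one_ne_zero) hx, h1, zero_add]

private theorem Tc_res_zpow {x : K} (h : V.valuation x = 1) (z : ℤ) :
    res V (x ^ z) = res V x ^ z := by
  cases z with
  | ofNat n => simpa using res_pow (mem_of_val_one h) n
  | negSucc n =>
    rw [zpow_negSucc, zpow_negSucc, res_inv, res_pow (mem_of_val_one h)]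
    rw [map_pow, h, one_pow]

private theorem Tc_sq (n : ℤ) : (-1 : K) ^ (n * n) = (-1) ^ n := by
  have h : n * n = n * (n - 1) + n := by ring
  have h2 : Even (n * (n - 1)) := Int.even_mul_pred_self n
  rw [h, zpow_add₀ (neg_ne_zero.2 one_ne_zero), h2.neg_one_zpow, one_mul]

private theorem Tc_both (hV : IsDiscreteValuationRing V) {t0 t1 t2 : K} (h0 : t0 ≠ 0) (h1 : t1 ≠ 0)
    (h2 : t2 ≠ 0) (h : ord V t1 = ord V t2) :
    tame V (-(t1 / t0)) (-(t2 / t0)) = res V (-t2 / t1) ^ (ord V t0 - ord V t1) := by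
  have hf : ord V (-(t1 / t0)) = -(ord V t0 - ord V t1) := by
    rw [Tc_ord_neg hV (div_ne_zero h1 h0), ord_div hV h1 h0]
    ring
  have hg : ord V (-(t2 / t0)) = -(ord V t0 - ord V t1) := by
    rw [Tc_ord_neg hV (div_ne_zero h2 h0), ord_div hV h2 h0, ← h]
    ring
  have hv : V.valuation (-t2 / t1) = 1 := by
    refine (ord_eq_zero_iff hV (div_ne_zero (neg_ne_zero.2 h2) h1)).1 ?_
    rw [ord_div hV (neg_ne_zero.2 h2) h1, Tc_ord_neg hV h2, h, sub_self]
  obtain ⟨n, hn⟩ : ∃ n, n = ord V t0 - ord V t1 := ⟨_, rfl⟩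
  rw [← Tc_res_zpow hv]
  unfold tame
  rw [hf, hg, ← hn, neg_mul_neg, Tc_sq, mul_div_assoc, ← div_zpow, neg_div_neg_eq,
    div_div_div_cancel_right₀ h0, zpow_neg, ← inv_zpow, inv_div, ← mul_zpow, neg_one_mul, neg_div]

private theorem Tc_res_one {y z : K} (hz : z = 1 - y) (hy : V.valuation y < 1) :
    V.valuation z = 1 ∧ res V z = 1 := by
  have hy' : y ∈ V := (ValuationSubring.valuation_le_one_iff V y).1 hy.le
  have h1 : res V z = 1 := by
    rw [hz, res_sub V.one_mem hy', res_one, (res_eq_zero_iff hy').2 hy, _root_.sub_zero]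
  have hz' : z ∈ V := by
    rw [hz]
    exact sub_mem V.one_mem hy'
  exact ⟨(res_ne_zero_iff hz').1 (by rw [h1]; exact one_ne_zero), h1⟩

private theorem Tc_small (hV : IsDiscreteValuationRing V) {t s : K} (ht : t ≠ 0) (hs : s ≠ 0)
    (h1 : ord V t < 0) (h2 : ord V t < ord V s) : V.valuation ((1 - s) / t) < 1 := by
  have h3 : V.valuation (1 / t) < 1 := by
    refine (ord_pos_iff hV (one_div_ne_zero ht)).1 ?_
    rw [ord_div hV one_ne_zero ht, ord_one V hV]
    omega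
  have h4 : V.valuation (s / t) < 1 := by
    refine (ord_pos_iff hV (div_ne_zero hs ht)).1 ?_
    rw [ord_div hV hs ht]
    omega
  rw [sub_div]
  exact V.valuation.map_sub_lt h3 h4

/-- PROOF. The orders are `≥ 0`; as the sum is `1`, some order is `0`, so the minimum is `0` and it is attained twice. -/
theorem trop_two (hV : IsDiscreteValuationRing V) (hne : ∀ i, τ i ≠ 0) (hs : ∑ i, τ i = 1)
    (ht : TropV V τ) (hm : ∀ j, τ j ∈ V) {i j : Fin 3} (hi : 0 < ord V (τ i)) (hj : j ≠ i) :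
    ord V (τ j) = 0 := by
  by_contra hn
  have h1 : 0 < ord V (τ j) := lt_of_le_of_ne ((ord_nonneg_iff hV (hne j)).2 (hm j)) (Ne.symm hn)
  have h2 : ∀ m, V.valuation (τ m) < 1 := by
    intro m
    refine (ord_pos_iff hV (hne m)).1 ?_
    by_cases hmi : m = i
    · rw [hmi]
      exact hi
    by_cases hmj : m = j
    · rw [hmj]
      exact h1
    obtain ⟨l, hl, hle⟩ := ht m
    have h3 : l = i ∨ l = j := by
      fin_cases i <;> fin_cases j <;> fin_cases m <;> fin_cases l <;> simp_all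
    rcases h3 with h3 | h3
    · rw [h3] at hle
      exact lt_of_lt_of_le hi hle
    · rw [h3] at hle
      exact lt_of_lt_of_le h1 hle
  have h4 : V.valuation (∑ i, τ i) < 1 := by
    rw [Fin.sum_univ_three]
    exact V.valuation.map_add_lt (V.valuation.map_add_lt (h2 0) (h2 1)) (h2 2)
  rw [hs, map_one] at h4
  exact lt_irrefl _ h4

/-- The coordinates are in `V`. PROOF. `f = -τ 1 / τ 0`, `g = -τ 2 / τ 0`, the tame symbol is the class of
`(-1)^(v f v g) f^(v g) / g^(v f)`. If all orders are `0`: both sides are `1` (`Lf_tame_one` / `tame_eq_one`). If `v τ_0 = m > 0`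
(`trop_two`: the others are `0`): `v f = v g = -m`, the symbol is the class of `(-1)^(m m) f^(-m) g^m = (-1)^m (g / f)^m =
(-1)^m (τ 2 / τ 1)^m = (-τ 2 / τ 1)^m`. If `v τ_1 = m > 0`: `v f = m`, `v g = 0`: `g^(-m) = (-τ 2 / τ 0)^(-m)`. If
`v τ_2 = m > 0`: `v f = 0`, `v g = m`: `f^m = (-τ 1 / τ 0)^m`. On the right side the factors with exponent `0` are `1`. (`res V` is
multiplicative on units of `V`.) -/
theorem tame_in (hV : IsDiscreteValuationRing V) (hne : ∀ i, τ i ≠ 0) (hs : ∑ i, τ i = 1)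
    (ht : TropV V τ) (hm : ∀ j, τ j ∈ V) :
    tame V (-(τ 1 / τ 0)) (-(τ 2 / τ 0)) =
      ∏ i : Fin 3, res V (-(τ (i.succAbove 1)) / τ (i.succAbove 0)) ^
        ((-1) ^ (i : ℕ) * ord V (τ i)) := by
  have hnn : ∀ i, 0 ≤ ord V (τ i) := fun i => (ord_nonneg_iff hV (hne i)).2 (hm i)
  have key : ∏ i : Fin 3, res V (-(τ (i.succAbove 1)) / τ (i.succAbove 0)) ^
        ((-1) ^ (i : ℕ) * ord V (τ i)) =
      res V (-τ 2 / τ 1) ^ ord V (τ 0) * res V (-τ 2 / τ 0) ^ (-ord V (τ 1)) *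
        res V (-τ 1 / τ 0) ^ ord V (τ 2) := by
    rw [Fin.prod_univ_three]
    have e0 : (0 : Fin 3).succAbove 1 = 2 := rfl
    have e1 : (0 : Fin 3).succAbove 0 = 1 := rfl
    have e2 : (1 : Fin 3).succAbove 1 = 2 := rfl
    have e3 : (1 : Fin 3).succAbove 0 = 0 := rfl
    have e4 : (2 : Fin 3).succAbove 1 = 1 := rfl
    have e5 : (2 : Fin 3).succAbove 0 = 0 := rfl
    rw [e0, e1, e2, e3, e4, e5]
    have f0 : (-1 : ℤ) ^ ((0 : Fin 3) : ℕ) * ord V (τ 0) = ord V (τ 0) := by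
      simp
    have f1 : (-1 : ℤ) ^ ((1 : Fin 3) : ℕ) * ord V (τ 1) = -ord V (τ 1) := by
      simp
    have f2 : (-1 : ℤ) ^ ((2 : Fin 3) : ℕ) * ord V (τ 2) = ord V (τ 2) := by
      simp
    rw [f0, f1, f2]
  rw [key]
  rcases (hnn 0).lt_or_eq with h0 | h0
  · have h1 := trop_two hV hne hs ht hm h0 (show (1 : Fin 3) ≠ 0 by decide)
    have h2 := trop_two hV hne hs ht hm h0 (show (2 : Fin 3) ≠ 0 by decide)
    rw [Tc_both hV (hne 0) (hne 1) (hne 2) (h1.trans h2.symm), h1, h2, neg_zero, zpow_zero,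
      zpow_zero, mul_one, mul_one, _root_.sub_zero]
  rcases (hnn 1).lt_or_eq with h1 | h1
  · have h2 := trop_two hV hne hs ht hm h1 (show (2 : Fin 3) ≠ 1 by decide)
    have hg : V.valuation (-(τ 2 / τ 0)) = 1 := by
      refine (ord_eq_zero_iff hV (neg_ne_zero.2 (div_ne_zero (hne 2) (hne 0)))).1 ?_
      rw [Tc_ord_neg hV (div_ne_zero (hne 2) (hne 0)), ord_div hV (hne 2) (hne 0), h2, ← h0, _root_.sub_zero]
    rw [tame_unit_right hV hg, Tc_ord_neg hV (div_ne_zero (hne 1) (hne 0)),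
      ord_div hV (hne 1) (hne 0), h2, ← h0, zpow_zero, zpow_zero, mul_one, one_mul, _root_.sub_zero, neg_div]
  · have hf : V.valuation (-(τ 1 / τ 0)) = 1 := by
      refine (ord_eq_zero_iff hV (neg_ne_zero.2 (div_ne_zero (hne 1) (hne 0)))).1 ?_
      rw [Tc_ord_neg hV (div_ne_zero (hne 1) (hne 0)), ord_div hV (hne 1) (hne 0), ← h1, ← h0, _root_.sub_zero]
    rw [tame_unit_left hV hf (neg_ne_zero.2 (div_ne_zero (hne 2) (hne 0))),
      Tc_ord_neg hV (div_ne_zero (hne 2) (hne 0)), ord_div hV (hne 2) (hne 0), ← h0, ← h1,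
      neg_zero, zpow_zero, zpow_zero, one_mul, one_mul, _root_.sub_zero, neg_div]

/-- Some coordinate is not in `V`. PROOF. The minimum `-m` of the orders is negative and attained at least twice.
Let `f = -τ 1 / τ 0`, `g = -τ 2 / τ 0`. Note `f + g = 1 - 1 / τ 0`. (a) at `0, 1`: `v f = 0`. If `v τ_2 > -m` then `f = 1 - (1 - τ 2) / τ 0` is
congruent to `1` (`v (1 - τ 2) ≥ min 0 (v τ_2) > -m`), `v g > 0`, and the symbol is `f^(v g) = 1`; if `v τ_2 = -m` then
`v f = v g = 0` and the symbol is `1`. (b) at `0, 2`: symmetric. (c) at `1, 2` and `s = v τ_0 + m > 0`: `v f = v g = -s`, the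
symbol is the class of `(-1)^(s s) (g / f)^s = (-1)^s (τ 2 / τ 1)^s`, and `τ 2 / τ 1 = -1 + (1 - τ 0) / τ 1` is congruent to `-1`
(`v (1 - τ 0) ≥ min 0 (v τ_0) > -m`). So the symbol is `1`. -/
theorem tame_out (hV : IsDiscreteValuationRing V) (hne : ∀ i, τ i ≠ 0) (hs : ∑ i, τ i = 1)
    (ht : TropV V τ) {j : Fin 3} (hj : τ j ∉ V) :
    tame V (-(τ 1 / τ 0)) (-(τ 2 / τ 0)) = 1 := by
  have hneg : ord V (τ j) < 0 := by
    by_contra hn
    exact hj ((ord_nonneg_iff hV (hne j)).1 (not_lt.1 hn))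
  have hs' : τ 0 + τ 1 + τ 2 = 1 := by
    rw [← Fin.sum_univ_three]
    exact hs
  have d10 := div_ne_zero (hne 1) (hne 0)
  have d20 := div_ne_zero (hne 2) (hne 0)
  have hcase : (ord V (τ 0) = ord V (τ 1) ∧ ord V (τ 0) ≤ ord V (τ 2) ∧ ord V (τ 0) < 0) ∨
      (ord V (τ 0) = ord V (τ 2) ∧ ord V (τ 0) ≤ ord V (τ 1) ∧ ord V (τ 0) < 0) ∨
      (ord V (τ 1) = ord V (τ 2) ∧ ord V (τ 1) < ord V (τ 0) ∧ ord V (τ 1) < 0) := by
    have g : ∀ l : Fin 3, l = 0 ∨ l = 1 ∨ l = 2 := by decide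
    obtain ⟨i0, hi0, hl0⟩ := ht 0
    obtain ⟨i1, hi1, hl1⟩ := ht 1
    obtain ⟨i2, hi2, hl2⟩ := ht 2
    have k0 : ord V (τ 1) ≤ ord V (τ 0) ∨ ord V (τ 2) ≤ ord V (τ 0) := by
      rcases g i0 with h | h | h
      · exact absurd h hi0
      · rw [h] at hl0
        exact Or.inl hl0
      · rw [h] at hl0
        exact Or.inr hl0
    have k1 : ord V (τ 0) ≤ ord V (τ 1) ∨ ord V (τ 2) ≤ ord V (τ 1) := by
      rcases g i1 with h | h | h
      · rw [h] at hl1
        exact Or.inl hl1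
      · exact absurd h hi1
      · rw [h] at hl1
        exact Or.inr hl1
    have k2 : ord V (τ 0) ≤ ord V (τ 2) ∨ ord V (τ 1) ≤ ord V (τ 2) := by
      rcases g i2 with h | h | h
      · rw [h] at hl2
        exact Or.inl hl2
      · rw [h] at hl2
        exact Or.inr hl2
      · exact absurd h hi2
    have k3 : ord V (τ 0) < 0 ∨ ord V (τ 1) < 0 ∨ ord V (τ 2) < 0 := by
      rcases g j with h | h | h
      · rw [h] at hneg
        exact Or.inl hneg
      · rw [h] at hneg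
        exact Or.inr (Or.inl hneg)
      · rw [h] at hneg
        exact Or.inr (Or.inr hneg)
    omega
  rcases hcase with ⟨h1, h2, h3⟩ | ⟨h1, h2, h3⟩ | ⟨h1, h2, h3⟩
  · have hf0 : ord V (-(τ 1 / τ 0)) = 0 := by
      rw [Tc_ord_neg hV d10, ord_div hV (hne 1) (hne 0)]
      omega
    rcases h2.lt_or_eq with h4 | h4
    · have h5 := Tc_res_one (V := V) (z := -(τ 1 / τ 0)) (y := (1 - τ 2) / τ 0) (by
        rw [eq_sub_iff_add_eq, neg_add_eq_sub, ← sub_div, div_eq_one_iff_eq (hne 0)]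
        linear_combination -hs') (Tc_small hV (hne 0) (hne 2) h3 h4)
      rw [tame_unit_left hV h5.1 (neg_ne_zero.2 d20), h5.2, one_zpow]
    · refine tame_eq_one hf0 ?_
      rw [Tc_ord_neg hV d20, ord_div hV (hne 2) (hne 0)]
      omega
  · have hg0 : ord V (-(τ 2 / τ 0)) = 0 := by
      rw [Tc_ord_neg hV d20, ord_div hV (hne 2) (hne 0)]
      omega
    rcases h2.lt_or_eq with h4 | h4
    · have h5 := Tc_res_one (V := V) (z := -(τ 2 / τ 0)) (y := (1 - τ 1) / τ 0) (by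
        rw [eq_sub_iff_add_eq, neg_add_eq_sub, ← sub_div, div_eq_one_iff_eq (hne 0)]
        linear_combination -hs') (Tc_small hV (hne 0) (hne 1) h3 h4)
      rw [tame_unit_right hV h5.1, h5.2, one_zpow]
    · refine tame_eq_one ?_ hg0
      rw [Tc_ord_neg hV d10, ord_div hV (hne 1) (hne 0)]
      omega
  · have h5 := Tc_res_one (V := V) (z := -τ 2 / τ 1) (y := (1 - τ 0) / τ 1) (by
      rw [eq_sub_iff_add_eq, ← add_div, div_eq_one_iff_eq (hne 1)]
      linear_combination -hs') (Tc_small hV (hne 1) (hne 0) h3 h2)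
    rw [Tc_both hV (hne 0) (hne 1) (hne 2) h1, h5.2, one_zpow]

end Pool.Agent.Lib.MP_b197b4_ntZ
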