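import Mathlib
import Pool.Agent.Lib.MP_b197b4_ntZ.Ta
import Pool.Agent.Lib.MP_b197b4_ntZ.Tc
import Pool.Agent.Lib.MP_b197b4_ntZ.Fv
import Pool.Agent.Lib.MP_b197b4_ntZ.Fn

/-!
# MP_b197b4_nt, project LIT, leaf T5a: valuations over the points of the faces
-/

set_option autoImplicit false

namespace Pool.Agent.Lib.MP_b197b4_ntZ

open IsLocalRing Pool.Agent.Lib.MP_b197b4_ntK Pool.Agent.Lib.MP_b197b4_ntA

variable {k : Type} {F : Type} [Field k] [Field F] [Algebra k F] {n : ℕ} {x : Fin (n + 1) → F}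

private theorem T5a_nrm_one (P S : LocalSubring F) (V : ValuationSubring (Kap S)) : nrm P S V 1 = 1 := by
  unfold nrm
  split_ifs with h
  · exact @map_one _ _ _ _ _ _ _ (@Algebra.norm (Kap P) (ResidueField V) _ _ h.choose.toAlgebra)
  · rfl

private theorem T5a_nrm_mul (P S : LocalSubring F) (V : ValuationSubring (Kap S))
    (c d : ResidueField V) : nrm P S V (c * d) = nrm P S V c * nrm P S V d := by
  unfold nrm
  split_ifs with h
  · exact @map_mul _ _ _ _ _ _ _
      (@Algebra.norm (Kap P) (ResidueField V) _ _ h.choose.toAlgebra) c d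
  · rw [mul_one]

private theorem T5a_nrm_ne (P S : LocalSubring F) (V : ValuationSubring (Kap S))
    {c : ResidueField V} (hc : c ≠ 0) : nrm P S V c ≠ 0 := by
  have h := T5a_nrm_mul P S V c c⁻¹
  rw [mul_inv_cancel₀ hc, T5a_nrm_one] at h
  exact left_ne_zero_of_mul_eq_one h.symm

/-- The homomorphism of the residue fields (`exists_kap` of `MP_b197b4_ntA/XNrm.lean`). -/
private theorem T5a_kap (P S : LocalSubring F) (V : ValuationSubring (Kap S)) (h : Cen P S V) :
    ∃ φ : Kap P →+* ResidueField V, NatK P S V φ := by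
  obtain ⟨g, hg⟩ : ∃ g : P.toSubring →+* V, ∀ (y : P.toSubring),
      (g y : Kap S) = residue _ (⟨(y : F), h.1 y.2⟩ : S.toSubring) :=
    ⟨((residue S.toSubring).comp (Subring.inclusion h.1)).codRestrict V.toSubring
      (fun y => (h.2 y y.2 (h.1 y.2)).1), fun y => rfl⟩
  have hloc : IsLocalHom g := by
    constructor
    intro y hy
    rw [ValuationSubring.valuation_eq_one_iff, hg] at hy
    exact (h.2 y y.2 (h.1 y.2)).2.mpr hy
  refine ⟨ResidueField.map g, fun y hP hS => ?_⟩
  rw [ResidueField.map_residue]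
  have h1 := hg ⟨y, hP⟩
  have h2 : (residue S.toSubring ⟨y, hS⟩) ∈ V := (h.2 y hP hS).1
  unfold res
  rw [dif_pos h2]
  congr 1
  exact Subtype.ext h1

private theorem T5a_trans {k V E : Type} [Field k] [CommRing V] [IsDomain V] [Algebra k V] [Field E]
    [Algebra k E] (r : V →ₐ[k] E) {ι : Type} {y : ι → V} (hy : AlgebraicIndependent k (r ∘ y)) {π : V}
    (hπ0 : π ≠ 0) (hπ : r π = 0) : Transcendental (Algebra.adjoin k (Set.range y)) π := by
  rintro ⟨p, hp0, hp⟩
  obtain ⟨q, hq, hq'⟩ := Polynomial.exists_eq_pow_rootMultiplicity_mul_and_not_dvd p hp0 0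
  have h1 : Polynomial.aeval π q = 0 := by
    rw [hq, map_mul, map_pow, map_sub, Polynomial.aeval_X, Polynomial.aeval_C, map_zero, _root_.sub_zero] at hp
    rcases mul_eq_zero.1 hp with h | h
    · exact absurd h (pow_ne_zero _ hπ0)
    · exact h
  have h2 : r ((q.coeff 0 : Algebra.adjoin k (Set.range y)) : V) = 0 := by
    have h3 := congrArg r h1
    rw [map_zero, Polynomial.aeval_def] at h3
    have h4 := Polynomial.hom_eval₂ q (algebraMap (Algebra.adjoin k (Set.range y)) V) r.toRingHom π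
    change r _ = _ at h4
    rw [h3] at h4
    change 0 = Polynomial.eval₂ _ (r π) q at h4
    rw [hπ, Polynomial.eval₂_at_zero] at h4
    exact h4.symm
  have h5 : (q.coeff 0 : Algebra.adjoin k (Set.range y)) = 0 := by
    have h6 : ∀ z ∈ Algebra.adjoin k (Set.range y), ∃ f : MvPolynomial ι k, MvPolynomial.aeval y f = z := by
      intro z hz
      rw [Algebra.adjoin_range_eq_range_aeval] at hz
      exact hz
    obtain ⟨f, hf'⟩ := h6 _ (q.coeff 0).2
    have h7 : MvPolynomial.aeval (r ∘ y) f = 0 := by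
      rw [← hf', ← AlgHom.comp_apply, MvPolynomial.comp_aeval] at h2
      exact h2
    have h8 : f = 0 := by
      rw [algebraicIndependent_iff] at hy
      exact hy f h7
    apply Subtype.ext
    rw [← hf', h8, map_zero]
    rfl
  apply hq'
  rw [Polynomial.C_0, _root_.sub_zero, Polynomial.X_dvd_iff]
  exact h5

private theorem T5a_trdeg {k V E L : Type} [Field k] [CommRing V] [IsDomain V] [Algebra k V]
    [Field E] [Algebra k E] [Field L] [Algebra k L] (r : V →ₐ[k] E) (hr : Function.Surjective r)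
    (s : V →ₐ[k] L) (hs : Function.Injective s) {π : V} (hπ0 : π ≠ 0) (hπ : r π = 0) :
    Algebra.trdeg k E + 1 ≤ Algebra.trdeg k L := by
  obtain ⟨ι, x, hx⟩ := exists_isTranscendenceBasis' k E
  choose y hy using fun i => hr (x i)
  have h1 : r ∘ y = x := funext hy
  have h2 : AlgebraicIndependent k (r ∘ y) := by
    rw [h1]
    exact hx.1
  have h3 : AlgebraicIndependent k y := AlgebraicIndependent.of_comp r h2
  have h4 := (h3.option_iff_transcendental π).2 (T5a_trans r h2 hπ0 hπ)
  have h5 := (h4.map' hs).cardinalMk_le_trdeg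
  rw [Cardinal.mk_option, hx.cardinalMk_eq_trdeg] at h5
  exact h5

private theorem T5a_int (hne : ∀ i, x i ≠ 0) {S P : LocalSubring F} (hS : S ∈ Pts k x 2)
    (hP : P ∈ Pts k x 1) {V : ValuationSubring (Kap S)} (hV : IsDiscreteValuationRing V)
    (hc : Cen P S V) {φ : Kap P →+* ResidueField V} (hφ : NatK P S V φ) : φ.IsIntegral := by
  obtain ⟨i, hi⟩ := exists_chart hP
  have hiS : (cht k x i).toSubring ≤ S.toSubring := hi.trans hc.1
  obtain ⟨s, hs1, hs2⟩ := XP_exists hne hP hi (XP_const hi)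
  rw [XP_chart_dim hne hP hi] at hs2
  obtain ⟨t, ht1, ht2⟩ := XP_exists hne hS hiS (XP_const hiS)
  rw [XP_chart_dim hne hS hiS] at ht2
  have hs : s = 1 := by exact_mod_cast hs2.symm
  have ht : t = 2 := by exact_mod_cast ht2.symm
  subst hs
  subst ht
  let a1 : Algebra k (Kap P) := XP_alg (XP_const hi)
  let a2 : Algebra k (Kap S) := XP_alg (XP_const hiS)
  have hkV : ∀ c : k, algebraMap k (Kap S) c ∈ V := fun c =>
    (hc.2 _ (XP_const hi c) (XP_const hiS c)).1
  let a3 : Algebra k V := ((algebraMap k (Kap S)).codRestrict V.toSubring hkV).toAlgebra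
  let a4 : Algebra (Kap P) (ResidueField V) := φ.toAlgebra
  have htow : IsScalarTower k (Kap P) (ResidueField V) := by
    refine IsScalarTower.of_algebraMap_eq fun c => ?_
    have h1 := hφ (algebraMap k F c) (XP_const hi c) (XP_const hiS c)
    have h2 : res V (residue S.toSubring ⟨algebraMap k F c, XP_const hiS c⟩) =
        algebraMap k (ResidueField V) c := res_of_mem (hkV c)
    exact (h1.trans h2).symm
  let r : V →ₐ[k] ResidueField V := { toRingHom := residue V, commutes' := fun c => rfl }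
  let j : V →ₐ[k] Kap S := { toRingHom := V.subtype, commutes' := fun c => rfl }
  obtain ⟨π, hπ⟩ := IsDiscreteValuationRing.exists_irreducible V
  have h1 : Algebra.trdeg k (ResidueField V) + 1 ≤ Algebra.trdeg k (Kap S) := by
    refine T5a_trdeg r residue_surjective j Subtype.val_injective hπ.ne_zero ?_
    change residue V π = 0
    rw [residue_eq_zero_iff, mem_maximalIdeal, mem_nonunits_iff]
    exact hπ.not_isUnit
  have h2 : Algebra.trdeg k (Kap P) + Algebra.trdeg (Kap P) (ResidueField V) ≤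
      Algebra.trdeg k (ResidueField V) := trdeg_add_le
  have h3 : Algebra.trdeg (Kap P) (ResidueField V) = 0 := by
    by_contra h0
    have h4 : 1 ≤ Algebra.trdeg (Kap P) (ResidueField V) := Cardinal.one_le_iff_ne_zero.2 h0
    have h5 : Algebra.trdeg k (Kap P) + 1 + 1 ≤ Algebra.trdeg k (Kap S) :=
      (add_le_add_left ((add_le_add_right h4 _).trans h2) 1).trans h1
    rw [hs1, ht1] at h5
    have h6 : ((1 + 1 + 1 : ℕ) : Cardinal.{0}) ≤ ((2 : ℕ) : Cardinal.{0}) := by exact_mod_cast h5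
    have h7 : (1 + 1 + 1 : ℕ) ≤ 2 := by exact_mod_cast h6
    omega
  have h4 : Algebra.IsAlgebraic (Kap P) (ResidueField V) := trdeg_eq_zero_iff.1 h3
  intro z
  exact (h4.isAlgebraic z).isIntegral

/-- Natural maps are unique. -/
private theorem T5a_nat {P S : LocalSubring F} (h : P.toSubring ≤ S.toSubring)
    {V : ValuationSubring (Kap S)} {φ φ' : Kap P →+* ResidueField V} (hφ : NatK P S V φ)
    (hφ' : NatK P S V φ') : φ = φ' := by
  apply RingHom.ext
  intro z
  obtain ⟨⟨y, hy⟩, rfl⟩ := residue_surjective z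
  rw [hφ y hy (h hy), hφ' y hy (h hy)]

private theorem T5a_norm {K A B : Type} [Field K] [CommRing A] [CommRing B] [Algebra K A]
    [Algebra K B] (f : A →ₐ[K] B) (hf : Function.Surjective f) (q : Ideal B) (g : A) :
    Algebra.norm K (Ideal.Quotient.mk (q.comap f) g) =
      Algebra.norm K (Ideal.Quotient.mk q (f g)) := by
  let e : (A ⧸ q.comap f) ≃ₐ[K] (B ⧸ q) := AlgEquiv.ofBijective (Ideal.quotientMapₐ q f le_rfl)
    ⟨Ideal.quotientMap_injective (f := (f : A →+* B)),
      Ideal.quotientMap_surjective (f := (f : A →+* B)) (H := le_rfl) hf⟩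
  exact (Algebra.norm_eq_of_algEquiv e (Ideal.Quotient.mk (q.comap f) g)).symm

private theorem T5a_fmapX {R : Type} [CommRing R] (i : Fin 3) :
    fmap (m := 1) R i (MvPolynomial.X i) = 0 := by
  unfold fmap
  rw [MvPolynomial.aeval_X, Fin.insertNth_apply_same]

private theorem T5a_fmapX' {R : Type} [CommRing R] (i : Fin 3) (j : Fin 2) :
    fmap (m := 1) R i (MvPolynomial.X (i.succAbove j)) = MvPolynomial.X j := by
  unfold fmap
  rw [MvPolynomial.aeval_X, Fin.insertNth_apply_succAbove]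

private theorem T5a_res0 {K : Type} [Field K] {V : ValuationSubring K}
    (hV : IsDiscreteValuationRing V) {z : K} (hz0 : z ≠ 0) (hz : z ∈ V) :
    res V z = 0 ↔ 0 < ord V z := by
  rw [res_eq_zero_iff hz, ord_pos_iff hV hz0]

/-- The evaluation at the residues of the coordinates, on the face. -/
private theorem T5a_comp {P S : LocalSubring F} {V : ValuationSubring (Kap S)}
    (φ : Kap P →+* ResidueField V) {τ : Fin 3 → Kap S} (i : Fin 3) (h0 : res V (τ i) = 0)
    (g : Pol 2 (Kap P)) :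
    MvPolynomial.eval₂ φ (fun j => res V (τ (i.succAbove j))) (fmap (m := 1) (Kap P) i g) =
      MvPolynomial.eval₂ φ (fun j => res V (τ j)) g := by
  have h1 : (MvPolynomial.eval₂Hom φ (fun j => res V (τ (i.succAbove j)))).comp
      (fmap (m := 1) (Kap P) i : Pol 2 (Kap P) →+* Pol 1 (Kap P)) =
        MvPolynomial.eval₂Hom φ (fun j => res V (τ j)) := by
    refine MvPolynomial.ringHom_ext (fun c => ?_) fun j => ?_
    · rw [RingHom.comp_apply, MvPolynomial.eval₂Hom_C]
      have h2 : fmap (m := 1) (Kap P) i (MvPolynomial.C c) = MvPolynomial.C c := by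
        unfold fmap
        rw [MvPolynomial.aeval_C]
        rfl
      change MvPolynomial.eval₂Hom φ _ (fmap (m := 1) (Kap P) i (MvPolynomial.C c)) = φ c
      rw [h2, MvPolynomial.eval₂Hom_C]
    · rw [RingHom.comp_apply, MvPolynomial.eval₂Hom_X']
      change MvPolynomial.eval₂Hom φ _ (fmap (m := 1) (Kap P) i (MvPolynomial.X j)) = _
      rcases Fin.eq_self_or_eq_succAbove i j with h2 | ⟨l, h2⟩
      · rw [h2, T5a_fmapX, map_zero, h0]
      · rw [h2, T5a_fmapX', MvPolynomial.eval₂Hom_X']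
  exact congrArg (fun f : Pol 2 (Kap P) →+* ResidueField V => f g) h1

/-- A graph which has a valuation over `(P, p)` contains `(P, p)`. -/
private theorem T5a_le {P S : LocalSubring F} {V : ValuationSubring (Kap S)}
    {τ : Fin 3 → Kap S} {p : Ideal (Pol 2 (Kap P))} (h : At P S τ p V) :
    idl P (gr S τ) ≤ idl P (⟨P, p⟩ : Sub F 2) := by
  obtain ⟨hV, hc, hm, hA⟩ := h
  obtain ⟨φ, hφ⟩ := T5a_kap P S V hc
  let g0 : P.toSubring →+* V := ((residue S.toSubring).comp (Subring.inclusion hc.1)).codRestrict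
    V.toSubring (fun y => (hc.2 y y.2 (hc.1 y.2)).1)
  let t : Fin 3 → V := fun j => ⟨τ j, hm j⟩
  intro g hg
  unfold idl at hg ⊢
  rw [dif_pos (show P.toSubring ≤ (gr S τ).1.toSubring from hc.1)] at hg
  rw [dif_pos (show P.toSubring ≤ (⟨P, p⟩ : Sub F 2).1.toSubring from le_rfl), Ideal.mem_comap,
    hA φ hφ, MvPolynomial.eval₂_map]
  have h1 : MvPolynomial.eval₂ ((residue S.toSubring).comp (Subring.inclusion hc.1)) τ g = 0 := by
    have h2 : MvPolynomial.aeval τ (MvPolynomial.map ((residue S.toSubring).comp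
      (Subring.inclusion hc.1)) g) = 0 := hg
    rw [MvPolynomial.aeval_def, MvPolynomial.eval₂_map] at h2
    exact h2
  have h2 : MvPolynomial.eval₂ g0 t g = 0 := by
    apply Subtype.ext
    have h3 := MvPolynomial.eval₂_comp_left V.subtype g0 t g
    exact h3.trans h1
  have h3 := MvPolynomial.eval₂_comp_left (residue V) g0 t g
  rw [h2, map_zero] at h3
  refine Eq.trans ?_ h3.symm
  have h4 : φ.comp ((residue P.toSubring).comp (Subring.inclusion le_rfl)) =
      (residue V).comp g0 := by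
    apply RingHom.ext
    intro y
    have h5 := hφ y y.2 (hc.1 y.2)
    rw [res_of_mem (hc.2 y y.2 (hc.1 y.2)).1] at h5
    exact h5
  have h5 : (fun j => res V (τ j)) = residue V ∘ t := by
    funext j
    exact res_of_mem (hm j)
  rw [h5]
  exact congrArg (fun f => MvPolynomial.eval₂ f (residue V ∘ t) g) h4

private theorem T5a_unit {K : Type} [Field K] {V : ValuationSubring K} {τ : Fin 3 → K}
    (hV : IsDiscreteValuationRing V) (hne : ∀ i, τ i ≠ 0) (hs : ∑ i, τ i = 1)
    (ht : TropV V τ) (hm : ∀ j, τ j ∈ V) {i j : Fin 3} (hi : 0 < ord V (τ i)) (hj : j ≠ i) :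
    V.valuation (τ j) = 1 :=
  (ord_eq_zero_iff hV (hne j)).1 (trop_two hV hne hs ht hm hi hj)

/-- The valuations over the point `q` of the face `t_i = 0` of the line over `P`. PROOF. Let `T`, `deg` be given by `gr_mult` for
`p = q.comap (fmap i)` if `face i ⟨P, q⟩ ⊆ gr S τ`, and `T = ∅` otherwise (then no `V` has the centre `(P, p)`: `At` implies
`idl P (gr S τ) ≤ idl P ⟨P, p⟩`, because `g ∈ P[t]` with `aeval τ (g mod S) = 0` has `eval₂ φ (res V τ) (g mod P) = 0`).
For `V ∈ T`: `φ` natural, `ev = eval₂ φ (res V ∘ τ)`. `τ_i` has the residue `0`, the other `τ_j` are units (`trop_two`),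
`u = -τ_(i.succAbove 1) / τ_(i.succAbove 0)`; `res V u = ev (-X_(i.succAbove 1)) / ev (X_(i.succAbove 0))`, so
`nrm (res V u) = (N(-X_(i.succAbove 1)) / N(X_(i.succAbove 0))) ^ deg V`, with the norms of `Pol 2 κ(P) ⧸ p`, which is isomorphic
to `Pol 1 κ(P) ⧸ q` (`fmap` is surjective), so it is `nu q ^ deg V`. -/
theorem face_val [PerfectField k] (hne : ∀ i, x i ≠ 0) {S P : LocalSubring F}
    (hS : S ∈ Pts k x 2) (hP : P ∈ Pts k x 1) {τ : Fin 3 → Kap S} (hτ : Trop k x S τ)
    (i : Fin 3) {q : Ideal (Pol 1 (Kap P))} (hq : Hor q) :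
    ∃ (T : Finset (ValuationSubring (Kap S))) (deg : ValuationSubring (Kap S) → ℕ),
      (∀ V, V ∈ T ↔ At P S τ (q.comap (fmap (Kap P) i)) V) ∧
      (∀ V ∈ T, 0 < ord V (τ i) ∧
        nrm P S V (res V (-(τ (i.succAbove 1)) / τ (i.succAbove 0))) = nu q ^ deg V) ∧
      (mult (gr S τ) (face i (⟨P, q⟩ : Sub F 1)) i).toNat =
        ∑ V ∈ T, deg V * (ord V (τ i)).toNat := by
  classical
  have hs : Function.Surjective (fmap (m := 1) (Kap P) i) := fmap_surjective _ i
  have hpm : (q.comap (fmap (m := 1) (Kap P) i)).IsMaximal := by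
    have := hq.max
    exact Ideal.comap_isMaximal_of_surjective (fmap (m := 1) (Kap P) i : Pol 2 (Kap P) →+* Pol 1 (Kap P)) hs
  have hXi : (MvPolynomial.X i : Pol 2 (Kap P)) ∈ q.comap (fmap (m := 1) (Kap P) i) := by
    rw [Ideal.mem_comap, T5a_fmapX]
    exact zero_mem _
  by_cases hle : idl P (gr S τ) ≤ idl P (⟨P, q.comap (fmap (Kap P) i)⟩ : Sub F 2)
  · obtain ⟨T, deg, hT, hN, hM, _⟩ := gr_mult hne hP hS τ _ hpm hle
    refine ⟨T, deg, hT, fun V hVT => ?_, ?_⟩
    · obtain ⟨hV, hc, hm, hA⟩ := (hT V).1 hVT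
      obtain ⟨φ, hφ⟩ := T5a_kap P S V hc
      have hr0 : res V (τ i) = 0 := by
        have h1 := (hA φ hφ (MvPolynomial.X i)).1 hXi
        rwa [MvPolynomial.eval₂_X] at h1
      have hi : 0 < ord V (τ i) := (T5a_res0 hV (hτ.ne i) (hm i)).1 hr0
      refine ⟨hi, ?_⟩
      have htr := hτ.trop P hP V hV hc
      have hu0 := T5a_unit hV hτ.ne hτ.sum htr hm hi (Fin.succAbove_ne i 0)
      have h1 := hN V hVT φ hφ (-MvPolynomial.X (i.succAbove 1))
      have h2 := hN V hVT φ hφ (MvPolynomial.X (i.succAbove 0))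
      rw [MvPolynomial.eval₂_neg, MvPolynomial.eval₂_X, T5a_norm _ hs, map_neg, T5a_fmapX'] at h1
      rw [MvPolynomial.eval₂_X, T5a_norm _ hs, T5a_fmapX'] at h2
      have hr2 : res V (τ (i.succAbove 0)) ≠ 0 := (res_ne_zero_iff (hm _)).2 hu0
      rw [res_div (neg_mem (hm _)) hu0, res_neg (hm _)]
      unfold nu
      rw [div_pow, ← h1, ← h2, eq_div_iff (T5a_nrm_ne P S V hr2), ← T5a_nrm_mul, div_mul_cancel₀ _ hr2]
    · have h1 := hM i (hτ.ne i)
      change (mult (gr S τ) (⟨P, q.comap (fmap (Kap P) i)⟩ : Sub F 2) i).toNat = _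
      rw [h1, ENat.toNat_natCast]
  · refine ⟨∅, fun _ => 0, fun V => ?_, fun V hV => absurd hV (Finset.notMem_empty V), ?_⟩
    · constructor
      · intro hV
        exact absurd hV (Finset.notMem_empty V)
      · intro hV
        exact absurd (T5a_le hV) hle
    · rw [Finset.sum_empty, mult_eq_zero _ _ _ hle]
      rfl

/-- Every `V` with all `τ_j ∈ V` and `ord V (τ i) > 0` is over exactly one `q`. PROOF. `q` is the kernel of
`Pol 1 κ(P) → κ(V)`, `X_j ↦ res V (τ (i.succAbove j))`, over the natural `φ` (`exists_kap`). It is a prime ideal; `κ(V)` is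
algebraic over `κ(P)` (`gr_mult`/`len_sum`, or: the transcendence degree of `κ(V)` over `k` is at most one), so it is maximal
(the image is an integral domain algebraic over a field); `∑ X - 1 ∈ q` because the sum of the `τ` is `1` and `res V (τ i) = 0`;
`X_j ∉ q` by `trop_two`. Uniqueness: natural maps are unique and `fmap` is surjective. -/
theorem val_face [PerfectField k] (hne : ∀ i, x i ≠ 0) {S P : LocalSubring F}
    (hS : S ∈ Pts k x 2) (hP : P ∈ Pts k x 1) {τ : Fin 3 → Kap S} (hτ : Trop k x S τ)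
    (i : Fin 3) {V : ValuationSubring (Kap S)} (hV : IsDiscreteValuationRing V)
    (hc : Cen P S V) (hm : ∀ j, τ j ∈ V) (hi : 0 < ord V (τ i)) :
    ∃! q : Ideal (Pol 1 (Kap P)), Hor q ∧ At P S τ (q.comap (fmap (Kap P) i)) V := by
  obtain ⟨φ, hφ⟩ := T5a_kap P S V hc
  have hr0 : res V (τ i) = 0 := (T5a_res0 hV (hτ.ne i) (hm i)).2 hi
  have hs : Function.Surjective (fmap (m := 1) (Kap P) i) := fmap_surjective _ i
  have htr := hτ.trop P hP V hV hc
  have hmem : ∀ g : Pol 1 (Kap P),
      g ∈ RingHom.ker (MvPolynomial.eval₂Hom φ (fun j => res V (τ (i.succAbove j)))) ↔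
        MvPolynomial.eval₂ φ (fun j => res V (τ (i.succAbove j))) g = 0 := fun g => Iff.rfl
  refine ⟨RingHom.ker (MvPolynomial.eval₂Hom φ (fun j => res V (τ (i.succAbove j)))),
    ⟨⟨?_, ?_, ?_⟩, hV, hc, hm, ?_⟩, ?_⟩
  · have h1 : (MvPolynomial.eval₂Hom φ (fun j => res V (τ (i.succAbove j)))).IsIntegral := by
      refine RingHom.IsIntegral.tower_top (MvPolynomial.C : Kap P →+* Pol 1 (Kap P)) _ ?_
      have h2 : (MvPolynomial.eval₂Hom φ (fun j => res V (τ (i.succAbove j)))).comp
          (MvPolynomial.C : Kap P →+* Pol 1 (Kap P)) = φ := by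
        apply RingHom.ext
        intro c
        rw [RingHom.comp_apply, MvPolynomial.eval₂Hom_C]
      rw [h2]
      exact T5a_int hne hS hP hV hc hφ
    exact Ideal.isMaximal_comap_of_isIntegral_of_isMaximal' _ h1 ⊥
  · rw [hmem, Fin.sum_univ_two, MvPolynomial.eval₂_sub, MvPolynomial.eval₂_add,
      MvPolynomial.eval₂_X, MvPolynomial.eval₂_X, MvPolynomial.eval₂_one, ← res_add (hm _) (hm _)]
    have h1 : τ (i.succAbove 0) + τ (i.succAbove 1) = 1 - τ i := by
      have h2 := hτ.sum
      rw [Fin.sum_univ_succAbove _ i, Fin.sum_univ_two] at h2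
      rw [← h2]
      ring
    rw [h1, res_sub (one_mem V) (hm i), res_one, hr0, _root_.sub_zero, sub_self]
  · intro j hj
    rw [hmem, MvPolynomial.eval₂_X] at hj
    exact (res_ne_zero_iff (hm _)).2 (T5a_unit hV hτ.ne hτ.sum htr hm hi (Fin.succAbove_ne i j)) hj
  · intro φ' hφ' g
    rw [T5a_nat hc.1 hφ' hφ, Ideal.mem_comap, hmem, T5a_comp φ i hr0]
  · rintro q' ⟨_, _, _, _, hA⟩
    refine Ideal.comap_injective_of_surjective
      (fmap (m := 1) (Kap P) i : Pol 2 (Kap P) →+* Pol 1 (Kap P)) hs ?_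
    ext g
    have h1 := hA φ hφ g
    refine h1.trans ?_
    rw [← T5a_comp φ i hr0]
    rfl

end Pool.Agent.Lib.MP_b197b4_ntZ
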