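import Mathlib
import Pool.Agent.Lib.MP_b197b4_ntZ.T5a
import Pool.Agent.Lib.MP_b197b4_ntKE.Gd

/-!
# MP_b197b4_nt, project LIT, leaf T5: the boundary of the graph of a symbol is the tame boundary
-/

set_option autoImplicit false

namespace Pool.Agent.Lib.MP_b197b4_ntZ

open IsLocalRing Pool.Agent.Lib.MP_b197b4_ntK Pool.Agent.Lib.MP_b197b4_ntA

variable {k : Type} {F : Type} [Field k] [Field F] [Algebra k F] {n : ℕ} {x : Fin (n + 1) → F}

private theorem T5_single {α : Type*} (A : α → Prop) [DecidablePred A] [Decidable (∃ a, A a)] (c : ℚ)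
    (hA : ∀ a b, A a → A b → a = b) :
    ∑ᶠ a, (if A a then c else 0) = if (∃ a, A a) then c else 0 := by
  by_cases h : ∃ a, A a
  · obtain ⟨a, ha⟩ := h
    rw [if_pos ⟨a, ha⟩, finsum_eq_single _ a (fun b hb => if_neg (fun h' => hb (hA _ _ h' ha))),
      if_pos ha]
  · rw [if_neg h]
    have h1 : ∀ a, (if A a then c else 0) = (0 : ℚ) := fun a => if_neg (fun h' => h ⟨a, h'⟩)
    rw [finsum_congr h1, finsum_zero]

private theorem T5_supp {α : Type*} (A : α → Prop) [DecidablePred A] (c : ℚ)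
    (hA : ∀ a b, A a → A b → a = b) :
    (Function.support fun a => if A a then c else (0 : ℚ)).Finite := by
  apply Set.Subsingleton.finite
  intro a ha b hb
  refine hA a b ?_ ?_
  · by_contra h
    exact ha (if_neg h)
  · by_contra h
    exact hb (if_neg h)

/-- The value of a form at the tame symbol. -/
private theorem T5_tame {S P : LocalSubring F} {τ : Fin 3 → Kap S} {V : ValuationSubring (Kap S)}
    (hV : IsDiscreteValuationRing V) (hne : ∀ i, τ i ≠ 0) (hs : ∑ i, τ i = 1) (ht : TropV V τ)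
    (hm : ∀ j, τ j ∈ V) (l : Kap P → ℚ)
    (hl : ∀ a b : Kap P, a ≠ 0 → b ≠ 0 → l (a * b) = l a + l b) :
    l (nrm P S V (tame V (-(τ 1 / τ 0)) (-(τ 2 / τ 0)))) =
      ∑ i : Fin 3, (-1) ^ (i : ℕ) * (ord V (τ i) : ℚ) *
        l (nrm P S V (res V (-(τ (i.succAbove 1)) / τ (i.succAbove 0)))) := by
  have hl' : ∀ a b : ResidueField V, a ≠ 0 → b ≠ 0 →
      l (nrm P S V (a * b)) = l (nrm P S V a) + l (nrm P S V b) := by
    intro a b ha hb
    rw [nrm_mul, hl _ _ (nrm_ne P S V ha) (nrm_ne P S V hb)]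
  have h0 : ∀ i : Fin 3, 0 < ord V (τ i) →
      res V (-(τ (i.succAbove 1)) / τ (i.succAbove 0)) ≠ 0 := by
    intro i hi
    have e1 := trop_two hV hne hs ht hm hi (Fin.succAbove_ne i 1)
    have e0 := trop_two hV hne hs ht hm hi (Fin.succAbove_ne i 0)
    have h2 : ord V (-(τ (i.succAbove 1)) / τ (i.succAbove 0)) = 0 := by
      rw [Pool.Agent.Lib.MP_b197b4_ntKD.ord_div (neg_ne_zero.2 (hne _)) (hne _),
        Pool.Agent.Lib.MP_b197b4_ntKD.ord_neg (hne _), e1, e0, _root_.sub_zero]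
    have h3 : (-(τ (i.succAbove 1)) / τ (i.succAbove 0)) ≠ 0 :=
      div_ne_zero (neg_ne_zero.2 (hne _)) (hne _)
    have h4 := (Pool.Agent.Lib.MP_b197b4_ntKD.ord_eq_zero_iff h3).1 h2
    exact (Pool.Agent.Lib.MP_b197b4_ntKD.res_ne_zero_iff
      (Pool.Agent.Lib.MP_b197b4_ntKD.mem_of_val h4)).2 h4
  have hnn : ∀ i : Fin 3, 0 ≤ ord V (τ i) := fun i =>
    (Pool.Agent.Lib.MP_b197b4_ntKD.mem_iff_ord (hne i)).1 (hm i)
  have h1 : ∀ i : Fin 3, res V (-(τ (i.succAbove 1)) / τ (i.succAbove 0)) ^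
      ((-1) ^ (i : ℕ) * ord V (τ i)) ≠ 0 ∧
      l (nrm P S V (res V (-(τ (i.succAbove 1)) / τ (i.succAbove 0)) ^
        ((-1) ^ (i : ℕ) * ord V (τ i)))) = (-1) ^ (i : ℕ) * (ord V (τ i) : ℚ) *
        l (nrm P S V (res V (-(τ (i.succAbove 1)) / τ (i.succAbove 0)))) := by
    intro i
    rcases (hnn i).lt_or_eq with h | h
    · refine ⟨zpow_ne_zero _ (h0 i h), ?_⟩
      have h5 := Pool.Agent.Lib.MP_b197b4_ntKE.form_zpow (l := fun c => l (nrm P S V c)) hl'
        (h0 i h) ((-1) ^ (i : ℕ) * ord V (τ i))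
      rw [h5]
      push_cast
      ring
    · rw [← h, mul_zero, zpow_zero]
      refine ⟨one_ne_zero, ?_⟩
      rw [nrm_one, Pool.Agent.Lib.MP_b197b4_ntKE.form_one hl]
      push_cast
      ring
  rw [tame_in hV hne hs ht hm]
  have h6 := Pool.Agent.Lib.MP_b197b4_ntKE.form_prod (l := fun c => l (nrm P S V c)) hl'
    Finset.univ (fun i : Fin 3 => res V (-(τ (i.succAbove 1)) / τ (i.succAbove 0)) ^
      ((-1) ^ (i : ℕ) * ord V (τ i))) (fun i _ => (h1 i).1)
  rw [h6]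
  exact Finset.sum_congr rfl fun i _ => (h1 i).2

/-- **T5**. PROOF. If `P ≤ S` fails, all `bdy` are zero (`mult_eq_zero_of_not_le`), and there is no `V` with `Cen P S V`, so
`bd = 1` and `l 1 = 0`. Otherwise let `T₀` be the finite set of all discrete valuation rings with centre `P` (`fin_V`);
`l (bd ⟨S, f, g⟩ P) = ∑_(V ∈ T₀) l (nrm P S V (tame V f g))` (`Gd_bd`). By `tame_out` and `tame_in` this is
`∑_V ∑_i (-1)^i ord V (τ i) l (nrm (res V (u_i)))` over the `V` with all `τ_j ∈ V` (`u_i = -τ_(i.succAbove 1) / τ_(i.succAbove 0)`), and only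
the terms with `ord V (τ i) > 0` count. Group by `i` and by `q` (`val_face`): with `T_(i,q)`, `deg` of `face_val` it is
`∑_i ∑_q (-1)^i ∑_(V ∈ T_(i,q)) ord V (τ i) deg V l (nu q) = ∑_i ∑_q (-1)^i (mult ..).toNat l (nu q) = ∑_q bdy l (nu q)`.
The sums over `q` are finite: `mult_finite` (with `gr_isSub`, `gr_proper`, `isSub_one`), or because the `T_(i,q)` are
disjoint subsets of `T₀`. -/
theorem gr_sum [PerfectField k] (hne : ∀ i, x i ≠ 0) {S P : LocalSubring F}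
    (hS : S ∈ Pts k x 2) (hP : P ∈ Pts k x 1) {τ : Fin 3 → Kap S} (hτ : Trop k x S τ)
    (l : Kap P → ℚ) (hl : ∀ a b : Kap P, a ≠ 0 → b ≠ 0 → l (a * b) = l a + l b) :
    ∑ᶠ (q : Ideal (Pol 1 (Kap P))) (_ : Hor q),
        (bdy (gr S τ) (⟨P, q⟩ : Sub F 1) : ℚ) * l (nu q) =
      l (bd ⟨S, -(τ 1 / τ 0), -(τ 2 / τ 0)⟩ P) := by
  classical
  have hf0 : -(τ 1 / τ 0) ≠ 0 := neg_ne_zero.2 (div_ne_zero (hτ.ne 1) (hτ.ne 0))
  have hg0 : -(τ 2 / τ 0) ≠ 0 := neg_ne_zero.2 (div_ne_zero (hτ.ne 2) (hτ.ne 0))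
  obtain ⟨T₀, hT₀⟩ : ∃ T₀ : Finset (ValuationSubring (Kap S)), ∀ V, V ∈ T₀ ↔
      IsDiscreteValuationRing V ∧ Cen P S V :=
    ⟨(fin_V hne hP hS).toFinset, fun V => Set.Finite.mem_toFinset _⟩
  rw [Pool.Agent.Lib.MP_b197b4_ntKE.Gd_bd hf0 hg0 l hl T₀ (fun V hV => (hT₀ V).1 hV)
    (fun V h1 h2 h3 => absurd ((hT₀ V).2 ⟨h1, h2⟩) h3)]
  obtain ⟨G, hG⟩ : ∃ G : Fin 3 → ValuationSubring (Kap S) → ℚ, ∀ i V, G i V =
      (-1) ^ (i : ℕ) * (ord V (τ i) : ℚ) *
        l (nrm P S V (res V (-(τ (i.succAbove 1)) / τ (i.succAbove 0)))) :=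
    ⟨_, fun _ _ => rfl⟩
  obtain ⟨C, hC⟩ : ∃ C : Fin 3 → ValuationSubring (Kap S) → Ideal (Pol 1 (Kap P)) → Prop,
      ∀ i V q, C i V q ↔ (Hor q ∧ At P S τ (q.comap (fmap (Kap P) i)) V) :=
    ⟨_, fun _ _ _ => Iff.rfl⟩
  have hpos : ∀ i V q, C i V q → 0 < ord V (τ i) := by
    intro i V q h
    rw [hC] at h
    obtain ⟨T, deg, h1, h2, -⟩ := face_val hne hS hP hτ i h.1
    exact (h2 V ((h1 V).2 h.2)).1
  have huniq : ∀ i V q q', C i V q → C i V q' → q = q' := by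
    intro i V q q' h h'
    have h3 := hpos i V q h
    rw [hC] at h h'
    obtain ⟨q₀, -, h4⟩ := val_face hne hS hP hτ i h.2.1 h.2.2.1 h.2.2.2.1 h3
    rw [h4 q h, h4 q' h']
  have hL : ∀ q, Hor q → (bdy (gr S τ) (⟨P, q⟩ : Sub F 1) : ℚ) * l (nu q) =
      ∑ i, ∑ V ∈ T₀, if C i V q then G i V else 0 := by
    intro q hq
    unfold bdy
    rw [Int.cast_sum, Finset.sum_mul]
    refine Finset.sum_congr rfl fun i _ => ?_
    obtain ⟨T, deg, h1, h2, h3⟩ := face_val hne hS hP hτ i hq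
    have hT : T = T₀.filter (fun V => C i V q) := by
      ext V
      rw [Finset.mem_filter, h1, hT₀, hC]
      constructor
      · intro h
        exact ⟨⟨h.1, h.2.1⟩, hq, h⟩
      · intro h
        exact h.2.2
    rw [← Finset.sum_filter, ← hT, Int.cast_mul, h3, Int.cast_natCast, Nat.cast_sum, Finset.mul_sum,
      Finset.sum_mul]
    refine Finset.sum_congr rfl fun V hV => ?_
    obtain ⟨h4, h5⟩ := h2 V hV
    rw [hG, h5, Pool.Agent.Lib.MP_b197b4_ntKE.form_pow hl (nu_ne hq)]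
    have h6 : (((ord V (τ i)).toNat : ℕ) : ℚ) = (ord V (τ i) : ℚ) := by
      have h7 : (((ord V (τ i)).toNat : ℕ) : ℤ) = ord V (τ i) := Int.toNat_of_nonneg h4.le
      have h8 := congrArg (Int.cast : ℤ → ℚ) h7
      rwa [Int.cast_natCast] at h8
    rw [Nat.cast_mul, h6]
    push_cast
    ring
  have hR : ∀ V ∈ T₀, l (nrm P S V (tame V (-(τ 1 / τ 0)) (-(τ 2 / τ 0)))) =
      ∑ i, if (∃ q, C i V q) then G i V else 0 := by
    intro V hV
    obtain ⟨hd, hc⟩ := (hT₀ V).1 hV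
    have ht := hτ.trop P hP V hd hc
    by_cases hm : ∀ j, τ j ∈ V
    · rw [T5_tame hd hτ.ne hτ.sum ht hm l hl]
      refine Finset.sum_congr rfl fun i _ => ?_
      rw [← hG]
      by_cases h : ∃ q, C i V q
      · rw [if_pos h]
      · rw [if_neg h]
        have h0 : ¬ 0 < ord V (τ i) := by
          intro h1
          obtain ⟨q, h2, -⟩ := val_face hne hS hP hτ i hd hc hm h1
          exact h ⟨q, (hC i V q).2 h2⟩
        have h1 : 0 ≤ ord V (τ i) := (Pool.Agent.Lib.MP_b197b4_ntKD.mem_iff_ord (hτ.ne i)).1 (hm i)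
        have h2 : ord V (τ i) = 0 := le_antisymm (not_lt.1 h0) h1
        rw [hG, h2, Int.cast_zero, mul_zero, zero_mul]
    · push Not at hm
      obtain ⟨j, hj⟩ := hm
      rw [tame_out hd hτ.ne hτ.sum ht hj, nrm_one, Pool.Agent.Lib.MP_b197b4_ntKE.form_one hl]
      symm
      apply Finset.sum_eq_zero
      intro i _
      rw [if_neg]
      rintro ⟨q, hq⟩
      rw [hC] at hq
      exact hj (hq.2.2.2.1 j)
  have h1 : ∀ q : Ideal (Pol 1 (Kap P)), (∑ᶠ (_ : Hor q),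
      (bdy (gr S τ) (⟨P, q⟩ : Sub F 1) : ℚ) * l (nu q)) =
      ∑ i, ∑ V ∈ T₀, if C i V q then G i V else 0 := by
    intro q
    rw [finsum_eq_if]
    by_cases hq : Hor q
    · rw [if_pos hq, hL q hq]
    · rw [if_neg hq]
      symm
      refine Finset.sum_eq_zero fun i _ => Finset.sum_eq_zero fun V _ => if_neg ?_
      rw [hC]
      exact fun h => hq h.1
  rw [finsum_congr h1, Finset.sum_congr rfl hR, Finset.sum_comm,
    finsum_sum_comm Finset.univ (fun q i => ∑ V ∈ T₀, if C i V q then G i V else 0)]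
  · refine Finset.sum_congr rfl fun i _ => ?_
    rw [finsum_sum_comm T₀ (fun q V => if C i V q then G i V else 0)]
    · exact Finset.sum_congr rfl fun V _ => T5_single (fun q => C i V q) (G i V) (huniq i V)
    · exact fun V _ => T5_supp (fun q => C i V q) (G i V) (huniq i V)
  · intro i _
    refine ((T₀.finite_toSet.biUnion fun V _ => T5_supp (fun q => C i V q) (G i V)
      (huniq i V))).subset ?_
    intro q hq
    obtain ⟨V, hV, hV0⟩ := Finset.exists_ne_zero_of_sum_ne_zero hq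
    exact Set.mem_biUnion (x := V) hV hV0

end Pool.Agent.Lib.MP_b197b4_ntZ
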