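import Mathlib
import Pool.Agent.Lib.MP_b197b4_ntZ.T5
import Pool.Agent.Lib.MP_b197b4_ntZ.P6
import Pool.Agent.Lib.MP_b197b4_ntZ.Cy
import Pool.Agent.Lib.MP_b197b4_ntZ.K2G
import Pool.Agent.Lib.MP_b197b4_ntZ.St
import Pool.Agent.Lib.MP_b197b4_ntA.FinB

/-!
# MP_b197b4_nt, project LIT: the theorem
-/

set_option autoImplicit false

namespace Pool.Agent.Lib.MP_b197b4_ntZ

open IsLocalRing Pool.Agent.Lib.MP_b197b4_ntK Pool.Agent.Lib.MP_b197b4_ntA

section Gen

/-- A sum over a sigma type with finite support, fibre by fibre. -/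
theorem fin_sigma {α : Type} {β : α → Type} (G : (Σ a, β a) → ℚ)
    (A : Finset (Σ a, β a)) (hA : ∀ V, G V ≠ 0 → V ∈ A) :
    ∑ᶠ V, G V = ∑ᶠ a : α, ∑ᶠ b : β a, G ⟨a, b⟩ := by
  classical
  have h1 : ∀ a : α, ∑ᶠ b : β a, G ⟨a, b⟩ = ∑ V ∈ A with V.1 = a, G V := by
    intro a
    have hinj : Function.Injective (fun b : β a => (⟨a, b⟩ : Σ a, β a)) := sigma_mk_injective
    rw [finsum_eq_sum_of_support_subset (s := A.preimage (fun b : β a => (⟨a, b⟩ : Σ a, β a))
      hinj.injOn)]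
    · refine Finset.sum_bij (fun b _ => (⟨a, b⟩ : Σ a, β a)) ?_ ?_ ?_ ?_
      · intro b hb
        rw [Finset.mem_filter]
        exact ⟨Finset.mem_preimage.1 hb, rfl⟩
      · intro b _ b' _ h
        exact hinj h
      · rintro ⟨a', b⟩ hV
        rw [Finset.mem_filter] at hV
        obtain ⟨hV, rfl⟩ := hV
        exact ⟨b, Finset.mem_preimage.2 hV, rfl⟩
      · intro b _
        rfl
    · intro b hb
      rw [Finset.mem_coe, Finset.mem_preimage]
      exact hA _ hb
  rw [finsum_congr h1, finsum_eq_sum_of_support_subset G (s := A) (fun V hV => hA V hV)]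
  rw [finsum_eq_sum_of_support_subset (s := A.image Sigma.fst)]
  · exact (Finset.sum_fiberwise_of_maps_to (fun V hV => Finset.mem_image_of_mem _ hV) G).symm
  · intro a ha
    rw [Function.mem_support] at ha
    obtain ⟨V, hV, -⟩ := Finset.exists_ne_zero_of_sum_ne_zero ha
    rw [Finset.mem_filter] at hV
    rw [Finset.mem_coe, Finset.mem_image]
    exact ⟨V, hV.1, hV.2⟩

end Gen

variable {k : Type} {F : Type} [Field k] [Field F] [Algebra k F] {n : ℕ} {x : Fin (n + 1) → F}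

/-- The sum of the forms over the boundary of a tropical symbol is zero. -/
theorem fin_trop [PerfectField k] (hne : ∀ i, x i ≠ 0) {ψ : Sub F 1 → ℚ} (hψ : Kill k x ψ)
    {l : ∀ P : LocalSubring F, Kap P → ℚ}
    (hl : ∀ P ∈ Pts k x 1, ∀ c d : Kap P, c ≠ 0 → d ≠ 0 → l P (c * d) = l P c + l P d)
    (hψl : ∀ P ∈ Pts k x 1, ∀ q : Ideal (Pol 1 (Kap P)), Hor q →
      ψ (⟨P, q⟩ : Sub F 1) = l P (nu q))
    {S : LocalSubring F} (hS : S ∈ Pts k x 2) {τ : Fin 3 → Kap S} (hτ : Trop k x S τ) :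
    ∑ᶠ (P : LocalSubring F) (_ : P ∈ Pts k x 1), l P (bd ⟨S, -(τ 1 / τ 0), -(τ 2 / τ 0)⟩ P) = 0 := by
  classical
  have hW := gr_isSub hS hτ.sum
  have hp := gr_proper hne hS hτ
  have hfin := bdy_finite hne hW hp
  have hvt : ∀ O ∈ Pts k x 0, ψ (vt 1 O) = 0 := fun O hO => kill_vt hne hψ hO
  let G : Sub F 1 → ℚ := fun V => ∑ᶠ (_ : IsSub k x 1 V), (bdy (gr S τ) V : ℚ) * ψ V
  have hG0 : ∑ᶠ V, G V = 0 := hψ (gr S τ) hW hp
  have hGm : ∀ V, G V ≠ 0 → V ∈ hfin.toFinset := by
    intro V hV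
    by_cases h : IsSub k x 1 V
    · have h1 : G V = (bdy (gr S τ) V : ℚ) * ψ V := by
        change ∑ᶠ (_ : IsSub k x 1 V), (bdy (gr S τ) V : ℚ) * ψ V = _
        rw [finsum_eq_if, if_pos h]
      rw [h1] at hV
      rw [Set.Finite.mem_toFinset]
      exact ⟨h, fun h0 => hV (by rw [h0]; simp)⟩
    · exfalso
      apply hV
      change ∑ᶠ (_ : IsSub k x 1 V), (bdy (gr S τ) V : ℚ) * ψ V = _
      rw [finsum_eq_if, if_neg h]
  rw [fin_sigma G hfin.toFinset hGm] at hG0
  rw [← hG0]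
  refine finsum_congr fun P => ?_
  by_cases hP : P ∈ Pts k x 1
  · rw [finsum_eq_if, if_pos hP, ← gr_sum hne hS hP hτ (l P) (hl P hP)]
    refine finsum_congr fun q => ?_
    change _ = ∑ᶠ (_ : IsSub k x 1 (⟨P, q⟩ : Sub F 1)), _
    rw [finsum_eq_if, finsum_eq_if]
    by_cases hq : Hor q
    · rw [if_pos hq, if_pos (isSub_one hP hq.max hq.sum), hψl P hP q hq]
    · rw [if_neg hq]
      by_cases hs : IsSub k x 1 (⟨P, q⟩ : Sub F 1)
      · rw [if_pos hs]
        by_cases hb : bdy (gr S τ) (⟨P, q⟩ : Sub F 1) = 0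
        · rw [hb]
          simp
        · exfalso
          have hpr := bdy_proper hp hs hb
          rcases cyc_cases hs hpr with ⟨-, h⟩ | ⟨h, -⟩
          · exact hq h
          · have := (pts_dim hne hP h le_rfl).1
            omega
      · rw [if_neg hs]
  · rw [finsum_eq_if, if_neg hP]
    symm
    apply finsum_eq_zero_of_forall_eq_zero
    intro q
    change ∑ᶠ (_ : IsSub k x 1 (⟨P, q⟩ : Sub F 1)), _ = _
    rw [finsum_eq_if]
    by_cases hs : IsSub k x 1 (⟨P, q⟩ : Sub F 1)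
    · rw [if_pos hs]
      by_cases hb : bdy (gr S τ) (⟨P, q⟩ : Sub F 1) = 0
      · rw [hb]
        simp
      · have hpr := bdy_proper hp hs hb
        rcases cyc_cases hs hpr with ⟨h, -⟩ | ⟨h, h'⟩
        · exact absurd h hP
        · rw [h', hvt _ h, mul_zero]
    · rw [if_neg hs]

theorem inf_kap (hne : ∀ i, x i ≠ 0) {e : ℕ} (he : e ≠ 0) {S : LocalSubring F}
    (hS : S ∈ Pts k x e) : Infinite (Kap S) := by
  obtain ⟨i, hi⟩ := exists_chart hS
  have hc := XP_const (S := S) hi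
  obtain ⟨s, hs, hd⟩ := XP_exists hne hS hi hc
  have h1 := XP_chart_dim hne hS hi
  rw [hd] at h1
  have hse : s = e := by exact_mod_cast h1
  by_contra hfin
  rw [not_infinite_iff_finite] at hfin
  let _ := XP_alg hc
  have : Algebra.trdeg k (Kap S) = 0 := by
    have h2 : Algebra.IsAlgebraic k (Kap S) := by
      refine ⟨fun y => ?_⟩
      by_cases hy : y = 0
      · rw [hy]
        exact isAlgebraic_zero
      · obtain ⟨m, hm, hym⟩ := isOfFinOrder_iff_pow_eq_one.1 (isOfFinOrder_of_finite (Units.mk0 y hy))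
        refine ⟨Polynomial.X ^ m - 1, ?_, ?_⟩
        · exact (Polynomial.monic_X_pow_sub_C (1 : k) hm.ne').ne_zero
        · rw [map_sub, map_pow, Polynomial.aeval_X, map_one, sub_eq_zero]
          have := congrArg Units.val hym
          rwa [Units.val_pow_eq_pow_val, Units.val_mk0, Units.val_one] at this
    exact trdeg_eq_zero
  rw [this] at hs
  have : s = 0 := by exact_mod_cast hs.symm
  omega

/-- The value of the forms at a symbol. -/
noncomputable def cc (k : Type) {F : Type} [Field k] [Field F] [Algebra k F] {n : ℕ}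
    (x : Fin (n + 1) → F) (l : ∀ P : LocalSubring F, Kap P → ℚ) (S : LocalSubring F)
    (f g : Kap S) : ℚ :=
  ∑ᶠ (P : LocalSubring F) (_ : P ∈ Pts k x 1), l P (bd ⟨S, f, g⟩ P)

section cc

variable {l : ∀ P : LocalSubring F, Kap P → ℚ} {S : LocalSubring F}

theorem cc_bd [PerfectField k] (hne : ∀ i, x i ≠ 0)
    (hl : ∀ P ∈ Pts k x 1, ∀ c d : Kap P, c ≠ 0 → d ≠ 0 → l P (c * d) = l P c + l P d)
    (hS : S ∈ Pts k x 2) {P : LocalSubring F} (hP : P ∈ Pts k x 1) {f g : Kap S} (hf : f ≠ 0)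
    (hg : g ≠ 0) : l P (bd ⟨S, f, g⟩ P) =
      ∑ V ∈ (fin_V hne hP hS).toFinset, l P (nrm P S V (tame V f g)) := by
  refine MP_b197b4_ntKE.Gd_bd hf hg (l P) (hl P hP) (fin_V hne hP hS).toFinset (fun V hV => ?_)
    fun V h1 h2 h3 => ?_
  · exact (Set.Finite.mem_toFinset (fin_V hne hP hS)).1 hV
  · exact absurd ((Set.Finite.mem_toFinset (fin_V hne hP hS)).2 ⟨h1, h2⟩) h3

theorem cc_supp (hne : ∀ i, x i ≠ 0)
    (hl : ∀ P ∈ Pts k x 1, ∀ c d : Kap P, c ≠ 0 → d ≠ 0 → l P (c * d) = l P c + l P d)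
    (hS : S ∈ Pts k x 2) {f g : Kap S} (hf : f ≠ 0) (hg : g ≠ 0) :
    (Set.inter (Pts k x 1) (Function.support fun P => l P (bd ⟨S, f, g⟩ P))).Finite := by
  refine (XD_bd_finite hne ⟨S, f, g⟩ hS hf hg).subset ?_
  rintro P ⟨hP, h⟩
  refine ⟨hP, fun h1 => h ?_⟩
  change l P (bd ⟨S, f, g⟩ P) = 0
  rw [h1]
  have := hl P hP 1 1 one_ne_zero one_ne_zero
  rw [mul_one] at this
  linarith

theorem cc_mul_left [PerfectField k] (hne : ∀ i, x i ≠ 0)
    (hl : ∀ P ∈ Pts k x 1, ∀ c d : Kap P, c ≠ 0 → d ≠ 0 → l P (c * d) = l P c + l P d)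
    (hS : S ∈ Pts k x 2) {f f' g : Kap S} (hf : f ≠ 0) (hf' : f' ≠ 0) (hg : g ≠ 0) :
    cc k x l S (f * f') g = cc k x l S f g + cc k x l S f' g := by
  unfold cc
  rw [← finsum_mem_add_distrib' (cc_supp hne hl hS hf hg) (cc_supp hne hl hS hf' hg)]
  refine finsum_mem_congr rfl fun P hP => ?_
  rw [cc_bd hne hl hS hP (mul_ne_zero hf hf') hg, cc_bd hne hl hS hP hf hg,
    cc_bd hne hl hS hP hf' hg, ← Finset.sum_add_distrib]
  refine Finset.sum_congr rfl fun V hV => ?_
  have hV' := (Set.Finite.mem_toFinset _).1 hV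
  rw [tame_mul_fst hV'.1 hf hf' hg, XD_nrm_mul, hl P hP _ _ (XD_nrm_ne_zero _ _ _ (tame_ne_zero hV'.1 hf hg))
    (XD_nrm_ne_zero _ _ _ (tame_ne_zero hV'.1 hf' hg))]

theorem cc_swap (hl : ∀ P ∈ Pts k x 1, ∀ c d : Kap P, c ≠ 0 → d ≠ 0 →
      l P (c * d) = l P c + l P d) {f g : Kap S} (hf : f ≠ 0) (hg : g ≠ 0) :
    cc k x l S g f = -cc k x l S f g := by
  unfold cc
  rw [← finsum_neg_distrib]
  refine finsum_congr fun P => ?_
  rw [← finsum_neg_distrib]
  refine finsum_congr fun hP => ?_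
  have h1 := XD_bd_swap ⟨S, f, g⟩ hf hg P
  change bd ⟨S, g, f⟩ P = (bd ⟨S, f, g⟩ P)⁻¹ at h1
  have h2 := XD_bd_ne_zero ⟨S, f, g⟩ hf hg P
  have h3 := hl P hP (bd ⟨S, f, g⟩ P) (bd ⟨S, f, g⟩ P)⁻¹ h2 (inv_ne_zero h2)
  rw [mul_inv_cancel₀ h2] at h3
  have h4 := hl P hP 1 1 one_ne_zero one_ne_zero
  rw [mul_one] at h4
  rw [h1]
  linarith

theorem cc_st [PerfectField k] (hne : ∀ i, x i ≠ 0)
    (hl : ∀ P ∈ Pts k x 1, ∀ c d : Kap P, c ≠ 0 → d ≠ 0 → l P (c * d) = l P c + l P d)
    (hS : S ∈ Pts k x 2) {f : Kap S} (hf : f ≠ 0) (hf1 : f ≠ 1) :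
    cc k x l S f (1 - f) = 0 := by
  unfold cc
  refine finsum_mem_eq_zero_of_forall_eq_zero fun P hP => ?_
  rw [cc_bd hne hl hS hP hf (sub_ne_zero.2 hf1.symm)]
  refine Finset.sum_eq_zero fun V hV => ?_
  have hV' := (Set.Finite.mem_toFinset _).1 hV
  rw [tame_st hV'.1 hf hf1, XD_nrm_one]
  have h4 := hl P hP 1 1 one_ne_zero one_ne_zero
  rw [mul_one] at h4
  linarith

/-- The forms kill the boundaries of all symbols. -/
theorem cc_zero [PerfectField k] (hne : ∀ i, x i ≠ 0) {ψ : Sub F 1 → ℚ} (hψ : Kill k x ψ)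
    (hl : ∀ P ∈ Pts k x 1, ∀ c d : Kap P, c ≠ 0 → d ≠ 0 → l P (c * d) = l P c + l P d)
    (hψl : ∀ P ∈ Pts k x 1, ∀ q : Ideal (Pol 1 (Kap P)), Hor q →
      ψ (⟨P, q⟩ : Sub F 1) = l P (nu q))
    (hS : S ∈ Pts k x 2) {f g : Kap S} (hf : f ≠ 0) (hg : g ≠ 0) : cc k x l S f g = 0 := by
  have _ : Infinite (Kap S) := inf_kap hne two_ne_zero hS
  let D : Set (ValuationSubring (Kap S)) :=
    {V | IsDiscreteValuationRing V ∧ ∃ P ∈ Pts k x 1, Cen P S V}
  refine k2g D (fun V hV => hV.1) ?_ ?_ (cc k x l S) ?_ ?_ ?_ ?_ f g hf hg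
  · rintro V ⟨-, P, hP, hV⟩
    exact inf_V hne hP V hV
  · intro y hy
    have h1 := XP_finite hne hS hy
    have h2 : {V | V ∈ D ∧ ord V y ≠ 0} ⊆ ⋃ P ∈ {P | P ∈ Pts k x 1 ∧
        ∃ V : ValuationSubring (Kap S), IsDiscreteValuationRing V ∧ Cen P S V ∧ ord V y ≠ 0},
        {V : ValuationSubring (Kap S) | IsDiscreteValuationRing V ∧ Cen P S V} := by
      rintro V ⟨⟨h3, P, hP, h4⟩, h5⟩
      simp only [Set.mem_iUnion]
      exact ⟨P, ⟨hP, V, h3, h4, h5⟩, h3, h4⟩
    refine Set.Finite.subset (h1.biUnion fun P hP => fin_V hne hP.1 hS) h2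
  · intro a b c ha hb hc
    exact cc_mul_left hne hl hS ha hb hc
  · intro a b c ha hb hc
    rw [cc_swap hl (mul_ne_zero ha hb) hc, cc_mul_left hne hl hS ha hb hc, cc_swap hl hc ha,
      cc_swap hl hc hb]
    ring
  · intro a ha ha1
    exact cc_st hne hl hS ha ha1
  · intro t ht hs hT
    refine fin_trop hne hψ hl hψl hS ⟨ht, hs, fun P hP V hV hc => ?_⟩
    exact hT V ⟨hV, P, hP, hc⟩

theorem cc_list [PerfectField k] (hne : ∀ i, x i ≠ 0) {ψ : Sub F 1 → ℚ} (hψ : Kill k x ψ)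
    (hl : ∀ P ∈ Pts k x 1, ∀ c d : Kap P, c ≠ 0 → d ≠ 0 → l P (c * d) = l P c + l P d)
    (hψl : ∀ P ∈ Pts k x 1, ∀ q : Ideal (Pol 1 (Kap P)), Hor q →
      ψ (⟨P, q⟩ : Sub F 1) = l P (nu q)) (s : List (Σ S : LocalSubring F, Kap S × Kap S)) :
    (∀ q ∈ s, q.1 ∈ Pts k x 2 ∧ q.2.1 ≠ 0 ∧ q.2.2 ≠ 0) →
    (Set.inter (Pts k x 1)
        (Function.support fun P => l P ((s.map fun q => bd q P).prod))).Finite ∧
      ∑ᶠ (P : LocalSubring F) (_ : P ∈ Pts k x 1), l P ((s.map fun q => bd q P).prod) = 0 := by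
  have h1 : ∀ P ∈ Pts k x 1, l P 1 = 0 := by
    intro P hP
    have h4 := hl P hP 1 1 one_ne_zero one_ne_zero
    rw [mul_one] at h4
    linarith
  induction s with
  | nil =>
    intro _
    constructor
    · refine Set.Finite.subset (Set.finite_empty) ?_
      rintro P ⟨hP, h⟩
      exact h (h1 P hP)
    · refine finsum_mem_eq_zero_of_forall_eq_zero fun P hP => ?_
      rw [List.map_nil, List.prod_nil]
      exact h1 P hP
  | cons q s ih =>
    intro hs
    obtain ⟨ih1, ih2⟩ := ih fun q' hq' => hs q' (List.mem_cons_of_mem _ hq')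
    obtain ⟨hS, hf, hg⟩ := hs q List.mem_cons_self
    have hz : ∀ P : LocalSubring F, (s.map fun q => bd q P).prod ≠ 0 := by
      intro P
      refine List.prod_ne_zero fun h => ?_
      rw [List.mem_map] at h
      obtain ⟨q', hq', h⟩ := h
      obtain ⟨-, hf', hg'⟩ := hs q' (List.mem_cons_of_mem _ hq')
      exact XD_bd_ne_zero q' hf' hg' P h
    have hadd : ∀ P ∈ Pts k x 1, l P (((q :: s).map fun q => bd q P).prod) =
        l P (bd q P) + l P ((s.map fun q => bd q P).prod) := by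
      intro P hP
      rw [List.map_cons, List.prod_cons, hl P hP _ _ (XD_bd_ne_zero q hf hg P) (hz P)]
    have hq := cc_supp hne hl hS hf hg
    constructor
    · refine (hq.union ih1).subset ?_
      rintro P ⟨hP, h⟩
      rw [Function.mem_support, hadd P hP] at h
      by_cases h3 : l P (bd q P) = 0
      · right
        refine ⟨hP, fun h5 => h ?_⟩
        rw [h3, zero_add]
        exact h5
      · left
        exact ⟨hP, h3⟩
    · rw [finsum_mem_congr rfl hadd, finsum_mem_add_distrib' hq ih1, ih2, add_zero]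
      exact cc_zero hne hψ hl hψl hS hf hg

end cc

/-- **LIT**: the theorem, from `K1All`. -/
theorem goal_of (k : Type) [Field k] [PerfectField k] (hk : K1All k) : Goal k := by
  classical
  intro F _ _ n x d hd hV z hz h0
  have hne := hV.ne
  obtain ⟨a, ha, hsum⟩ := cyc_fun hne hz h0
  obtain ⟨N, hN, s, hs, has⟩ := hk F n x d hd hV a ha
  let I := {V : Sub F 1 // IsSub k x 1 V}
  let T : AddSubgroup (I →₀ ℤ) :=
    { carrier := {y | ∃ Y : Sub F 2 →₀ ℤ, IsCyc k x Y ∧ ∀ V : I, bdry Y V.1 = y V}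
      zero_mem' := ⟨0, fun W hW => by simp at hW, fun V => by simp [bdry]⟩
      add_mem' := by
        rintro y y' ⟨Y, hY, h⟩ ⟨Y', hY', h'⟩
        refine ⟨Y + Y', fun W hW => ?_, fun V => ?_⟩
        · rcases Finset.mem_union.1 (Finsupp.support_add hW) with h | h
          · exact hY W h
          · exact hY' W h
        · rw [Finsupp.add_apply, ← h, ← h']
          unfold bdry
          rw [Finsupp.sum_add_index']
          · intro W
            rw [zero_mul]
          · intro W c c'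
            rw [add_mul]
      neg_mem' := by
        rintro y ⟨Y, hY, h⟩
        refine ⟨-Y, fun W hW => ?_, fun V => ?_⟩
        · rw [Finsupp.support_neg] at hW
          exact hY W hW
        · rw [Finsupp.neg_apply, ← h]
          unfold bdry
          rw [Finsupp.sum_neg_index]
          · unfold Finsupp.sum
            rw [← Finset.sum_neg_distrib]
            exact Finset.sum_congr rfl fun W _ => neg_mul (Y W) (bdy W V.1)
          · intro W
            rw [zero_mul] }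
  let z1 : I →₀ ℤ := z.subtypeDomain (fun V => IsSub k x 1 V)
  obtain ⟨M, hM, hmem⟩ := exists_nsmul_mem T z1 (by
    intro φ hφ
    have hφs : ∀ f : I →₀ ℤ, φ f = f.sum fun V c => (c : ℚ) * φ (Finsupp.single V 1) := by
      intro f
      conv_lhs => rw [← Finsupp.sum_single f]
      rw [map_finsuppSum]
      refine Finsupp.sum_congr fun V _ => ?_
      have h2 : Finsupp.single V (f V) = (f V) • Finsupp.single V (1 : ℤ) := by
        rw [Finsupp.smul_single, smul_eq_mul, mul_one]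
      rw [h2, map_zsmul, zsmul_eq_mul]
    let ψ : Sub F 1 → ℚ := fun V => if h : IsSub k x 1 V then φ (Finsupp.single ⟨V, h⟩ 1) else 0
    have hψI : ∀ V : I, ψ V.1 = φ (Finsupp.single V 1) := fun V => dif_pos V.2
    have hψ : Kill k x ψ := by
      intro W hW hp
      have hfin := bdy_finite hne hW hp
      have hfI : (Function.support fun V : I => bdy W V.1).Finite := by
        refine Set.Finite.of_finite_image (f := Subtype.val) (hfin.subset ?_)
          Subtype.val_injective.injOn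
        rintro _ ⟨V, hV, rfl⟩
        exact ⟨V.2, hV⟩
      let t : I →₀ ℤ := Finsupp.ofSupportFinite (fun V : I => bdy W V.1) hfI
      have ht : t ∈ T := by
        refine ⟨Finsupp.single W 1, fun W' hW' => ?_, fun V => ?_⟩
        · have := Finsupp.support_single_subset hW'
          rw [Finset.mem_singleton] at this
          rw [this]
          exact ⟨hW, hp⟩
        · unfold bdry
          rw [Finsupp.sum_single_index (by rw [zero_mul]), one_mul]
          rfl
      have h3 := hφ t ht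
      rw [hφs, Finsupp.sum] at h3
      rw [← h3]
      have h4 : ∀ V : Sub F 1, (∑ᶠ (_ : IsSub k x 1 V), (bdy W V : ℚ) * ψ V) ≠ 0 →
          V ∈ t.support.map (Function.Embedding.subtype _) := by
        intro V hV
        by_cases hVI : IsSub k x 1 V
        · rw [finsum_eq_if, if_pos hVI] at hV
          rw [Finset.mem_map]
          refine ⟨⟨V, hVI⟩, ?_, rfl⟩
          rw [Finsupp.mem_support_iff]
          intro h5
          apply hV
          have h6 : bdy W V = 0 := h5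
          rw [h6]
          simp
        · rw [finsum_eq_if, if_neg hVI] at hV
          exact absurd rfl hV
      rw [finsum_eq_sum_of_support_subset _ (s := t.support.map (Function.Embedding.subtype _))
        fun V hV => h4 V hV, Finset.sum_map]
      refine Finset.sum_congr rfl fun V _ => ?_
      change ∑ᶠ (_ : IsSub k x 1 V.1), (bdy W V.1 : ℚ) * ψ V.1 = _
      rw [finsum_eq_if, if_pos V.2, hψI]
      rfl
    have hvt : ∀ O ∈ Pts k x 0, ψ (vt 1 O) = 0 := fun O hO => kill_vt hne hψ hO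
    choose! l hl using fun (P : LocalSubring F) (hP : P ∈ Pts k x 1) => kill_curve hne hψ hP
    have h5 := hsum ψ hvt l (fun P hP => (hl P hP).1) (fun P hP => (hl P hP).2)
    have h6 := (cc_list hne hψ (fun P hP => (hl P hP).1) (fun P hP => (hl P hP).2) s hs).2
    have h7 : ∑ᶠ (P : LocalSubring F) (_ : P ∈ Pts k x 1), (N : ℚ) * l P (a P) = 0 := by
      rw [← h6]
      refine finsum_mem_congr rfl fun P hP => ?_
      rw [← has P hP]
      have h8 : ∀ m : ℕ, l P (a P ^ m) = m * l P (a P) := by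
        intro m
        induction m with
        | zero =>
          have h4 := (hl P hP).1 1 1 one_ne_zero one_ne_zero
          rw [mul_one] at h4
          rw [pow_zero, Nat.cast_zero, zero_mul]
          linarith
        | succ m ih =>
          rw [pow_succ, (hl P hP).1 _ _ (pow_ne_zero _ (ha.ne P hP)) (ha.ne P hP), ih,
            Nat.cast_succ]
          ring
      exact (h8 N).symm
    rw [← mul_finsum_mem (fun P => l P (a P)) (N : ℚ)] at h7
    have h10 := (mul_eq_zero.1 h7).resolve_left (by exact_mod_cast hN.ne')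
    rw [hφs, ← h10, ← h5]
    have h11 := Finsupp.sum_subtypeDomain_index (p := fun V => IsSub k x 1 V) (v := z)
      (h := fun V c => (c : ℚ) * ψ V) fun V hV => (hz V hV).1
    rw [← h11]
    exact Finsupp.sum_congr fun V _ => by rw [hψI])
  obtain ⟨Y, hY, h⟩ := hmem
  refine ⟨M, hM, Y, hY, fun V hV => ?_⟩
  rw [h ⟨V, hV⟩, Finsupp.smul_apply, nsmul_eq_mul]
  rfl

/-- **LIT**: the theorem. -/
theorem goal (p : ℕ) [Fact p.Prime] (k : Type) [Field k] [CharP k p]
    (hk : ∀ c : k, ∃ m : ℕ, 0 < m ∧ c ^ p ^ m = c) : Goal k := by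
  have _ := perfect_of_pow p k hk
  exact goal_of k (k1All_main p k hk)

end Pool.Agent.Lib.MP_b197b4_ntZ
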